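import Mathlib
import Pool.Agent.GsF.SDefs

/-!
The definitions used in the statement of the theorem, in addition to those of GsF.SDefs: the rotation
of a compact group, the unipotent affine map of V^d and its first coordinate along an orbit, conditional
expectations on a factor, the limit measure.
-/

namespace Pool.Agent.GsF

open MeasureTheory

/-- the characters of V separate its points (true for every compact Hausdorff abelian group) -/
def CharSep (V : Type*) [AddCommGroup V] [TopologicalSpace V] : Prop :=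
  ∀ v : V, v ≠ 0 → ∃ χ : V →ₜ+ UnitAddCircle, χ v ≠ 0

/-- the rotation by alpha is totally ergodic: all v ↦ v + n alpha, n ≥ 1, are ergodic -/
def TotErg {V : Type*} [AddCommGroup V] [MeasurableSpace V] (m : Measure V) (α : V) : Prop :=
  ∀ n : ℕ, 1 ≤ n → Ergodic (fun v : V => v + n • α) m

/-- the rotation v ↦ v + alpha -/
def rotV {V : Type*} [AddCommGroup V] [TopologicalSpace V] [IsTopologicalAddGroup V]
    [MeasurableSpace V] [BorelSpace V] (α : V) : V ≃ᵐ V :=
  MeasurableEquiv.addRight α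

/-- the unipotent affine map of V^d: (T xi)_i = xi_i + xi_(i+1), where xi_d means beta -/
def una {V : Type*} [AddCommGroup V] {d : ℕ} (β : V) (ξ : Fin d → V) : Fin d → V :=
  fun i => ξ i + if h : (i : ℕ) + 1 < d then ξ ⟨(i : ℕ) + 1, h⟩ else β

/-- the first coordinate of T^j xi (T = una beta), for every integer j: the sum of the
binom(j, i) xi_i, i < d, and of binom(j, d) beta -/
noncomputable def xo {V : Type*} [AddCommGroup V] {d : ℕ} (β : V) (ξ : Fin d → V) (j : ℤ) : V :=
  ∑ i : Fin d, Ring.choose j (i : ℕ) • ξ i + Ring.choose j d • β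

/-- h o rho is the conditional expectation of f given the factor rho -/
def CE {Y Z : Type*} [MeasurableSpace Y] [MeasurableSpace Z] (ν : Measure Y) (ζ : Measure Z)
    (ρ : Y → Z) (f : Y → ℂ) (h : Z → ℂ) : Prop :=
  ∀ t : Z → ℂ, Measurable t → (∃ B : ℝ, ∀ z, ‖t z‖ ≤ B) →
    ∫ y, f y * t (ρ y) ∂ν = ∫ z, h z * t z ∂ζ

/-- the left shift of D^Z -/
def shD {D : Type*} (z : ℤ → D) : ℤ → D := fun j => z (j + 1)

/-- the sequence z_j = Phi (x_j(xi), u_j) -/
noncomputable def thU {V U D : Type*} [AddCommGroup V] {d : ℕ} (β : V) (Φ : V → U → D)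
    (q : (Fin d → V) × (ℤ → U)) : ℤ → D :=
  fun j => Φ (xo β q.1 j) (q.2 j)

/-- the law of thU, xi of law m^d on V^d, the u_j independent of law P -/
noncomputable def muU {V U D : Type*} [AddCommGroup V] [MeasurableSpace V] [MeasurableSpace U]
    [MeasurableSpace D] (m : Measure V) (d : ℕ) (β : V) (P : Measure U) (Φ : V → U → D) :
    Measure (ℤ → D) :=
  ((Measure.pi (fun _ : Fin d => m)).prod (Measure.infinitePi (fun _ : ℤ => P))).map (thU β Φ)

/-- the law muU is invariant and ergodic under the shift -/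
def ErgU {V U D : Type*} [AddCommGroup V] [MeasurableSpace V] [MeasurableSpace U]
    [MeasurableSpace D] (m : Measure V) (d : ℕ) (β : V) (P : Measure U) (Φ : V → U → D) : Prop :=
  Ergodic shD (muU m d β P Φ)

/-- thU is a measurable embedding: injective, and both it and its inverse are measurable -/
def EmbU {V U D : Type*} [AddCommGroup V] [MeasurableSpace V] [MeasurableSpace U]
    [MeasurableSpace D] (d : ℕ) (β : V) (Φ : V → U → D) : Prop :=
  MeasurableEmbedding (thU β Φ : (Fin d → V) × (ℤ → U) → ℤ → D)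

/-- a function bounded by C as a map into the disc D of radius C -/
def toD {Y : Type*} (C : ℝ) (g : Y → ℂ) (hgC : ∀ y, ‖g y‖ ≤ C) (y : Y) : Metric.closedBall (0 : ℂ) C :=
  ⟨g y, by simpa using hgC y⟩

/-- Phi(v, .) has the conditional law of G given v: whenever h o rho = E(psi o G | rho), psi
continuous on D, the mean of psi(Phi(v, u)) over u is the mean of h(pi(v, w)) over w, for a.e. v -/
def CondLaw {V W Y Z : Type*} [MeasurableSpace V] [MeasurableSpace W] [MeasurableSpace Y]
    [MeasurableSpace Z] (m : Measure V) (ω : Measure W) (π : V × W → Z) (ν : Measure Y)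
    (ζ : Measure Z) (ρ : Y → Z) (C : ℝ) (G : Y → Metric.closedBall (0 : ℂ) C)
    (Φ : V → unitInterval → Metric.closedBall (0 : ℂ) C) : Prop :=
  ∀ (ψ : C(Metric.closedBall (0 : ℂ) C, ℂ)) (h : Z → ℂ), Measurable h →
    (∃ B : ℝ, ∀ z, ‖h z‖ ≤ B) → CE ν ζ ρ (fun y => ψ (G y)) h →
    ∀ᵐ v ∂m, ∫ u, ψ (Φ v u) = ∫ w, h (π (v, w)) ∂ω

/-- for a.e. y the sequence g(S^p(n) y) has the unique Furstenberg system mu -/
def FurAE {Y : Type*} [MeasurableSpace Y] (ν : Measure Y) (S : Y ≃ᵐ Y) (p : Polynomial ℤ) (C : ℝ)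
    (hC : 0 ≤ C) (g : Y → ℂ) (hgC : ∀ y, ‖g y‖ ≤ C)
    (μ : Measure (ℤ → Metric.closedBall (0 : ℂ) C)) : Prop :=
  ∀ᵐ y ∂ν, UniqueFurstenberg C
    (seqPt C hC (fun n => g (pw S (p.eval (n : ℤ)) y)) (fun _ => hgC _)) μ

end Pool.Agent.GsF
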