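import Pool.Agent.GsK.KDefs

/-!
The definitions used in the statement of the theorem for arbitrary rotations, in addition to those of KDefs: the
generic measure of an orbit of T = una beta, the law of (Phi (v + x_j(xi), u_j))_j.
-/

set_option autoImplicit false

namespace Pool.Agent.GsF

open MeasureTheory Filter Topology

/-- xi0 is generic for eta under T = una beta: the means of every continuous F along the orbit tend to its integral -/
def Gen {V : Type*} [AddCommGroup V] [TopologicalSpace V] [MeasurableSpace V] {d : ℕ} (β : V)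
    (ξ0 : Fin d → V) (η : Measure (Fin d → V)) : Prop :=
  ∀ F : C(Fin d → V, ℂ), Tendsto (fun N : ℕ => (∑ n ∈ Finset.range N, F ((una β)^[n] ξ0)) / (N : ℂ)) atTop
    (𝓝 (∫ ξ, F ξ ∂η))

/-- xi0 is the point of V^d with x_j (T^n xi0) = p(n + j) alpha -/
def Base {V : Type*} [AddCommGroup V] {d : ℕ} (p : Polynomial ℤ) (α β : V) (ξ0 : Fin d → V) : Prop :=
  ∀ n j : ℕ, xo β ((una β)^[n] ξ0) (j : ℤ) = p.eval ((n : ℤ) + (j : ℕ)) • α

/-- the sequence z_j = Phi (v + x_j(xi), u_j) -/
noncomputable def thV {V U D : Type*} [AddCommGroup V] {d : ℕ} (β : V) (Φ : V → U → D) (v : V)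
    (q : (Fin d → V) × (ℤ → U)) : ℤ → D :=
  fun j => Φ (v + xo β q.1 j) (q.2 j)

/-- the law of thV, xi of law eta on V^d, the u_j independent of law P -/
noncomputable def lawV {V U D : Type*} [AddCommGroup V] [MeasurableSpace V] [MeasurableSpace U]
    [MeasurableSpace D] {d : ℕ} (η : Measure (Fin d → V)) (β : V) (P : Measure U) (Φ : V → U → D) (v : V) :
    Measure (ℤ → D) :=
  (η.prod (Measure.infinitePi (fun _ : ℤ => P))).map (thV β Φ v)

/-- all the laws lawV are invariant and ergodic under the shift -/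
def ErgV {V U D : Type*} [AddCommGroup V] [MeasurableSpace V] [MeasurableSpace U]
    [MeasurableSpace D] {d : ℕ} (η : Measure (Fin d → V)) (β : V) (P : Measure U) (Φ : V → U → D) : Prop :=
  ∀ v : V, Ergodic shD (lawV η β P Φ v)

/-- the law lawV does not depend on v -/
def ConV {V U D : Type*} [AddCommGroup V] [MeasurableSpace V] [MeasurableSpace U]
    [MeasurableSpace D] {d : ℕ} (η : Measure (Fin d → V)) (β : V) (P : Measure U) (Φ : V → U → D) : Prop :=
  ∀ v : V, lawV η β P Φ v = lawV η β P Φ 0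

/-- for every v the map thV, (xi, u) to (Phi (v + x_j(xi), u_j))_j, is a measurable embedding: injective, and both
it and its inverse are measurable -/
def EmbV {V U D : Type*} [AddCommGroup V] [MeasurableSpace V] [MeasurableSpace U]
    [MeasurableSpace D] (d : ℕ) (β : V) (Φ : V → U → D) : Prop :=
  ∀ v : V, MeasurableEmbedding (thV β Φ v : (Fin d → V) × (ℤ → U) → ℤ → D)

/-- for a.e. y there is a v such that the sequence g(S^p(n) y) has the unique Furstenberg system lawV at v,
the u_j uniform in the unit interval -/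
def FurY {V Y : Type*} [AddCommGroup V] [MeasurableSpace V] [MeasurableSpace Y] (ν : Measure Y) (S : Y ≃ᵐ Y)
    (p : Polynomial ℤ) (C : ℝ) (hC : 0 ≤ C) (g : Y → ℂ) (hgC : ∀ y, ‖g y‖ ≤ C) {d : ℕ}
    (η : Measure (Fin d → V)) (β : V) (Φ : V → unitInterval → Metric.closedBall (0 : ℂ) C) : Prop :=
  ∀ᵐ y ∂ν, ∃ v : V, UniqueFurstenberg C
    (seqPt C hC (fun n => g (pw S (p.eval (n : ℤ)) y)) (fun _ => hgC _)) (lawV η β volume Φ v)

/-- for a.e. x = (v, w) in V x W the sequence f(tau^p(n) x), tau (v, w) = (v + alpha, R w), has the unique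
Furstenberg system law of (f(v + x_j(xi), w_j))_j, xi of law eta, the w_j independent of law omega -/
def FurV {V W : Type*} [AddCommGroup V] [TopologicalSpace V] [IsTopologicalAddGroup V]
    [MeasurableSpace V] [BorelSpace V] [MeasurableSpace W] (m : Measure V) (ω : Measure W) (α : V)
    (R : W ≃ᵐ W) (p : Polynomial ℤ) (C : ℝ) (hC : 0 ≤ C) (f : V × W → ℂ) (hfC : ∀ x, ‖f x‖ ≤ C) {d : ℕ}
    (η : Measure (Fin d → V)) (β : V) : Prop :=
  ∀ᵐ x ∂(m.prod ω), UniqueFurstenberg C
    (seqPt C hC (fun n => f (pw ((rotV α).prodCongr R) (p.eval (n : ℤ)) x)) (fun _ => hfC _))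
    (lawV η β ω (Function.curry (toD C f hfC)) x.1)

end Pool.Agent.GsF
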