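import Pool.Agent.GsK.KDefs
import Pool.Agent.GsF.Fs

/-!
Basic facts: characters of compact groups, the affine map una, binomials.
-/

set_option autoImplicit false

namespace Pool.Agent.GsF

open Finset MeasureTheory Filter Topology ProbabilityTheory Polynomial

/-- e^(2 pi i x) on R/Z -/
noncomputable def ec (x : UnitAddCircle) : ℂ := (AddCircle.toCircle x : ℂ)

-- BEGIN eca
/-- ROW eca. `AddCircle.toCircle_add`, `toCircle_zero`, `Circle.coe_mul`, `AddCircle.toCircle_apply_mk`, `injective_toCircle`. -/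
theorem ec_add (x y : UnitAddCircle) : ec (x + y) = ec x * ec y := by
  unfold ec
  rw [AddCircle.toCircle_add, Circle.coe_mul]

theorem ec_zero : ec 0 = 1 := by
  unfold ec
  rw [AddCircle.toCircle_zero, Circle.coe_one]

theorem norm_ec (x : UnitAddCircle) : ‖ec x‖ = 1 := Circle.norm_coe _

theorem ec_neg (x : UnitAddCircle) : ec (-x) = (starRingEnd ℂ) (ec x) := by
  unfold ec
  rw [AddCircle.toCircle_neg, Circle.coe_inv_eq_conj]

theorem ec_sum {ι : Type*} (s : Finset ι) (f : ι → UnitAddCircle) :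
    ec (∑ i ∈ s, f i) = ∏ i ∈ s, ec (f i) := by
  classical
  induction s using Finset.induction_on with
  | empty => rw [Finset.sum_empty, Finset.prod_empty, ec_zero]
  | insert a s ha ih => rw [Finset.sum_insert ha, Finset.prod_insert ha, ec_add, ih]

theorem ec_cont : Continuous ec := by
  unfold ec
  exact continuous_subtype_val.comp AddCircle.continuous_toCircle

theorem ec_coe (t : ℝ) : ec (t : UnitAddCircle) = ei (2 * Real.pi * t) := by
  unfold ec ei
  rw [AddCircle.toCircle_apply_mk, Circle.coe_exp]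
  congr 1
  push_cast
  ring

theorem ec_eq_one (x : UnitAddCircle) (h : ec x = 1) : x = 0 := by
  apply AddCircle.injective_toCircle (T := (1 : ℝ)) one_ne_zero
  rw [AddCircle.toCircle_zero]
  exact Circle.coe_eq_one.1 h
-- END eca

-- BEGIN irr
/-- ROW irr. If `t = a / b` with `b ≥ 1` then `b • (t : R/Z) = (a : R/Z) = 0`. -/
theorem irr_of (t : ℝ) (h : ∀ n : ℕ, 1 ≤ n → n • (t : UnitAddCircle) ≠ 0) : Irrational t := by
  rintro ⟨r, hr⟩
  have hb : 1 ≤ r.den := r.pos
  apply h r.den hb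
  have h1 : r.den • (t : UnitAddCircle) = (((r.den : ℝ) * t : ℝ) : UnitAddCircle) := by
    rw [← AddCircle.coe_nsmul, nsmul_eq_mul]
  have h2 : (r.den : ℝ) * t = (r.num : ℝ) := by
    rw [← hr]
    have h3 : ((r.den : ℚ) * r : ℚ) = r.num := by
      rw [mul_comm]
      exact Rat.mul_den_eq_num r
    exact_mod_cast h3
  rw [h1, h2]
  rw [AddCircle.coe_eq_zero_iff]
  exact ⟨r.num, by rw [zsmul_eq_mul, mul_one]⟩
-- END irr

section group

variable {V : Type*} [AddCommGroup V]

-- BEGIN xou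
private def xou_e {d : ℕ} (β : V) (ξ : Fin d → V) (n : ℕ) : V := if h : n < d then ξ ⟨n, h⟩ else β

private theorem xou_rng {d : ℕ} (β : V) (ξ : Fin d → V) (j : ℤ) :
    xo β ξ j = ∑ n ∈ range (d + 1), Ring.choose j n • xou_e β ξ n := by
  rw [Finset.sum_range_succ, Finset.sum_range]
  unfold xo xou_e
  congr 1
  · refine Finset.sum_congr rfl fun i _ => ?_
    rw [dif_pos i.2]
  · rw [dif_neg (lt_irrefl d)]

/-- ROW xou. `Ring.choose 0 i = 0` for `i > 0`. -/
theorem xo_zero {d : ℕ} (hd : 0 < d) (β : V) (ξ : Fin d → V) : xo β ξ 0 = ξ ⟨0, hd⟩ := by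
  rw [xou_rng, Finset.sum_range_succ', Finset.sum_eq_zero, zero_add, Ring.choose_zero_right,
    one_smul, xou_e, dif_pos hd]
  intro n _
  rw [Ring.choose_zero_succ, zero_smul]

/-- Pascal: `Ring.choose_succ_succ`: binom(j+1, i+1) = binom(j, i) + binom(j, i+1); shift of the index of summation. -/
theorem xo_una {d : ℕ} (hd : 0 < d) (β : V) (ξ : Fin d → V) (j : ℤ) :
    xo β (una β ξ) j = xo β ξ (j + 1) := by
  have h1 : ∀ n ∈ range d, Ring.choose j n • xou_e β (una β ξ) n =
      Ring.choose j n • xou_e β ξ n + Ring.choose j n • xou_e β ξ (n + 1) := by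
    intro n hn
    rw [Finset.mem_range] at hn
    rw [← smul_add]
    congr 1
    simp only [xou_e, una, dif_pos hn]
  rw [xou_rng, xou_rng, Finset.sum_range_succ, Finset.sum_congr rfl h1, Finset.sum_add_distrib,
    Finset.sum_range_succ' (fun n => Ring.choose (j + 1) n • xou_e β ξ n)]
  have h2 : ∀ n ∈ range d, Ring.choose (j + 1) (n + 1) • xou_e β ξ (n + 1) =
      Ring.choose j n • xou_e β ξ (n + 1) + Ring.choose j (n + 1) • xou_e β ξ (n + 1) := by
    intro n _
    rw [Ring.choose_succ_succ, add_smul]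
  rw [Finset.sum_congr rfl h2, Finset.sum_add_distrib]
  have h3 : xou_e β (una β ξ) d = xou_e β ξ d := by
    simp only [xou_e, dif_neg (lt_irrefl d)]
  have h4 := Finset.sum_range_succ (fun n => Ring.choose j n • xou_e β ξ n) d
  have h5 := Finset.sum_range_succ' (fun n => Ring.choose j n • xou_e β ξ n) d
  simp only [Ring.choose_zero_right] at h5 ⊢
  rw [h3]
  have h6 := h4.symm.trans h5
  rw [add_right_comm, h6]
  abel

theorem xo_iter {d : ℕ} (hd : 0 < d) (β : V) (n : ℕ) (ξ : Fin d → V) (j : ℤ) :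
    xo β ((una β)^[n] ξ) j = xo β ξ (j + n) := by
  induction n generalizing ξ with
  | zero => simp
  | succ n ih =>
    rw [Function.iterate_succ_apply, ih, xo_una hd]
    congr 1
    push_cast
    ring
-- END xou

-- BEGIN ucd
private theorem ucd_step (n m : ℕ) (x : ℕ → V) (β : V) :
    ∑ l ∈ range (m + 1), ((n + 1).choose l) • x l + ((n + 1).choose (m + 1)) • β =
      (∑ l ∈ range (m + 1), (n.choose l) • x l + (n.choose (m + 1)) • β) +
        (∑ l ∈ range m, (n.choose l) • x (l + 1) + (n.choose m) • β) := by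
  rw [Finset.sum_range_succ' _ m, Finset.sum_range_succ' _ m]
  simp only [Nat.choose_succ_succ, Nat.choose_zero_right, add_smul, Finset.sum_add_distrib,
    Nat.succ_eq_add_one]
  abel

/-- ROW ucd. Coordinates of the iterates; induction on `n`, Pascal. -/
theorem una_coord {d : ℕ} (β : V) (n : ℕ) (ξ : Fin d → V) (i : Fin d) :
    ((una β)^[n] ξ) i = ∑ l ∈ range (d - (i : ℕ)),
      (n.choose l) • (if h : (i : ℕ) + l < d then ξ ⟨(i : ℕ) + l, h⟩ else 0) +
        (n.choose (d - (i : ℕ))) • β := by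
  have key : ∀ (n : ℕ) (i : Fin d), ((una β)^[n] ξ) i = ∑ l ∈ range (d - (i : ℕ)),
      (n.choose l) • (fun k : ℕ => if h : k < d then ξ ⟨k, h⟩ else 0) ((i : ℕ) + l) +
        (n.choose (d - (i : ℕ))) • β := by
    intro n
    induction n with
    | zero =>
      intro i
      obtain ⟨m, hm⟩ : ∃ m, d - (i : ℕ) = m + 1 := ⟨d - (i : ℕ) - 1, by have := i.2; omega⟩
      rw [hm, Finset.sum_range_succ']
      have h0 : ∑ k ∈ range m, (Nat.choose 0 (k + 1)) •
          (fun k : ℕ => if h : k < d then ξ ⟨k, h⟩ else 0) ((i : ℕ) + (k + 1)) = 0 :=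
        Finset.sum_eq_zero fun k _ => by rw [Nat.choose_zero_succ, zero_smul]
      rw [h0, Nat.choose_zero_succ, zero_smul, Nat.choose_zero_right, one_smul, zero_add, add_zero]
      simp
    | succ n ih =>
      intro i
      obtain ⟨m, hm⟩ : ∃ m, d - (i : ℕ) = m + 1 := ⟨d - (i : ℕ) - 1, by have := i.2; omega⟩
      rw [Function.iterate_succ_apply']
      have h1 : una β ((una β)^[n] ξ) i = ((una β)^[n] ξ) i +
          if h : (i : ℕ) + 1 < d then ((una β)^[n] ξ) ⟨(i : ℕ) + 1, h⟩ else β := rfl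
      have h2 : (if h : (i : ℕ) + 1 < d then ((una β)^[n] ξ) ⟨(i : ℕ) + 1, h⟩ else β) =
          ∑ l ∈ range m, (n.choose l) •
            (fun k : ℕ => if h : k < d then ξ ⟨k, h⟩ else 0) ((i : ℕ) + (l + 1)) +
              (n.choose m) • β := by
        by_cases h : (i : ℕ) + 1 < d
        · rw [dif_pos h, ih]
          have e1 : d - ((⟨(i : ℕ) + 1, h⟩ : Fin d) : ℕ) = m := by
            show d - ((i : ℕ) + 1) = m
            omega
          rw [e1]
          congr 1
          refine Finset.sum_congr rfl fun l _ => ?_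
          have e2 : ((⟨(i : ℕ) + 1, h⟩ : Fin d) : ℕ) + l = (i : ℕ) + (l + 1) := by
            show (i : ℕ) + 1 + l = (i : ℕ) + (l + 1)
            omega
          rw [e2]
        · have hm0 : m = 0 := by omega
          rw [dif_neg h, hm0, Finset.range_zero, Finset.sum_empty, Nat.choose_zero_right, one_smul,
            zero_add]
      rw [h1, h2, ih, hm]
      exact (ucd_step n m (fun l => (fun k : ℕ => if h : k < d then ξ ⟨k, h⟩ else 0) ((i : ℕ) + l))
        β).symm
  exact key n i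
-- END ucd

-- BEGIN orb
private theorem orb_newton (p : ℤ[X]) (N : ℕ) : p.eval (N : ℤ) =
    (∑ k ∈ range p.natDegree, (N.choose k : ℤ) * ((fwdDiff (1 : ℤ))^[k] p.eval 0)) +
      (N.choose p.natDegree : ℤ) * ((p.natDegree.factorial : ℤ) * p.leadingCoeff) := by
  have h1 := shift_eq_sum_fwdDiff_iter (1 : ℤ) (fun x : ℤ => p.eval x) N 0
  have h2 : (0 : ℤ) + N • (1 : ℤ) = (N : ℤ) := by simp
  rw [h2] at h1
  have hz : ∀ k, p.natDegree < k → (fwdDiff (1 : ℤ))^[k] p.eval 0 = 0 := by
    intro k hk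
    have h3 := Polynomial.fwdDiff_iter_eq_zero_of_degree_lt hk
    exact congrFun h3 0
  have ht : (fwdDiff (1 : ℤ))^[p.natDegree] p.eval 0 =
      (p.natDegree.factorial : ℤ) * p.leadingCoeff := by
    have h3 := congrFun (Polynomial.fwdDiff_iter_degree_eq_factorial p) 0
    rw [h3]
    simp [mul_comm]
  have h4 : ∑ k ∈ range (N + 1), N.choose k • (fwdDiff (1 : ℤ))^[k] p.eval 0 =
      ∑ k ∈ range (N + 1 + (p.natDegree + 1)), N.choose k • (fwdDiff (1 : ℤ))^[k] p.eval 0 := by
    refine Finset.sum_subset (Finset.range_mono (by omega)) ?_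
    intro k _ hk
    have h5 : N < k := by
      by_contra h6
      exact hk (Finset.mem_range.2 (by omega))
    rw [Nat.choose_eq_zero_of_lt h5, zero_nsmul]
  have h5 : ∑ k ∈ range (p.natDegree + 1), N.choose k • (fwdDiff (1 : ℤ))^[k] p.eval 0 =
      ∑ k ∈ range (N + 1 + (p.natDegree + 1)), N.choose k • (fwdDiff (1 : ℤ))^[k] p.eval 0 := by
    refine Finset.sum_subset (Finset.range_mono (by omega)) ?_
    intro k _ hk
    have h6 : p.natDegree < k := by
      by_contra h6
      exact hk (Finset.mem_range.2 (by omega))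
    rw [hz k h6, smul_zero]
  have h6 : p.eval (N : ℤ) =
      ∑ k ∈ range (p.natDegree + 1), N.choose k • (fwdDiff (1 : ℤ))^[k] p.eval 0 :=
    h1.trans (h4.trans h5.symm)
  rw [h6, Finset.sum_range_succ, ht]
  simp only [nsmul_eq_mul]

/-- ROW orb. `xi0 i` = the i-th difference of `p` at 0, times `alpha`, plus `v` for `i = 0`; Newton's formula
(`shift_eq_sum_fwdDiff_iter` or `fwdDiff_iter_eq_zero_of_degree_lt`, `Polynomial.fwdDiff_iter_degree_eq_factorial`)
gives `xo beta xi0 n = v + p(n) alpha`; `xo_iter`. -/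
theorem orbit (p : ℤ[X]) (hp : 1 ≤ p.natDegree) (α v : V) :
    ∃ ξ0 : Fin p.natDegree → V, ∀ n j : ℕ,
      xo (((p.natDegree.factorial : ℤ) * p.leadingCoeff) • α)
        ((una (((p.natDegree.factorial : ℤ) * p.leadingCoeff) • α))^[n] ξ0) (j : ℤ) =
      v + p.eval ((n : ℤ) + (j : ℕ)) • α := by
  refine ⟨fun i => ((fwdDiff (1 : ℤ))^[(i : ℕ)] p.eval 0) • α +
    if (i : ℕ) = 0 then v else 0, fun n j => ?_⟩
  have h0 : 0 < p.natDegree := hp
  rw [xo_iter h0]
  have h1 : ((j : ℤ) + (n : ℤ)) = ((n + j : ℕ) : ℤ) := by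
    push_cast
    ring
  have h2 : ((n : ℤ) + (j : ℕ)) = ((n + j : ℕ) : ℤ) := by
    push_cast
    ring
  rw [h1, h2]
  generalize n + j = N
  rw [orb_newton p N]
  unfold xo
  simp only [Ring.choose_natCast, smul_add, Finset.sum_add_distrib]
  have h3 : ∑ i : Fin p.natDegree, ((N.choose (i : ℕ) : ℕ) : ℤ) • (if (i : ℕ) = 0 then v else 0) =
      v := by
    rw [Finset.sum_eq_single (⟨0, h0⟩ : Fin p.natDegree)]
    · simp
    · intro i _ hi
      have h4 : (i : ℕ) ≠ 0 := fun h => hi (Fin.ext h)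
      rw [if_neg h4, smul_zero]
    · intro h
      exact absurd (Finset.mem_univ _) h
  rw [h3]
  have h5 : ∑ i : Fin p.natDegree, ((N.choose (i : ℕ) : ℕ) : ℤ) •
      (((fwdDiff (1 : ℤ))^[(i : ℕ)] p.eval 0) • α) =
      (∑ k ∈ range p.natDegree, (N.choose k : ℤ) * ((fwdDiff (1 : ℤ))^[k] p.eval 0)) • α := by
    rw [Finset.sum_smul, ← Fin.sum_univ_eq_sum_range
      (fun k => ((N.choose k : ℤ) * ((fwdDiff (1 : ℤ))^[k] p.eval 0)) • α) p.natDegree]
    exact Finset.sum_congr rfl fun i _ => by rw [smul_smul]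
  rw [h5, add_smul, smul_smul]
  abel
-- END orb

end group

section top

variable {V : Type*} [AddCommGroup V] [TopologicalSpace V] [IsTopologicalAddGroup V] [CompactSpace V]
  [T2Space V] [SecondCountableTopology V] [MeasurableSpace V] [BorelSpace V]

-- BEGIN pwr
private theorem pwr_neg {W' : Type*} [MeasurableSpace W'] (R : W' ≃ᵐ W') (w : W') :
    pw R (-1) w = R.symm w := by
  unfold pw
  rw [zpow_neg_one]
  rfl

/-- ROW pwr. Powers of the rotation and of a product of two maps (`Int.induction_on` or `Equiv.Perm` arguments). -/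
theorem pw_rot (α : V) (n : ℤ) (v : V) : pw (rotV α) n v = v + n • α := by
  induction n using Int.induction_on generalizing v with
  | zero => rw [pw_zero, zero_smul, add_zero]
  | succ n ih =>
    rw [pw_add, pw_one, ih, add_smul, one_smul]
    change v + α + _ = _
    abel
  | pred n ih =>
    rw [sub_eq_add_neg, pw_add, pwr_neg, ih, add_smul, neg_one_smul]
    change v + -α + _ = _
    abel

theorem pw_prod {V' W' : Type*} [MeasurableSpace V'] [MeasurableSpace W'] (T : V' ≃ᵐ V') (R : W' ≃ᵐ W')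
    (n : ℤ) (x : V' × W') : pw (T.prodCongr R) n x = (pw T n x.1, pw R n x.2) := by
  induction n using Int.induction_on generalizing x with
  | zero => rw [pw_zero, pw_zero, pw_zero]
  | succ n ih =>
    rw [pw_add, pw_one, ih, pw_add, pw_one, pw_add, pw_one]
    rfl
  | pred n ih =>
    rw [sub_eq_add_neg, pw_add, pwr_neg, ih, pw_add, pwr_neg, pw_add, pwr_neg]
    rfl
-- END pwr

-- BEGIN ich
/-- ROW ich. Translation by `v0` with `chi v0 ≠ 0`: the integral is multiplied by `ec (chi v0) ≠ 1`. -/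
theorem int_chr (m : Measure V) [m.IsAddHaarMeasure] [IsProbabilityMeasure m]
    (χ : V →ₜ+ UnitAddCircle) (hχ : χ ≠ 0) : ∫ v, ec (χ v) ∂m = 0 := by
  obtain ⟨v0, hv0⟩ : ∃ v0, χ v0 ≠ 0 := by
    by_contra hcon
    push Not at hcon
    exact hχ (ContinuousAddMonoidHom.ext hcon)
  have h1 : ∫ v, ec (χ v) ∂m = ec (χ v0) * ∫ v, ec (χ v) ∂m := by
    have h2 : ∫ v, ec (χ (v0 + v)) ∂m = ∫ v, ec (χ v) ∂m :=
      integral_add_left_eq_self (fun v => ec (χ v)) v0
    rw [← integral_const_mul]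
    refine h2.symm.trans (integral_congr_ae (Filter.Eventually.of_forall fun v => ?_))
    show ec (χ (v0 + v)) = ec (χ v0) * ec (χ v)
    rw [map_add, ec_add]
  have h3 : ec (χ v0) ≠ 1 := fun h => hv0 (ec_eq_one _ h)
  have h4 : (1 - ec (χ v0)) * ∫ v, ec (χ v) ∂m = 0 := by
    rw [sub_mul, one_mul, ← h1, sub_self]
  rcases mul_eq_zero.1 h4 with h5 | h5
  · exact absurd (sub_eq_zero.1 h5).symm h3
  · exact h5
-- END ich

-- BEGIN erc
/-- ROW erc. If `chi (n alpha) = 0` then `v ↦ ec (chi v)` is invariant under the ergodic map `v ↦ v + n alpha`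
(`Ergodic.ae_eq_const_of_ae_eq_comp` or similar), hence a.e. constant, so its integral has modulus 1, against `int_chr`. -/
theorem chr_free (m : Measure V) [m.IsAddHaarMeasure] [IsProbabilityMeasure m] (α : V)
    (hα : ∀ n : ℕ, 1 ≤ n → Ergodic (fun v : V => v + n • α) m)
    (χ : V →ₜ+ UnitAddCircle) (hχ : χ ≠ 0) (n : ℤ) (hn : n ≠ 0) : χ (n • α) ≠ 0 := by
  intro h0
  have hN : 1 ≤ n.natAbs := Int.natAbs_pos.2 hn
  have h1 : χ (n.natAbs • α) = 0 := by
    rcases Int.natAbs_eq n with h2 | h2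
    · rw [h2, natCast_zsmul] at h0
      exact h0
    · rw [h2, neg_smul, natCast_zsmul, map_neg, neg_eq_zero] at h0
      exact h0
  have hcont : Continuous (fun v : V => ec (χ v)) := ec_cont.comp χ.continuous_toFun
  have h2 : (fun v : V => ec (χ v)) ∘ (fun v : V => v + n.natAbs • α) =ᵐ[m] fun v => ec (χ v) := by
    refine Filter.Eventually.of_forall fun v => ?_
    show ec (χ (v + n.natAbs • α)) = ec (χ v)
    rw [map_add, h1, add_zero]
  obtain ⟨c, hc⟩ := (hα n.natAbs hN).ae_eq_const_of_ae_eq_comp_ae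
    hcont.measurable.aestronglyMeasurable h2
  have h3 := int_chr m χ hχ
  rw [integral_congr_ae hc] at h3
  simp only [Function.const_apply, integral_const, probReal_univ, one_smul] at h3
  obtain ⟨v, hv⟩ := hc.exists
  have h4 := norm_ec (χ v)
  have h5 : ec (χ v) = c := hv
  rw [h5, h3, norm_zero] at h4
  exact zero_ne_one h4
-- END erc

-- BEGIN cht
private noncomputable def cht_e (χ : V →ₜ+ UnitAddCircle) : C(V, ℂ) :=
  ⟨fun v => ec (χ v), ec_cont.comp χ.continuous_toFun⟩

private noncomputable def cht_A : StarSubalgebra ℂ C(V, ℂ) where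
  toSubalgebra := Algebra.adjoin ℂ (Set.range (cht_e (V := V)))
  star_mem' := by
    change Algebra.adjoin ℂ (Set.range (cht_e (V := V))) ≤
      star (Algebra.adjoin ℂ (Set.range (cht_e (V := V))))
    refine Algebra.adjoin_le ?_
    rintro - ⟨χ, rfl⟩
    exact Algebra.subset_adjoin ⟨-χ, ContinuousMap.ext fun v => ec_neg (χ v)⟩

private theorem cht_coe : Subalgebra.toSubmodule (cht_A (V := V)).toSubalgebra =
    Submodule.span ℂ (Set.range (cht_e (V := V))) := by
  apply Algebra.adjoin_eq_span_of_subset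
  refine Set.Subset.trans ?_ Submodule.subset_span
  intro x hx
  refine Submonoid.closure_induction (fun _ => id) ⟨0, ?_⟩ ?_ hx
  · ext1 z
    exact ec_zero
  · rintro - - - - ⟨χ, rfl⟩ ⟨ψ, rfl⟩
    refine ⟨χ + ψ, ?_⟩
    ext1 z
    exact ec_add (χ z) (ψ z)

private theorem cht_sep (hsep : ∀ v : V, v ≠ 0 → ∃ χ : V →ₜ+ UnitAddCircle, χ v ≠ 0) :
    (cht_A (V := V)).SeparatesPoints := by
  intro x y hxy
  obtain ⟨χ, hχ⟩ := hsep (x - y) (sub_ne_zero.2 hxy)
  refine ⟨_, ⟨cht_e χ, Algebra.subset_adjoin ⟨χ, rfl⟩, rfl⟩, fun hc => hχ ?_⟩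
  have hc' : ec (χ x) = ec (χ y) := hc
  apply ec_eq_one
  rw [map_sub, sub_eq_add_neg, ec_add, ec_neg, hc', Complex.mul_conj, Complex.normSq_eq_norm_sq,
    norm_ec]
  norm_num

private theorem cht_cont (m : Measure V) [IsProbabilityMeasure m]
    (hsep : ∀ v : V, v ≠ 0 → ∃ χ : V →ₜ+ UnitAddCircle, χ v ≠ 0) (F : V → ℂ)
    (hF : Integrable F m) (h0 : ∀ χ : V →ₜ+ UnitAddCircle, ∫ v, F v * ec (χ v) ∂m = 0)
    (φ : C(V, ℂ)) : ∫ v, F v * φ v ∂m = 0 := by
  have hint : ∀ ψ : C(V, ℂ), Integrable (fun v => F v * ψ v) m := fun ψ =>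
    hF.mul_bdd (c := ‖ψ‖) ψ.continuous.aestronglyMeasurable
      (Eventually.of_forall fun v => ψ.norm_coe_le_norm v)
  have hA : ∀ ψ ∈ (cht_A (V := V)), ∫ v, F v * ψ v ∂m = 0 := by
    intro ψ hψ
    have h1 : ψ ∈ Submodule.span ℂ (Set.range (cht_e (V := V))) := by
      rw [← cht_coe]
      exact hψ
    refine Submodule.span_induction (p := fun ψ _ => ∫ v, F v * ψ v ∂m = 0) ?_ ?_ ?_ ?_ h1
    · rintro - ⟨χ, rfl⟩
      exact h0 χ
    · simp
    · intro a b _ _ ha hb
      have h2 : ∀ v, F v * (a + b) v = F v * a v + F v * b v := fun v => by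
        rw [ContinuousMap.add_apply, mul_add]
      simp only [h2]
      rw [integral_add (hint a) (hint b), ha, hb, add_zero]
    · intro c a _ ha
      have h2 : ∀ v, F v * (c • a) v = c * (F v * a v) := fun v => by
        rw [ContinuousMap.smul_apply, smul_eq_mul]
        ring
      simp only [h2]
      rw [integral_const_mul, ha, mul_zero]
  have htop : φ ∈ (cht_A (V := V)).topologicalClosure := by
    rw [ContinuousMap.starSubalgebra_topologicalClosure_eq_top_of_separatesPoints _ (cht_sep hsep)]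
    exact StarSubalgebra.mem_top
  have hcl : φ ∈ closure ((cht_A (V := V)) : Set C(V, ℂ)) := htop
  have hle : ∀ ε : ℝ, 0 < ε → ‖∫ v, F v * φ v ∂m‖ ≤ ε * ∫ v, ‖F v‖ ∂m := by
    intro ε hε
    obtain ⟨ψ, hψ, hd⟩ := Metric.mem_closure_iff.1 hcl ε hε
    have h1 : ∫ v, F v * φ v ∂m = ∫ v, F v * (φ - ψ) v ∂m := by
      have h2 : ∀ v, F v * (φ - ψ) v = F v * φ v - F v * ψ v := fun v => by
        rw [ContinuousMap.sub_apply, mul_sub]
      simp only [h2]
      rw [integral_sub (hint φ) (hint ψ), hA ψ hψ, sub_zero]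
    rw [h1, ← integral_const_mul]
    refine norm_integral_le_of_norm_le (hF.norm.const_mul ε) (Eventually.of_forall fun v => ?_)
    rw [norm_mul, mul_comm]
    refine mul_le_mul_of_nonneg_right ?_ (norm_nonneg _)
    refine ((φ - ψ).norm_coe_le_norm v).trans ?_
    rw [← dist_eq_norm]
    exact hd.le
  by_contra hne
  have hpos : 0 < ‖∫ v, F v * φ v ∂m‖ := norm_pos_iff.2 hne
  have hI : 0 ≤ ∫ v, ‖F v‖ ∂m := integral_nonneg fun v => norm_nonneg _
  have h1 := hle (‖∫ v, F v * φ v ∂m‖ / (2 * (∫ v, ‖F v‖ ∂m + 1))) (by positivity)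
  have h2 : ‖∫ v, F v * φ v ∂m‖ / (2 * (∫ v, ‖F v‖ ∂m + 1)) * ∫ v, ‖F v‖ ∂m ≤
      ‖∫ v, F v * φ v ∂m‖ / 2 := by
    rw [div_mul_eq_mul_div, div_le_div_iff₀ (by positivity) (by norm_num)]
    nlinarith
  linarith

/-- ROW cht. TOTALITY OF THE CHARACTERS. The linear span of the functions `ec ∘ chi` is a star subalgebra of C(V, ℂ) which
separates points (`hsep`), so it is dense (`ContinuousMap.starSubalgebra_topologicalClosure_eq_top_of_separatesPoints`); so
`∫ F φ = 0` for every `φ ∈ C(V, ℂ)`, and C(V, ℂ) is dense in L^2 (`ContinuousMap.toLp_denseRange` or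
`MemLp.exists_boundedContinuous_eLpNorm_sub_le`). -/
theorem chr_total (m : Measure V) [IsProbabilityMeasure m]
    (hsep : ∀ v : V, v ≠ 0 → ∃ χ : V →ₜ+ UnitAddCircle, χ v ≠ 0) (F : V → ℂ) (hF : MemLp F 2 m)
    (h0 : ∀ χ : V →ₜ+ UnitAddCircle, ∫ v, F v * ec (χ v) ∂m = 0) : F =ᵐ[m] 0 := by
  haveI : T3Space V := inferInstance
  letI := TopologicalSpace.metrizableSpaceMetric V
  have hFi : Integrable F m := hF.integrable (by norm_num)
  have hd := ContinuousMap.toLp_denseRange ℂ m ℂ (p := 2) (by norm_num)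
  have hz : hF.toLp F = 0 := by
    refine Dense.eq_zero_of_inner_right ℂ hd ?_
    rintro - ⟨φ, rfl⟩
    rw [MeasureTheory.L2.inner_def]
    have h1 : ∫ v, F v * (star φ) v ∂m = 0 := cht_cont m hsep F hFi h0 (star φ)
    rw [← h1]
    refine integral_congr_ae ?_
    filter_upwards [hF.coeFn_toLp, ContinuousMap.coeFn_toLp (p := 2) (𝕜 := ℂ) m φ] with v h2 h3
    rw [h2, h3, RCLike.inner_apply]
    rfl
  have h1 := hF.coeFn_toLp
  rw [hz] at h1
  exact h1.symm.trans (Lp.coeFn_zero _ _ _)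
-- END cht

-- BEGIN ump
omit [TopologicalSpace V] [IsTopologicalAddGroup V] [CompactSpace V] [T2Space V]
  [SecondCountableTopology V] [MeasurableSpace V] [BorelSpace V] in
private theorem ump_surj {d : ℕ} (η : Fin d → V) :
    ∀ k ≤ d, ∃ ξ : Fin d → V, ∀ i : Fin d, d - k ≤ (i : ℕ) →
      ξ i + (if h : (i : ℕ) + 1 < d then ξ ⟨(i : ℕ) + 1, h⟩ else 0) = η i := by
  intro k
  induction k with
  | zero =>
    intro _
    exact ⟨0, fun i hi => absurd i.2 (by omega)⟩
  | succ k ih =>
    intro hk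
    obtain ⟨ξ, hξ⟩ := ih (by omega)
    have hj : d - (k + 1) < d := by omega
    obtain ⟨c, hc⟩ : ∃ c : V, c = if h : d - (k + 1) + 1 < d then ξ ⟨d - (k + 1) + 1, h⟩ else 0 :=
      ⟨_, rfl⟩
    refine ⟨Function.update ξ ⟨d - (k + 1), hj⟩ (η ⟨d - (k + 1), hj⟩ - c), fun i hi => ?_⟩
    have hsucc : ∀ h : (i : ℕ) + 1 < d, Function.update ξ ⟨d - (k + 1), hj⟩
        (η ⟨d - (k + 1), hj⟩ - c) ⟨(i : ℕ) + 1, h⟩ = ξ ⟨(i : ℕ) + 1, h⟩ := by
      intro h
      apply Function.update_of_ne
      intro h2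
      have h3 := congrArg Fin.val h2
      simp only at h3
      omega
    have hdite : (if h : (i : ℕ) + 1 < d then Function.update ξ ⟨d - (k + 1), hj⟩
        (η ⟨d - (k + 1), hj⟩ - c) ⟨(i : ℕ) + 1, h⟩ else 0) =
        (if h : (i : ℕ) + 1 < d then ξ ⟨(i : ℕ) + 1, h⟩ else 0) := by
      by_cases h : (i : ℕ) + 1 < d
      · rw [dif_pos h, dif_pos h]
        exact hsucc h
      · rw [dif_neg h, dif_neg h]
    rw [hdite]
    by_cases hi2 : (i : ℕ) = d - (k + 1)
    · have hi3 : i = ⟨d - (k + 1), hj⟩ := Fin.ext hi2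
      subst hi3
      rw [Function.update_self, ← hc]
      exact sub_add_cancel _ _
    · rw [Function.update_of_ne (fun h => hi2 (congrArg Fin.val h))]
      exact hξ i (by omega)

/-- ROW ump. `una beta` is a translation after the continuous bijective homomorphism `xi ↦ (xi_i + xi_(i+1))_i`
(`xi_d := 0`), which preserves the Haar measure `Measure.pi` (`AddMonoidHom.measurePreserving` or the like). -/
theorem una_mp (m : Measure V) [m.IsAddHaarMeasure] [IsProbabilityMeasure m] {d : ℕ} (β : V) :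
    MeasurePreserving (una β : (Fin d → V) → Fin d → V) (Measure.pi fun _ => m)
      (Measure.pi fun _ => m) := by
  let f : (Fin d → V) →+ (Fin d → V) :=
    { toFun := fun ξ i => ξ i + (if h : (i : ℕ) + 1 < d then ξ ⟨(i : ℕ) + 1, h⟩ else 0)
      map_zero' := by
        funext i
        simp
      map_add' := by
        intro ξ η
        funext i
        simp only [Pi.add_apply]
        split_ifs with h
        · abel
        · abel }
  have hcont : Continuous f := by
    refine continuous_pi fun i => ?_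
    by_cases h : (i : ℕ) + 1 < d
    · have e : (fun ξ : Fin d → V => f ξ i) = fun ξ => ξ i + ξ ⟨(i : ℕ) + 1, h⟩ := by
        funext ξ
        change ξ i + (if h : (i : ℕ) + 1 < d then ξ ⟨(i : ℕ) + 1, h⟩ else 0) = _
        rw [dif_pos h]
      rw [e]
      exact (continuous_apply _).add (continuous_apply _)
    · have e : (fun ξ : Fin d → V => f ξ i) = fun ξ => ξ i := by
        funext ξ
        change ξ i + (if h : (i : ℕ) + 1 < d then ξ ⟨(i : ℕ) + 1, h⟩ else 0) = _
        rw [dif_neg h, add_zero]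
      rw [e]
      exact continuous_apply _
  have hsurj : Function.Surjective f := by
    intro η
    obtain ⟨ξ, hξ⟩ := ump_surj η d le_rfl
    exact ⟨ξ, funext fun i => hξ i (by omega)⟩
  have h1 : MeasurePreserving f (Measure.pi fun _ => m) (Measure.pi fun _ => m) :=
    AddMonoidHom.measurePreserving hcont hsurj rfl
  have h2 : MeasurePreserving (fun x : Fin d → V =>
      (fun i : Fin d => if (i : ℕ) + 1 < d then (0 : V) else β) + x)
      (Measure.pi fun _ => m) (Measure.pi fun _ => m) := measurePreserving_add_left _ _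
  have h3 := h2.comp h1
  have e : (una β : (Fin d → V) → Fin d → V) = (fun x : Fin d → V =>
      (fun i : Fin d => if (i : ℕ) + 1 < d then (0 : V) else β) + x) ∘ f := by
    funext ξ i
    change ξ i + (if h : (i : ℕ) + 1 < d then ξ ⟨(i : ℕ) + 1, h⟩ else β) =
      (if (i : ℕ) + 1 < d then (0 : V) else β) +
        (ξ i + (if h : (i : ℕ) + 1 < d then ξ ⟨(i : ℕ) + 1, h⟩ else 0))
    by_cases h : (i : ℕ) + 1 < d
    · rw [dif_pos h, if_pos h, dif_pos h, zero_add]
    · rw [dif_neg h, if_neg h, dif_neg h, add_zero, add_comm]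
  rw [e]
  exact h3
-- END ump

-- BEGIN xmp
/-- ROW xmp. `F (xo xi j)`: for `j = n : ℕ` it is the first coordinate of `T^n xi` (`xo_iter`, `xo_zero`, `una_mp`,
`measurePreserving_eval`); for `j = -n` use `∫ F (xo xi (-n)) = ∫ F (xo (T^n xi) (-n)) = ∫ F (xo xi 0)`, for sets `F = 1_s`. -/
theorem xo_mp (m : Measure V) [m.IsAddHaarMeasure] [IsProbabilityMeasure m] {d : ℕ} (hd : 0 < d)
    (β : V) (j : ℤ) : MeasurePreserving (fun ξ : Fin d → V => xo β ξ j) (Measure.pi fun _ => m) m := by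
  have hT : MeasurePreserving (una β : (Fin d → V) → Fin d → V) (Measure.pi fun _ => m)
      (Measure.pi fun _ => m) := una_mp m β
  have h0 : MeasurePreserving (Function.eval (⟨0, hd⟩ : Fin d) : (Fin d → V) → V)
      (Measure.pi fun _ => m) m := measurePreserving_eval (fun _ : Fin d => m) ⟨0, hd⟩
  have hg : Measurable (fun ξ : Fin d → V => xo β ξ j) := by
    unfold xo
    refine Measurable.add_const (Finset.measurable_sum _ fun i _ => ?_) _
    exact (continuous_zsmul _).measurable.comp (measurable_pi_apply i)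
  obtain ⟨n, rfl | rfl⟩ := Int.eq_nat_or_neg j
  · have h2 : (fun ξ : Fin d → V => xo β ξ (n : ℤ)) =
        Function.eval (⟨0, hd⟩ : Fin d) ∘ (una β)^[n] := by
      funext ξ
      have h3 := xo_iter hd β n ξ 0
      rw [zero_add, xo_zero hd] at h3
      exact h3.symm
    rw [h2]
    exact h0.comp (hT.iterate n)
  · refine ⟨hg, ?_⟩
    have h2 : (fun ξ : Fin d → V => xo β ξ (-(n : ℤ))) ∘ (una β)^[n] =
        Function.eval (⟨0, hd⟩ : Fin d) := by
      funext ξ
      have h3 := xo_iter hd β n ξ (-(n : ℤ))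
      rw [neg_add_cancel, xo_zero hd] at h3
      exact h3
    have hTn := hT.iterate n
    conv_lhs => rw [← hTn.map_eq]
    rw [Measure.map_map hg hTn.measurable, h2]
    exact h0.map_eq
-- END xmp

end top

end Pool.Agent.GsF
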