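import Pool.Agent.GsK.Kb

/-!
Weyl sums in binomial form, unique ergodicity and ergodicity of the affine map.
-/

set_option autoImplicit false

namespace Pool.Agent.GsF

open Finset MeasureTheory Filter Topology ProbabilityTheory Polynomial

-- BEGIN wyl
private theorem wyl_one (D : ℕ) (c : ℕ → ℝ) (n : ℕ) :
    ∑ i ∈ range (D + 1), c i * ((n + 1).choose i : ℝ) =
      ∑ i ∈ range (D + 1), c i * (n.choose i : ℝ) + ∑ i ∈ range D, c (i + 1) * (n.choose i : ℝ) := by
  rw [sum_range_succ', sum_range_succ' (fun i => c i * (n.choose i : ℝ))]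
  simp only [Nat.choose_succ_succ, Nat.cast_add, mul_add, sum_add_distrib, Nat.choose_zero_right,
    Nat.cast_one]
  ring

private theorem wyl_sh (D : ℕ) (c : ℕ → ℝ) (k : ℕ) :
    ∃ c' : ℕ → ℝ, c' D = k * c (D + 1) ∧ ∀ n : ℕ,
      ∑ i ∈ range (D + 2), c i * ((n + k).choose i : ℝ) =
        ∑ i ∈ range (D + 2), c i * (n.choose i : ℝ) + ∑ i ∈ range (D + 1), c' i * (n.choose i : ℝ) := by
  induction k with
  | zero => exact ⟨fun _ => 0, by simp, fun n => by simp⟩
  | succ k ih =>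
    obtain ⟨c', h1, h2⟩ := ih
    refine ⟨fun i => c (i + 1) + c' i + if i < D then c' (i + 1) else 0, ?_, fun n => ?_⟩
    · simp only [lt_irrefl, if_false, h1, Nat.cast_add, Nat.cast_one]
      ring
    · have h3 := h2 (n + 1)
      rw [show n + 1 + k = n + (k + 1) by ring] at h3
      rw [h3, wyl_one (D + 1), wyl_one D c']
      have h4 : ∑ i ∈ range (D + 1), (c (i + 1) + c' i + if i < D then c' (i + 1) else 0) *
          (n.choose i : ℝ) = ∑ i ∈ range (D + 1), c (i + 1) * (n.choose i : ℝ) +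
          ∑ i ∈ range (D + 1), c' i * (n.choose i : ℝ) +
          ∑ i ∈ range D, c' (i + 1) * (n.choose i : ℝ) := by
        simp only [add_mul, sum_add_distrib]
        congr 1
        rw [sum_range_succ, if_neg (lt_irrefl D), zero_mul, add_zero]
        exact sum_congr rfl fun i hi => by rw [if_pos (mem_range.1 hi)]
      rw [h4]
      ring

private theorem wyl_geom (z : ℂ) (hz : z ≠ 1) (hz1 : ‖z‖ = 1) (a : ℂ) :
    Tendsto (fun N : ℕ => (∑ n ∈ range N, a * z ^ n) / (N : ℂ)) atTop (𝓝 0) := by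
  have h0 : (0 : ℝ) < ‖z - 1‖ := norm_pos_iff.2 (sub_ne_zero.2 hz)
  refine squeeze_zero_norm (a := fun N : ℕ => (‖a‖ * (2 / ‖z - 1‖)) / (N : ℝ)) (fun N => ?_)
    (tendsto_const_nhds.div_atTop tendsto_natCast_atTop_atTop)
  rw [norm_div, Complex.norm_natCast]
  refine div_le_div_of_nonneg_right ?_ (Nat.cast_nonneg N)
  rw [← mul_sum, norm_mul, geom_sum_eq hz, norm_div]
  refine mul_le_mul_of_nonneg_left (div_le_div_of_nonneg_right ?_ h0.le) (norm_nonneg _)
  refine (norm_sub_le _ _).trans ?_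
  rw [norm_pow, hz1, one_pow, norm_one]
  norm_num

/-- ROW wyl. Induction on `D` with `vdc_hilbert` in `H = ℂ` (`inner ℂ a b = conj a * b`): `binom(n+h, i) - binom(n, i) =
sum over s ≥ 1 of binom(h, s) binom(n, i - s)` (`Nat.add_choose_eq`), so `u (n+h)`, `u n` give the phase with coefficients
`c'_i = sum_(s ≥ 1, i + s ≤ D) binom(h, s) c_(i+s)`, `i ≤ D - 1`, top coefficient `h c_D`, irrational. `D = 1`: geometric sum of
ratio `≠ 1`, bounded. -/
theorem weyl_bin (D : ℕ) (hD : 1 ≤ D) (c : ℕ → ℝ) (hc : Irrational (c D)) :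
    Tendsto (fun N : ℕ => (∑ n ∈ range N,
      ei (2 * Real.pi * ∑ i ∈ range (D + 1), c i * (n.choose i : ℝ))) / (N : ℂ)) atTop (𝓝 0) := by
  induction D, hD using Nat.le_induction generalizing c with
  | base =>
    have hz : ei (2 * Real.pi * c 1) ≠ 1 := by
      intro h
      unfold ei at h
      rw [Complex.exp_eq_one_iff] at h
      obtain ⟨m, hm⟩ := h
      have h2 : (2 * Real.pi * c 1 : ℝ) = m * (2 * Real.pi) := by
        have h3 : ((2 * Real.pi * c 1 : ℝ) : ℂ) * Complex.I = ((m * (2 * Real.pi) : ℝ) : ℂ) * Complex.I := by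
          rw [hm]
          push_cast
          ring
        exact_mod_cast mul_right_cancel₀ Complex.I_ne_zero h3
      have h4 : c 1 = (m : ℝ) := by
        have hpi := Real.pi_pos
        field_simp at h2
        linarith
      exact hc.ne_int m h4
    refine (wyl_geom _ hz (norm_ei _) (ei (2 * Real.pi * c 0))).congr fun N => ?_
    congr 1
    refine sum_congr rfl fun n _ => ?_
    have h5 : ∀ n : ℕ, ei (2 * Real.pi * c 1) ^ n = ei (2 * Real.pi * c 1 * n) := by
      intro n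
      unfold ei
      rw [← Complex.exp_nat_mul]
      congr 1
      push_cast
      ring
    rw [h5, ← ei_add]
    congr 1
    simp [sum_range_succ]
    ring
  | succ D hD ih =>
    rw [tendsto_zero_iff_norm_tendsto_zero]
    have hv := vdc_hilbert (fun n : ℕ => ei (2 * Real.pi * ∑ i ∈ range (D + 1 + 1), c i * (n.choose i : ℝ)))
      (fun n => (norm_ei _).le) fun k hk => ?_
    · refine hv.congr fun N => ?_
      rw [norm_div, Complex.norm_natCast]
    · obtain ⟨c', h1, h2⟩ := wyl_sh D c k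
      have h3 := ih (fun i => -c' i) (by
        simp only [h1]
        refine Irrational.neg ?_
        exact Irrational.natCast_mul hc (by omega))
      refine h3.norm.congr' ?_ |>.trans (by simp)
      refine Eventually.of_forall fun N => ?_
      beta_reduce
      rw [norm_div, Complex.norm_natCast]
      congr 2
      refine sum_congr rfl fun n _ => ?_
      have h4 : inner ℂ (ei (2 * Real.pi * ∑ i ∈ range (D + 1 + 1), c i * ((n + k).choose i : ℝ)))
          (ei (2 * Real.pi * ∑ i ∈ range (D + 1 + 1), c i * (n.choose i : ℝ))) =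
          ei (-(2 * Real.pi * ∑ i ∈ range (D + 1 + 1), c i * ((n + k).choose i : ℝ)) +
            2 * Real.pi * ∑ i ∈ range (D + 1 + 1), c i * (n.choose i : ℝ)) := by
        rw [ei_add, ei_neg, RCLike.inner_apply]
        exact mul_comm _ _
      rw [h4]
      congr 1
      rw [h2 n]
      simp only [neg_mul, sum_neg_distrib]
      ring
-- END wyl

variable {V : Type*} [AddCommGroup V] [TopologicalSpace V] [IsTopologicalAddGroup V] [CompactSpace V]
  [T2Space V] [SecondCountableTopology V] [MeasurableSpace V] [BorelSpace V]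

-- BEGIN uwl
private theorem uwl_lift (c : ℕ → ℝ) (m : ℕ → ℕ) (s : Finset ℕ) :
    ((∑ l ∈ s, c l * (m l : ℝ) : ℝ) : UnitAddCircle) = ∑ l ∈ s, m l • (c l : UnitAddCircle) := by
  classical
  induction s using Finset.induction with
  | empty =>
    rw [Finset.sum_empty, Finset.sum_empty]
    rfl
  | insert a s ha ih =>
    rw [Finset.sum_insert ha, Finset.sum_insert ha, AddCircle.coe_add, ih]
    congr 1
    rw [← AddCircle.coe_nsmul, nsmul_eq_mul, mul_comm]

/-- ROW uwl. UNIQUE ERGODICITY of T. Let `i0` be the least `i` with `K i ≠ 0`. By `una_coord` the phase `sum_i K_i ((T^n xi)_i)`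
is `sum over i ≥ i0, l of binom(n, l) K_i (xi_(i+l)) + sum_i binom(n, d-i) K_i(beta)`: with real lifts of the finitely many values
this is `sum over l ≤ D of c_l binom(n, l)`, `D = d - i0`, `c_D` = lift of `K_i0(beta)`, irrational (`irr_of`, `hfree`); `ec_coe`,
`weyl_bin`. -/
theorem una_weyl {d : ℕ} (β : V)
    (hfree : ∀ χ : V →ₜ+ UnitAddCircle, χ ≠ 0 → ∀ n : ℕ, 1 ≤ n → n • χ β ≠ 0)
    (K : Fin d → (V →ₜ+ UnitAddCircle)) (hK : K ≠ 0) (ξ : Fin d → V) :
    Tendsto (fun N : ℕ => (∑ n ∈ range N, ec (∑ i, K i (((una β)^[n] ξ) i))) / (N : ℂ))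
      atTop (𝓝 0) := by
  classical
  have hex : ∃ m : ℕ, ∃ h : m < d, K ⟨m, h⟩ ≠ 0 := by
    by_contra hcon
    apply hK
    funext i
    by_contra h1
    exact hcon ⟨i, i.2, h1⟩
  obtain ⟨m, ⟨hm, hKm⟩, hmin⟩ : ∃ m : ℕ, (∃ h : m < d, K ⟨m, h⟩ ≠ 0) ∧
      ∀ j, j < m → ∀ h : j < d, K ⟨j, h⟩ = 0 := by
    refine ⟨Nat.find hex, Nat.find_spec hex, fun j hj h => ?_⟩
    by_contra h1
    exact Nat.find_min hex hj ⟨h, h1⟩
  obtain ⟨D, hD⟩ : ∃ D, D = d - m := ⟨_, rfl⟩
  obtain ⟨b, hb⟩ : ∃ b : Fin d → ℕ → V, b = fun (i : Fin d) (l : ℕ) =>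
      if h : (i : ℕ) + l < d then ξ ⟨(i : ℕ) + l, h⟩ else if (i : ℕ) + l = d then β else 0 := ⟨_, rfl⟩
  obtain ⟨g, hg⟩ : ∃ g : ℕ → UnitAddCircle, g = fun l => ∑ i, K i (b i l) := ⟨_, rfl⟩
  have hb0 : ∀ (i : Fin d) (l : ℕ), d < (i : ℕ) + l → b i l = 0 := by
    intro i l h
    rw [hb]
    simp only
    rw [dif_neg (by omega), if_neg (by omega)]
  -- one coordinate
  have h1 : ∀ (n : ℕ) (i : Fin d), K i (((una β)^[n] ξ) i) =
      ∑ l ∈ range (D + 1), n.choose l • K i (b i l) := by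
    intro n i
    rcases Nat.lt_or_ge (i : ℕ) m with hi | hi
    · have h2 : K i = 0 := hmin i hi i.2
      rw [h2]
      simp
    · rw [una_coord, map_add, map_sum, map_nsmul]
      have h3 : ∑ l ∈ range (D + 1), n.choose l • K i (b i l) =
          ∑ l ∈ range (d - (i : ℕ) + 1), n.choose l • K i (b i l) := by
        symm
        refine Finset.sum_subset (Finset.range_mono (by omega)) fun l _ hl => ?_
        rw [Finset.mem_range] at hl
        rw [hb0 i l (by omega), map_zero, smul_zero]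
      rw [h3, Finset.sum_range_succ]
      congr 1
      · refine Finset.sum_congr rfl fun l hl => ?_
        rw [Finset.mem_range] at hl
        have h4 : (i : ℕ) + l < d := by omega
        rw [map_nsmul, hb]
        simp only
        rw [dif_pos h4, dif_pos h4]
      · rw [hb]
        simp only
        have h5 : ¬ (i : ℕ) + (d - (i : ℕ)) < d := by omega
        rw [dif_neg h5, if_pos (by omega)]
  have h2 : ∀ n : ℕ, ∑ i, K i (((una β)^[n] ξ) i) = ∑ l ∈ range (D + 1), n.choose l • g l := by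
    intro n
    rw [Finset.sum_congr rfl fun i _ => h1 n i, Finset.sum_comm]
    refine Finset.sum_congr rfl fun l _ => ?_
    rw [hg, Finset.smul_sum]
  have h3 : g D = K ⟨m, hm⟩ β := by
    rw [hg]
    simp only
    rw [Finset.sum_eq_single (⟨m, hm⟩ : Fin d)]
    · congr 1
      rw [hb]
      simp only
      rw [dif_neg (by omega), if_pos (by omega)]
    · intro i _ hi
      rcases Nat.lt_trichotomy (i : ℕ) m with h | h | h
      · have h4 : K i = 0 := hmin i h i.2
        rw [h4]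
        rfl
      · exact absurd (Fin.ext h) hi
      · rw [hb0 i D (by omega), map_zero]
    · intro h
      exact absurd (Finset.mem_univ _) h
  have h4 : ∀ l : ℕ, ∃ r : ℝ, (r : UnitAddCircle) = g l := fun l => QuotientAddGroup.mk_surjective (g l)
  choose c hc using h4
  have h5 : Irrational (c D) := by
    refine irr_of (c D) fun n hn => ?_
    rw [hc, h3]
    exact hfree _ hKm n hn
  have h6 := weyl_bin D (by omega) c h5
  refine h6.congr fun N => ?_
  congr 1
  refine Finset.sum_congr rfl fun n _ => ?_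
  rw [h2, ← ec_coe, uwl_lift]
  congr 1
  refine Finset.sum_congr rfl fun l _ => ?_
  rw [hc]
-- END uwl

-- BEGIN ecr
/-- ROW ecr. CRITERION. For an invariant set `s` let `f = 1_s - μ(s)`: `∫ f E = ∫ f (E ∘ σ^n) = ∫ f (average of E) → ∫ f ∫ E = 0`
(Cauchy-Schwarz or dominated bound `|f| ≤ 1`), so `f = 0` a.e. -/
theorem erg_crit {X : Type*} [MeasurableSpace X] (μ : Measure X) [IsProbabilityMeasure μ] (σ : X → X)
    (hσ : MeasurePreserving σ μ μ) (𝒞 : Set (X → ℂ)) (hm : ∀ E ∈ 𝒞, Measurable E)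
    (hb : ∀ E ∈ 𝒞, ∃ B : ℝ, ∀ x, ‖E x‖ ≤ B)
    (hav : ∀ E ∈ 𝒞, Tendsto (fun N : ℕ => ∫ x, ‖(∑ n ∈ range N, E (σ^[n] x)) / (N : ℂ) -
      ∫ x', E x' ∂μ‖ ^ 2 ∂μ) atTop (𝓝 0))
    (htot : ∀ f : X → ℂ, Measurable f → (∃ B : ℝ, ∀ x, ‖f x‖ ≤ B) →
      (∀ E ∈ 𝒞, ∫ x, f x * E x ∂μ = 0) → f =ᵐ[μ] 0) : Ergodic σ μ := by
  refine ⟨hσ, ⟨?_⟩⟩
  intro s hs hinv
  obtain ⟨c, hc⟩ : ∃ c : ℂ, c = ((μ.real s : ℝ) : ℂ) := ⟨_, rfl⟩
  have hc1 : ‖c‖ ≤ 1 := by
    rw [hc, Complex.norm_real, Real.norm_of_nonneg measureReal_nonneg]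
    exact measureReal_le_one
  obtain ⟨f, hf⟩ : ∃ f : X → ℂ, f = fun x => s.indicator (fun _ => (1 : ℂ)) x - c := ⟨_, rfl⟩
  have hfm : Measurable f := by
    rw [hf]
    exact (measurable_const.indicator hs).sub measurable_const
  have hfb : ∀ x, ‖f x‖ ≤ 2 := by
    intro x
    have h1 : ‖s.indicator (fun _ => (1 : ℂ)) x‖ ≤ 1 := by
      by_cases hx : x ∈ s
      · rw [Set.indicator_of_mem hx]
        simp
      · rw [Set.indicator_of_notMem hx]
        simp
    rw [hf]
    calc ‖s.indicator (fun _ => (1 : ℂ)) x - c‖ ≤ ‖s.indicator (fun _ => (1 : ℂ)) x‖ + ‖c‖ :=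
          norm_sub_le _ _
      _ ≤ 2 := by linarith
  have hfσ : ∀ x, f (σ x) = f x := by
    intro x
    have h1 : σ x ∈ s ↔ x ∈ s := by
      rw [← Set.mem_preimage, hinv]
    rw [hf]
    by_cases hx : x ∈ s
    · simp only [Set.indicator_of_mem hx, Set.indicator_of_mem (h1.mpr hx)]
    · simp only [Set.indicator_of_notMem hx, Set.indicator_of_notMem (fun h => hx (h1.mp h))]
  have hfn : ∀ (n : ℕ) x, f (σ^[n] x) = f x := by
    intro n
    induction n with
    | zero => intro x; rfl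
    | succ n ih =>
      intro x
      rw [Function.iterate_succ_apply', hfσ, ih]
  have hind : Integrable (s.indicator fun _ => (1 : ℂ)) μ := (integrable_const _).indicator hs
  have hf0 : ∫ x, f x ∂μ = 0 := by
    rw [hf, integral_sub hind (integrable_const _), integral_indicator hs]
    simp [hc]
  have key : ∀ E ∈ 𝒞, ∫ x, f x * E x ∂μ = 0 := by
    intro E hE
    obtain ⟨B0, hB0⟩ := hb E hE
    obtain ⟨B, hB, hBn⟩ : ∃ B : ℝ, (∀ x, ‖E x‖ ≤ B) ∧ 0 ≤ B :=
      ⟨max B0 0, fun x => (hB0 x).trans (le_max_left _ _), le_max_right _ _⟩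
    have hEm := hm E hE
    have hEn : ∀ n : ℕ, Measurable fun x => E (σ^[n] x) := fun n =>
      hEm.comp (hσ.measurable.iterate n)
    have hint : ∀ n : ℕ, ∫ x, f x * E (σ^[n] x) ∂μ = ∫ x, f x * E x ∂μ := by
      intro n
      have h1 : ∫ x, f x * E x ∂μ = ∫ x, f (σ^[n] x) * E (σ^[n] x) ∂μ := by
        have h2 := integral_map (μ := μ) (hσ.iterate n).measurable.aemeasurable
          (f := fun x => f x * E x) (hfm.mul hEm).aestronglyMeasurable
        rw [(hσ.iterate n).map_eq] at h2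
        exact h2
      rw [h1]
      simp only [hfn]
    obtain ⟨e, he⟩ : ∃ e : ℂ, e = ∫ x', E x' ∂μ := ⟨_, rfl⟩
    obtain ⟨A, hA⟩ : ∃ A : ℕ → X → ℂ, A = fun N x => (∑ n ∈ range N, E (σ^[n] x)) / (N : ℂ) :=
      ⟨_, rfl⟩
    have hAm : ∀ N, Measurable (A N) := by
      intro N
      rw [hA]
      exact (Finset.measurable_sum _ fun n _ => hEn n).div_const _
    have hAb : ∀ N x, ‖A N x‖ ≤ B := by
      intro N x
      rw [hA]
      simp only [norm_div, Complex.norm_natCast]
      rcases Nat.eq_zero_or_pos N with hN | hN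
      · subst hN
        simpa using hBn
      · have hN' : (0 : ℝ) < N := by exact_mod_cast hN
        rw [div_le_iff₀ hN']
        calc ‖∑ n ∈ range N, E (σ^[n] x)‖ ≤ ∑ n ∈ range N, ‖E (σ^[n] x)‖ := norm_sum_le _ _
          _ ≤ ∑ _n ∈ range N, B := Finset.sum_le_sum fun n _ => hB _
          _ = B * N := by rw [Finset.sum_const, Finset.card_range, nsmul_eq_mul, mul_comm]
    have hfE : ∀ n : ℕ, Integrable (fun x => f x * E (σ^[n] x)) μ := fun n =>
      Integrable.of_bound (hfm.mul (hEn n)).aestronglyMeasurable (2 * B)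
        (Eventually.of_forall fun x => by
          rw [norm_mul]
          exact mul_le_mul (hfb x) (hB _) (norm_nonneg _) (by norm_num))
    have hfA : ∀ N : ℕ, Integrable (fun x => f x * A N x) μ := fun N =>
      Integrable.of_bound (hfm.mul (hAm N)).aestronglyMeasurable (2 * B)
        (Eventually.of_forall fun x => by
          rw [norm_mul]
          exact mul_le_mul (hfb x) (hAb _ _) (norm_nonneg _) (by norm_num))
    have hfi : Integrable f μ :=
      Integrable.of_bound hfm.aestronglyMeasurable 2 (Eventually.of_forall hfb)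
    have hrep : ∀ N : ℕ, 1 ≤ N → ∫ x, f x * E x ∂μ = ∫ x, f x * (A N x - e) ∂μ := by
      intro N hN
      have hN' : (N : ℂ) ≠ 0 := by
        have : N ≠ 0 := by omega
        exact_mod_cast this
      have h1 : ∫ x, f x * (A N x - e) ∂μ = ∫ x, f x * A N x ∂μ - ∫ x, f x * e ∂μ := by
        rw [← integral_sub (hfA N) (hfi.mul_const e)]
        congr 1
        funext x
        ring
      have h2 : ∫ x, f x * e ∂μ = 0 := by
        rw [integral_mul_const, hf0, zero_mul]
      have h3 : ∫ x, f x * A N x ∂μ = ∫ x, f x * E x ∂μ := by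
        have h4 : (fun x => f x * A N x) = fun x =>
            (N : ℂ)⁻¹ * ∑ n ∈ range N, f x * E (σ^[n] x) := by
          funext x
          rw [← Finset.mul_sum, hA]
          show f x * ((∑ n ∈ range N, E (σ^[n] x)) / (N : ℂ)) = _
          rw [div_eq_mul_inv]
          ring
        rw [h4, integral_const_mul, integral_finsetSum _ fun n _ => hfE n,
          Finset.sum_congr rfl fun n _ => hint n, Finset.sum_const, Finset.card_range,
          nsmul_eq_mul, ← mul_assoc, inv_mul_cancel₀ hN', one_mul]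
      rw [h1, h2, h3, sub_zero]
    have hlim := hav E hE
    have hJ : ∀ N : ℕ, Integrable (fun x => ‖A N x - e‖ ^ 2) μ := fun N =>
      Integrable.of_bound (((hAm N).sub measurable_const).norm.pow_const 2).aestronglyMeasurable
        ((B + ‖e‖) ^ 2) (Eventually.of_forall fun x => by
          rw [Real.norm_of_nonneg (by positivity)]
          exact pow_le_pow_left₀ (norm_nonneg _)
            ((norm_sub_le _ _).trans (add_le_add (hAb N x) le_rfl)) 2)
    have hbd : ∀ ε : ℝ, 0 < ε → ∀ N : ℕ, 1 ≤ N →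
        ‖∫ x, f x * E x ∂μ‖ ≤ 2 * ε + 2 / ε * ∫ x, ‖A N x - e‖ ^ 2 ∂μ := by
      intro ε hε N hN
      rw [hrep N hN]
      have h1 : Integrable (fun x => 2 * ε + 2 / ε * ‖A N x - e‖ ^ 2) μ :=
        (integrable_const _).add ((hJ N).const_mul _)
      calc ‖∫ x, f x * (A N x - e) ∂μ‖ ≤ ∫ x, (2 * ε + 2 / ε * ‖A N x - e‖ ^ 2) ∂μ := by
            apply norm_integral_le_of_norm_le h1
            refine Eventually.of_forall fun x => ?_
            rw [norm_mul]
            have h2 : ‖A N x - e‖ ≤ ε + ‖A N x - e‖ ^ 2 / ε := by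
              rcases le_or_gt ‖A N x - e‖ ε with h | h
              · have : 0 ≤ ‖A N x - e‖ ^ 2 / ε := by positivity
                linarith
              · have h3 : ‖A N x - e‖ ≤ ‖A N x - e‖ ^ 2 / ε := by
                  rw [le_div_iff₀ hε, sq]
                  exact mul_le_mul_of_nonneg_left h.le (norm_nonneg _)
                linarith
            calc ‖f x‖ * ‖A N x - e‖ ≤ 2 * (ε + ‖A N x - e‖ ^ 2 / ε) :=
                  mul_le_mul (hfb x) h2 (norm_nonneg _) (by norm_num)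
              _ = 2 * ε + 2 / ε * ‖A N x - e‖ ^ 2 := by ring
        _ = 2 * ε + 2 / ε * ∫ x, ‖A N x - e‖ ^ 2 ∂μ := by
            rw [integral_add (integrable_const _) ((hJ N).const_mul _), integral_const_mul (2 / ε)]
            simp
    have hle : ∀ ε : ℝ, 0 < ε → ‖∫ x, f x * E x ∂μ‖ ≤ 2 * ε := by
      intro ε hε
      have h1 : Tendsto (fun N : ℕ => 2 * ε + 2 / ε * ∫ x, ‖A N x - e‖ ^ 2 ∂μ) atTop
          (𝓝 (2 * ε + 2 / ε * 0)) := by
        apply Tendsto.const_add
        apply Tendsto.const_mul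
        rw [hA, he]
        exact hlim
      rw [mul_zero, add_zero] at h1
      exact ge_of_tendsto h1 (eventually_atTop.mpr ⟨1, fun N hN => hbd ε hε N hN⟩)
    rw [← norm_le_zero_iff]
    apply le_of_forall_pos_le_add
    intro δ hδ
    have := hle (δ / 2) (by positivity)
    linarith
  have hfz := htot f hfm ⟨2, hfb⟩ key
  rw [eventuallyConst_set']
  by_cases hc2 : c = 1
  · right
    filter_upwards [hfz] with x hx
    have hxs : x ∈ s := by
      by_contra hxs
      rw [hf] at hx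
      simp only [Set.indicator_of_notMem hxs, Pi.zero_apply] at hx
      rw [hc2] at hx
      norm_num at hx
    exact propext ⟨fun _ => trivial, fun _ => hxs⟩
  · left
    filter_upwards [hfz] with x hx
    have hxs : x ∉ s := by
      intro hxs
      rw [hf] at hx
      simp only [Set.indicator_of_mem hxs, Pi.zero_apply] at hx
      exact hc2 (sub_eq_zero.mp hx).symm
    exact propext ⟨fun h => hxs h, fun h => h.elim⟩
-- END ecr

-- BEGIN uer
private theorem uer_cont {d : ℕ} (K : Fin d → (V →ₜ+ UnitAddCircle)) :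
    Continuous (fun ξ : Fin d → V => ec (∑ i, K i (ξ i))) :=
  ec_cont.comp (continuous_finsetSum _ fun i _ => (K i).continuous_toFun.comp (continuous_apply i))

private theorem uer_int (m : Measure V) [m.IsAddHaarMeasure] [IsProbabilityMeasure m] {d : ℕ}
    (K : Fin d → (V →ₜ+ UnitAddCircle)) (hK : K ≠ 0) :
    ∫ ξ : Fin d → V, ec (∑ i, K i (ξ i)) ∂(Measure.pi fun _ => m) = 0 := by
  obtain ⟨i0, hi0⟩ : ∃ i, K i ≠ 0 := by
    by_contra hcon
    push Not at hcon
    exact hK (funext hcon)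
  have h1 : ∀ ξ : Fin d → V, ec (∑ i, K i (ξ i)) = ∏ i, ec (K i (ξ i)) := fun ξ => ec_sum _ _
  simp only [h1]
  rw [integral_fintype_prod_eq_prod (fun i v => ec (K i v))]
  exact Finset.prod_eq_zero (Finset.mem_univ i0) (int_chr m (K i0) hi0)

private theorem uer_av (m : Measure V) [m.IsAddHaarMeasure] [IsProbabilityMeasure m] {d : ℕ} (β : V)
    (hfree : ∀ χ : V →ₜ+ UnitAddCircle, χ ≠ 0 → ∀ n : ℕ, 1 ≤ n → n • χ β ≠ 0)
    (K : Fin d → (V →ₜ+ UnitAddCircle)) (ξ : Fin d → V) :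
    Tendsto (fun N : ℕ => (∑ n ∈ range N, ec (∑ i, K i (((una β)^[n] ξ) i))) / (N : ℂ)) atTop
      (𝓝 (∫ ξ' : Fin d → V, ec (∑ i, K i (ξ' i)) ∂(Measure.pi fun _ => m))) := by
  by_cases hK : K = 0
  · subst hK
    have h1 : ∀ ξ : Fin d → V, ec (∑ i, (0 : Fin d → (V →ₜ+ UnitAddCircle)) i (ξ i)) = 1 := by
      intro ξ
      have h2 : ∑ i, (0 : Fin d → (V →ₜ+ UnitAddCircle)) i (ξ i) = 0 :=
        Finset.sum_eq_zero fun i _ => rfl
      rw [h2]
      exact ec_zero
    simp only [h1]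
    rw [integral_const, probReal_univ, one_smul]
    refine tendsto_const_nhds.congr' ?_
    filter_upwards [eventually_ge_atTop 1] with N hN
    have hN' : (N : ℂ) ≠ 0 := by
      have : N ≠ 0 := by omega
      exact_mod_cast this
    rw [Finset.sum_const, Finset.card_range, nsmul_eq_mul, mul_one, div_self hN']
  · rw [uer_int m K hK]
    exact una_weyl β hfree K hK ξ

private theorem uer_tot (m : Measure V) [m.IsAddHaarMeasure] [IsProbabilityMeasure m]
    (hsep : ∀ v : V, v ≠ 0 → ∃ χ : V →ₜ+ UnitAddCircle, χ v ≠ 0) {d : ℕ}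
    (f : (Fin d → V) → ℂ) (hf : Measurable f) (hfb : ∃ B : ℝ, ∀ x, ‖f x‖ ≤ B)
    (h0 : ∀ K : Fin d → (V →ₜ+ UnitAddCircle),
      ∫ x, f x * ec (∑ i, K i (x i)) ∂(Measure.pi fun _ => m) = 0) :
    f =ᵐ[Measure.pi fun _ => m] 0 := by
  classical
  obtain ⟨B, hB⟩ := hfb
  refine chr_total (V := Fin d → V) (Measure.pi fun _ => m) ?_ f
    (MemLp.of_bound hf.aestronglyMeasurable B (Eventually.of_forall hB)) ?_
  · intro ξ hξ
    obtain ⟨i, hi⟩ : ∃ i, ξ i ≠ 0 := by
      by_contra hcon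
      push Not at hcon
      exact hξ (funext hcon)
    obtain ⟨χ, hχ⟩ := hsep (ξ i) hi
    refine ⟨⟨χ.toAddMonoidHom.comp (Pi.evalAddMonoidHom (fun _ : Fin d => V) i),
      χ.continuous_toFun.comp (continuous_apply i)⟩, hχ⟩
  · intro χ
    have h1 : ∀ x : Fin d → V, χ x = ∑ i, χ (Pi.single i (x i)) := by
      intro x
      rw [← map_sum]
      congr 1
      exact (Finset.univ_sum_single x).symm
    have h2 := h0 (fun i => ⟨χ.toAddMonoidHom.comp (AddMonoidHom.single (fun _ : Fin d => V) i),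
      χ.continuous_toFun.comp (continuous_single (A := fun _ : Fin d => V) i)⟩)
    rw [← h2]
    refine integral_congr_ae (Eventually.of_forall fun x => ?_)
    change f x * ec (χ x) = f x * ec (∑ i, χ (Pi.single i (x i)))
    rw [h1 x]

/-- ROW uer. ERGODICITY OF T: `erg_crit` with the functions `xi ↦ ec (sum_i K_i (xi_i))`: averages converge pointwise by
`una_weyl` (`K = 0`: constant 1; the integral for `K ≠ 0` is 0 by `integral_fintype_prod_eq_prod`, `int_chr`) and boundedly;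
totality: `chr_total` for the group `Fin d → V` (its characters are `sum_i K_i (xi_i)`, `K_i = chi ∘ single i`; `hsep` for it from a
non zero coordinate). -/
theorem una_erg (m : Measure V) [m.IsAddHaarMeasure] [IsProbabilityMeasure m]
    (hsep : ∀ v : V, v ≠ 0 → ∃ χ : V →ₜ+ UnitAddCircle, χ v ≠ 0) {d : ℕ} (β : V)
    (hfree : ∀ χ : V →ₜ+ UnitAddCircle, χ ≠ 0 → ∀ n : ℕ, 1 ≤ n → n • χ β ≠ 0) :
    Ergodic (una β : (Fin d → V) → Fin d → V) (Measure.pi fun _ => m) := by
  have hmp := una_mp (d := d) m β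
  refine erg_crit (Measure.pi fun _ => m) (una β) hmp
    {E | ∃ K : Fin d → (V →ₜ+ UnitAddCircle), E = fun ξ => ec (∑ i, K i (ξ i))} ?_ ?_ ?_ ?_
  · rintro E ⟨K, rfl⟩
    exact (uer_cont K).measurable
  · rintro E ⟨K, rfl⟩
    exact ⟨1, fun x => (norm_ec _).le⟩
  · rintro E ⟨K, rfl⟩
    have hav := fun ξ => uer_av m β hfree K ξ
    have hc : ‖∫ ξ' : Fin d → V, ec (∑ i, K i (ξ' i)) ∂(Measure.pi fun _ => m)‖ ≤ 1 := by
      refine (norm_integral_le_of_norm_le_const (C := 1)
        (Eventually.of_forall fun x => (norm_ec _).le)).trans ?_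
      rw [probReal_univ, mul_one]
    have hA : ∀ (N : ℕ) (ξ : Fin d → V),
        ‖(∑ n ∈ range N, ec (∑ i, K i (((una β)^[n] ξ) i))) / (N : ℂ)‖ ≤ 1 := by
      intro N ξ
      rw [norm_div, Complex.norm_natCast]
      refine div_le_one_of_le₀ ?_ (Nat.cast_nonneg N)
      refine (norm_sum_le _ _).trans ?_
      simp only [norm_ec, Finset.sum_const, Finset.card_range, nsmul_eq_mul, mul_one, le_refl]
    have hmeas : ∀ N : ℕ, Measurable (fun ξ : Fin d → V =>
        (∑ n ∈ range N, ec (∑ i, K i (((una β)^[n] ξ) i))) / (N : ℂ)) := by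
      intro N
      refine Measurable.div_const (Finset.measurable_sum _ fun n _ => ?_) _
      exact (uer_cont K).measurable.comp (hmp.measurable.iterate n)
    have hlim := tendsto_integral_of_dominated_convergence (μ := Measure.pi fun _ : Fin d => m)
      (F := fun (N : ℕ) (ξ : Fin d → V) =>
        ‖(∑ n ∈ range N, ec (∑ i, K i (((una β)^[n] ξ) i))) / (N : ℂ) -
          ∫ ξ' : Fin d → V, ec (∑ i, K i (ξ' i)) ∂(Measure.pi fun _ => m)‖ ^ 2)
      (f := fun _ => (0 : ℝ)) (fun _ => (4 : ℝ))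
      (fun N => (((hmeas N).sub_const _).norm.pow_const 2).aestronglyMeasurable)
      (integrable_const _)
      (fun N => Eventually.of_forall fun ξ => by
        rw [Real.norm_of_nonneg (by positivity)]
        have h1 := (norm_sub_le ((∑ n ∈ range N, ec (∑ i, K i (((una β)^[n] ξ) i))) / (N : ℂ))
          (∫ ξ' : Fin d → V, ec (∑ i, K i (ξ' i)) ∂(Measure.pi fun _ => m))).trans
          (add_le_add (hA N ξ) hc)
        have h2 := pow_le_pow_left₀ (norm_nonneg _) h1 2
        linarith)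
      (Eventually.of_forall fun ξ => by
        have h1 := ((hav ξ).sub_const
          (∫ ξ' : Fin d → V, ec (∑ i, K i (ξ' i)) ∂(Measure.pi fun _ => m))).norm.pow 2
        rw [sub_self, norm_zero, zero_pow two_ne_zero] at h1
        exact h1)
    rw [integral_zero] at hlim
    exact hlim
  · intro f hf hfb h0
    exact uer_tot m hsep f hf hfb fun K => h0 _ ⟨K, rfl⟩
-- END uer

-- BEGIN met
private theorem met_int {X : Type*} [MeasurableSpace X] {E : Type*} [NormedAddCommGroup E]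
    [NormedSpace ℝ E] [MeasurableSpace E] [BorelSpace E] [SecondCountableTopology E] (ω : Measure X)
    (T : X → X) (hT : MeasurePreserving T ω ω) (f : X → E) (hf : Measurable f) :
    ∫ w, f (T w) ∂ω = ∫ w, f w ∂ω := by
  have h1 := integral_map (μ := ω) hT.measurable.aemeasurable (f := f)
    (hf.stronglyMeasurable.aestronglyMeasurable)
  rw [hT.map_eq] at h1
  exact h1.symm

private theorem met_sq {X : Type*} [MeasurableSpace X] (ω : Measure X) (x : Lp ℂ 2 ω) :
    ‖x‖ ^ 2 = ∫ w, ‖(x : X → ℂ) w‖ ^ 2 ∂ω := by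
  have h1 := @inner_self_eq_norm_sq_to_K ℂ (Lp ℂ 2 ω) _ _ _ x
  rw [L2.inner_def] at h1
  have h2 : ∀ w, inner ℂ ((x : X → ℂ) w) ((x : X → ℂ) w) = ((‖(x : X → ℂ) w‖ ^ 2 : ℝ) : ℂ) := by
    intro w
    rw [inner_self_eq_norm_sq_to_K]
    push_cast
    rfl
  simp only [h2] at h1
  rw [integral_complex_ofReal] at h1
  have h3 : ((∫ w, ‖(x : X → ℂ) w‖ ^ 2 ∂ω : ℝ) : ℂ) = ((‖x‖ ^ 2 : ℝ) : ℂ) := by
    rw [h1]
    push_cast
    rfl
  exact (Complex.ofReal_injective h3).symm

/-- ROW met. Mean ergodic theorem for a bounded function: compare `mean_ergodic` / `GB1` in GsF/Ga.lean (there for an invertible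
map; Mathlib `ContinuousLinearMap.tendsto_birkhoffAverage_orthogonalProjection` for the isometry `f ↦ f ∘ σ` of L^2; the projection on the
fixed functions is the integral by ergodicity). -/
theorem mean_erg {X : Type*} [MeasurableSpace X] (μ : Measure X) [IsProbabilityMeasure μ] (σ : X → X)
    (hσ : Ergodic σ μ) (F : X → ℂ) (hF : Measurable F) (B : ℝ) (hB : ∀ x, ‖F x‖ ≤ B) :
    Tendsto (fun N : ℕ => ∫ x, ‖(∑ n ∈ range N, F (σ^[n] x)) / (N : ℂ) -
      ∫ x', F x' ∂μ‖ ^ 2 ∂μ) atTop (𝓝 0) := by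
  have hmem : MemLp F 2 μ := MemLp.of_bound hF.aestronglyMeasurable B (Filter.Eventually.of_forall hB)
  have hmp : MeasurePreserving σ μ μ := hσ.toMeasurePreserving
  let U : Lp ℂ 2 μ →ₗᵢ[ℂ] Lp ℂ 2 μ := Lp.compMeasurePreservingₗᵢ ℂ σ hmp
  let F0 : Lp ℂ 2 μ := hmem.toLp F
  have hUn : ‖U.toContinuousLinearMap‖ ≤ 1 := U.norm_toContinuousLinearMap_le
  have hlim := U.toContinuousLinearMap.tendsto_birkhoffAverage_orthogonalProjection hUn F0
  set G' := (U.toContinuousLinearMap.eqLocus (1 : Lp ℂ 2 μ →L[ℂ] Lp ℂ 2 μ)).orthogonalProjectionOnto F0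
    with hG'
  set G : Lp ℂ 2 μ := (G' : Lp ℂ 2 μ) with hG
  have hGfix : Lp.compMeasurePreserving σ hmp G = G := G'.2
  have hGR : (G : X → ℂ) ∘ σ =ᵐ[μ] (G : X → ℂ) := by
    have h1 := Lp.coeFn_compMeasurePreserving G hmp
    rw [hGfix] at h1
    exact h1.symm
  obtain ⟨c, hc⟩ := hσ.ae_eq_const_of_ae_eq_comp_ae (Lp.aestronglyMeasurable G) hGR
  have hiter : ∀ n : ℕ, ((U.toContinuousLinearMap : Lp ℂ 2 μ → Lp ℂ 2 μ)^[n] F0 : X → ℂ) =ᵐ[μ]
      fun w => F (σ^[n] w) := by
    intro n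
    have h1 : (U.toContinuousLinearMap : Lp ℂ 2 μ → Lp ℂ 2 μ)^[n] =
        Lp.compMeasurePreserving σ^[n] (hmp.iterate n) := Lp.compMeasurePreserving_iterate hmp n
    rw [h1]
    have h2 := Lp.coeFn_compMeasurePreserving F0 (hmp.iterate n)
    have h3 : (F0 : X → ℂ) ∘ σ^[n] =ᵐ[μ] F ∘ σ^[n] :=
      (hmp.iterate n).quasiMeasurePreserving.ae_eq_comp hmem.coeFn_toLp
    filter_upwards [h2, h3] with w hw1 hw2
    rw [hw1, hw2]
    rfl
  set A : ℕ → Lp ℂ 2 μ := fun N =>
    birkhoffAverage ℂ (⇑U.toContinuousLinearMap) (_root_.id : Lp ℂ 2 μ → Lp ℂ 2 μ) N F0 with hA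
  have hav : ∀ N : ℕ, (A N : X → ℂ) =ᵐ[μ] fun w => (∑ n ∈ range N, F (σ^[n] w)) / (N : ℂ) := by
    intro N
    have h1 : ∀ᵐ w ∂μ, ∀ n ∈ range N,
        ((⇑U.toContinuousLinearMap)^[n] F0 : X → ℂ) w = F (σ^[n] w) :=
      (Filter.eventually_all_finset _).2 fun n _ => hiter n
    have h2 := Lp.coeFn_smul ((N : ℂ)⁻¹) (∑ n ∈ range N, (⇑U.toContinuousLinearMap)^[n] F0)
    have h3 := Lp.coeFn_fun_finsetSum (range N) fun n => (⇑U.toContinuousLinearMap)^[n] F0
    filter_upwards [h1, h2, h3] with w hw1 hw2 hw3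
    show (((N : ℂ)⁻¹ • ∑ n ∈ range N, (⇑U.toContinuousLinearMap)^[n] F0 : Lp ℂ 2 μ) : X → ℂ) w = _
    rw [hw2, Pi.smul_apply, hw3, Finset.sum_congr rfl hw1, smul_eq_mul, div_eq_inv_mul]
  have hlim' : Tendsto A atTop (𝓝 G) := hlim
  have hone : ∀ x : Lp ℂ 2 μ, inner ℂ ((memLp_const (1 : ℂ)).toLp (fun _ : X => (1 : ℂ)) : Lp ℂ 2 μ) x =
      ∫ w, (x : X → ℂ) w ∂μ := by
    intro x
    rw [L2.inner_def]
    refine integral_congr_ae ?_
    filter_upwards [(memLp_const (1 : ℂ) (μ := μ) (p := 2)).coeFn_toLp] with w hw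
    rw [hw]
    simp
  have hint : ∀ N : ℕ, 1 ≤ N → ∫ w, (A N : X → ℂ) w ∂μ = ∫ w, F w ∂μ := by
    intro N hN
    rw [integral_congr_ae (hav N), integral_div, integral_finsetSum]
    · have hs : ∀ n ∈ range N, ∫ w, F (σ^[n] w) ∂μ = ∫ w, F w ∂μ := fun n _ =>
        met_int μ σ^[n] (hmp.iterate n) F hF
      rw [Finset.sum_congr rfl hs, Finset.sum_const, Finset.card_range, nsmul_eq_mul]
      have : (N : ℂ) ≠ 0 := Nat.cast_ne_zero.2 (by omega)
      field_simp
    · intro n _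
      exact Integrable.of_bound (hF.comp (hmp.iterate n).measurable).aestronglyMeasurable B
        (Filter.Eventually.of_forall fun w => hB _)
  have hc2 : c = ∫ w, F w ∂μ := by
    have h1 : Tendsto (fun N => ∫ w, (A N : X → ℂ) w ∂μ) atTop (𝓝 (∫ w, (G : X → ℂ) w ∂μ)) := by
      have h2 := (tendsto_const_nhds (x := ((memLp_const (1 : ℂ)).toLp (fun _ : X => (1 : ℂ)) :
        Lp ℂ 2 μ))).inner (𝕜 := ℂ) hlim'
      simpa only [hone] using h2
    have h3 : Tendsto (fun N => ∫ w, (A N : X → ℂ) w ∂μ) atTop (𝓝 (∫ w, F w ∂μ)) := by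
      refine tendsto_const_nhds.congr' ?_
      filter_upwards [eventually_ge_atTop 1] with N hN
      exact (hint N hN).symm
    have h4 := tendsto_nhds_unique h1 h3
    rw [integral_congr_ae hc] at h4
    simpa using h4
  have hfin : ∀ N : ℕ, ∫ w, ‖(∑ n ∈ range N, F (σ^[n] w)) / (N : ℂ) - ∫ w', F w' ∂μ‖ ^ 2 ∂μ =
      ‖A N - G‖ ^ 2 := by
    intro N
    rw [met_sq]
    refine integral_congr_ae ?_
    filter_upwards [hav N, hc, Lp.coeFn_sub (A N) G] with w h1 h2 h3
    rw [h3, Pi.sub_apply, h1, h2, ← hc2]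
    rfl
  simp only [hfin]
  have h5 : Tendsto (fun N => ‖A N - G‖) atTop (𝓝 0) := by
    have h6 := (hlim'.sub_const G).norm
    simpa using h6
  simpa using h5.pow 2
-- END met

-- BEGIN chl
/-- the character of the coordinate `i` -/
private noncomputable def chl_K (k : ℕ) (χ : Fin (k + 1) → (V →ₜ+ UnitAddCircle)) (i : ℕ) :
    V →ₜ+ UnitAddCircle where
  toFun := fun v => ∑ j : Fin (k + 1), Ring.choose (((j : ℕ) : ℤ)) i • χ j v
  map_zero' := by simp
  map_add' := fun v w => by simp [smul_add, Finset.sum_add_distrib]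
  continuous_toFun := by
    refine continuous_finsetSum _ fun j _ => ?_
    exact (χ j).continuous_toFun.zsmul _

private theorem chl_K_apply (k : ℕ) (χ : Fin (k + 1) → (V →ₜ+ UnitAddCircle)) (i : ℕ) (v : V) :
    chl_K k χ i v = ∑ j : Fin (k + 1), Ring.choose (((j : ℕ) : ℤ)) i • χ j v := rfl

private theorem chl_prod (k : ℕ) (χ : Fin (k + 1) → (V →ₜ+ UnitAddCircle)) {d : ℕ} (β : V)
    (ξ : Fin d → V) :
    ∏ j : Fin (k + 1), ec (χ j (xo β ξ ((j : ℕ) : ℤ))) =
      ec (∑ i : Fin d, chl_K k χ (i : ℕ) (ξ i)) * ec (chl_K k χ d β) := by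
  rw [← ec_sum, ← ec_add]
  congr 1
  have h1 : ∀ j : Fin (k + 1), χ j (xo β ξ ((j : ℕ) : ℤ)) =
      ∑ i : Fin d, Ring.choose (((j : ℕ) : ℤ)) (i : ℕ) • χ j (ξ i) +
        Ring.choose (((j : ℕ) : ℤ)) d • χ j β := by
    intro j
    unfold xo
    rw [map_add, map_sum, map_zsmul]
    congr 1
    exact Finset.sum_congr rfl fun i _ => map_zsmul _ _ _
  rw [Finset.sum_congr rfl fun j _ => h1 j, Finset.sum_add_distrib, Finset.sum_comm]
  rfl

/-- ROW chl. LIMITS FOR CHARACTERS on V. By `orbit`, `v + p(n+j) alpha = xo (T^n xi0) j`, and `sum_j chi_j (xo xi j) =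
sum_i K_i (xi_i) + (sum_j binom(j, d) chi_j)(beta)`, `K_i = sum_j binom(j, i) chi_j`. If `K = 0` both sides are the constant; if
`K ≠ 0` the left side tends to 0 (`una_weyl`) and the integral is 0 (`integral_fintype_prod_eq_prod`, `int_chr`). -/
theorem chr_lim (m : Measure V) [m.IsAddHaarMeasure] [IsProbabilityMeasure m] (p : ℤ[X])
    (hp : 1 ≤ p.natDegree) (α β : V) (hβ : β = ((p.natDegree.factorial : ℤ) * p.leadingCoeff) • α)
    (hfree : ∀ χ : V →ₜ+ UnitAddCircle, χ ≠ 0 → ∀ n : ℕ, 1 ≤ n → n • χ β ≠ 0)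
    (k : ℕ) (χ : Fin (k + 1) → (V →ₜ+ UnitAddCircle)) (v : V) :
    Tendsto (fun N : ℕ => (∑ n ∈ range N,
      ∏ j, ec (χ j (v + p.eval ((n : ℤ) + (j : ℕ)) • α))) / (N : ℂ)) atTop
      (𝓝 (∫ ξ : Fin p.natDegree → V, ∏ j, ec (χ j (xo β ξ ((j : ℕ) : ℤ))) ∂(Measure.pi fun _ => m))) := by
  obtain ⟨ξ0, hξ0⟩ := orbit p hp α v
  rw [← hβ] at hξ0
  obtain ⟨K, hK⟩ : ∃ K : Fin p.natDegree → (V →ₜ+ UnitAddCircle), K = fun i : Fin p.natDegree => chl_K k χ (i : ℕ) :=
    ⟨_, rfl⟩
  have hK1 : ∀ ξ : Fin p.natDegree → V, ∏ j, ec (χ j (xo β ξ ((j : ℕ) : ℤ))) =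
      ec (∑ i, K i (ξ i)) * ec (chl_K k χ p.natDegree β) := by
    intro ξ
    rw [chl_prod, hK]
  have hL : ∀ n : ℕ, ∏ j : Fin (k + 1), ec (χ j (v + p.eval ((n : ℤ) + (j : ℕ)) • α)) =
      ec (∑ i, K i (((una β)^[n] ξ0) i)) * ec (chl_K k χ p.natDegree β) := by
    intro n
    rw [← hK1]
    exact Finset.prod_congr rfl fun j _ => by rw [hξ0 n (j : ℕ)]
  simp only [hL, hK1]
  by_cases h0 : K = 0
  · have hc : ∀ ξ : Fin p.natDegree → V, ec (∑ i, K i (ξ i)) = 1 := by
      intro ξ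
      have : ∑ i, K i (ξ i) = 0 := Finset.sum_eq_zero fun i _ => by rw [h0]; rfl
      rw [this, ec_zero]
    simp only [hc, one_mul, integral_const, Finset.sum_const, Finset.card_range, nsmul_eq_mul]
    have h1 : (Measure.pi fun _ : Fin p.natDegree => m).real Set.univ = 1 := by
      simp
    rw [h1, one_smul]
    refine Tendsto.congr' ?_ tendsto_const_nhds
    filter_upwards [eventually_gt_atTop 0] with N hN
    have : (N : ℂ) ≠ 0 := by exact_mod_cast hN.ne'
    field_simp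
  · have h1 := una_weyl β hfree K h0 ξ0
    have h2 := h1.mul_const (ec (chl_K k χ p.natDegree β))
    rw [zero_mul] at h2
    have h3 : ∫ ξ : Fin p.natDegree → V, ec (∑ i, K i (ξ i)) * ec (chl_K k χ p.natDegree β)
        ∂(Measure.pi fun _ => m) = 0 := by
      rw [integral_mul_const]
      have h4 : ∫ ξ : Fin p.natDegree → V, ec (∑ i, K i (ξ i)) ∂(Measure.pi fun _ => m) = 0 := by
        simp only [ec_sum]
        rw [MeasureTheory.integral_fintype_prod_eq_prod (𝕜 := ℂ) (fun i (x : V) => ec (K i x))]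
        obtain ⟨i, hi⟩ : ∃ i, K i ≠ 0 := by
          by_contra hcon
          push Not at hcon
          exact h0 (funext hcon)
        exact Finset.prod_eq_zero (Finset.mem_univ i) (int_chr m (K i) hi)
      rw [h4, zero_mul]
    rw [h3]
    refine h2.congr fun N => ?_
    rw [← Finset.sum_mul]
    ring
-- END chl

end Pool.Agent.GsF
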