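import Pool.Agent.GsK.Kt

/-!
Conditional laws, the limit measure, its ergodicity, Furstenberg systems.
-/

set_option autoImplicit false

namespace Pool.Agent.GsF

open Finset MeasureTheory Filter Topology ProbabilityTheory Polynomial

-- BEGIN sit
/-- ROW sit. -/
theorem shD_iter {D : Type*} (n : ℕ) (z : ℤ → D) (j : ℤ) : (shD^[n] z) j = z (j + n) := by
  induction n generalizing z with
  | zero => simp
  | succ n ih =>
    rw [Function.iterate_succ_apply, ih]
    unfold shD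
    congr 1
    push_cast
    ring
-- END sit

-- BEGIN fdk
private theorem fdk_int {𝕜 : Type*} [RCLike 𝕜] {X : Type*} [TopologicalSpace X] [CompactSpace X]
    [MeasurableSpace X] [BorelSpace X] (μ : Measure X) [IsProbabilityMeasure μ] (φ : C(X, 𝕜)) :
    Integrable (fun z => φ z) μ :=
  Integrable.of_bound φ.continuous.measurable.aestronglyMeasurable ‖φ‖
    (Filter.Eventually.of_forall fun z => φ.norm_coe_le_norm z)

private theorem fdk_closed {𝕜 : Type*} [RCLike 𝕜] {X : Type*} [TopologicalSpace X] [CompactSpace X]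
    [MeasurableSpace X] [BorelSpace X] (μ : Measure X) [IsProbabilityMeasure μ] (p : ℕ → X) :
    IsClosed {φ : C(X, 𝕜) | Tendsto (fun N : ℕ => (∑ n ∈ Finset.Icc 1 N, φ (p n)) / (N : 𝕜)) atTop
      (𝓝 (∫ z, φ z ∂μ))} := by
  have hlip : ∀ N : ℕ, LipschitzWith 1
      (fun φ : C(X, 𝕜) => (∑ n ∈ Finset.Icc 1 N, φ (p n)) / (N : 𝕜)) := by
    intro N
    refine LipschitzWith.mk_one fun φ φ' => ?_
    rw [dist_eq_norm, dist_eq_norm, ← sub_div, ← Finset.sum_sub_distrib, norm_div,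
      RCLike.norm_natCast]
    rcases Nat.eq_zero_or_pos N with h0 | h0
    · rw [h0]
      simp
    · have hN : (0 : ℝ) < N := by exact_mod_cast h0
      rw [div_le_iff₀ hN]
      refine (norm_sum_le _ _).trans ?_
      have h1 : ∀ n ∈ Finset.Icc 1 N, ‖φ (p n) - φ' (p n)‖ ≤ ‖φ - φ'‖ := fun n _ =>
        (φ - φ').norm_coe_le_norm (p n)
      refine (Finset.sum_le_sum h1).trans ?_
      rw [Finset.sum_const, Nat.card_Icc, nsmul_eq_mul]
      rw [Nat.add_sub_cancel, mul_comm]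
  have hF := (LipschitzWith.uniformEquicontinuous _ 1 hlip).equicontinuous
  have hf : Continuous (fun φ : C(X, 𝕜) => ∫ z, φ z ∂μ) := by
    refine (LipschitzWith.mk_one fun φ φ' => ?_ : LipschitzWith 1 _).continuous
    rw [dist_eq_norm, dist_eq_norm, ← integral_sub (fdk_int μ φ) (fdk_int μ φ')]
    refine (norm_integral_le_of_norm_le_const (C := ‖φ - φ'‖)
      (Filter.Eventually.of_forall fun z => (φ - φ').norm_coe_le_norm z)).trans ?_
    simp
  exact Equicontinuous.isClosed_setOfPred_tendsto hF hf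

private theorem fdk_reindex {M : Type*} [CommMonoid M] (K : ℕ) (f : ℤ → M) :
    ∏ j ∈ Finset.Icc (-(K : ℤ)) K, f j =
      ∏ i : Fin (2 * K + 1), f (-(K : ℤ) + ((i : ℕ) : ℤ)) := by
  rw [← Finset.prod_range (fun i : ℕ => f (-(K : ℤ) + (i : ℤ)))]
  symm
  refine Finset.prod_bij (fun i _ => -(K : ℤ) + (i : ℤ)) ?_ ?_ ?_ ?_
  · intro i hi
    rw [Finset.mem_range] at hi
    rw [Finset.mem_Icc]
    omega
  · intro i _ j _ hij
    omega
  · intro j hj
    rw [Finset.mem_Icc] at hj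
    refine ⟨(j + K).toNat, ?_, ?_⟩
    · rw [Finset.mem_range]
      omega
    · omega
  · intro i _
    rfl

private theorem fdk_form {D : Type*} [TopologicalSpace D] (f : C((ℤ → D), ℝ))
    (hf : f ∈ Submonoid.closure {f : C((ℤ → D), ℝ) | ∃ (j : ℤ) (ψ : C(D, ℝ)),
      f = ψ.comp ⟨fun z => z j, continuous_apply j⟩}) :
    ∃ (K0 : ℕ) (ψ : ℤ → C(D, ℝ)), ∀ K : ℕ, K0 ≤ K → ∀ z, f z =
      ∏ j ∈ Finset.Icc (-(K : ℤ)) K, ψ j (z j) := by
  classical
  refine Submonoid.closure_induction (motive := fun f _ => ∃ (K0 : ℕ) (ψ : ℤ → C(D, ℝ)),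
    ∀ K : ℕ, K0 ≤ K → ∀ z, f z = ∏ j ∈ Finset.Icc (-(K : ℤ)) K, ψ j (z j)) ?_ ?_ ?_ hf
  · rintro f ⟨j, ψ, rfl⟩
    refine ⟨j.natAbs, fun k => if k = j then ψ else 1, fun K hK z => ?_⟩
    rw [Finset.prod_eq_single j]
    · show ψ (z j) = (if j = j then ψ else 1 : C(D, ℝ)) (z j)
      rw [if_pos rfl]
    · intro k _ hk
      show (if k = j then ψ else 1 : C(D, ℝ)) (z k) = 1
      rw [if_neg hk]
      rfl
    · intro hj
      exfalso
      apply hj
      rw [Finset.mem_Icc]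
      omega
  · exact ⟨0, fun _ => 1, fun K _ z => by simp⟩
  · rintro f g _ _ ⟨K1, ψ1, h1⟩ ⟨K2, ψ2, h2⟩
    refine ⟨max K1 K2, fun j => ψ1 j * ψ2 j, fun K hK z => ?_⟩
    have e1 := h1 K ((le_max_left _ _).trans hK) z
    have e2 := h2 K ((le_max_right _ _).trans hK) z
    show f z * g z = _
    rw [e1, e2, ← Finset.prod_mul_distrib]
    rfl

private theorem fdk_prod (C : ℝ) (x : ℤ → Metric.closedBall (0 : ℂ) C)
    (μ : Measure (ℤ → Metric.closedBall (0 : ℂ) C)) [IsProbabilityMeasure μ]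
    (h : ∀ (K : ℕ) (ψ : Fin (2 * K + 1) → C(Metric.closedBall (0 : ℂ) C, ℂ)),
      Tendsto (fun N : ℕ => (∑ n ∈ Finset.Icc 1 N,
        ∏ i, ψ i (x ((n : ℤ) - K + (i : ℕ)))) / (N : ℂ)) atTop
        (𝓝 (∫ z, ∏ i, ψ i (z (-(K : ℤ) + ((i : ℕ) : ℤ))) ∂μ))) :
    UniqueFurstenberg C x μ := by
  have : CompactSpace (Metric.closedBall (0 : ℂ) C) :=
    isCompact_iff_compactSpace.1 (isCompact_closedBall 0 C)
  intro φ
  have hcl := fdk_closed (𝕜 := ℝ) μ
    (fun n : ℕ => (fun k : ℤ => x (k + (n : ℤ))))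
  set T : Set C((ℤ → Metric.closedBall (0 : ℂ) C), ℝ) :=
    {φ | Tendsto (fun N : ℕ => (∑ n ∈ Finset.Icc 1 N, φ (fun k => x (k + (n : ℤ)))) / (N : ℝ))
      atTop (𝓝 (∫ z, φ z ∂μ))} with hT
  set gen : Set C((ℤ → Metric.closedBall (0 : ℂ) C), ℝ) :=
    {f | ∃ (j : ℤ) (ψ : C(Metric.closedBall (0 : ℂ) C, ℝ)),
      f = ψ.comp ⟨fun z => z j, continuous_apply j⟩} with hgen
  have hmon : ∀ f ∈ Submonoid.closure gen, f ∈ T := by
    intro f hf
    obtain ⟨K0, ψ, hψ⟩ := fdk_form f hf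
    have h1 := hψ K0 le_rfl
    have h2 := h K0 (fun i => ⟨fun z => ((ψ (-(K0 : ℤ) + ((i : ℕ) : ℤ)) z : ℝ) : ℂ),
      Complex.continuous_ofReal.comp (ψ _).continuous⟩)
    have h3 := (Complex.continuous_re.tendsto _).comp h2
    show Tendsto _ _ _
    have e1 : ∫ z, f z ∂μ = (∫ z, ∏ i : Fin (2 * K0 + 1),
        (((ψ (-(K0 : ℤ) + ((i : ℕ) : ℤ)) (z (-(K0 : ℤ) + ((i : ℕ) : ℤ))) : ℝ) : ℂ)) ∂μ).re := by
      have e2 : ∀ z : ℤ → Metric.closedBall (0 : ℂ) C, ((∏ i : Fin (2 * K0 + 1),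
          (((ψ (-(K0 : ℤ) + ((i : ℕ) : ℤ)) (z (-(K0 : ℤ) + ((i : ℕ) : ℤ))) : ℝ) : ℂ))) : ℂ) =
          ((f z : ℝ) : ℂ) := by
        intro z
        rw [h1, fdk_reindex K0 (fun j => ψ j (z j)), Complex.ofReal_prod]
      have e3 : ∫ z, ((f z : ℝ) : ℂ) ∂μ = ((∫ z, f z ∂μ : ℝ) : ℂ) := integral_ofReal
      rw [integral_congr_ae (Filter.Eventually.of_forall e2), e3, Complex.ofReal_re]
    rw [e1]
    refine h3.congr fun N => ?_
    have e3 : ∀ n : ℕ, ((∏ i : Fin (2 * K0 + 1),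
        (((ψ (-(K0 : ℤ) + ((i : ℕ) : ℤ)) (x ((n : ℤ) - K0 + ((i : ℕ) : ℤ))) : ℝ) : ℂ))) : ℂ) =
        ((f (fun k => x (k + (n : ℤ))) : ℝ) : ℂ) := by
      intro n
      rw [h1, fdk_reindex K0 (fun j => ψ j (x (j + (n : ℤ)))), Complex.ofReal_prod]
      refine Finset.prod_congr rfl fun i _ => ?_
      have e4 : (n : ℤ) - K0 + ((i : ℕ) : ℤ) = -(K0 : ℤ) + ((i : ℕ) : ℤ) + n := by ring
      rw [e4]
    show ((∑ n ∈ Finset.Icc 1 N, (∏ i : Fin (2 * K0 + 1),
        (((ψ (-(K0 : ℤ) + ((i : ℕ) : ℤ)) (x ((n : ℤ) - K0 + ((i : ℕ) : ℤ))) : ℝ) : ℂ)))) /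
        (N : ℂ)).re = _
    rw [Finset.sum_congr rfl fun n _ => e3 n, ← Complex.ofReal_sum, ← Complex.ofReal_natCast,
      ← Complex.ofReal_div, Complex.ofReal_re]
  have hadj : ∀ f ∈ Algebra.adjoin ℝ gen, f ∈ T := by
    intro f hf
    have hf2 : f ∈ Submodule.span ℝ (Submonoid.closure gen : Set _) := by
      rw [← Algebra.adjoin_eq_span]
      exact hf
    refine Submodule.span_induction (p := fun f _ => f ∈ T) ?_ ?_ ?_ ?_ hf2
    · intro f hf
      exact hmon f hf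
    · show Tendsto _ _ _
      simp
    · intro f g _ _ hf hg
      show Tendsto _ _ _
      have h1 := Tendsto.add (show Tendsto _ _ _ from hf) (show Tendsto _ _ _ from hg)
      have e1 : ∫ z, (f + g) z ∂μ =
          ∫ z, f z ∂μ +
          ∫ z, g z ∂μ :=
        integral_add (fdk_int _ f) (fdk_int _ g)
      rw [e1]
      refine h1.congr fun N => ?_
      rw [← add_div, ← Finset.sum_add_distrib]
      rfl
    · intro c f _ hf
      show Tendsto _ _ _
      have h1 := (show Tendsto _ _ _ from hf).const_mul c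
      have e1 : ∫ z, (c • f) z ∂μ =
          c * ∫ z, f z ∂μ :=
        integral_const_mul c _
      rw [e1]
      refine h1.congr fun N => ?_
      rw [← mul_div_assoc, Finset.mul_sum]
      rfl
  have hsep : (Algebra.adjoin ℝ gen).SeparatesPoints := by
    intro z z' hz
    obtain ⟨j, hj⟩ := Function.ne_iff.1 hz
    let ψ : C(Metric.closedBall (0 : ℂ) C, ℝ) := ⟨fun w => dist w (z j), by fun_prop⟩
    refine ⟨_, ⟨ψ.comp ⟨fun z => z j, continuous_apply j⟩, Algebra.subset_adjoin ⟨j, ψ, rfl⟩,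
      rfl⟩, ?_⟩
    show dist (z j) (z j) ≠ dist (z' j) (z j)
    rw [dist_self]
    exact (dist_pos.2 (Ne.symm hj)).ne
  have htop := ContinuousMap.subalgebra_topologicalClosure_eq_top_of_separatesPoints _ hsep
  have hφ : φ ∈ (Algebra.adjoin ℝ gen).topologicalClosure := by
    rw [htop]
    trivial
  have hφ2 : φ ∈ closure ((Algebra.adjoin ℝ gen : Subalgebra ℝ _) : Set _) := hφ
  exact (closure_minimal (fun f hf => hadj f hf) hcl) hφ2

/-- ROW fdk. Copy of `furst_of_prod` and `furst_of_dense` (MODULES WB1, WB2 of GsF/Fs.lean, private names fdk_..) for an arbitrary probability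
measure `μ` on D^Z instead of `infinitePi`: the integral of the product of the `ψ_j (z j)`, `j ∈ Icc (-K) K`, replaces the product of the
integrals. -/
theorem furst_of_dense_k (C : ℝ) (S0 : Set C(Metric.closedBall (0 : ℂ) C, ℂ)) (hS0 : Dense S0)
    (x : ℤ → Metric.closedBall (0 : ℂ) C) (μ : Measure (ℤ → Metric.closedBall (0 : ℂ) C))
    [IsProbabilityMeasure μ]
    (h : ∀ (K : ℕ) (ψ : Fin (2 * K + 1) → C(Metric.closedBall (0 : ℂ) C, ℂ)), (∀ i, ψ i ∈ S0) →
      Tendsto (fun N : ℕ => (∑ n ∈ Finset.Icc 1 N,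
        ∏ i, ψ i (x ((n : ℤ) - K + (i : ℕ)))) / (N : ℂ)) atTop
        (𝓝 (∫ z, ∏ i, ψ i (z (-(K : ℤ) + ((i : ℕ) : ℤ))) ∂μ))) :
    UniqueFurstenberg C x μ := by
  have : CompactSpace (Metric.closedBall (0 : ℂ) C) :=
    isCompact_iff_compactSpace.1 (isCompact_closedBall 0 C)
  refine fdk_prod C x μ fun K ψ => ?_
  let Φ : (Fin (2 * K + 1) → C(Metric.closedBall (0 : ℂ) C, ℂ)) →
      C((ℤ → Metric.closedBall (0 : ℂ) C), ℂ) :=
    fun ψ => ∏ i : Fin (2 * K + 1), (ψ i).comp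
      ⟨fun z => z (-(K : ℤ) + ((i : ℕ) : ℤ)), continuous_apply _⟩
  have hΦ : Continuous Φ := continuous_finsetProd _ fun i _ =>
    (ContinuousMap.continuous_precomp _).comp (continuous_apply i)
  have hΦz : ∀ ψ z, Φ ψ z = ∏ i : Fin (2 * K + 1), ψ i (z (-(K : ℤ) + ((i : ℕ) : ℤ))) := by
    intro ψ z
    show (∏ i : Fin (2 * K + 1), (ψ i).comp
      ⟨fun z => z (-(K : ℤ) + ((i : ℕ) : ℤ)), continuous_apply _⟩ : C(_, ℂ)) z = _
    rw [ContinuousMap.prod_apply]
    rfl
  have hcl := (fdk_closed (𝕜 := ℂ) μ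
    (fun n : ℕ => (fun k : ℤ => x (k + (n : ℤ))))).preimage hΦ
  have hmem : ∀ ψ, ψ ∈ (Φ ⁻¹' {φ : C((ℤ → Metric.closedBall (0 : ℂ) C), ℂ) |
      Tendsto (fun N : ℕ => (∑ n ∈ Finset.Icc 1 N,
        φ (fun k : ℤ => x (k + (n : ℤ)))) / (N : ℂ)) atTop (𝓝 (∫ z, φ z ∂μ))}) ↔
      Tendsto (fun N : ℕ => (∑ n ∈ Finset.Icc 1 N,
        ∏ i, ψ i (x ((n : ℤ) - K + (i : ℕ)))) / (N : ℂ)) atTop
        (𝓝 (∫ z, ∏ i, ψ i (z (-(K : ℤ) + ((i : ℕ) : ℤ))) ∂μ)) := by
    intro ψ
    have e1 : ∀ n : ℕ, Φ ψ (fun k => x (k + (n : ℤ))) =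
        ∏ i : Fin (2 * K + 1), ψ i (x ((n : ℤ) - K + ((i : ℕ) : ℤ))) := by
      intro n
      rw [hΦz]
      refine Finset.prod_congr rfl fun i _ => ?_
      have e2 : -(K : ℤ) + ((i : ℕ) : ℤ) + n = (n : ℤ) - K + ((i : ℕ) : ℤ) := by ring
      rw [e2]
    show Tendsto (fun N : ℕ => (∑ n ∈ Finset.Icc 1 N,
        Φ ψ (fun k : ℤ => x (k + (n : ℤ)))) / (N : ℂ)) atTop (𝓝 (∫ z, Φ ψ z ∂μ)) ↔ _
    simp only [e1, hΦz]
  have hd : Dense (Set.pi Set.univ (fun _ : Fin (2 * K + 1) => S0)) :=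
    dense_pi _ fun _ _ => hS0
  refine (hmem ψ).1 (closure_minimal ?_ hcl (hd ψ))
  intro ψ' hψ'
  exact (hmem ψ').2 (h K ψ' fun i => hψ' i (Set.mem_univ i))
-- END fdk

-- BEGIN ffk
private theorem ffk_Icc (b : ℕ → ℂ) (N : ℕ) :
    ∑ n ∈ Finset.Icc 1 N, b n = ∑ n ∈ range N, b (n + 1) := by
  induction N with
  | zero => rfl
  | succ N ih => rw [Finset.sum_Icc_succ_top (by omega), ih, Finset.sum_range_succ]

private theorem ffk_shift (c : ℕ → ℂ) (L : ℂ) :
    Tendsto (fun N : ℕ => (∑ n ∈ range N, c n) / (N : ℂ)) atTop (𝓝 L) ↔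
    Tendsto (fun N : ℕ => (∑ n ∈ range N, c (n + 1)) / (N : ℂ)) atTop (𝓝 L) := by
  have hN0 : ∀ N : ℕ, ((N + 1 : ℕ) : ℂ) ≠ 0 := fun N => by exact_mod_cast N.succ_ne_zero
  have hr : Tendsto (fun N : ℕ => (N : ℂ) / ((N + 1 : ℕ) : ℂ)) atTop (𝓝 1) := by
    have := tendsto_natCast_div_add_atTop (𝕜 := ℂ) (1 : ℂ)
    refine this.congr fun N => ?_
    push_cast
    rfl
  have hi : Tendsto (fun N : ℕ => (((N + 1 : ℕ) : ℂ))⁻¹) atTop (𝓝 0) := by
    have := tendsto_inv_atTop_nhds_zero_nat (𝕜 := ℂ)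
    exact this.comp (tendsto_add_atTop_nat 1)
  constructor
  · intro h
    have h1 := h.comp (tendsto_add_atTop_nat 1)
    have h2 : Tendsto (fun N : ℕ => ((∑ n ∈ range (N + 1), c n) / ((N + 1 : ℕ) : ℂ) -
        c 0 * (((N + 1 : ℕ) : ℂ))⁻¹) / ((N : ℂ) / ((N + 1 : ℕ) : ℂ))) atTop
        (𝓝 ((L - c 0 * 0) / 1)) :=
      (Tendsto.sub h1 (hi.const_mul (c 0))).div hr one_ne_zero
    rw [mul_zero, sub_zero, div_one] at h2
    refine h2.congr' ?_
    filter_upwards [eventually_gt_atTop 0] with N hN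
    have hN1 : (N : ℂ) ≠ 0 := by exact_mod_cast hN.ne'
    rw [Finset.sum_range_succ' c N]
    have := hN0 N
    field_simp
    ring
  · intro h
    have h2 : Tendsto (fun N : ℕ => (∑ n ∈ range N, c (n + 1)) / (N : ℂ) *
        ((N : ℂ) / ((N + 1 : ℕ) : ℂ)) + c 0 * (((N + 1 : ℕ) : ℂ))⁻¹) atTop
        (𝓝 (L * 1 + c 0 * 0)) := (h.mul hr).add (hi.const_mul (c 0))
    rw [mul_one, mul_zero, add_zero] at h2
    refine (tendsto_add_atTop_iff_nat 1).1 ?_
    refine h2.congr' ?_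
    filter_upwards [eventually_gt_atTop 0] with N hN
    have hN1 : (N : ℂ) ≠ 0 := by exact_mod_cast hN.ne'
    rw [Finset.sum_range_succ' c N]
    have := hN0 N
    field_simp

private theorem ffk_shiftK (K : ℕ) (c : ℕ → ℂ) (L : ℂ) :
    Tendsto (fun N : ℕ => (∑ n ∈ range N, c (n + K)) / (N : ℂ)) atTop (𝓝 L) ↔
    Tendsto (fun N : ℕ => (∑ n ∈ range N, c n) / (N : ℂ)) atTop (𝓝 L) := by
  induction K generalizing c with
  | zero => rfl
  | succ K ih =>
    rw [← ih c, ffk_shift (fun n => c (n + K))]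
    have e : ∀ n, c (n + 1 + K) = c (n + (K + 1)) := fun n => by
      rw [show n + 1 + K = n + (K + 1) by ring]
    simp only [e]

/-- ROW ffk. Copy of `furst_final` (MODULE WB3 of GsF/Fs.lean, private names ffk_..) with `furst_of_dense_k`. -/
theorem furst_final_k {Y : Type*} [MeasurableSpace Y] {ν : Measure Y} [IsProbabilityMeasure ν]
    (S : Y ≃ᵐ Y) (p : ℤ[X]) (C : ℝ) (hC : 0 ≤ C) (g : Y → ℂ) (hg : Measurable g)
    (hgC : ∀ y, ‖g y‖ ≤ C) (μ : Measure (ℤ → Metric.closedBall (0 : ℂ) C)) [IsProbabilityMeasure μ]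
    (h : ∀ (K : ℕ) (ψ : Fin (2 * K + 1) → C(Metric.closedBall (0 : ℂ) C, ℂ)),
      ∀ᵐ y ∂ν, Tendsto (fun N : ℕ => (∑ n ∈ range N,
        ∏ i, ψ i (⟨g (pw S (p.eval ((n : ℤ) + (i : ℕ))) y), by simpa using hgC _⟩ :
          Metric.closedBall (0 : ℂ) C)) / (N : ℂ))
        atTop (𝓝 (∫ z, ∏ i, ψ i (z (-(K : ℤ) + ((i : ℕ) : ℤ))) ∂μ))) :
    ∀ᵐ y ∂ν, UniqueFurstenberg C
      (seqPt C hC (fun n => g (pw S (p.eval (n : ℤ)) y)) (fun n => hgC _)) μ := by
  have : CompactSpace (Metric.closedBall (0 : ℂ) C) :=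
    isCompact_iff_compactSpace.1 (isCompact_closedBall 0 C)
  set G : Y → Metric.closedBall (0 : ℂ) C := fun y => ⟨g y, by simpa using hgC y⟩ with hG
  obtain ⟨S0, hc, hd⟩ :=
    TopologicalSpace.exists_countable_dense C(Metric.closedBall (0 : ℂ) C, ℂ)
  have : Countable S0 := hc.to_subtype
  have hall : ∀ᵐ y ∂ν, ∀ (K : ℕ) (ψ : Fin (2 * K + 1) → S0),
      Tendsto (fun N : ℕ => (∑ n ∈ range N,
        ∏ i, (ψ i).1 (G (pw S (p.eval ((n : ℤ) + (i : ℕ))) y))) / (N : ℂ))
        atTop (𝓝 (∫ z, ∏ i, (ψ i).1 (z (-(K : ℤ) + ((i : ℕ) : ℤ))) ∂μ)) := by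
    rw [ae_all_iff]
    intro K
    rw [ae_all_iff]
    intro ψ
    exact h K (fun i => (ψ i).1)
  filter_upwards [hall] with y hy
  refine furst_of_dense_k C S0 hd _ _ fun K ψ hψ => ?_
  have h1 := hy K (fun i => ⟨ψ i, hψ i⟩)
  set xs := seqPt C hC (fun n => g (pw S (p.eval (n : ℤ)) y)) (fun n => hgC _) with hxs
  have h2 : Tendsto (fun N : ℕ => (∑ n ∈ range N,
      ∏ i : Fin (2 * K + 1), ψ i (xs (((n + 1 : ℕ) : ℤ) - K + (i : ℕ)))) / (N : ℂ)) atTop
      (𝓝 (∫ z, ∏ i, ψ i (z (-(K : ℤ) + ((i : ℕ) : ℤ))) ∂μ)) := by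
    refine (ffk_shiftK K (fun n => ∏ i : Fin (2 * K + 1),
      ψ i (xs (((n + 1 : ℕ) : ℤ) - K + (i : ℕ)))) _).1 ?_
    refine ((ffk_shift _ _).1 h1).congr fun N => ?_
    congr 1
    refine Finset.sum_congr rfl fun n _ => Finset.prod_congr rfl fun i _ => ?_
    have e2 : (((n + K + 1 : ℕ) : ℤ) - K + (i : ℕ)) = ((n + 1 + (i : ℕ) : ℕ) : ℤ) := by
      push_cast
      ring
    have e3 : xs (((n + K + 1 : ℕ) : ℤ) - K + (i : ℕ)) =
        G (pw S (p.eval (((n + 1 : ℕ) : ℤ) + (i : ℕ))) y) := by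
      rw [e2, hxs]
      unfold seqPt
      rw [if_pos (by omega)]
      apply Subtype.ext
      show g (pw S (p.eval ((((n + 1 + (i : ℕ) : ℕ) : ℤ).toNat : ℕ) : ℤ)) y) = g _
      rw [Int.toNat_natCast]
      push_cast
      rfl
    rw [e3]
  refine h2.congr fun N => ?_
  congr 1
  exact (ffk_Icc (fun n => ∏ i : Fin (2 * K + 1), ψ i (xs ((n : ℤ) - K + (i : ℕ)))) N).symm
-- END ffk

-- BEGIN tcy
private theorem tcy_prod (K : ℕ) (F : ℤ → ℂ) :
    ∏ i : Fin (2 * K + 1), F (-(K : ℤ) + ((i : ℕ) : ℤ)) = ∏ j ∈ Finset.Icc (-(K : ℤ)) K, F j := by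
  rw [Fin.prod_univ_eq_prod_range (fun i : ℕ => F (-(K : ℤ) + (i : ℤ))) (2 * K + 1)]
  refine Finset.prod_nbij' (fun i : ℕ => -(K : ℤ) + (i : ℤ)) (fun j : ℤ => (j + K).toNat)
    ?_ ?_ ?_ ?_ ?_
  · intro i hi
    rw [Finset.mem_range] at hi
    rw [Finset.mem_Icc]
    constructor <;> omega
  · intro j hj
    rw [Finset.mem_Icc] at hj
    rw [Finset.mem_range]
    omega
  · intro i hi
    show (-(K : ℤ) + (i : ℤ) + K).toNat = i
    omega
  · intro j hj
    rw [Finset.mem_Icc] at hj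
    show -(K : ℤ) + (((j + K).toNat : ℕ) : ℤ) = j
    omega
  · intro i hi
    rfl

/-- products of functions of finitely many coordinates -/
private def tcy_Cyl (C : ℝ) (g : C(ℤ → Metric.closedBall (0 : ℂ) C, ℂ)) : Prop :=
  ∃ (K0 : ℕ) (φ : ℤ → C(Metric.closedBall (0 : ℂ) C, ℂ)), ∀ K : ℕ, K0 ≤ K → ∀ z,
    g z = ∏ j ∈ Finset.Icc (-(K : ℤ)) K, φ j (z j)

private theorem tcy_mul {C : ℝ} {g g' : C(ℤ → Metric.closedBall (0 : ℂ) C, ℂ)}
    (h : tcy_Cyl C g) (h' : tcy_Cyl C g') : tcy_Cyl C (g * g') := by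
  obtain ⟨K0, φ, h⟩ := h
  obtain ⟨K1, φ', h'⟩ := h'
  refine ⟨max K0 K1, fun j => φ j * φ' j, fun K hK z => ?_⟩
  have e1 := h K ((le_max_left _ _).trans hK) z
  have e2 := h' K ((le_max_right _ _).trans hK) z
  rw [ContinuousMap.mul_apply, e1, e2, ← Finset.prod_mul_distrib]
  rfl

private theorem tcy_one (C : ℝ) : tcy_Cyl C 1 := by
  refine ⟨0, fun _ => 1, fun K _ z => ?_⟩
  simp

private theorem tcy_gen {C : ℝ} (ψ : C(Metric.closedBall (0 : ℂ) C, ℂ)) (j : ℤ) :
    tcy_Cyl C (ψ.comp ⟨fun z : ℤ → Metric.closedBall (0 : ℂ) C => z j, continuous_apply j⟩) := by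
  classical
  refine ⟨j.natAbs, fun i => if i = j then ψ else 1, fun K hK z => ?_⟩
  rw [Finset.prod_eq_single j]
  · show ψ (z j) = (if j = j then ψ else 1 : C(Metric.closedBall (0 : ℂ) C, ℂ)) (z j)
    rw [if_pos rfl]
  · intro i _ hi
    show (if i = j then ψ else 1 : C(Metric.closedBall (0 : ℂ) C, ℂ)) (z i) = 1
    rw [if_neg hi]
    rfl
  · intro hj
    exact absurd (Finset.mem_Icc.2 ⟨by omega, by omega⟩) hj

/-- the functions of one coordinate -/
private def tcy_S (C : ℝ) : Set C(ℤ → Metric.closedBall (0 : ℂ) C, ℂ) :=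
  {g | ∃ (ψ : C(Metric.closedBall (0 : ℂ) C, ℂ)) (j : ℤ),
    g = ψ.comp ⟨fun z : ℤ → Metric.closedBall (0 : ℂ) C => z j, continuous_apply j⟩}

private theorem tcy_star (C : ℝ) : star (tcy_S C) ⊆ tcy_S C := by
  rintro g ⟨ψ, j, hg⟩
  refine ⟨star ψ, j, ?_⟩
  have h1 : g = star (star g) := (star_star g).symm
  rw [h1, hg]
  rfl

private theorem tcy_dense (C : ℝ) :
    (StarAlgebra.adjoin ℂ (tcy_S C)).topologicalClosure = ⊤ := by
  apply ContinuousMap.starSubalgebra_topologicalClosure_eq_top_of_separatesPoints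
  intro x y hxy
  obtain ⟨j, hj⟩ := Function.ne_iff.1 hxy
  let ψ : C(Metric.closedBall (0 : ℂ) C, ℂ) := ⟨fun z => (z : ℂ), continuous_subtype_val⟩
  refine ⟨_, ⟨ψ.comp ⟨fun z : ℤ → Metric.closedBall (0 : ℂ) C => z j, continuous_apply j⟩,
    StarAlgebra.subset_adjoin ℂ _ ⟨ψ, j, rfl⟩, rfl⟩, ?_⟩
  intro h
  exact hj (Subtype.ext h)

private theorem tcy_adj {C : ℝ} {μ : Measure (ℤ → Metric.closedBall (0 : ℂ) C)}
    [IsProbabilityMeasure μ] {f : (ℤ → Metric.closedBall (0 : ℂ) C) → ℂ} (hf : Measurable f)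
    {B : ℝ} (hB : ∀ z, ‖f z‖ ≤ B)
    (h : ∀ (K : ℕ) (ψ : Fin (2 * K + 1) → C(Metric.closedBall (0 : ℂ) C, ℂ)),
      ∫ z, f z * ∏ i, ψ i (z (-(K : ℤ) + ((i : ℕ) : ℤ))) ∂μ = 0)
    (g : C(ℤ → Metric.closedBall (0 : ℂ) C, ℂ)) (hg : g ∈ StarAlgebra.adjoin ℂ (tcy_S C)) :
    ∫ z, f z * g z ∂μ = 0 := by
  have hi : ∀ g : C(ℤ → Metric.closedBall (0 : ℂ) C, ℂ), Integrable (fun z => f z * g z) μ := by
    intro g
    refine Integrable.of_bound (hf.mul g.continuous.measurable).aestronglyMeasurable (B * ‖g‖)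
      (Eventually.of_forall fun z => ?_)
    rw [norm_mul]
    exact mul_le_mul (hB z) (g.norm_coe_le_norm z) (norm_nonneg _) ((norm_nonneg _).trans (hB z))
  have h1 : g ∈ Algebra.adjoin ℂ (tcy_S C) := by
    have h2 : g ∈ (StarAlgebra.adjoin ℂ (tcy_S C)).toSubalgebra := hg
    rw [StarAlgebra.adjoin_toSubalgebra, Set.union_eq_self_of_subset_right (tcy_star C)] at h2
    exact h2
  have h3 : g ∈ Submodule.span ℂ (Submonoid.closure (tcy_S C) :
      Set C(ℤ → Metric.closedBall (0 : ℂ) C, ℂ)) := by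
    rw [← Algebra.adjoin_eq_span]
    exact h1
  refine Submodule.span_induction (p := fun g _ => ∫ z, f z * g z ∂μ = 0) ?_ ?_ ?_ ?_ h3
  · intro g hg
    have hc : tcy_Cyl C g := by
      refine Submonoid.closure_induction (motive := fun g _ => tcy_Cyl C g) ?_ ?_ ?_ hg
      · rintro g ⟨ψ, j, rfl⟩
        exact tcy_gen ψ j
      · exact tcy_one C
      · intro g g' _ _ a b
        exact tcy_mul a b
    obtain ⟨K0, φ, hφ⟩ := hc
    have h4 := h K0 fun i => φ (-(K0 : ℤ) + ((i : ℕ) : ℤ))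
    refine Eq.trans (integral_congr_ae (Eventually.of_forall fun z => ?_)) h4
    show f z * g z = f z * _
    rw [hφ K0 le_rfl z, ← tcy_prod K0 fun j => φ j (z j)]
  · simp
  · intro g g' _ _ a b
    have h5 : (fun z => f z * (g + g') z) = fun z => f z * g z + f z * g' z := by
      funext z
      rw [ContinuousMap.add_apply, mul_add]
    rw [h5, integral_add (hi g) (hi g'), a, b, add_zero]
  · intro r g _ a
    have h5 : (fun z => f z * (r • g) z) = fun z => r * (f z * g z) := by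
      funext z
      rw [ContinuousMap.smul_apply, smul_eq_mul]
      ring
    rw [h5, integral_const_mul, a, mul_zero]

private theorem tcy_all {C : ℝ} {μ : Measure (ℤ → Metric.closedBall (0 : ℂ) C)}
    [IsProbabilityMeasure μ] {f : (ℤ → Metric.closedBall (0 : ℂ) C) → ℂ} (hf : Measurable f)
    {B : ℝ} (hB : ∀ z, ‖f z‖ ≤ B)
    (h : ∀ (K : ℕ) (ψ : Fin (2 * K + 1) → C(Metric.closedBall (0 : ℂ) C, ℂ)),
      ∫ z, f z * ∏ i, ψ i (z (-(K : ℤ) + ((i : ℕ) : ℤ))) ∂μ = 0)
    (g : C(ℤ → Metric.closedBall (0 : ℂ) C, ℂ)) : ∫ z, f z * g z ∂μ = 0 := by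
  have hi : ∀ g : C(ℤ → Metric.closedBall (0 : ℂ) C, ℂ), Integrable (fun z => f z * g z) μ := by
    intro g
    refine Integrable.of_bound (hf.mul g.continuous.measurable).aestronglyMeasurable (B * ‖g‖)
      (Eventually.of_forall fun z => ?_)
    rw [norm_mul]
    exact mul_le_mul (hB z) (g.norm_coe_le_norm z) (norm_nonneg _) ((norm_nonneg _).trans (hB z))
  have hg : g ∈ closure (StarAlgebra.adjoin ℂ (tcy_S C) :
      Set C(ℤ → Metric.closedBall (0 : ℂ) C, ℂ)) := by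
    have h1 : g ∈ (StarAlgebra.adjoin ℂ (tcy_S C)).topologicalClosure := by
      rw [tcy_dense]
      trivial
    exact h1
  have hB1 : 0 < |B| + 1 := by positivity
  by_contra hne
  have hpos : 0 < ‖∫ z, f z * g z ∂μ‖ := norm_pos_iff.2 hne
  obtain ⟨p, hp, hgp⟩ := Metric.mem_closure_iff.1 hg (‖∫ z, f z * g z ∂μ‖ / (|B| + 1))
    (div_pos hpos hB1)
  have h2 : ∫ z, f z * g z ∂μ = ∫ z, f z * (g - p) z ∂μ := by
    have h3 : (fun z => f z * (g - p) z) = fun z => f z * g z - f z * p z := by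
      funext z
      rw [ContinuousMap.sub_apply, mul_sub]
    rw [h3, integral_sub (hi g) (hi p), tcy_adj hf hB h p hp, sub_zero]
  have h4 : ‖∫ z, f z * (g - p) z ∂μ‖ ≤ |B| * ‖g - p‖ := by
    have h5 := norm_integral_le_of_norm_le_const (μ := μ) (f := fun z => f z * (g - p) z)
      (C := |B| * ‖g - p‖) (Eventually.of_forall fun z => by
        rw [norm_mul]
        exact mul_le_mul ((hB z).trans (le_abs_self B)) ((g - p).norm_coe_le_norm z)
          (norm_nonneg _) (abs_nonneg _))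
    simpa using h5
  rw [dist_eq_norm, lt_div_iff₀ hB1] at hgp
  rw [← h2] at h4
  nlinarith [norm_nonneg (g - p), abs_nonneg B]

/-- ROW tcy. Products of continuous functions of the coordinates `-K, .., K` are total in L^2: their span is dense in C(D^Z, ℂ)
(Stone-Weierstrass, compare `furst_of_prod`, WB1_form in GsF/Fs.lean), which is dense in L^2 (`ContinuousMap.toLp_denseRange`). -/
theorem tot_cyl (C : ℝ) (μ : Measure (ℤ → Metric.closedBall (0 : ℂ) C)) [IsProbabilityMeasure μ]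
    (f : (ℤ → Metric.closedBall (0 : ℂ) C) → ℂ) (hf : Measurable f) (hb : ∃ B : ℝ, ∀ z, ‖f z‖ ≤ B)
    (h : ∀ (K : ℕ) (ψ : Fin (2 * K + 1) → C(Metric.closedBall (0 : ℂ) C, ℂ)),
      ∫ z, f z * ∏ i, ψ i (z (-(K : ℤ) + ((i : ℕ) : ℤ))) ∂μ = 0) : f =ᵐ[μ] 0 := by
  obtain ⟨B, hB⟩ := hb
  have hfL : MemLp f 2 μ :=
    MemLp.of_bound hf.aestronglyMeasurable B (Eventually.of_forall hB)
  have hd : DenseRange (ContinuousMap.toLp 2 μ ℂ :
      C(ℤ → Metric.closedBall (0 : ℂ) C, ℂ) →L[ℂ] Lp ℂ 2 μ) :=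
    ContinuousMap.toLp_denseRange ℂ μ ℂ (by norm_num)
  have h0 : ∀ u : Lp ℂ 2 μ, inner ℂ u (hfL.toLp f) = 0 := by
    intro u
    refine hd.induction_on u
      (isClosed_eq (continuous_id.inner continuous_const) continuous_const) fun g => ?_
    rw [MeasureTheory.L2.inner_def]
    have h1 := tcy_all hf hB h (star g)
    refine Eq.trans (integral_congr_ae ?_) h1
    filter_upwards [ContinuousMap.coeFn_toLp (p := 2) (𝕜 := ℂ) μ g, hfL.coeFn_toLp] with z h2 h3
    rw [h2, h3]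
    simp [RCLike.inner_apply]
  have h1 : hfL.toLp f = 0 := inner_self_eq_zero.1 (h0 _)
  have h2 := hfL.coeFn_toLp
  rw [h1] at h2
  filter_upwards [h2, Lp.coeFn_zero ℂ 2 μ] with z h3 h4
  rw [← h3, h4]
-- END tcy

-- BEGIN wva
private theorem wva_int {U : Type*} [MeasurableSpace U] (P : Measure U) [IsProbabilityMeasure P]
    {ι : Type*} [Fintype ι] (g : ι → ℤ) (hg : Function.Injective g) (φ : ι → U → ℂ)
    (hφ : ∀ i, Measurable (φ i)) :
    ∫ u : ℤ → U, ∏ i, φ i (u (g i)) ∂(Measure.infinitePi (fun _ : ℤ => P)) =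
      ∏ i, ∫ x, φ i x ∂P := by
  have h1 : iIndepFun (fun (j : ℤ) (u : ℤ → U) => u j) (Measure.infinitePi (fun _ : ℤ => P)) :=
    iIndepFun_infinitePi (X := fun _ ω => ω) fun _ => measurable_id
  have h2 : iIndepFun (fun (i : ι) (u : ℤ → U) => u (g i)) (Measure.infinitePi (fun _ : ℤ => P)) :=
    h1.precomp hg
  rw [h2.integral_fun_prod_comp (f := φ) (fun i => (measurable_pi_apply (g i)).aemeasurable)
    (fun i => (hφ i).aestronglyMeasurable)]
  refine Finset.prod_congr rfl fun i _ => ?_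
  have h3 : (Measure.infinitePi (fun _ : ℤ => P)).map (fun u : ℤ → U => u (g i)) = P :=
    Measure.infinitePi_map_eval (fun _ : ℤ => P) (g i)
  conv_rhs => rw [← h3]
  rw [integral_map (measurable_pi_apply (g i)).aemeasurable (hφ i).aestronglyMeasurable]

private theorem wva_count (K N n : ℕ) (M : ℝ) (hM : 0 ≤ M) :
    ∑ n' ∈ range N, (if (n : ℤ) - n' ≤ 2 * K ∧ (n' : ℤ) - n ≤ 2 * K then M else 0) ≤
      (4 * K + 1) * M := by
  rw [← Finset.sum_filter, Finset.sum_const, nsmul_eq_mul]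
  refine mul_le_mul_of_nonneg_right ?_ hM
  have h1 : (range N).filter (fun n' : ℕ => (n : ℤ) - n' ≤ 2 * K ∧ (n' : ℤ) - n ≤ 2 * K) ⊆
      Finset.Icc (n - 2 * K) (n + 2 * K) := by
    intro n' hn'
    rw [Finset.mem_filter] at hn'
    rw [Finset.mem_Icc]
    omega
  have h2 := Finset.card_le_card h1
  rw [Nat.card_Icc] at h2
  have h3 : ((range N).filter (fun n' : ℕ => (n : ℤ) - n' ≤ 2 * K ∧ (n' : ℤ) - n ≤ 2 * K)).card ≤
      4 * K + 1 := by omega
  exact_mod_cast h3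

/-- ROW wva. INDEPENDENT WINDOWS: `H n u = ∏_i a n i (u (n - K + i))`, `c n = ∏_i ∫ a n i`: for `|n - n'| > 2 K` the variables `H n - c n` and
`H n' - c n'` are independent and centred (`iIndepFun_infinitePi` or Fubini on a finite set of coordinates), the others contribute at most
`(4 K + 1) N` terms of modulus ≤ `(2 B) ^ 2`. -/
theorem win_var {U : Type*} [MeasurableSpace U] (P : Measure U) [IsProbabilityMeasure P] (K : ℕ)
    (a : ℕ → Fin (2 * K + 1) → U → ℂ) (ha : ∀ n i, Measurable (a n i)) (B : ℝ) (hB1 : 1 ≤ B)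
    (hB : ∀ n i u, ‖a n i u‖ ≤ B) (N : ℕ) :
    ∫ u : ℤ → U, ‖∑ n ∈ range N, (∏ i : Fin (2 * K + 1), a n i (u ((n : ℤ) - K + ((i : ℕ) : ℤ))) -
      ∏ i, ∫ x, a n i x ∂P)‖ ^ 2 ∂(Measure.infinitePi (fun _ : ℤ => P)) ≤
      (4 * K + 1) * N * (2 * B ^ (2 * K + 1)) ^ 2 := by
  classical
  let μ : Measure (ℤ → U) := Measure.infinitePi (fun _ : ℤ => P)
  obtain ⟨H, hH⟩ : ∃ H : ℕ → (ℤ → U) → ℂ, ∀ n u, H n u =
      ∏ i : Fin (2 * K + 1), a n i (u ((n : ℤ) - K + ((i : ℕ) : ℤ))) := ⟨_, fun n u => rfl⟩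
  obtain ⟨c, hc⟩ : ∃ c : ℕ → ℂ, ∀ n, c n = ∏ i, ∫ x, a n i x ∂P := ⟨_, fun n => rfl⟩
  have hB0 : 0 ≤ B := by linarith
  have hHm : ∀ n, Measurable (H n) := by
    intro n
    have h1 : H n = fun u => ∏ i : Fin (2 * K + 1), a n i (u ((n : ℤ) - K + ((i : ℕ) : ℤ))) :=
      funext (hH n)
    rw [h1]
    exact Finset.measurable_prod _ fun i _ => (ha n i).comp (measurable_pi_apply _)
  have hHb : ∀ n u, ‖H n u‖ ≤ B ^ (2 * K + 1) := by
    intro n u
    rw [hH, norm_prod]
    refine (Finset.prod_le_prod (fun i _ => norm_nonneg _) fun i _ => hB n i _).trans (le_of_eq ?_)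
    rw [Finset.prod_const, Finset.card_univ, Fintype.card_fin]
  have hcb : ∀ n, ‖c n‖ ≤ B ^ (2 * K + 1) := by
    intro n
    rw [hc, norm_prod]
    refine (Finset.prod_le_prod (fun i _ => norm_nonneg _) fun i _ => ?_).trans
      (le_of_eq (by rw [Finset.prod_const, Finset.card_univ, Fintype.card_fin]))
    · have h1 := norm_integral_le_of_norm_le_const (μ := P) (Eventually.of_forall (hB n i))
      rwa [probReal_univ, mul_one] at h1
  have hinj : ∀ n : ℕ, Function.Injective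
      (fun i : Fin (2 * K + 1) => (n : ℤ) - K + ((i : ℕ) : ℤ)) := by
    intro n i j hij
    have h1 : (n : ℤ) - K + ((i : ℕ) : ℤ) = (n : ℤ) - K + ((j : ℕ) : ℤ) := hij
    exact Fin.ext (by omega)
  have hint1 : ∀ n, ∫ u, H n u ∂μ = c n := by
    intro n
    simp only [hH, hc]
    exact wva_int P (fun i : Fin (2 * K + 1) => (n : ℤ) - K + ((i : ℕ) : ℤ)) (hinj n) (a n) (ha n)
  have hcm : ∀ n i, Measurable fun x => (starRingEnd ℂ) (a n i x) := fun n i =>
    Complex.continuous_conj.measurable.comp (ha n i)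
  have hint2 : ∀ n n' : ℕ, ¬ ((n : ℤ) - n' ≤ 2 * K ∧ (n' : ℤ) - n ≤ 2 * K) →
      ∫ u, H n u * (starRingEnd ℂ) (H n' u) ∂μ = c n * (starRingEnd ℂ) (c n') := by
    intro n n' hn
    have h1 := wva_int P (ι := Fin (2 * K + 1) ⊕ Fin (2 * K + 1))
      (Sum.elim (fun i : Fin (2 * K + 1) => (n : ℤ) - K + ((i : ℕ) : ℤ))
        (fun i : Fin (2 * K + 1) => (n' : ℤ) - K + ((i : ℕ) : ℤ))) (by
          intro x y hxy
          rcases x with i | i <;> rcases y with j | j
          · have h2 : (n : ℤ) - K + ((i : ℕ) : ℤ) = (n : ℤ) - K + ((j : ℕ) : ℤ) := hxy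
            exact congrArg Sum.inl (Fin.ext (by omega))
          · exfalso
            have h2 : (n : ℤ) - K + ((i : ℕ) : ℤ) = (n' : ℤ) - K + ((j : ℕ) : ℤ) := hxy
            have hi := i.2
            have hj := j.2
            apply hn
            constructor <;> omega
          · exfalso
            have h2 : (n' : ℤ) - K + ((i : ℕ) : ℤ) = (n : ℤ) - K + ((j : ℕ) : ℤ) := hxy
            have hi := i.2
            have hj := j.2
            apply hn
            constructor <;> omega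
          · have h2 : (n' : ℤ) - K + ((i : ℕ) : ℤ) = (n' : ℤ) - K + ((j : ℕ) : ℤ) := hxy
            exact congrArg Sum.inr (Fin.ext (by omega)))
      (Sum.elim (a n) (fun i x => (starRingEnd ℂ) (a n' i x))) (by
        intro i
        rcases i with i | i
        · exact ha n i
        · exact hcm n' i)
    simp only [Fintype.prod_sum_type, Sum.elim_inl, Sum.elim_inr] at h1
    simp only [hH, hc, map_prod]
    rw [h1]
    congr 1
    refine Finset.prod_congr rfl fun i _ => ?_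
    exact integral_conj
  have iH : ∀ n, Integrable (H n) μ := fun n =>
    Integrable.of_bound (hHm n).aestronglyMeasurable _ (Eventually.of_forall (hHb n))
  have mHc : ∀ n, Measurable fun u => (starRingEnd ℂ) (H n u) := fun n =>
    Complex.continuous_conj.measurable.comp (hHm n)
  have iHc : ∀ n, Integrable (fun u => (starRingEnd ℂ) (H n u)) μ := fun n =>
    Integrable.of_bound (mHc n).aestronglyMeasurable (B ^ (2 * K + 1))
      (Eventually.of_forall fun u => by rw [RCLike.norm_conj]; exact hHb n u)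
  have iHH : ∀ n n', Integrable (fun u => H n u * (starRingEnd ℂ) (H n' u)) μ := fun n n' =>
    Integrable.of_bound ((hHm n).mul (mHc n')).aestronglyMeasurable
      (B ^ (2 * K + 1) * B ^ (2 * K + 1)) (Eventually.of_forall fun u => by
        rw [norm_mul, RCLike.norm_conj]
        exact mul_le_mul (hHb n u) (hHb n' u) (norm_nonneg _) (by positivity))
  have hMM : ∀ n n' u, ‖(H n u - c n) * (starRingEnd ℂ) (H n' u - c n')‖ ≤
      (2 * B ^ (2 * K + 1)) ^ 2 := by
    intro n n' u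
    rw [norm_mul, RCLike.norm_conj, sq]
    have h1 : ∀ n, ‖H n u - c n‖ ≤ 2 * B ^ (2 * K + 1) := by
      intro n
      refine (norm_sub_le _ _).trans ?_
      have := hHb n u
      have := hcb n
      linarith
    exact mul_le_mul (h1 n) (h1 n') (norm_nonneg _) (by positivity)
  have iDD : ∀ n n', Integrable (fun u => (H n u - c n) * (starRingEnd ℂ) (H n' u - c n')) μ :=
    fun n n' => Integrable.of_bound (((hHm n).sub_const _).mul
      (Complex.continuous_conj.measurable.comp ((hHm n').sub_const _))).aestronglyMeasurable _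
      (Eventually.of_forall (hMM n n'))
  have hcov : ∀ n n' : ℕ, ‖∫ u, (H n u - c n) * (starRingEnd ℂ) (H n' u - c n') ∂μ‖ ≤
      (if (n : ℤ) - n' ≤ 2 * K ∧ (n' : ℤ) - n ≤ 2 * K then (2 * B ^ (2 * K + 1)) ^ 2 else 0) := by
    intro n n'
    by_cases hn : (n : ℤ) - n' ≤ 2 * K ∧ (n' : ℤ) - n ≤ 2 * K
    · rw [if_pos hn]
      have h1 := norm_integral_le_of_norm_le_const (μ := μ) (Eventually.of_forall (hMM n n'))
      rwa [probReal_univ, mul_one] at h1
    · rw [if_neg hn]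
      have h1 : ∀ u, (H n u - c n) * (starRingEnd ℂ) (H n' u - c n') =
          H n u * (starRingEnd ℂ) (H n' u) - (starRingEnd ℂ) (c n') * H n u -
            c n * (starRingEnd ℂ) (H n' u) + c n * (starRingEnd ℂ) (c n') := by
        intro u
        rw [map_sub]
        ring
      simp only [h1]
      have j1 : Integrable (fun u => H n u * (starRingEnd ℂ) (H n' u) -
          (starRingEnd ℂ) (c n') * H n u) μ := (iHH n n').sub ((iH n).const_mul _)
      have j2 : Integrable (fun u => H n u * (starRingEnd ℂ) (H n' u) -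
          (starRingEnd ℂ) (c n') * H n u - c n * (starRingEnd ℂ) (H n' u)) μ :=
        j1.sub ((iHc n').const_mul _)
      rw [integral_add j2 (integrable_const _), integral_sub j1 ((iHc n').const_mul _),
        integral_sub (iHH n n') ((iH n).const_mul _), integral_const_mul, integral_const_mul,
        hint2 n n' hn, hint1, integral_conj, hint1, integral_const]
      simp only [probReal_univ, one_smul]
      rw [show c n * (starRingEnd ℂ) (c n') - (starRingEnd ℂ) (c n') * c n -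
        c n * (starRingEnd ℂ) (c n') + c n * (starRingEnd ℂ) (c n') = 0 by ring, norm_zero]
  have hsq : ((∫ u, ‖∑ n ∈ range N, (H n u - c n)‖ ^ 2 ∂μ : ℝ) : ℂ) =
      ∑ n ∈ range N, ∑ n' ∈ range N, ∫ u, (H n u - c n) * (starRingEnd ℂ) (H n' u - c n') ∂μ := by
    rw [← integral_complex_ofReal]
    have h1 : ∀ u, ((‖∑ n ∈ range N, (H n u - c n)‖ ^ 2 : ℝ) : ℂ) =
        ∑ n ∈ range N, ∑ n' ∈ range N, (H n u - c n) * (starRingEnd ℂ) (H n' u - c n') := by
      intro u
      rw [← Finset.sum_mul_sum, ← map_sum, Complex.mul_conj, Complex.normSq_eq_norm_sq]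
    simp only [h1]
    rw [integral_finsetSum _ fun n _ => integrable_finsetSum _ fun n' _ => iDD n n']
    refine Finset.sum_congr rfl fun n _ => ?_
    rw [integral_finsetSum _ fun n' _ => iDD n n']
  have h0 : 0 ≤ ∫ u, ‖∑ n ∈ range N, (H n u - c n)‖ ^ 2 ∂μ := integral_nonneg fun u => sq_nonneg _
  have h3 : ‖((∫ u, ‖∑ n ∈ range N, (H n u - c n)‖ ^ 2 ∂μ : ℝ) : ℂ)‖ ≤
      (4 * K + 1) * N * (2 * B ^ (2 * K + 1)) ^ 2 := by
    rw [hsq]
    refine (norm_sum_le _ _).trans ?_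
    refine (Finset.sum_le_sum fun n _ => ((norm_sum_le _ _).trans (Finset.sum_le_sum fun n' _ =>
      hcov n n')).trans (wva_count K N n _ (by positivity))).trans (le_of_eq ?_)
    rw [Finset.sum_const, Finset.card_range, nsmul_eq_mul]
    ring
  rw [Complex.norm_real, Real.norm_of_nonneg h0] at h3
  simpa only [hH, hc] using h3
-- END wva

section meas

variable {V : Type*} [AddCommGroup V] [TopologicalSpace V] [IsTopologicalAddGroup V] [CompactSpace V]
  [T2Space V] [SecondCountableTopology V] [MeasurableSpace V] [BorelSpace V]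
variable {W : Type*} [MeasurableSpace W]

-- BEGIN mkm
theorem mkm_sh {U : Type*} [MeasurableSpace U] (P : Measure U) [IsProbabilityMeasure P] :
    MeasurePreserving (fun (u : ℤ → U) (j : ℤ) => u (j + 1))
      (Measure.infinitePi (fun _ : ℤ => P)) (Measure.infinitePi (fun _ : ℤ => P)) := by
  have hm : Measurable (fun (u : ℤ → U) (j : ℤ) => u (j + 1)) :=
    measurable_pi_lambda _ fun j => measurable_pi_apply (j + 1)
  refine ⟨hm, Measure.eq_infinitePi (fun _ : ℤ => P) fun s t ht => ?_⟩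
  classical
  have hs : MeasurableSet (Set.pi (s : Set ℤ) t) :=
    MeasurableSet.pi s.countable_toSet fun i _ => ht i
  rw [Measure.map_apply hm hs]
  have h1 : (fun (u : ℤ → U) (j : ℤ) => u (j + 1)) ⁻¹' (Set.pi (s : Set ℤ) t) =
      Set.pi ((s.image fun j => j + 1 : Finset ℤ) : Set ℤ) (fun j => t (j - 1)) := by
    ext u
    constructor
    · intro h j hj
      obtain ⟨i, hi, rfl⟩ := Finset.mem_image.1 (Finset.mem_coe.1 hj)
      have h2 : u (i + 1) ∈ t i := h i (Finset.mem_coe.2 hi)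
      show u (i + 1) ∈ t (i + 1 - 1)
      rw [add_sub_cancel_right]
      exact h2
    · intro h i hi
      have h2 : u (i + 1) ∈ t (i + 1 - 1) :=
        h (i + 1) (Finset.mem_coe.2 (Finset.mem_image_of_mem _ (Finset.mem_coe.1 hi)))
      rw [add_sub_cancel_right] at h2
      exact h2
  rw [h1, Measure.infinitePi_pi (fun _ : ℤ => P) fun i _ => ht (i - 1),
    Finset.prod_image fun a _ b _ hab => add_right_cancel hab]
  refine Finset.prod_congr rfl fun i _ => ?_
  rw [add_sub_cancel_right]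

omit [CompactSpace V] [T2Space V] in
theorem mkm_xo {d : ℕ} (β : V) (j : ℤ) : Measurable fun ξ : Fin d → V => xo β ξ j := by
  refine Continuous.measurable ?_
  unfold xo
  refine Continuous.add (continuous_finsetSum _ fun i _ => ?_) continuous_const
  exact (continuous_zsmul _).comp (continuous_apply i)

/-- ROW mkm. `xo` is continuous in `xi`. -/
theorem muU_meas {D U : Type*} [MeasurableSpace D] [MeasurableSpace U] {d : ℕ} (β : V) (Φ : V → U → D)
    (hΦ : Measurable (Function.uncurry Φ)) :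
    Measurable (fun (q : (Fin d → V) × (ℤ → U)) (j : ℤ) => Φ (xo β q.1 j) (q.2 j)) := by
  refine measurable_pi_lambda _ fun j => ?_
  exact hΦ.comp (((mkm_xo β j).comp measurable_fst).prodMk
    ((measurable_pi_apply j).comp measurable_snd))

theorem muU_prob {D U : Type*} [MeasurableSpace D]
    [MeasureSpace U] [IsProbabilityMeasure (volume : Measure U)] (m : Measure V) [IsProbabilityMeasure m] {d : ℕ} (β : V)
    (Φ : V → U → D) (hΦ : Measurable (Function.uncurry Φ)) :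
    IsProbabilityMeasure (muU m d β (volume : Measure U) Φ) := by
  unfold muU thU
  exact Measure.isProbabilityMeasure_map (muU_meas β Φ hΦ).aemeasurable

/-- `xo (T xi) j = xo xi (j + 1)`, `una_mp`, and the shift preserves `infinitePi`. -/
theorem muU_shift {D U : Type*} [MeasurableSpace D]
    [MeasureSpace U] [IsProbabilityMeasure (volume : Measure U)] (m : Measure V) [m.IsAddHaarMeasure]
    [IsProbabilityMeasure m] {d : ℕ} (hd : 0 < d) (β : V) (Φ : V → U → D)
    (hΦ : Measurable (Function.uncurry Φ)) :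
    MeasurePreserving (shD : (ℤ → D) → ℤ → D) (muU m d β (volume : Measure U) Φ) (muU m d β (volume : Measure U) Φ) := by
  have hs : Measurable (shD : (ℤ → D) → ℤ → D) :=
    measurable_pi_lambda _ fun j => measurable_pi_apply (j + 1)
  have hT : MeasurePreserving
      (Prod.map (una β : (Fin d → V) → Fin d → V) (fun (u : ℤ → U) (j : ℤ) => u (j + 1)))
      ((Measure.pi (fun _ : Fin d => m)).prod
        (Measure.infinitePi (fun _ : ℤ => (volume : Measure U))))
      ((Measure.pi (fun _ : Fin d => m)).prod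
        (Measure.infinitePi (fun _ : ℤ => (volume : Measure U)))) :=
    (una_mp m β).prod (mkm_sh volume)
  refine ⟨hs, ?_⟩
  have hf := muU_meas (d := d) β Φ hΦ
  have hcomm : (shD : (ℤ → D) → ℤ → D) ∘
      (fun (q : (Fin d → V) × (ℤ → U)) (j : ℤ) => Φ (xo β q.1 j) (q.2 j)) =
      (fun (q : (Fin d → V) × (ℤ → U)) (j : ℤ) => Φ (xo β q.1 j) (q.2 j)) ∘
        Prod.map (una β : (Fin d → V) → Fin d → V)
          (fun (u : ℤ → U) (j : ℤ) => u (j + 1)) := by
    funext q j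
    show Φ (xo β q.1 (j + 1)) (q.2 (j + 1)) = Φ (xo β (una β q.1) j) (q.2 (j + 1))
    rw [xo_una hd]
  unfold muU thU
  rw [Measure.map_map hs hf, hcomm, ← Measure.map_map hf hT.measurable, hT.map_eq]
-- END mkm

-- BEGIN mki
private theorem mki_prod {U : Type*} [MeasurableSpace U] (P : Measure U) [IsProbabilityMeasure P] (I : Finset ℤ)
    (G : ℤ → U → ℂ) (hG : ∀ j, Measurable (G j)) :
    ∫ u : ℤ → U, ∏ j ∈ I, G j (u j) ∂(Measure.infinitePi (fun _ : ℤ => P)) =
      ∏ j ∈ I, ∫ x, G j x ∂P := by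
  have h1 := Measure.infinitePi_map_restrict (fun _ : ℤ => P) (I := I)
  have h2 : ∫ w : I → U, ∏ i : I, G i (w i) ∂(Measure.pi (fun _ : I => P)) =
      ∏ i : I, ∫ x, G i x ∂P :=
    integral_fintype_prod_eq_prod (μ := fun _ : I => P)
      (fun (i : I) (x : U) => G i x)
  rw [Finset.prod_coe_sort I (fun j => ∫ x, G j x ∂P)] at h2
  rw [← h2, ← h1, integral_map]
  · refine integral_congr_ae (Filter.Eventually.of_forall fun z => ?_)
    exact (Finset.prod_coe_sort I (fun j => G j (z j))).symm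
  · exact (Finset.measurable_restrict I).aemeasurable
  · refine Measurable.aestronglyMeasurable ?_
    exact Finset.measurable_fun_prod _ fun i _ => (hG i).comp (measurable_pi_apply i)

omit [TopologicalSpace V] [IsTopologicalAddGroup V] [CompactSpace V] [T2Space V]
  [SecondCountableTopology V] [BorelSpace V] in
private theorem mki_inner {D U : Type*} [TopologicalSpace D] [MeasurableSpace D] [BorelSpace D]
    [MeasureSpace U] [IsProbabilityMeasure (volume : Measure U)]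
    {d : ℕ} (β : V) (ξ : Fin d → V) (Φ : V → U → D)
    (hΦ : Measurable (Function.uncurry Φ)) (K : ℕ) (ψ : Fin (2 * K + 1) → C(D, ℂ)) :
    ∫ u : ℤ → U, ∏ i, ψ i (Φ (xo β ξ (-(K : ℤ) + ((i : ℕ) : ℤ)))
        (u (-(K : ℤ) + ((i : ℕ) : ℤ))))
      ∂(Measure.infinitePi (fun _ : ℤ => (volume : Measure U))) =
    ∏ i, ∫ x, ψ i (Φ (xo β ξ (-(K : ℤ) + ((i : ℕ) : ℤ))) x) := by
  have hinj : Function.Injective (fun i : Fin (2 * K + 1) => -(K : ℤ) + ((i : ℕ) : ℤ)) := by
    intro a b h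
    have h' : -(K : ℤ) + ((a : ℕ) : ℤ) = -(K : ℤ) + ((b : ℕ) : ℤ) := h
    exact Fin.ext (by omega)
  have h1 := mki_prod (volume : Measure U) (univ.map ⟨_, hinj⟩)
    (fun j x => (Function.extend (fun i : Fin (2 * K + 1) => -(K : ℤ) + ((i : ℕ) : ℤ)) ψ
      (fun _ => 0) j) (Φ (xo β ξ j) x))
    (fun j => (ContinuousMap.continuous _).measurable.comp hΦ.of_uncurry_left)
  simp only [Finset.prod_map, Function.Embedding.coeFn_mk, hinj.extend_apply] at h1
  exact h1

/-- ROW mki. Fubini for `q = (xi, u)`, independence of the `u_j` (compare WB1_integral in GsF/Fs.lean), and the shift by `K`: `∫ ∏ f_i (xo xi (-K+i)) =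
∫ ∏ f_i (xo (T^K xi) (-K+i)) = ∫ ∏ f_i (xo xi i)` (`xo_iter`, `una_mp`). -/
theorem muU_int {D U : Type*} [TopologicalSpace D] [CompactSpace D] [MeasurableSpace D] [BorelSpace D]
    [MeasureSpace U] [IsProbabilityMeasure (volume : Measure U)]
    (m : Measure V) [m.IsAddHaarMeasure] [IsProbabilityMeasure m] {d : ℕ} (hd : 0 < d) (β : V)
    (Φ : V → U → D) (hΦ : Measurable (Function.uncurry Φ)) (K : ℕ)
    (ψ : Fin (2 * K + 1) → C(D, ℂ)) :
    ∫ z, ∏ i, ψ i (z (-(K : ℤ) + ((i : ℕ) : ℤ))) ∂(muU m d β (volume : Measure U) Φ) =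
      Lam m d β (fun i v => ∫ u, ψ i (Φ v u)) := by
  have hm := muU_meas (d := d) β Φ hΦ
  have hψ : ∀ i, Measurable (ψ i) := fun i => (ψ i).continuous.measurable
  have hf : ∀ i, Measurable fun v : V => ∫ x : U, ψ i (Φ v x) := by
    intro i
    have h1 : StronglyMeasurable (Function.uncurry fun (v : V) (x : U) =>
        ψ i (Φ v x)) := ((hψ i).comp hΦ).stronglyMeasurable
    exact (h1.integral_prod_right (ν := (volume : Measure U))).measurable
  have hT := (una_mp m (d := d) β).iterate K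
  have hg : Measurable fun ξ : Fin d → V => ∏ i : Fin (2 * K + 1),
      ∫ x : U, ψ i (Φ (xo β ξ (-(K : ℤ) + ((i : ℕ) : ℤ))) x) :=
    Finset.measurable_fun_prod _ fun i _ => (hf i).comp (xo_mp m hd β _).measurable
  have hE : Measurable fun z : ℤ → D => ∏ i, ψ i (z (-(K : ℤ) + ((i : ℕ) : ℤ))) :=
    Finset.measurable_fun_prod _ fun i _ => (hψ i).comp (measurable_pi_apply _)
  unfold muU thU
  rw [integral_map hm.aemeasurable hE.aestronglyMeasurable, integral_prod]
  · have h2 : ∀ ξ : Fin d → V, (∫ u : ℤ → U,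
        ∏ i, ψ i (Φ (xo β ξ (-(K : ℤ) + ((i : ℕ) : ℤ))) (u (-(K : ℤ) + ((i : ℕ) : ℤ))))
        ∂(Measure.infinitePi (fun _ : ℤ => (volume : Measure U)))) =
        ∏ i, ∫ x, ψ i (Φ (xo β ξ (-(K : ℤ) + ((i : ℕ) : ℤ))) x) :=
      fun ξ => mki_inner β ξ Φ hΦ K ψ
    refine (integral_congr_ae (Filter.Eventually.of_forall h2)).trans ?_
    calc ∫ ξ : Fin d → V, (∏ i : Fin (2 * K + 1),
          (∫ x : U, ψ i (Φ (xo β ξ (-(K : ℤ) + ((i : ℕ) : ℤ))) x)))
            ∂(Measure.pi fun _ => m) =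
        ∫ ξ : Fin d → V, (∏ i : Fin (2 * K + 1), (∫ x : U,
          ψ i (Φ (xo β ((una β)^[K] ξ) (-(K : ℤ) + ((i : ℕ) : ℤ))) x)))
            ∂(Measure.pi fun _ => m) := by
          have h3 := integral_map (μ := Measure.pi fun _ : Fin d => m)
            hT.measurable.aemeasurable hg.aestronglyMeasurable
          rw [hT.map_eq] at h3
          exact h3
      _ = Lam m d β (fun i v => ∫ u, ψ i (Φ v u)) := by
          unfold Lam
          refine integral_congr_ae (Filter.Eventually.of_forall fun ξ => ?_)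
          refine Finset.prod_congr rfl fun i _ => ?_
          have h4 : xo β ((una β)^[K] ξ) (-(K : ℤ) + ((i : ℕ) : ℤ)) =
              xo β ξ (((i : ℕ) : ℕ) : ℤ) := by
            rw [xo_iter hd]
            congr 1
            ring
          rw [h4]
  · refine Integrable.of_bound (Measurable.aestronglyMeasurable ?_) (∏ i, ‖ψ i‖)
      (Filter.Eventually.of_forall fun q => ?_)
    · exact hE.comp hm
    · rw [norm_prod]
      exact Finset.prod_le_prod (fun i _ => norm_nonneg _) fun i _ => (ψ i).norm_coe_le_norm _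
-- END mki

-- BEGIN mkv
private theorem mkv_two (x y c : ℂ) : ‖x - c‖ ^ 2 ≤ 2 * ‖x - y‖ ^ 2 + 2 * ‖y - c‖ ^ 2 := by
  have h1 : ‖x - c‖ ≤ ‖x - y‖ + ‖y - c‖ := norm_sub_le_norm_sub_add_norm_sub x y c
  have h2 := norm_nonneg (x - c)
  nlinarith [sq_nonneg (‖x - y‖ - ‖y - c‖), norm_nonneg (x - y), norm_nonneg (y - c)]

private theorem mkv_int {X : Type*} [MeasurableSpace X] (μ : Measure X) [IsProbabilityMeasure μ]
    (f : X → ℂ) (hf : Measurable f) (B : ℝ) (hB : ∀ x, ‖f x‖ ≤ B) :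
    Integrable (fun x => ‖f x‖ ^ 2) μ := by
  refine Integrable.of_bound (hf.norm.pow_const 2).aestronglyMeasurable (B ^ 2)
    (Filter.Eventually.of_forall fun x => ?_)
  rw [Real.norm_of_nonneg (sq_nonneg _)]
  exact pow_le_pow_left₀ (norm_nonneg _) (hB x) 2

/-- ROW mkv. L^2 CONVERGENCE OF THE AVERAGES. On the space of `q = (xi, u)`: `E (shD^[n] z) = ∏ ψ_i (Φ (xo xi (n-K+i)) (u (n-K+i)))`; given `xi`
its mean is `F (T^n xi)`, `F xi = ∏ ∫ ψ_i (Φ (xo xi (-K+i)) u) du`. `‖(1/N) ∑ (E_n - F (T^n xi))‖ ^ 2` has integral ≤ const / N (`win_var` for every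
`xi`), and `mean_erg` for `T = una β`. -/
theorem muU_av {D U : Type*} [TopologicalSpace D] [CompactSpace D] [MeasurableSpace D] [BorelSpace D]
    [MeasureSpace U] [IsProbabilityMeasure (volume : Measure U)]
    (m : Measure V) [m.IsAddHaarMeasure] [IsProbabilityMeasure m] {d : ℕ} (hd : 0 < d) (β : V)
    (hT : Ergodic (una β : (Fin d → V) → Fin d → V) (Measure.pi fun _ => m))
    (Φ : V → U → D) (hΦ : Measurable (Function.uncurry Φ)) (K : ℕ)
    (ψ : Fin (2 * K + 1) → C(D, ℂ)) :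
    Tendsto (fun N : ℕ => ∫ z, ‖(∑ n ∈ range N, ∏ i, ψ i ((shD^[n] z) (-(K : ℤ) + ((i : ℕ) : ℤ)))) / (N : ℂ) -
      ∫ z', ∏ i, ψ i (z' (-(K : ℤ) + ((i : ℕ) : ℤ))) ∂(muU m d β (volume : Measure U) Φ)‖ ^ 2 ∂(muU m d β (volume : Measure U) Φ)) atTop (𝓝 0) := by
  have hG := muU_meas (d := d) β Φ hΦ
  -- the measurability of the pieces
  have hxo : ∀ j : ℤ, Measurable (fun ξ : Fin d → V => xo β ξ j) := fun j =>
    (xo_mp m hd β j).measurable
  have hψΦ : ∀ (i : Fin (2 * K + 1)) (j : ℤ), Measurable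
      (fun q : (Fin d → V) × U => ψ i (Φ (xo β q.1 j) q.2)) := by
    intro i j
    have h1 : Measurable (fun q : (Fin d → V) × U => (xo β q.1 j, q.2)) :=
      ((hxo j).comp measurable_fst).prodMk measurable_snd
    exact (ψ i).continuous.measurable.comp (hΦ.comp h1)
  obtain ⟨B, hBdef⟩ : ∃ B : ℝ, B = 1 + ∑ i, ‖ψ i‖ := ⟨_, rfl⟩
  have hB1 : 1 ≤ B := by
    rw [hBdef]
    have := Finset.sum_nonneg (s := Finset.univ) fun (i : Fin (2 * K + 1)) _ => norm_nonneg (ψ i)
    linarith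
  have hBψ : ∀ i (x : D), ‖ψ i x‖ ≤ B := by
    intro i x
    have h1 := (ψ i).norm_coe_le_norm x
    have h2 : ‖ψ i‖ ≤ ∑ i, ‖ψ i‖ := Finset.single_le_sum (f := fun i => ‖ψ i‖)
      (fun i _ => norm_nonneg (ψ i)) (Finset.mem_univ i)
    rw [hBdef]
    linarith
  have hB0 : 0 ≤ B := by linarith
  -- the mean given ξ
  obtain ⟨F, hFdef⟩ : ∃ F : (Fin d → V) → ℂ, ∀ ξ, F ξ = ∏ i : Fin (2 * K + 1),
      ∫ u, ψ i (Φ (xo β ξ (-(K : ℤ) + ((i : ℕ) : ℤ))) u) := ⟨_, fun _ => rfl⟩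
  have hFmeas : Measurable F := by
    have h1 : F = fun ξ => ∏ i : Fin (2 * K + 1),
        ∫ u, ψ i (Φ (xo β ξ (-(K : ℤ) + ((i : ℕ) : ℤ))) u) := funext hFdef
    rw [h1]
    refine Finset.measurable_fun_prod _ fun i _ => ?_
    exact ((hψΦ i (-(K : ℤ) + ((i : ℕ) : ℤ))).stronglyMeasurable.integral_prod_right
      (ν := (volume : Measure U))).measurable
  have hFB : ∀ ξ, ‖F ξ‖ ≤ B ^ (2 * K + 1) := by
    intro ξ
    rw [hFdef, norm_prod]
    calc ∏ i : Fin (2 * K + 1), ‖∫ u, ψ i (Φ (xo β ξ (-(K : ℤ) + ((i : ℕ) : ℤ))) u)‖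
        ≤ ∏ _i : Fin (2 * K + 1), B := by
          refine Finset.prod_le_prod (fun i _ => norm_nonneg _) fun i _ => ?_
          refine (norm_integral_le_of_norm_le_const
            (Filter.Eventually.of_forall fun u => hBψ i _)).trans ?_
          simp
      _ = B ^ (2 * K + 1) := by
          rw [Finset.prod_const, Finset.card_univ, Fintype.card_fin]
  have hFit : ∀ (n : ℕ) ξ, F ((una β)^[n] ξ) = ∏ i : Fin (2 * K + 1),
      ∫ u, ψ i (Φ (xo β ξ ((n : ℤ) - K + ((i : ℕ) : ℤ))) u) := by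
    intro n ξ
    rw [hFdef]
    refine Finset.prod_congr rfl fun i _ => ?_
    rw [xo_iter hd β n ξ, show -(K : ℤ) + ((i : ℕ) : ℤ) + n = (n : ℤ) - K + ((i : ℕ) : ℤ) by ring]
  -- the constant is the integral of F
  have hc : ∫ z', ∏ i, ψ i (z' (-(K : ℤ) + ((i : ℕ) : ℤ))) ∂(muU m d β (volume : Measure U) Φ) =
      ∫ ξ, F ξ ∂(Measure.pi fun _ : Fin d => m) := by
    rw [muU_int m hd β Φ hΦ K ψ]
    unfold Lam
    have hTK : MeasurePreserving ((una β)^[K] : (Fin d → V) → Fin d → V) (Measure.pi fun _ => m)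
        (Measure.pi fun _ => m) := (una_mp m β).iterate K
    have h1 : ∀ ξ : Fin d → V, (∏ j : Fin (2 * K + 1), ∫ u, ψ j (Φ (xo β ξ ((j : ℕ) : ℤ)) u)) =
        F ((una β)^[K] ξ) := by
      intro ξ
      rw [hFit]
      refine Finset.prod_congr rfl fun i _ => ?_
      rw [show (K : ℤ) - K + ((i : ℕ) : ℤ) = ((i : ℕ) : ℤ) by ring]
    rw [integral_congr_ae (Filter.Eventually.of_forall h1)]
    conv_rhs => rw [← hTK.map_eq]
    rw [integral_map hTK.measurable.aemeasurable hFmeas.aestronglyMeasurable]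
  rw [hc]
  -- the process
  obtain ⟨A, hAdef⟩ : ∃ A : ℕ → (Fin d → V) × (ℤ → U) → ℂ, ∀ n q, A n q =
      ∏ i : Fin (2 * K + 1), ψ i (Φ (xo β q.1 ((n : ℤ) - K + ((i : ℕ) : ℤ)))
        (q.2 ((n : ℤ) - K + ((i : ℕ) : ℤ)))) := ⟨_, fun _ _ => rfl⟩
  have hAmeas : ∀ n, Measurable (A n) := by
    intro n
    have h1 : A n = fun q => ∏ i : Fin (2 * K + 1), ψ i (Φ (xo β q.1 ((n : ℤ) - K + ((i : ℕ) : ℤ)))
        (q.2 ((n : ℤ) - K + ((i : ℕ) : ℤ)))) := funext (hAdef n)
    rw [h1]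
    refine Finset.measurable_fun_prod _ fun i _ => ?_
    exact (ψ i).continuous.measurable.comp
      ((measurable_pi_apply ((n : ℤ) - K + ((i : ℕ) : ℤ))).comp hG)
  have hAB : ∀ n q, ‖A n q‖ ≤ B ^ (2 * K + 1) := by
    intro n q
    rw [hAdef, norm_prod]
    calc _ ≤ ∏ _i : Fin (2 * K + 1), B :=
          Finset.prod_le_prod (fun i _ => norm_nonneg _) fun i _ => hBψ i _
      _ = B ^ (2 * K + 1) := by
          rw [Finset.prod_const, Finset.card_univ, Fintype.card_fin]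
  have hN : ∀ N : ℕ, ∫ z, ‖(∑ n ∈ range N, ∏ i, ψ i ((shD^[n] z) (-(K : ℤ) + ((i : ℕ) : ℤ)))) / (N : ℂ) -
      ∫ ξ, F ξ ∂(Measure.pi fun _ : Fin d => m)‖ ^ 2 ∂(muU m d β (volume : Measure U) Φ) =
      ∫ q, ‖(∑ n ∈ range N, A n q) / (N : ℂ) - ∫ ξ, F ξ ∂(Measure.pi fun _ : Fin d => m)‖ ^ 2
        ∂((Measure.pi (fun _ : Fin d => m)).prod
          (Measure.infinitePi (fun _ : ℤ => (volume : Measure U)))) := by
    intro N
    unfold muU thU
    rw [integral_map hG.aemeasurable]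
    · refine integral_congr_ae (Filter.Eventually.of_forall fun q => ?_)
      have h1 : ∀ n, (∏ i : Fin (2 * K + 1), ψ i ((shD^[n] fun j : ℤ => Φ (xo β q.1 j) (q.2 j))
          (-(K : ℤ) + ((i : ℕ) : ℤ)))) = A n q := by
        intro n
        rw [hAdef]
        refine Finset.prod_congr rfl fun i _ => ?_
        rw [shD_iter, show -(K : ℤ) + ((i : ℕ) : ℤ) + n = (n : ℤ) - K + ((i : ℕ) : ℤ) by ring]
      simp only [h1]
    · simp only [shD_iter]
      refine Measurable.aestronglyMeasurable ?_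
      refine Measurable.pow_const (Measurable.norm (Measurable.sub_const
        (Measurable.div_const (Finset.measurable_fun_sum _ fun n _ =>
          Finset.measurable_fun_prod _ fun i _ => ?_) _) _)) 2
      exact (ψ i).continuous.measurable.comp (measurable_pi_apply _)
  simp only [hN]
  have hme := mean_erg (Measure.pi fun _ : Fin d => m) (una β) hT F hFmeas _ hFB
  have hSFmeas : ∀ N : ℕ, Measurable fun ξ : Fin d → V => ∑ n ∈ range N, F ((una β)^[n] ξ) :=
    fun N => Finset.measurable_fun_sum _ fun n _ =>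
      hFmeas.comp ((una_mp m β).iterate n).measurable
  have hSB : ∀ (N : ℕ) (a : ℕ → ℂ), (∀ n, ‖a n‖ ≤ B ^ (2 * K + 1)) →
      ‖(∑ n ∈ range N, a n) / (N : ℂ)‖ ≤ B ^ (2 * K + 1) := by
    intro N a ha
    rw [norm_div, Complex.norm_natCast]
    rcases Nat.eq_zero_or_pos N with h0 | h0
    · rw [h0]
      simp only [Finset.range_zero, Finset.sum_empty, norm_zero, zero_div]
      positivity
    · have hN0 : (0 : ℝ) < N := by exact_mod_cast h0
      rw [div_le_iff₀ hN0]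
      refine (norm_sum_le _ _).trans ((Finset.sum_le_sum fun n _ => ha n).trans ?_)
      rw [Finset.sum_const, Finset.card_range, nsmul_eq_mul, mul_comm]
  have hbound : ∀ N : ℕ, 1 ≤ N →
      ∫ q, ‖(∑ n ∈ range N, A n q) / (N : ℂ) - ∫ ξ, F ξ ∂(Measure.pi fun _ : Fin d => m)‖ ^ 2
        ∂((Measure.pi (fun _ : Fin d => m)).prod
          (Measure.infinitePi (fun _ : ℤ => (volume : Measure U)))) ≤
      2 * ((4 * K + 1) * (2 * B ^ (2 * K + 1)) ^ 2 * (1 / (N : ℝ))) +
      2 * ∫ ξ, ‖(∑ n ∈ range N, F ((una β)^[n] ξ)) / (N : ℂ) -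
        ∫ ξ', F ξ' ∂(Measure.pi fun _ : Fin d => m)‖ ^ 2 ∂(Measure.pi fun _ : Fin d => m) := by
    intro N hN1
    have hN0 : (0 : ℝ) < N := by exact_mod_cast hN1
    have hcB : ‖∫ ξ, F ξ ∂(Measure.pi fun _ : Fin d => m)‖ ≤ B ^ (2 * K + 1) := by
      refine (norm_integral_le_of_norm_le_const (Filter.Eventually.of_forall hFB)).trans ?_
      simp
    -- first difference
    have i1 : Integrable (fun q : (Fin d → V) × (ℤ → U) =>
        ‖(∑ n ∈ range N, A n q) / (N : ℂ) - (∑ n ∈ range N, F ((una β)^[n] q.1)) / (N : ℂ)‖ ^ 2)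
        ((Measure.pi (fun _ : Fin d => m)).prod
          (Measure.infinitePi (fun _ : ℤ => (volume : Measure U)))) := by
      refine mkv_int _ _ (((Finset.measurable_fun_sum _ fun n _ => hAmeas n).div_const _).sub
        (((hSFmeas N).comp measurable_fst).div_const _)) (B ^ (2 * K + 1) + B ^ (2 * K + 1)) ?_
      intro q
      refine (norm_sub_le _ _).trans (add_le_add ?_ ?_)
      · exact hSB N (fun n => A n q) fun n => hAB n q
      · exact hSB N (fun n => F ((una β)^[n] q.1)) fun n => hFB _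
    have i2' : Integrable (fun ξ : Fin d → V =>
        ‖(∑ n ∈ range N, F ((una β)^[n] ξ)) / (N : ℂ) -
          ∫ ξ', F ξ' ∂(Measure.pi fun _ : Fin d => m)‖ ^ 2) (Measure.pi fun _ : Fin d => m) := by
      refine mkv_int _ _ (((hSFmeas N).div_const _).sub_const _)
        (B ^ (2 * K + 1) + B ^ (2 * K + 1)) ?_
      intro ξ
      refine (norm_sub_le _ _).trans (add_le_add ?_ hcB)
      exact hSB N (fun n => F ((una β)^[n] ξ)) fun n => hFB _
    have i2 : Integrable (fun q : (Fin d → V) × (ℤ → U) =>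
        ‖(∑ n ∈ range N, F ((una β)^[n] q.1)) / (N : ℂ) -
          ∫ ξ', F ξ' ∂(Measure.pi fun _ : Fin d => m)‖ ^ 2)
        ((Measure.pi (fun _ : Fin d => m)).prod
          (Measure.infinitePi (fun _ : ℤ => (volume : Measure U)))) := by
      refine mkv_int _ _ ((((hSFmeas N).comp measurable_fst).div_const _).sub_const _)
        (B ^ (2 * K + 1) + B ^ (2 * K + 1)) ?_
      intro q
      refine (norm_sub_le _ _).trans (add_le_add ?_ hcB)
      exact hSB N (fun n => F ((una β)^[n] q.1)) fun n => hFB _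
    have h1 : ∫ q, ‖(∑ n ∈ range N, A n q) / (N : ℂ) -
        ∫ ξ, F ξ ∂(Measure.pi fun _ : Fin d => m)‖ ^ 2
        ∂((Measure.pi (fun _ : Fin d => m)).prod
          (Measure.infinitePi (fun _ : ℤ => (volume : Measure U)))) ≤
        ∫ q, (2 * ‖(∑ n ∈ range N, A n q) / (N : ℂ) -
          (∑ n ∈ range N, F ((una β)^[n] q.1)) / (N : ℂ)‖ ^ 2 +
          2 * ‖(∑ n ∈ range N, F ((una β)^[n] q.1)) / (N : ℂ) -
          ∫ ξ', F ξ' ∂(Measure.pi fun _ : Fin d => m)‖ ^ 2)
        ∂((Measure.pi (fun _ : Fin d => m)).prod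
          (Measure.infinitePi (fun _ : ℤ => (volume : Measure U)))) := by
      refine integral_mono ?_ ((i1.const_mul 2).add (i2.const_mul 2)) fun q => mkv_two _ _ _
      refine mkv_int _ _ (((Finset.measurable_fun_sum _ fun n _ => hAmeas n).div_const _).sub_const _)
        (B ^ (2 * K + 1) + B ^ (2 * K + 1)) ?_
      intro q
      refine (norm_sub_le _ _).trans (add_le_add ?_ hcB)
      exact hSB N (fun n => A n q) fun n => hAB n q
    refine h1.trans ?_
    rw [integral_add (i1.const_mul 2) (i2.const_mul 2), integral_const_mul, integral_const_mul]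
    have h2 : ∫ q, ‖(∑ n ∈ range N, F ((una β)^[n] q.1)) / (N : ℂ) -
          ∫ ξ', F ξ' ∂(Measure.pi fun _ : Fin d => m)‖ ^ 2
        ∂((Measure.pi (fun _ : Fin d => m)).prod
          (Measure.infinitePi (fun _ : ℤ => (volume : Measure U)))) =
        ∫ ξ, ‖(∑ n ∈ range N, F ((una β)^[n] ξ)) / (N : ℂ) -
        ∫ ξ', F ξ' ∂(Measure.pi fun _ : Fin d => m)‖ ^ 2 ∂(Measure.pi fun _ : Fin d => m) := by
      rw [integral_prod _ i2]
      refine integral_congr_ae (Filter.Eventually.of_forall fun ξ => ?_)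
      simp
    have h3 : ∫ q, ‖(∑ n ∈ range N, A n q) / (N : ℂ) -
          (∑ n ∈ range N, F ((una β)^[n] q.1)) / (N : ℂ)‖ ^ 2
        ∂((Measure.pi (fun _ : Fin d => m)).prod
          (Measure.infinitePi (fun _ : ℤ => (volume : Measure U)))) ≤
        (4 * K + 1) * (2 * B ^ (2 * K + 1)) ^ 2 * (1 / (N : ℝ)) := by
      rw [integral_prod _ i1]
      have h4 : ∀ ξ : Fin d → V, ∫ u : ℤ → U, ‖(∑ n ∈ range N, A n (ξ, u)) / (N : ℂ) -
          (∑ n ∈ range N, F ((una β)^[n] ξ)) / (N : ℂ)‖ ^ 2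
          ∂(Measure.infinitePi (fun _ : ℤ => (volume : Measure U))) ≤
          (4 * K + 1) * (2 * B ^ (2 * K + 1)) ^ 2 * (1 / (N : ℝ)) := by
        intro ξ
        have h5 := win_var (volume : Measure U) K
          (fun n i u => ψ i (Φ (xo β ξ ((n : ℤ) - K + ((i : ℕ) : ℤ))) u))
          (fun n i => (hψΦ i ((n : ℤ) - K + ((i : ℕ) : ℤ))).comp measurable_prodMk_left)
          B hB1 (fun n i u => hBψ i _) N
        have h6 : ∀ u : ℤ → U, ‖(∑ n ∈ range N, A n (ξ, u)) / (N : ℂ) -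
            (∑ n ∈ range N, F ((una β)^[n] ξ)) / (N : ℂ)‖ ^ 2 =
            (1 / (N : ℝ) ^ 2) * ‖∑ n ∈ range N,
              (∏ i : Fin (2 * K + 1), ψ i (Φ (xo β ξ ((n : ℤ) - K + ((i : ℕ) : ℤ)))
                (u ((n : ℤ) - K + ((i : ℕ) : ℤ)))) -
              ∏ i : Fin (2 * K + 1), ∫ x, ψ i (Φ (xo β ξ ((n : ℤ) - K + ((i : ℕ) : ℤ))) x))‖ ^ 2 := by
          intro u
          rw [← sub_div, ← Finset.sum_sub_distrib, norm_div, Complex.norm_natCast, div_pow,
            div_eq_mul_one_div, mul_comm]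
          congr 3
          refine Finset.sum_congr rfl fun n _ => ?_
          rw [hAdef, hFit]
        rw [integral_congr_ae (Filter.Eventually.of_forall h6), integral_const_mul]
        refine (mul_le_mul_of_nonneg_left h5 (by positivity)).trans (le_of_eq ?_)
        field_simp
      calc _ ≤ ∫ _ξ : Fin d → V, (4 * K + 1) * (2 * B ^ (2 * K + 1)) ^ 2 * (1 / (N : ℝ))
            ∂(Measure.pi fun _ : Fin d => m) := by
            refine integral_mono i1.integral_prod_left (integrable_const _) fun ξ => ?_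
            exact h4 ξ
        _ = _ := by simp
    rw [h2]
    linarith
  have hlim : Tendsto (fun N : ℕ => 2 * ((4 * K + 1) * (2 * B ^ (2 * K + 1)) ^ 2 * (1 / (N : ℝ))) +
      2 * ∫ ξ, ‖(∑ n ∈ range N, F ((una β)^[n] ξ)) / (N : ℂ) -
        ∫ ξ', F ξ' ∂(Measure.pi fun _ : Fin d => m)‖ ^ 2 ∂(Measure.pi fun _ : Fin d => m))
      atTop (𝓝 0) := by
    have h1 : Tendsto (fun N : ℕ => 2 * ((4 * K + 1) * (2 * B ^ (2 * K + 1)) ^ 2 * (1 / (N : ℝ))))
        atTop (𝓝 (2 * ((4 * K + 1) * (2 * B ^ (2 * K + 1)) ^ 2 * 0))) :=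
      (tendsto_one_div_atTop_nhds_zero_nat.const_mul _).const_mul _
    have h2 := h1.add (hme.const_mul 2)
    simpa using h2
  refine squeeze_zero' (Filter.Eventually.of_forall fun N => integral_nonneg fun q => sq_nonneg _)
    ?_ hlim
  filter_upwards [Filter.eventually_ge_atTop 1] with N hN1
  exact hbound N hN1
-- END mkv

/-- the limit measure is ergodic -/
theorem muU_erg {U : Type*} [MeasureSpace U] [IsProbabilityMeasure (volume : Measure U)] (C : ℝ)
    (m : Measure V) [m.IsAddHaarMeasure] [IsProbabilityMeasure m] {d : ℕ}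
    (hd : 0 < d) (β : V) (hT : Ergodic (una β : (Fin d → V) → Fin d → V) (Measure.pi fun _ => m))
    (Φ : V → U → Metric.closedBall (0 : ℂ) C) (hΦ : Measurable (Function.uncurry Φ)) :
    Ergodic (shD : (ℤ → Metric.closedBall (0 : ℂ) C) → ℤ → Metric.closedBall (0 : ℂ) C)
      (muU m d β (volume : Measure U) Φ) := by
  have : CompactSpace (Metric.closedBall (0 : ℂ) C) :=
    isCompact_iff_compactSpace.1 (isCompact_closedBall 0 C)
  have := muU_prob m (d := d) β Φ hΦ
  refine erg_crit _ _ (muU_shift m hd β Φ hΦ)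
    {E | ∃ (K : ℕ) (ψ : Fin (2 * K + 1) → C(Metric.closedBall (0 : ℂ) C, ℂ)),
      E = fun z => ∏ i, ψ i (z (-(K : ℤ) + ((i : ℕ) : ℤ)))} ?_ ?_ ?_ ?_
  · rintro E ⟨K, ψ, rfl⟩
    exact Finset.measurable_fun_prod _ fun i _ =>
      (ψ i).continuous.measurable.comp (measurable_pi_apply _)
  · rintro E ⟨K, ψ, rfl⟩
    refine ⟨∏ i, ‖ψ i‖, fun z => ?_⟩
    rw [norm_prod]
    exact Finset.prod_le_prod (fun i _ => norm_nonneg _) fun i _ => (ψ i).norm_coe_le_norm _
  · rintro E ⟨K, ψ, rfl⟩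
    exact muU_av m hd β hT Φ hΦ K ψ
  · intro f hf hb h0
    exact tot_cyl C _ f hf hb fun K ψ => h0 _ ⟨K, ψ, rfl⟩

-- BEGIN phe
/-- ROW phe. `κZ = condDistrib G ρ ν : Kernel Z D`, `h z = ∫ ψ dκZ z` satisfies `CE` (`condDistrib_ae_eq_condExp` / `integral_condDistrib..`;
`ν.map ρ = ζ`); `κ v = ` the mean of `κZ (π (v, w))` over `w` (composition with `Kernel.deterministic` and `Kernel.const`; bind), Markov;
`Φ` from `Kernel.exists_measurable_map_eq_unitInterval`. -/
theorem phi_exists {Y Z : Type*} [MeasurableSpace Y] [MeasurableSpace Z] (C : ℝ) (hC : 0 ≤ C)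
    (m : Measure V) [IsProbabilityMeasure m] (ω : Measure W) [IsProbabilityMeasure ω]
    {ν : Measure Y} [IsProbabilityMeasure ν] {ζ : Measure Z} {ρ : Y → Z} (hρ : MeasurePreserving ρ ν ζ)
    (π : V × W → Z) (hπ : MeasurePreserving π (m.prod ω) ζ)
    (G : Y → Metric.closedBall (0 : ℂ) C) (hG : Measurable G) :
    ∃ Φ : V → unitInterval → Metric.closedBall (0 : ℂ) C, Measurable (Function.uncurry Φ) ∧
      ∀ ψ : C(Metric.closedBall (0 : ℂ) C, ℂ), ∃ h : Z → ℂ, Measurable h ∧ (∀ z, ‖h z‖ ≤ ‖ψ‖) ∧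
        CE ν ζ ρ (fun y => ψ (G y)) h ∧ ∀ v, ∫ u, ψ (Φ v u) = ∫ w, h (π (v, w)) ∂ω := by
  classical
  have hne : Nonempty (Metric.closedBall (0 : ℂ) C) := ⟨⟨0, by simpa using hC⟩⟩
  have hcs : CompactSpace (Metric.closedBall (0 : ℂ) C) :=
    isCompact_iff_compactSpace.1 (isCompact_closedBall 0 C)
  have hsb : StandardBorelSpace (Metric.closedBall (0 : ℂ) C) :=
    (Metric.isClosed_closedBall (x := (0 : ℂ)) (ε := C)).measurableSet.standardBorel
  have hζ : IsProbabilityMeasure ζ := hρ.map_eq ▸ Measure.isProbabilityMeasure_map hρ.measurable.aemeasurable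
  let κZ : Kernel Z (Metric.closedBall (0 : ℂ) C) := condDistrib G ρ ν
  have hκZ : IsMarkovKernel κZ := inferInstanceAs (IsMarkovKernel (condDistrib G ρ ν))
  let κ1 : Kernel (V × W) (Metric.closedBall (0 : ℂ) C) := κZ.comap π hπ.measurable
  have hκ1 : IsMarkovKernel κ1 := Kernel.IsMarkovKernel.comap κZ hπ.measurable
  let κ0 : Kernel V (Metric.closedBall (0 : ℂ) C) := Kernel.snd ((Kernel.const V ω) ⊗ₖ κ1)
  have hκ0 : IsMarkovKernel κ0 := inferInstance
  obtain ⟨Φ, hΦ, hΦm⟩ := κ0.exists_measurable_map_eq_unitInterval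
  refine ⟨Φ, hΦ, fun ψ => ⟨fun z => ∫ x, ψ x ∂(κZ z), ?_, ?_, ?_, ?_⟩⟩
  · exact (StronglyMeasurable.integral_condDistrib (X := ρ) (Y := G) (μ := ν)
      (f := fun p : Z × Metric.closedBall (0 : ℂ) C => ψ p.2)
      (ψ.continuous.measurable.comp measurable_snd).stronglyMeasurable).measurable
  · intro z
    refine (norm_integral_le_of_norm_le_const (C := ‖ψ‖)
      (Eventually.of_forall fun x => ψ.norm_coe_le_norm x)).trans ?_
    simp
  · rintro t ht ⟨B, hB⟩
    have hm : Measurable (fun y => (ρ y, G y)) := hρ.measurable.prodMk hG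
    have hfm : Measurable (fun p : Z × Metric.closedBall (0 : ℂ) C => ψ p.2 * t p.1) :=
      (ψ.continuous.measurable.comp measurable_snd).mul (ht.comp measurable_fst)
    have h1 : ∫ y, ψ (G y) * t (ρ y) ∂ν =
        ∫ p : Z × Metric.closedBall (0 : ℂ) C, ψ p.2 * t p.1 ∂(ν.map (fun y => (ρ y, G y))) :=
      (integral_map hm.aemeasurable hfm.aestronglyMeasurable).symm
    have h2 : ζ ⊗ₘ κZ = ν.map (fun y => (ρ y, G y)) := by
      rw [← hρ.map_eq]
      exact compProd_map_condDistrib hG.aemeasurable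
    show ∫ y, ψ (G y) * t (ρ y) ∂ν = ∫ z, (∫ x, ψ x ∂(κZ z)) * t z ∂ζ
    rw [h1, ← h2, Measure.integral_compProd]
    · refine integral_congr_ae (Eventually.of_forall fun z => ?_)
      show ∫ b, ψ b * t z ∂(κZ z) = (∫ x, ψ x ∂(κZ z)) * t z
      exact integral_mul_const _ _
    · refine Integrable.of_bound hfm.aestronglyMeasurable (‖ψ‖ * B) (Eventually.of_forall fun p => ?_)
      rw [norm_mul]
      exact mul_le_mul (ψ.norm_coe_le_norm _) (hB _) (norm_nonneg _) (norm_nonneg _)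
  · intro v
    have hΦv : Measurable (Φ v) := hΦ.comp measurable_prodMk_left
    have h1 : ∫ u, ψ (Φ v u) = ∫ x, ψ x ∂((volume : Measure unitInterval).map (Φ v)) :=
      (integral_map hΦv.aemeasurable ψ.continuous.measurable.aestronglyMeasurable).symm
    rw [h1, hΦm v]
    show ∫ x, ψ x ∂(Kernel.snd ((Kernel.const V ω) ⊗ₖ κ1) v) = _
    rw [Kernel.snd_apply, integral_map measurable_snd.aemeasurable
      ψ.continuous.measurable.aestronglyMeasurable, ProbabilityTheory.integral_compProd]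
    · rfl
    · refine Integrable.of_bound (ψ.continuous.measurable.comp measurable_snd).aestronglyMeasurable
        ‖ψ‖ (Eventually.of_forall fun p => ψ.norm_coe_le_norm _)
-- END phe

-- BEGIN ceu
/-- ROW ceu. `h = h'` a.e. (test with `t = conj (h - h')`), then Fubini for `π`. -/
theorem ce_unique {Y Z : Type*} [MeasurableSpace Y] [MeasurableSpace Z] (m : Measure V)
    [IsProbabilityMeasure m] (ω : Measure W) [IsProbabilityMeasure ω] {ν : Measure Y} {ζ : Measure Z}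
    {ρ : Y → Z} (π : V × W → Z) (hπ : MeasurePreserving π (m.prod ω) ζ) (f : Y → ℂ) (h h' : Z → ℂ)
    (hh : Measurable h) (hh' : Measurable h') (hb : ∃ B : ℝ, ∀ z, ‖h z‖ ≤ B)
    (hb' : ∃ B : ℝ, ∀ z, ‖h' z‖ ≤ B) (hc : CE ν ζ ρ f h) (hc' : CE ν ζ ρ f h') :
    ∀ᵐ v ∂m, ∫ w, h (π (v, w)) ∂ω = ∫ w, h' (π (v, w)) ∂ω := by
  obtain ⟨B, hB⟩ := hb
  obtain ⟨B', hB'⟩ := hb'
  have hP : IsProbabilityMeasure ζ := by
    rw [← hπ.map_eq]
    exact Measure.isProbabilityMeasure_map hπ.measurable.aemeasurable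
  have htm : Measurable fun z => (starRingEnd ℂ) (h z - h' z) :=
    Complex.continuous_conj.measurable.comp (hh.sub hh')
  have htb : ∀ z, ‖(starRingEnd ℂ) (h z - h' z)‖ ≤ B + B' := by
    intro z
    rw [RCLike.norm_conj]
    exact (norm_sub_le _ _).trans (add_le_add (hB z) (hB' z))
  have h1 := (hc _ htm ⟨B + B', htb⟩).symm.trans (hc' _ htm ⟨B + B', htb⟩)
  have hi : ∀ g : Z → ℂ, Measurable g → ∀ D : ℝ, (∀ z, ‖g z‖ ≤ D) →
      Integrable (fun z => g z * (starRingEnd ℂ) (h z - h' z)) ζ := by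
    intro g hg D hD
    refine Integrable.of_bound (hg.mul htm).aestronglyMeasurable (D * (B + B')) ?_
    refine Filter.Eventually.of_forall fun z => ?_
    rw [norm_mul]
    exact mul_le_mul (hD z) (htb z) (norm_nonneg _) ((norm_nonneg _).trans (hD z))
  have h2 : ∫ z, (h z - h' z) * (starRingEnd ℂ) (h z - h' z) ∂ζ = 0 := by
    have h3 : ∀ z, (h z - h' z) * (starRingEnd ℂ) (h z - h' z) =
        h z * (starRingEnd ℂ) (h z - h' z) - h' z * (starRingEnd ℂ) (h z - h' z) :=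
      fun z => sub_mul _ _ _
    rw [integral_congr_ae (Filter.Eventually.of_forall h3),
      integral_sub (hi h hh B hB) (hi h' hh' B' hB'), h1, sub_self]
  have h4 : ∀ z, (h z - h' z) * (starRingEnd ℂ) (h z - h' z) = ((‖h z - h' z‖ ^ 2 : ℝ) : ℂ) := by
    intro z
    rw [Complex.mul_conj, Complex.normSq_eq_norm_sq]
  rw [integral_congr_ae (Filter.Eventually.of_forall h4), integral_complex_ofReal] at h2
  have h5 : ∫ z, ‖h z - h' z‖ ^ 2 ∂ζ = 0 := by exact_mod_cast h2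
  have h6 : Integrable (fun z => ‖h z - h' z‖ ^ 2) ζ := by
    refine Integrable.of_bound ((hh.sub hh').norm.pow_const 2).aestronglyMeasurable
      ((B + B') ^ 2) ?_
    refine Filter.Eventually.of_forall fun z => ?_
    rw [Real.norm_of_nonneg (by positivity)]
    refine pow_le_pow_left₀ (norm_nonneg _) ?_ 2
    exact (norm_sub_le _ _).trans (add_le_add (hB z) (hB' z))
  have h7 : ∀ᵐ z ∂ζ, h z = h' z := by
    have h8 := (integral_eq_zero_iff_of_nonneg (fun z => by positivity) h6).1 h5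
    filter_upwards [h8] with z hz
    have h9 : ‖h z - h' z‖ ^ 2 = 0 := hz
    exact sub_eq_zero.1 (norm_eq_zero.1 (pow_eq_zero_iff (two_ne_zero)|>.1 h9))
  have h10 := hπ.quasiMeasurePreserving.ae h7
  have h11 := Measure.ae_ae_of_ae_prod h10
  filter_upwards [h11] with v hv
  exact integral_congr_ae hv
-- END ceu

-- BEGIN ptc
/-- ROW ptc. `V` is a point: the laws of the coordinates. `∫ ψ (Φ v u) = ∫ ψ (G y)` for all `ψ` (CE with `t = 1`, `hπ`), so the two finite
measures on the compact metric space D are equal (`ext_of_forall_integral_eq_of_IsFiniteMeasure`); then `muK` is the image of `infinitePi` under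
`u ↦ (Φ v u_j)_j` (`Measure.infinitePi_map_pi` or uniqueness of `infinitePi`). -/
theorem muU_point [Subsingleton V] {Y Z : Type*} [MeasurableSpace Y] [MeasurableSpace Z] (C : ℝ)
    (m : Measure V) [IsProbabilityMeasure m] (ω : Measure W) [IsProbabilityMeasure ω]
    {ν : Measure Y} [IsProbabilityMeasure ν] {ζ : Measure Z} {ρ : Y → Z}
    (π : V × W → Z) (hπ : MeasurePreserving π (m.prod ω) ζ)
    (G : Y → Metric.closedBall (0 : ℂ) C) (hG : Measurable G) (d : ℕ) (β : V)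
    (Φ : V → unitInterval → Metric.closedBall (0 : ℂ) C) (hΦ : Measurable (Function.uncurry Φ))
    (h : ∀ ψ : C(Metric.closedBall (0 : ℂ) C, ℂ), ∃ h : Z → ℂ, Measurable h ∧ (∀ z, ‖h z‖ ≤ ‖ψ‖) ∧
        CE ν ζ ρ (fun y => ψ (G y)) h ∧ ∀ v, ∫ u, ψ (Φ v u) = ∫ w, h (π (v, w)) ∂ω) :
    muU m d β (volume : Measure unitInterval) Φ = Measure.infinitePi (fun _ : ℤ => ν.map G) := by
  classical
  have hcs : CompactSpace (Metric.closedBall (0 : ℂ) C) :=
    isCompact_iff_compactSpace.1 (isCompact_closedBall 0 C)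
  have hΦv : ∀ v, Measurable (Φ v) := fun v => hΦ.comp measurable_prodMk_left
  have hζ : IsProbabilityMeasure ζ := hπ.map_eq ▸ Measure.isProbabilityMeasure_map hπ.measurable.aemeasurable
  have hGp : IsProbabilityMeasure (ν.map G) := Measure.isProbabilityMeasure_map hG.aemeasurable
  have hPp : ∀ v, IsProbabilityMeasure ((volume : Measure unitInterval).map (Φ v)) :=
    fun v => Measure.isProbabilityMeasure_map (hΦv v).aemeasurable
  -- the laws of the coordinates
  have key : ∀ v, (volume : Measure unitInterval).map (Φ v) = ν.map G := by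
    intro v
    have hint : ∀ ψ : C(Metric.closedBall (0 : ℂ) C, ℂ),
        ∫ u, ψ (Φ v u) = ∫ y, ψ (G y) ∂ν := by
      intro ψ
      obtain ⟨g, hg, hgb, hce, hgv⟩ := h ψ
      have hone : ∫ y, ψ (G y) ∂ν = ∫ z, g z ∂ζ := by
        have := hce (fun _ => 1) measurable_const ⟨1, fun _ => by simp⟩
        simpa using this
      have hgi : Integrable (fun q : V × W => g (π q)) (m.prod ω) :=
        Integrable.of_bound (hg.comp hπ.measurable).aestronglyMeasurable ‖ψ‖
          (Eventually.of_forall fun q => hgb _)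
      have h2 : ∫ z, g z ∂ζ = ∫ q, g (π q) ∂(m.prod ω) := by
        rw [← hπ.map_eq]
        exact integral_map hπ.measurable.aemeasurable hg.aestronglyMeasurable
      rw [hone, h2, integral_prod _ hgi, hgv v]
      have h3 : ∀ v' : V, ∫ w, g (π (v', w)) ∂ω = ∫ w, g (π (v, w)) ∂ω := fun v' => by
        rw [Subsingleton.elim v' v]
      simp only [h3]
      simp
    refine ext_of_forall_integral_eq_of_IsFiniteMeasure fun f => ?_
    let ψ : C(Metric.closedBall (0 : ℂ) C, ℂ) := ⟨fun x => ((f x : ℝ) : ℂ),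
      Complex.continuous_ofReal.comp f.continuous⟩
    have h4 := hint ψ
    have h5 : ((∫ u, f (Φ v u) : ℝ) : ℂ) = ((∫ y, f (G y) ∂ν : ℝ) : ℂ) := by
      rw [← integral_complex_ofReal, ← integral_complex_ofReal]
      exact h4
    rw [integral_map (hΦv v).aemeasurable f.continuous.measurable.aestronglyMeasurable,
      integral_map hG.aemeasurable f.continuous.measurable.aestronglyMeasurable]
    exact_mod_cast h5
  -- the measure muK
  have hfun : (fun (q : (Fin d → V) × (ℤ → unitInterval)) (j : ℤ) => Φ (xo β q.1 j) (q.2 j)) =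
      (fun (u : ℤ → unitInterval) (j : ℤ) => Φ β (u j)) ∘ Prod.snd := by
    funext q j
    simp only [Function.comp]
    rw [Subsingleton.elim (xo β q.1 j) β]
  have hmm : Measurable (fun (u : ℤ → unitInterval) (j : ℤ) => Φ β (u j)) :=
    measurable_pi_lambda _ fun j => (hΦv β).comp (measurable_pi_apply j)
  unfold muU thU
  rw [hfun, ← Measure.map_map hmm measurable_snd, Measure.map_snd_prod]
  simp only [measure_univ, one_smul]
  rw [Measure.infinitePi_map_pi _ (fun _ => hΦv β)]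
  simp only [key]
-- END ptc

end meas

end Pool.Agent.GsF
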