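import Pool.Agent.GsK.Kb

/-!
Twisted averages on Gaussian systems: the theorems box_mean, conv_prod, conv_diag of GsF/Ga.lean with unimodular
polynomial weights.
-/

set_option autoImplicit false

namespace Pool.Agent.GsF

open Finset MeasureTheory Filter Topology ProbabilityTheory Polynomial

variable {W : Type*} [MeasurableSpace W]

-- BEGIN bxw
private theorem bxw_int {E : Type*} [NormedAddCommGroup E] [NormedSpace ℝ E] [MeasurableSpace E]
    [BorelSpace E] [SecondCountableTopology E] (ω : Measure W) (T : W → W)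
    (hT : MeasurePreserving T ω ω) (f : W → E) (hf : Measurable f) : ∫ w, f (T w) ∂ω = ∫ w, f w ∂ω := by
  have h1 := integral_map (μ := ω) hT.measurable.aemeasurable (f := f)
    (hf.stronglyMeasurable.aestronglyMeasurable)
  rw [hT.map_eq] at h1
  exact h1.symm

private theorem bxw_exp (r v : ℝ) (h : |r| ≤ v) : |Real.exp (-v) * (Real.exp r - 1)| ≤ |r| := by
  have h1 : |Real.exp r - 1| ≤ |r| * Real.exp |r| := by
    rcases le_total 0 r with hr | hr
    · rw [abs_of_nonneg hr, abs_of_nonneg (by linarith [Real.add_one_le_exp r])]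
      have h2 := Real.add_one_le_exp (-r)
      have h3 : Real.exp (-r) * Real.exp r = 1 := by
        rw [← Real.exp_add]
        simp
      have h4 := mul_le_mul_of_nonneg_right h2 (Real.exp_pos r).le
      rw [h3] at h4
      linarith
    · have h2 := Real.add_one_le_exp r
      have h3 : Real.exp r ≤ 1 := Real.exp_le_one_iff.2 hr
      rw [abs_of_nonpos hr, abs_of_nonpos (by linarith)]
      have h4 : 1 ≤ Real.exp (-r) := Real.one_le_exp (by linarith)
      nlinarith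
  rw [abs_mul, abs_of_pos (Real.exp_pos _)]
  have h5 : Real.exp |r| ≤ Real.exp v := Real.exp_le_exp.2 h
  have h6 : Real.exp (-v) * Real.exp v = 1 := by
    rw [← Real.exp_add]
    simp
  calc Real.exp (-v) * |Real.exp r - 1| ≤ Real.exp (-v) * (|r| * Real.exp v) := by
        refine mul_le_mul_of_nonneg_left (h1.trans ?_) (Real.exp_pos _).le
        exact mul_le_mul_of_nonneg_left h5 (abs_nonneg _)
    _ = |r| * (Real.exp (-v) * Real.exp v) := by ring
    _ = |r| := by rw [h6, mul_one]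

private theorem bxw_unif (r : ℤ → ℝ)
    (h : ∀ ε : ℝ, 0 < ε → ∃ L0 : ℕ, ∀ L : ℕ, L0 ≤ L → ∀ m : ℤ, ∑ n ∈ range L, r (m + n) ^ 2 ≤ ε * L)
    (a : ℤ) (ha : a ≠ 0) (ε : ℝ) (hε : 0 < ε) :
    ∃ L0 : ℕ, ∀ m : ℕ, L0 ≤ m → ∀ b : ℤ, ∑ s ∈ range m, |r (a * (s : ℤ) + b)| ≤ ε * m := by
  have hapos : 0 < a.natAbs := Int.natAbs_pos.2 ha
  have hA : (0 : ℝ) < (a.natAbs : ℝ) := by exact_mod_cast hapos
  obtain ⟨L0, hL0⟩ := h (ε ^ 2 / a.natAbs) (by positivity)
  refine ⟨L0, fun N hN b => ?_⟩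
  have hsum : ∀ (L : ℕ) (m : ℤ) (i : ℕ → ℕ), (∀ n ∈ range N, i n ∈ range L) →
      (∀ x ∈ range N, ∀ y ∈ range N, i x = i y → x = y) → (∀ n ∈ range N, a * (n : ℤ) + b = m + i n) →
      ∑ n ∈ range N, r (a * (n : ℤ) + b) ^ 2 ≤ ∑ n ∈ range L, r (m + n) ^ 2 := by
    intro L m i h1 h2 h3
    rw [Finset.sum_congr rfl fun n hn => by rw [h3 n hn]]
    have h4 : ∑ n ∈ range N, r (m + i n) ^ 2 = ∑ j ∈ (range N).image i, r (m + j) ^ 2 :=
      (Finset.sum_image (f := fun j : ℕ => r (m + j) ^ 2) h2).symm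
    rw [h4]
    refine Finset.sum_le_sum_of_subset_of_nonneg ?_ fun _ _ _ => sq_nonneg _
    intro j hj
    obtain ⟨n, hn, rfl⟩ := Finset.mem_image.1 hj
    exact h1 n hn
  have hbound : ∃ m : ℤ,
      ∑ n ∈ range N, r (a * (n : ℤ) + b) ^ 2 ≤ ∑ n ∈ range (a.natAbs * N), r (m + n) ^ 2 := by
    rcases lt_or_gt_of_ne ha with h1 | h1
    · obtain ⟨k, hk⟩ : ∃ k : ℕ, a = -(k : ℤ) := ⟨a.natAbs, by omega⟩
      have hk0 : 0 < k := by omega
      have hka : a.natAbs = k := by omega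
      rw [hka]
      refine ⟨b - k * ((N : ℤ) - 1), hsum _ _ (fun n => k * (N - 1 - n)) ?_ ?_ ?_⟩
      · intro n hn
        rw [Finset.mem_range] at hn ⊢
        exact Nat.mul_lt_mul_of_pos_left (by omega) hk0
      · intro x hx y hy hxy
        rw [Finset.mem_range] at hx hy
        have h2 := Nat.eq_of_mul_eq_mul_left hk0 hxy
        omega
      · intro n hn
        rw [Finset.mem_range] at hn
        have h2 : ((N - 1 - n : ℕ) : ℤ) = (N : ℤ) - 1 - n := by omega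
        rw [Nat.cast_mul, h2, hk]
        ring
    · obtain ⟨k, hk⟩ : ∃ k : ℕ, a = (k : ℤ) := ⟨a.natAbs, by omega⟩
      have hk0 : 0 < k := by omega
      have hka : a.natAbs = k := by omega
      rw [hka]
      refine ⟨b, hsum _ _ (fun n => k * n) ?_ ?_ ?_⟩
      · intro n hn
        rw [Finset.mem_range] at hn ⊢
        exact Nat.mul_lt_mul_of_pos_left hn hk0
      · intro x _ y _ hxy
        exact Nat.eq_of_mul_eq_mul_left hk0 hxy
      · intro n _
        rw [Nat.cast_mul, hk]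
        ring
  obtain ⟨m, hm⟩ := hbound
  have h1 : L0 ≤ a.natAbs * N := hN.trans (Nat.le_mul_of_pos_left N hapos)
  have h2 := hL0 (a.natAbs * N) h1 m
  have h3 : ε ^ 2 / (a.natAbs : ℝ) * ((a.natAbs * N : ℕ) : ℝ) = ε ^ 2 * N := by
    push_cast
    field_simp
  rw [h3] at h2
  have h4 := sq_sum_le_card_mul_sum_sq (s := range N) (f := fun n => |r (a * (n : ℤ) + b)|)
  rw [Finset.card_range] at h4
  simp only [sq_abs] at h4
  have h5 : (∑ s ∈ range N, |r (a * (s : ℤ) + b)|) ^ 2 ≤ (ε * N) ^ 2 := by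
    have hN0 : (0 : ℝ) ≤ N := Nat.cast_nonneg N
    have h6 := mul_le_mul_of_nonneg_left (hm.trans h2) hN0
    calc _ ≤ _ := h4
      _ ≤ _ := h6
      _ = _ := by ring
  exact le_of_sq_le_sq h5 (by positivity)

private theorem bxw_upd {d : ℕ} (C : Fin d → ℤ) (Q : ℕ) (x : Fin d → ℕ) (l : Fin d) (s : ℕ) :
    ∑ i, C i * ((Q * Function.update x l s i : ℕ) : ℤ) =
      C l * Q * (s : ℤ) + ∑ i, C i * ((Q * Function.update x l 0 i : ℕ) : ℤ) := by
  rw [← sub_eq_iff_eq_add, ← Finset.sum_sub_distrib]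
  rw [Finset.sum_eq_single l]
  · rw [Function.update_self, Function.update_self]
    push_cast
    ring
  · intro i _ hi
    rw [Function.update_of_ne hi, Function.update_of_ne hi, sub_self]
  · intro hl
    exact absurd (Finset.mem_univ l) hl

private theorem bxw_box {d : ℕ} (t : Fin d → ℕ) (ht : ∀ l, 1 ≤ t l) (l : Fin d) (g : (Fin d → ℕ) → ℝ)
    (ε : ℝ) (h : ∀ x : Fin d → ℕ, ∑ s ∈ range (t l), g (Function.update x l s) ≤ ε * t l) :
    ∑ x ∈ Fintype.piFinset (fun l => range (t l)), g x ≤ ε * ((∏ l, t l : ℕ) : ℝ) := by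
  classical
  have htl : (0 : ℝ) < t l := by exact_mod_cast ht l
  have h1 : ∑ x ∈ Fintype.piFinset (fun l => range (t l)), ∑ s ∈ range (t l), g (Function.update x l s) =
      ∑ x ∈ Fintype.piFinset (fun l => range (t l)), ∑ _s ∈ range (t l), g x := by
    rw [← Finset.sum_product', ← Finset.sum_product']
    have hmem : ∀ p ∈ Fintype.piFinset (fun l => range (t l)) ×ˢ range (t l),
        (Function.update p.1 l p.2, p.1 l) ∈ Fintype.piFinset (fun l => range (t l)) ×ˢ range (t l) := by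
      intro p hp
      rw [Finset.mem_product, Fintype.mem_piFinset] at hp ⊢
      refine ⟨fun i => ?_, hp.1 l⟩
      by_cases hi : i = l
      · subst hi
        show Function.update p.1 i p.2 i ∈ _
        rw [Function.update_self]
        exact hp.2
      · show Function.update p.1 l p.2 i ∈ _
        rw [Function.update_of_ne hi]
        exact hp.1 i
    have hinv : ∀ p : (Fin d → ℕ) × ℕ,
        (Function.update (Function.update p.1 l p.2) l (p.1 l), Function.update p.1 l p.2 l) = p := by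
      intro p
      rw [Function.update_idem, Function.update_eq_self, Function.update_self]
    refine Finset.sum_nbij' (fun p => (Function.update p.1 l p.2, p.1 l))
      (fun p => (Function.update p.1 l p.2, p.1 l)) hmem hmem (fun p _ => hinv p) (fun p _ => hinv p) ?_
    intro p _
    rfl
  have h2 : ∑ x ∈ Fintype.piFinset (fun l => range (t l)), ∑ s ∈ range (t l), g (Function.update x l s) ≤
      ∑ x ∈ Fintype.piFinset (fun l => range (t l)), ε * t l := Finset.sum_le_sum fun x _ => h x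
  rw [h1] at h2
  simp only [Finset.sum_const, Finset.card_range, nsmul_eq_mul] at h2
  rw [← Finset.mul_sum, Fintype.card_piFinset] at h2
  have h3 : ∏ l, (range (t l)).card = ∏ l, t l := Finset.prod_congr rfl fun l _ => Finset.card_range _
  rw [h3] at h2
  have h4 : (t l : ℝ) * ∑ x ∈ Fintype.piFinset (fun l => range (t l)), g x ≤
      t l * (ε * ((∏ l, t l : ℕ) : ℝ)) := by
    refine h2.trans (le_of_eq ?_)
    ring
  exact le_of_mul_le_mul_left h4 htl

private theorem bxw_var {Y ι : Type*} [MeasurableSpace Y] (P : Measure Y) [IsProbabilityMeasure P]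
    (I : Finset ι) (u : ι → ℂ) (hu : ∀ x, ‖u x‖ ≤ 1)
    (G : ι → Y → ℂ) (hG : ∀ x, Measurable (G x)) (hG1 : ∀ x y, ‖G x y‖ ≤ 1) (Φ : ℝ)
    (hi : ∀ x, ∫ y, G x y ∂P = (Φ : ℂ)) (b : ι → ι → ℝ)
    (hb : ∀ x x', ‖(∫ y, G x y * (starRingEnd ℂ) (G x' y) ∂P) - (Φ : ℂ) * Φ‖ ≤ b x x') (n : ℝ)
    (hn : 0 < n) :
    ∫ y, ‖(∑ x ∈ I, u x * (G x y - (Φ : ℂ))) / (n : ℂ)‖ ^ 2 ∂P ≤
      (∑ x ∈ I, ∑ x' ∈ I, b x x') / (n * n) := by
  have iG : ∀ x, Integrable (G x) P := fun x =>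
    Integrable.of_bound (hG x).aestronglyMeasurable 1 (Filter.Eventually.of_forall (hG1 x))
  have mGc : ∀ x, Measurable fun y => (starRingEnd ℂ) (G x y) := fun x =>
    Complex.continuous_conj.measurable.comp (hG x)
  have iGc : ∀ x, Integrable (fun y => (starRingEnd ℂ) (G x y)) P := fun x =>
    Integrable.of_bound (mGc x).aestronglyMeasurable 1
      (Filter.Eventually.of_forall fun y => by rw [RCLike.norm_conj]; exact hG1 x y)
  have iGG : ∀ x x', Integrable (fun y => G x y * (starRingEnd ℂ) (G x' y)) P := fun x x' =>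
    Integrable.of_bound ((hG x).mul (mGc x')).aestronglyMeasurable 1
      (Filter.Eventually.of_forall fun y => by
        rw [norm_mul, RCLike.norm_conj]
        exact mul_le_one₀ (hG1 x y) (norm_nonneg _) (hG1 x' y))
  have hc : ∀ x x', ∫ y, (G x y - (Φ : ℂ)) * ((starRingEnd ℂ) (G x' y) - (Φ : ℂ)) ∂P =
      (∫ y, G x y * (starRingEnd ℂ) (G x' y) ∂P) - (Φ : ℂ) * Φ := by
    intro x x'
    have h1 : ∀ y, (G x y - (Φ : ℂ)) * ((starRingEnd ℂ) (G x' y) - (Φ : ℂ)) =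
        G x y * (starRingEnd ℂ) (G x' y) - (Φ : ℂ) * G x y - (Φ : ℂ) * (starRingEnd ℂ) (G x' y) +
          (Φ : ℂ) * Φ := fun y => by ring
    simp only [h1]
    have j1 : Integrable (fun y => G x y * (starRingEnd ℂ) (G x' y) - (Φ : ℂ) * G x y) P :=
      (iGG x x').sub ((iG x).const_mul _)
    have j2 : Integrable (fun y => G x y * (starRingEnd ℂ) (G x' y) - (Φ : ℂ) * G x y -
        (Φ : ℂ) * (starRingEnd ℂ) (G x' y)) P := j1.sub ((iGc x').const_mul _)
    rw [integral_add j2 (integrable_const _), integral_sub j1 ((iGc x').const_mul _),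
      integral_sub (iGG x x') ((iG x).const_mul _), integral_const_mul, integral_const_mul, hi,
      integral_conj, hi, Complex.conj_ofReal, integral_const]
    simp only [probReal_univ, one_smul]
    ring
  have hic : ∀ x x', Integrable (fun y => (G x y - (Φ : ℂ)) * ((starRingEnd ℂ) (G x' y) - (Φ : ℂ))) P := by
    intro x x'
    refine Integrable.of_bound (((hG x).sub_const _).mul ((mGc x').sub_const _)).aestronglyMeasurable
      ((1 + ‖(Φ : ℂ)‖) * (1 + ‖(Φ : ℂ)‖)) (Filter.Eventually.of_forall fun y => ?_)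
    rw [norm_mul]
    refine mul_le_mul ((norm_sub_le _ _).trans (add_le_add (hG1 x y) le_rfl))
      ((norm_sub_le _ _).trans (add_le_add ?_ le_rfl)) (norm_nonneg _) (by positivity)
    rw [RCLike.norm_conj]
    exact hG1 x' y
  have hsq : ((∫ y, ‖(∑ x ∈ I, u x * (G x y - (Φ : ℂ))) / (n : ℂ)‖ ^ 2 ∂P : ℝ) : ℂ) =
      (∑ x ∈ I, ∑ x' ∈ I, (u x * (starRingEnd ℂ) (u x')) *
        ((∫ y, G x y * (starRingEnd ℂ) (G x' y) ∂P) - (Φ : ℂ) * Φ)) / ((n * n : ℝ) : ℂ) := by
    rw [← integral_complex_ofReal]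
    have h1 : ∀ y, ((‖(∑ x ∈ I, u x * (G x y - (Φ : ℂ))) / (n : ℂ)‖ ^ 2 : ℝ) : ℂ) =
        (∑ x ∈ I, ∑ x' ∈ I, (u x * (starRingEnd ℂ) (u x')) *
          ((G x y - (Φ : ℂ)) * ((starRingEnd ℂ) (G x' y) - (Φ : ℂ)))) /
          ((n * n : ℝ) : ℂ) := by
      intro y
      have h2 : ((‖(∑ x ∈ I, u x * (G x y - (Φ : ℂ))) / (n : ℂ)‖ ^ 2 : ℝ) : ℂ) =
          ((∑ x ∈ I, u x * (G x y - (Φ : ℂ))) / (n : ℂ)) *
            (starRingEnd ℂ) ((∑ x ∈ I, u x * (G x y - (Φ : ℂ))) / (n : ℂ)) := by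
        rw [Complex.mul_conj, Complex.normSq_eq_norm_sq]
      rw [h2, map_div₀, map_sum, Complex.conj_ofReal, div_mul_div_comm, Finset.sum_mul_sum]
      push_cast
      congr 1
      refine Finset.sum_congr rfl fun x _ => Finset.sum_congr rfl fun x' _ => ?_
      rw [map_mul, map_sub, Complex.conj_ofReal]
      ring
    simp only [h1]
    rw [integral_div, integral_finsetSum _ fun x _ => integrable_finsetSum _ fun x' _ =>
      (hic x x').const_mul _]
    congr 1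
    refine Finset.sum_congr rfl fun x _ => ?_
    rw [integral_finsetSum _ fun x' _ => (hic x x').const_mul _]
    refine Finset.sum_congr rfl fun x' _ => ?_
    rw [integral_const_mul, hc x x']
  have h0 : 0 ≤ ∫ y, ‖(∑ x ∈ I, u x * (G x y - (Φ : ℂ))) / (n : ℂ)‖ ^ 2 ∂P :=
    integral_nonneg fun y => sq_nonneg _
  have h3 : ‖((∫ y, ‖(∑ x ∈ I, u x * (G x y - (Φ : ℂ))) / (n : ℂ)‖ ^ 2 ∂P : ℝ) : ℂ)‖ ≤
      (∑ x ∈ I, ∑ x' ∈ I, b x x') / (n * n) := by
    rw [hsq, norm_div, Complex.norm_real, Real.norm_of_nonneg (by positivity : 0 ≤ n * n)]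
    refine div_le_div_of_nonneg_right ?_ (by positivity)
    refine (norm_sum_le _ _).trans (Finset.sum_le_sum fun x _ => ?_)
    refine (norm_sum_le _ _).trans (Finset.sum_le_sum fun x' _ => ?_)
    rw [norm_mul, norm_mul, RCLike.norm_conj]
    have h4 : ‖u x‖ * ‖u x'‖ ≤ 1 := mul_le_one₀ (hu x) (norm_nonneg _) (hu x')
    exact (mul_le_of_le_one_left (norm_nonneg _) h4).trans (hb x x')
  rwa [Complex.norm_real, Real.norm_of_nonneg h0] at h3

/-- ROW bxw. Copy of MODULE GC2 of GsF/Ga.lean (GC2_unif, GC2_upd, GC2_box, GC2_var, box_mean; rename bxw_..) with a weight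
`ep x` in front of `G x y - Φ`: in GC2_var the double sum gets the factor `ep x * conj (ep x')`, of modulus ≤ 1, nothing else
changes. -/
theorem box_mean_w {ω : Measure W} {R : W ≃ᵐ W} {X : ℕ → W → ℝ} (h : GSys ω R X) {d k : ℕ}
    (Cm : Fin (k + 1) → Fin d → ℤ) (hC : ∀ j, ∃ l, Cm j l ≠ 0)
    (c : Fin (k + 1) → (ℕ × ℤ) →₀ ℝ) (Q : ℕ) (hQ : 1 ≤ Q)
    (ep : (Fin d → ℤ) → ℂ) (hep : ∀ a, ‖ep a‖ ≤ 1) :
    Tendsto (fun M0 : ℕ => ∫ y, ‖(∑ x ∈ Fintype.piFinset (fun l : Fin d => range (M0 ^ ((l : ℕ) + 1) / Q + 1)),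
      ep (fun l => ((Q * x l : ℕ) : ℤ)) *
        (∏ j, ei (LF R X (c j) (Tp R Cm (fun l => ((Q * x l : ℕ) : ℤ)) y j)) -
          ∏ j, (Real.exp (-(vv ω R X (c j)) / 2) : ℂ))) /
      (∏ l : Fin d, ((M0 ^ ((l : ℕ) + 1) / Q + 1 : ℕ) : ℂ))‖ ^ 2
        ∂(Measure.pi (fun _ : Fin (k + 1) => ω))) atTop (𝓝 0) := by
  classical
  have hprob : IsProbabilityMeasure ω := h.gauss.isProbabilityMeasure
  have hmp : MeasurePreserving R ω ω := h.erg.toMeasurePreserving
  have hm : ∀ j, Measurable fun w => ei (LF R X (c j) w) := fun j =>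
    ei_cont.measurable.comp (LF_meas h (c j))
  obtain ⟨Φ, hΦ⟩ : ∃ Φ : ℝ, Φ = ∏ j, Real.exp (-(vv ω R X (c j)) / 2) := ⟨_, rfl⟩
  have hΦc : (∏ j, (Real.exp (-(vv ω R X (c j)) / 2) : ℂ)) = (Φ : ℂ) := by
    rw [hΦ, Complex.ofReal_prod]
  have hΦ2 : Φ * Φ = Real.exp (-(∑ j, vv ω R X (c j))) := by
    rw [hΦ, ← Real.exp_sum, ← Real.exp_add, ← Finset.sum_div, Finset.sum_neg_distrib]
    congr 1
    ring
  -- the shifts
  obtain ⟨sf, hsf⟩ : ∃ sf : (Fin d → ℕ) → Fin (k + 1) → ℤ,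
      ∀ x j, sf x j = ∑ l, Cm j l * ((Q * x l : ℕ) : ℤ) := ⟨_, fun x j => rfl⟩
  obtain ⟨G, hG⟩ : ∃ G : (Fin d → ℕ) → (Fin (k + 1) → W) → ℂ,
      ∀ x y, G x y = ∏ j, ei (LF R X (c j) (pw R (sf x j) (y j))) := ⟨_, fun x y => rfl⟩
  have hGm : ∀ x, Measurable (G x) := by
    intro x
    have h1 : G x = fun y => ∏ j, ei (LF R X (c j) (pw R (sf x j) (y j))) := funext (hG x)
    rw [h1]
    refine Finset.measurable_prod _ fun j _ => ?_
    exact ((hm j).comp (pw_meas R (sf x j))).comp (measurable_pi_apply j)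
  have hGn : ∀ x y, ‖G x y‖ = 1 := by
    intro x y
    rw [hG, norm_prod]
    exact Finset.prod_eq_one fun j _ => norm_ei _
  have hGi : ∀ x, ∫ y, G x y ∂(Measure.pi (fun _ : Fin (k + 1) => ω)) = (Φ : ℂ) := by
    intro x
    simp only [hG]
    rw [integral_fintype_prod_eq_prod (fun (j : Fin (k + 1)) (w : W) => ei (LF R X (c j) (pw R (sf x j) w))),
      ← hΦc]
    refine Finset.prod_congr rfl fun j _ => ?_
    rw [← int_ei h]
    exact bxw_int ω (pw R (sf x j)) (pw_mp ω R hmp _) (fun w => ei (LF R X (c j) w)) (hm j)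
  have hGG : ∀ x x', ‖(∫ y, G x y * (starRingEnd ℂ) (G x' y) ∂(Measure.pi (fun _ : Fin (k + 1) => ω))) -
      (Φ : ℂ) * Φ‖ ≤ ∑ j, |rr ω R X (c j) (c j) (sf x j - sf x' j)| := by
    intro x x'
    have h1 : ∀ y, G x y * (starRingEnd ℂ) (G x' y) =
        ∏ j, ei (LF R X (sh (sf x j) (c j) - sh (sf x' j) (c j)) (y j)) := by
      intro y
      rw [hG, hG, map_prod, ← Finset.prod_mul_distrib]
      refine Finset.prod_congr rfl fun j _ => ?_
      rw [LF_sub, LF_sh, LF_sh, sub_eq_add_neg, ei_add, ei_neg]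
    simp only [h1]
    rw [integral_fintype_prod_eq_prod (fun (j : Fin (k + 1)) (w : W) =>
      ei (LF R X (sh (sf x j) (c j) - sh (sf x' j) (c j)) w))]
    have h2 : ∀ j ∈ (Finset.univ : Finset (Fin (k + 1))),
        ∫ w, ei (LF R X (sh (sf x j) (c j) - sh (sf x' j) (c j)) w) ∂ω =
        ((Real.exp (-(vv ω R X (c j))) * Real.exp (rr ω R X (c j) (c j) (sf x j - sf x' j)) : ℝ) : ℂ) := by
      intro j _
      rw [int_ei h, vv_sub h, ← Real.exp_add]
      congr 2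
      ring
    rw [Finset.prod_congr rfl h2, ← Complex.ofReal_prod, Finset.prod_mul_distrib, ← Real.exp_sum,
      ← Real.exp_sum, Finset.sum_neg_distrib, ← Complex.ofReal_mul, ← Complex.ofReal_sub, hΦ2,
      Complex.norm_real, Real.norm_eq_abs]
    have h3 : |∑ j, rr ω R X (c j) (c j) (sf x j - sf x' j)| ≤ ∑ j, vv ω R X (c j) := by
      refine (Finset.abs_sum_le_sum_abs _ _).trans (Finset.sum_le_sum fun j _ => ?_)
      have := rr_le h (c j) (c j) (sf x j - sf x' j)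
      linarith
    have h4 := bxw_exp _ _ h3
    rw [mul_sub, mul_one] at h4
    exact h4.trans (Finset.abs_sum_le_sum_abs _ _)
  -- uniform smallness
  rw [Metric.tendsto_atTop]
  intro ε hε
  have hloc : ∀ j : Fin (k + 1), ∃ l : Fin d, Cm j l ≠ 0 := hC
  choose l hl using hloc
  have hunif : ∀ j : Fin (k + 1), ∃ L0 : ℕ, ∀ m : ℕ, L0 ≤ m → ∀ b : ℤ,
      ∑ s ∈ range m, |rr ω R X (c j) (c j) ((Cm j (l j) * Q) * (s : ℤ) + b)| ≤ ε / (2 * (k + 1)) * m := by
    intro j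
    refine bxw_unif (fun m => rr ω R X (c j) (c j) m)
      (fun ε hε => rr_density h (c j) (c j) ε hε) _ ?_ _ (by positivity)
    have hQ0 : (Q : ℤ) ≠ 0 := by
      have : Q ≠ 0 := by omega
      exact_mod_cast this
    exact mul_ne_zero (hl j) hQ0
  choose L0 hL0 using hunif
  refine ⟨Q * (∑ j, L0 j + 1), fun M0 hM0 => ?_⟩
  obtain ⟨t, ht⟩ : ∃ t : Fin d → ℕ, ∀ l, t l = M0 ^ ((l : ℕ) + 1) / Q + 1 := ⟨_, fun l => rfl⟩
  have ht1 : ∀ l, 1 ≤ t l := fun l => by
    rw [ht]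
    exact Nat.succ_pos _
  have htL : ∀ j l, L0 j ≤ t l := by
    intro j l
    rw [ht]
    have hM1 : 1 ≤ M0 := by
      have : 1 ≤ Q * (∑ j, L0 j + 1) := Nat.mul_pos hQ (Nat.succ_pos _)
      omega
    have h1 : M0 ≤ M0 ^ ((l : ℕ) + 1) := Nat.le_self_pow (Nat.succ_ne_zero _) M0
    have h2 : ∑ j, L0 j + 1 ≤ M0 / Q := (Nat.le_div_iff_mul_le hQ).2 (by rw [mul_comm]; exact hM0)
    have h3 : M0 / Q ≤ M0 ^ ((l : ℕ) + 1) / Q := Nat.div_le_div_right h1
    have h4 : L0 j ≤ ∑ j, L0 j := Finset.single_le_sum (fun _ _ => Nat.zero_le _) (Finset.mem_univ j)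
    omega
  obtain ⟨n, hn⟩ : ∃ n : ℕ, n = ∏ l, t l := ⟨_, rfl⟩
  have hn1 : (0 : ℝ) < n := by
    rw [hn]
    exact_mod_cast Finset.prod_pos fun l _ => ht1 l
  set I : Finset (Fin d → ℕ) := Fintype.piFinset fun l => range (t l) with hI
  have hIc : I.card = n := by
    rw [hI, Fintype.card_piFinset, hn]
    exact Finset.prod_congr rfl fun l _ => Finset.card_range _
  have hBs : ∀ y : Fin (k + 1) → W, (∑ x ∈ Fintype.piFinset
      (fun l : Fin d => range (M0 ^ ((l : ℕ) + 1) / Q + 1)),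
        ep (fun l => ((Q * x l : ℕ) : ℤ)) *
          (∏ j, ei (LF R X (c j) (Tp R Cm (fun l => ((Q * x l : ℕ) : ℤ)) y j)) -
            ∏ j, (Real.exp (-(vv ω R X (c j)) / 2) : ℂ))) /
          (∏ l : Fin d, ((M0 ^ ((l : ℕ) + 1) / Q + 1 : ℕ) : ℂ)) =
      (∑ x ∈ I, ep (fun l => ((Q * x l : ℕ) : ℤ)) * (G x y - (Φ : ℂ))) / ((n : ℝ) : ℂ) := by
    intro y
    have h1 : (Fintype.piFinset fun l : Fin d => range (M0 ^ ((l : ℕ) + 1) / Q + 1)) = I := by
      rw [hI]
      congr 1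
      funext l
      rw [ht]
    have h2 : (∏ l : Fin d, ((M0 ^ ((l : ℕ) + 1) / Q + 1 : ℕ) : ℂ)) = ((n : ℝ) : ℂ) := by
      rw [hn]
      push_cast
      refine Finset.prod_congr rfl fun l _ => ?_
      rw [ht]
      push_cast
      rfl
    rw [h1, h2, hΦc]
    congr 1
    refine Finset.sum_congr rfl fun x _ => ?_
    have h3 : ∏ j, ei (LF R X (c j) (Tp R Cm (fun l => ((Q * x l : ℕ) : ℤ)) y j)) = G x y := by
      rw [hG]
      refine Finset.prod_congr rfl fun j _ => ?_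
      rw [hsf]
      rfl
    rw [h3]
  simp only [hBs]
  have hvar := bxw_var (Measure.pi (fun _ : Fin (k + 1) => ω)) I
    (fun x => ep (fun l => ((Q * x l : ℕ) : ℤ))) (fun x => hep _) G hGm (fun x y => (hGn x y).le) Φ
    hGi (fun x x' => ∑ j, |rr ω R X (c j) (c j) (sf x j - sf x' j)|) hGG n hn1
  have hsum : ∑ x ∈ I, ∑ x' ∈ I, ∑ j, |rr ω R X (c j) (c j) (sf x j - sf x' j)| ≤ ε / 2 * (n * n) := by
    have h1 : ∀ x' ∈ I, ∀ j ∈ (Finset.univ : Finset (Fin (k + 1))),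
        ∑ x ∈ I, |rr ω R X (c j) (c j) (sf x j - sf x' j)| ≤ ε / (2 * (k + 1)) * n := by
      intro x' _ j _
      have h2 := bxw_box t ht1 (l j) (fun x => |rr ω R X (c j) (c j) (sf x j - sf x' j)|)
        (ε / (2 * (k + 1))) (fun x => by
          refine le_trans (le_of_eq ?_) (hL0 j (t (l j)) (htL j (l j))
            (sf (Function.update x (l j) 0) j - sf x' j))
          refine Finset.sum_congr rfl fun s _ => ?_
          have h3 : sf (Function.update x (l j) s) j =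
              Cm j (l j) * Q * (s : ℤ) + sf (Function.update x (l j) 0) j := by
            rw [hsf, hsf]
            exact bxw_upd (Cm j) Q x (l j) s
          show |rr ω R X (c j) (c j) (sf (Function.update x (l j) s) j - sf x' j)| = _
          rw [h3]
          congr 2
          ring)
      refine h2.trans (le_of_eq ?_)
      rw [hn]
    rw [Finset.sum_comm]
    calc ∑ x' ∈ I, ∑ x ∈ I, ∑ j, |rr ω R X (c j) (c j) (sf x j - sf x' j)|
        = ∑ x' ∈ I, ∑ j, ∑ x ∈ I, |rr ω R X (c j) (c j) (sf x j - sf x' j)| :=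
          Finset.sum_congr rfl fun x' _ => Finset.sum_comm
      _ ≤ ∑ x' ∈ I, ∑ j : Fin (k + 1), ε / (2 * (k + 1)) * n :=
          Finset.sum_le_sum fun x' hx' => Finset.sum_le_sum fun j hj => h1 x' hx' j hj
      _ = ε / 2 * (n * n) := by
          rw [Finset.sum_const, Finset.sum_const, hIc, Finset.card_univ, Fintype.card_fin, nsmul_eq_mul,
            nsmul_eq_mul]
          push_cast
          field_simp
  have hfin : ∫ y, ‖(∑ x ∈ I, ep (fun l => ((Q * x l : ℕ) : ℤ)) * (G x y - (Φ : ℂ))) /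
      ((n : ℝ) : ℂ)‖ ^ 2 ∂(Measure.pi (fun _ : Fin (k + 1) => ω)) ≤ ε / 2 := by
    refine hvar.trans ?_
    rw [div_le_iff₀ (by positivity)]
    refine hsum.trans (le_of_eq ?_)
    ring
  rw [Real.dist_eq, sub_zero, abs_of_nonneg (integral_nonneg fun y => sq_nonneg _)]
  linarith
-- END bxw

/-- the action of Z^d on a power of W times the circle: the circle moves by the sum over j of (Cm j . a) theta_j -/
def Tc {d : ℕ} {J : Type*} [Fintype J] (R : W ≃ᵐ W) (Cm : J → Fin d → ℤ) (θ : J → UnitAddCircle)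
    (a : Fin d → ℤ) (y : (J → W) × UnitAddCircle) : (J → W) × UnitAddCircle :=
  (Tp R Cm a y.1, y.2 + ∑ j, (∑ l, Cm j l * a l) • θ j)

-- BEGIN tca
/-- ROW tca. `Tp_act`, rotation of the circle, `MeasurePreserving.prod`. -/
theorem Tc_act {d : ℕ} {J : Type*} [Fintype J] (ω : Measure W) [IsProbabilityMeasure ω]
    (R : W ≃ᵐ W) (h : MeasurePreserving R ω ω) (Cm : J → Fin d → ℤ) (θ : J → UnitAddCircle) :
    Act d ((Measure.pi (fun _ : J => ω)).prod (volume : Measure UnitAddCircle)) (Tc R Cm θ) := by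
  refine ⟨fun z => ?_, fun a b z => ?_, fun a => ?_⟩
  · have h0 := (Tp_act ω R h Cm).zero z.1
    show (Tp R Cm 0 z.1, z.2 + ∑ j, (∑ l, Cm j l * (0 : Fin d → ℤ) l) • θ j) = z
    rw [h0]
    have h1 : ∀ j, (∑ l, Cm j l * (0 : Fin d → ℤ) l) = 0 := fun j =>
      Finset.sum_eq_zero fun l _ => mul_zero _
    simp only [h1, zero_smul, Finset.sum_const_zero, add_zero]
  · have h0 := (Tp_act ω R h Cm).add a b z.1
    show (Tp R Cm (a + b) z.1, z.2 + ∑ j, (∑ l, Cm j l * (a + b) l) • θ j) =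
      (Tp R Cm a (Tp R Cm b z.1), (z.2 + ∑ j, (∑ l, Cm j l * b l) • θ j) +
        ∑ j, (∑ l, Cm j l * a l) • θ j)
    rw [h0, add_assoc, ← Finset.sum_add_distrib]
    congr 2
    refine Finset.sum_congr rfl fun j _ => ?_
    rw [← add_smul, ← Finset.sum_add_distrib]
    congr 1
    refine Finset.sum_congr rfl fun l _ => ?_
    rw [Pi.add_apply]
    ring
  · exact ((Tp_act ω R h Cm).mp a).prod (measurePreserving_add_right volume _)
-- END tca

-- BEGIN cpw
/-- ROW cpw. Copy of `conv_prod` (MODULE GC3 of GsF/Ga.lean). `conv_sys` for the action `Tc R Cm θ` on `(J → W) × circle` and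
`F (y, x) = ec x * (∏ ei (LF (c' j) (y j)) - ∏ exp (-vv (c' j) / 2))`; the box averages of `F` are `ec x` times the sum of `box_mean_w`
with `ep a = ec (∑ j, (∑ l, Cm j l * a l) • θ j)`, so the L^2 norm (Fubini, `norm_ec`) is the one of `box_mean_w`. Along the moment
curve `F (Tc (gam d n) (y, x)) = ec x * ec (∑ j, (p(n+j) - C0_j) • θ j) * (..)`; Fubini in `x` (`Measure.ae_ae_of_ae_prod`), multiply by
the constant `ec (∑ j, C0_j • θ j - x)`. -/
theorem conv_prod_w {ω : Measure W} {R : W ≃ᵐ W} {X : ℕ → W → ℝ} (h : GSys ω R X) (p : ℤ[X])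
    (hp : 1 ≤ p.natDegree) (k : ℕ) (t : ℝ) (c : Fin (k + 1) → (ℕ × ℤ) →₀ ℝ)
    (θ : Fin (k + 1) → UnitAddCircle) :
    ∀ᵐ y ∂(Measure.pi (fun _ : Fin (k + 1) => ω)),
      Tendsto (fun N : ℕ => (∑ n ∈ range N, ec (∑ j : Fin (k + 1), p.eval ((n : ℤ) + (j : ℕ)) • θ j) *
        (ei (t * ∑ j, LF R X (c j) (pw R (p.eval ((n : ℤ) + (j : ℕ))) (y j))) -
          ∏ j, (Real.exp (-(t ^ 2 * vv ω R X (c j)) / 2) : ℂ))) / (N : ℂ))
        atTop (𝓝 0) := by
  classical
  have hprob : IsProbabilityMeasure ω := h.gauss.isProbabilityMeasure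
  have hmp : MeasurePreserving R ω ω := h.erg.toMeasurePreserving
  obtain ⟨d, hd⟩ : ∃ d, d = p.natDegree := ⟨_, rfl⟩
  obtain ⟨P, hP⟩ : ∃ P : Fin (k + 1) → ℤ[X], ∀ j, P j = p.comp (Polynomial.X + Polynomial.C ((j : ℕ) : ℤ)) :=
    ⟨_, fun j => rfl⟩
  have hPd : ∀ j, (P j).natDegree = d := by
    intro j
    rw [hP, Polynomial.natDegree_comp, Polynomial.natDegree_X_add_C, mul_one, hd]
  have hPe : ∀ j (n : ℤ), (P j).eval n = p.eval (n + (j : ℕ)) := by
    intro j n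
    rw [hP, Polynomial.eval_comp, Polynomial.eval_add, Polynomial.eval_X, Polynomial.eval_C]
  have hPs : ∀ j (n : ℕ), (P j).eval (n : ℤ) =
      (∑ l : Fin d, (P j).coeff ((l : ℕ) + 1) * gam d n l) + (P j).coeff 0 := by
    intro j n
    rw [Polynomial.eval_eq_sum_range, hPd, Finset.sum_range_succ', pow_zero, mul_one]
    congr 1
    rw [Finset.sum_range fun i => (P j).coeff (i + 1) * (n : ℤ) ^ (i + 1)]
    rfl
  obtain ⟨c', hc'⟩ : ∃ c' : Fin (k + 1) → (ℕ × ℤ) →₀ ℝ, ∀ j, c' j = sh ((P j).coeff 0) (t • c j) :=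
    ⟨_, fun j => rfl⟩
  obtain ⟨Cm, hCm⟩ : ∃ Cm : Fin (k + 1) → Fin d → ℤ, ∀ j l, Cm j l = (P j).coeff ((l : ℕ) + 1) :=
    ⟨_, fun j l => rfl⟩
  have hC : ∀ j, ∃ l, Cm j l ≠ 0 := by
    intro j
    refine ⟨⟨d - 1, by omega⟩, ?_⟩
    rw [hCm]
    have h1 : d - 1 + 1 = (P j).natDegree := by
      rw [hPd]
      omega
    show (P j).coeff (d - 1 + 1) ≠ 0
    rw [h1, Polynomial.coeff_natDegree, Ne, Polynomial.leadingCoeff_eq_zero]
    intro h2
    have h3 := hPd j
    rw [h2, Polynomial.natDegree_zero] at h3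
    omega
  have hvv : ∀ j, vv ω R X (c' j) = t ^ 2 * vv ω R X (c j) := by
    intro j
    rw [hc', vv_sh h, vv_smul]
  have hLF : ∀ (y : Fin (k + 1) → W) (n : ℕ) (j : Fin (k + 1)),
      LF R X (c' j) (Tp R Cm (gam d n) y j) =
        t * LF R X (c j) (pw R (p.eval ((n : ℤ) + (j : ℕ))) (y j)) := by
    intro y n j
    rw [hc', LF_sh, LF_smul]
    congr 2
    show pw R ((P j).coeff 0) (pw R (∑ l, Cm j l * gam d n l) (y j)) = _
    rw [← pw_add, ← hPe, hPs, add_comm]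
    simp only [hCm]
  have hm : ∀ j, Measurable fun w => ei (LF R X (c' j) w) := fun j =>
    ei_cont.measurable.comp (LF_meas h (c' j))
  have hF : Measurable fun y : Fin (k + 1) → W =>
      ∏ j, ei (LF R X (c' j) (y j)) - ∏ j, (Real.exp (-(vv ω R X (c' j)) / 2) : ℂ) := by
    refine Measurable.sub_const ?_ _
    exact Finset.measurable_prod _ fun j _ => (hm j).comp (measurable_pi_apply j)
  have hB : ∀ y : Fin (k + 1) → W,
      ‖∏ j, ei (LF R X (c' j) (y j)) - ∏ j, (Real.exp (-(vv ω R X (c' j)) / 2) : ℂ)‖ ≤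
        1 + ‖∏ j, (Real.exp (-(vv ω R X (c' j)) / 2) : ℂ)‖ := by
    intro y
    refine (norm_sub_le _ _).trans (add_le_add (le_of_eq ?_) le_rfl)
    rw [norm_prod]
    exact Finset.prod_eq_one fun j _ => norm_ei _
  have hvol : IsProbabilityMeasure (volume : Measure UnitAddCircle) :=
    ⟨by rw [AddCircle.measure_univ, ENNReal.ofReal_one]⟩
  have hFm : Measurable fun z : (Fin (k + 1) → W) × UnitAddCircle => ec z.2 *
      (∏ j, ei (LF R X (c' j) (z.1 j)) - ∏ j, (Real.exp (-(vv ω R X (c' j)) / 2) : ℂ)) :=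
    (ec_cont.measurable.comp measurable_snd).mul (hF.comp measurable_fst)
  have hFB : ∀ z : (Fin (k + 1) → W) × UnitAddCircle, ‖ec z.2 *
      (∏ j, ei (LF R X (c' j) (z.1 j)) - ∏ j, (Real.exp (-(vv ω R X (c' j)) / 2) : ℂ))‖ ≤
        1 + ‖∏ j, (Real.exp (-(vv ω R X (c' j)) / 2) : ℂ)‖ := by
    intro z
    rw [norm_mul, norm_ec, one_mul]
    exact hB z.1
  have hval : ∀ (a : Fin d → ℤ) (z : (Fin (k + 1) → W) × UnitAddCircle),
      ec (Tc R Cm θ a z).2 * (∏ j, ei (LF R X (c' j) ((Tc R Cm θ a z).1 j)) -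
        ∏ j, (Real.exp (-(vv ω R X (c' j)) / 2) : ℂ)) =
      ec z.2 * (ec (∑ j, (∑ l, Cm j l * a l) • θ j) *
        (∏ j, ei (LF R X (c' j) (Tp R Cm a z.1 j)) -
          ∏ j, (Real.exp (-(vv ω R X (c' j)) / 2) : ℂ))) := by
    intro a z
    show ec (z.2 + ∑ j, (∑ l, Cm j l * a l) • θ j) * (∏ j, ei (LF R X (c' j) (Tp R Cm a z.1 j)) -
        ∏ j, (Real.exp (-(vv ω R X (c' j)) / 2) : ℂ)) = _
    rw [ec_add, mul_assoc]
  have h1 := conv_sys d ((Measure.pi (fun _ : Fin (k + 1) => ω)).prod (volume : Measure UnitAddCircle))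
    (Tc R Cm θ) (Tc_act ω R hmp Cm θ) _ hFm _ hFB fun Q hQ => by
      refine (box_mean_w h Cm hC c' Q hQ (fun a => ec (∑ j, (∑ l, Cm j l * a l) • θ j))
        (fun a => (norm_ec _).le)).congr fun M0 => ?_
      obtain ⟨G, hG⟩ : ∃ G : (Fin (k + 1) → W) → ℝ, G = fun y => ‖(∑ x ∈ Fintype.piFinset
            (fun l : Fin d => range (M0 ^ ((l : ℕ) + 1) / Q + 1)),
            (fun a : Fin d → ℤ => ec (∑ j, (∑ l, Cm j l * a l) • θ j)) (fun l => ((Q * x l : ℕ) : ℤ)) *
            (∏ j, ei (LF R X (c' j) (Tp R Cm (fun l => ((Q * x l : ℕ) : ℤ)) y j)) -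
              ∏ j, (Real.exp (-(vv ω R X (c' j)) / 2) : ℂ))) /
            (∏ l : Fin d, ((M0 ^ ((l : ℕ) + 1) / Q + 1 : ℕ) : ℂ))‖ ^ 2 := ⟨_, rfl⟩
      have h2 : ∀ z : (Fin (k + 1) → W) × UnitAddCircle, ‖Bs (Tc R Cm θ) M0 Q
          (fun z : (Fin (k + 1) → W) × UnitAddCircle => ec z.2 *
            (∏ j, ei (LF R X (c' j) (z.1 j)) - ∏ j, (Real.exp (-(vv ω R X (c' j)) / 2) : ℂ))) z‖ ^ 2 =
          G z.1 := by
        intro z
        rw [hG]
        unfold Bs
        simp only [hval, ← Finset.mul_sum]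
        rw [mul_div_assoc, norm_mul, norm_ec, one_mul]
      rw [integral_congr_ae (Eventually.of_forall h2), integral_fun_fst G, ← hG]
      simp
  have h2 := Measure.ae_ae_of_ae_prod h1
  filter_upwards [h2] with y hy
  obtain ⟨x, hx⟩ := hy.exists
  have h3 := hx.const_mul (ec (∑ j, (P j).coeff 0 • θ j) * (starRingEnd ℂ) (ec x))
  rw [mul_zero] at h3
  refine h3.congr fun N => ?_
  unfold As
  simp only [hval, ← Finset.mul_sum]
  have h4 : (starRingEnd ℂ) (ec x) * ec x = 1 := by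
    rw [← ec_neg, ← ec_add, neg_add_cancel, ec_zero]
  have h5 : ∀ n : ℕ, ec (∑ j : Fin (k + 1), p.eval ((n : ℤ) + (j : ℕ)) • θ j) =
      ec (∑ j, (P j).coeff 0 • θ j) * ec (∑ j, (∑ l, Cm j l * gam d n l) • θ j) := by
    intro n
    rw [← ec_add, ← Finset.sum_add_distrib]
    congr 1
    refine Finset.sum_congr rfl fun j _ => ?_
    rw [← add_smul, ← hPe, hPs, add_comm]
    simp only [hCm]
  have h6 : ∀ n : ℕ, ec (∑ j : Fin (k + 1), p.eval ((n : ℤ) + (j : ℕ)) • θ j) *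
        (ei (t * ∑ j, LF R X (c j) (pw R (p.eval ((n : ℤ) + (j : ℕ))) (y j))) -
          ∏ j, (Real.exp (-(t ^ 2 * vv ω R X (c j)) / 2) : ℂ)) =
      ec (∑ j, (P j).coeff 0 • θ j) * (ec (∑ j, (∑ l, Cm j l * gam d n l) • θ j) *
        (∏ j, ei (LF R X (c' j) (Tp R Cm (gam d n) y j)) -
          ∏ j, (Real.exp (-(vv ω R X (c' j)) / 2) : ℂ))) := by
    intro n
    rw [h5, mul_assoc]
    congr 2
    rw [Finset.mul_sum, ei_sum]
    simp only [hLF, hvv]
  simp only [h6, ← Finset.mul_sum]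
  rw [show ∀ A c e S M : ℂ, A * c * (e * S / M) = (c * e) * (A * S / M) from
    fun _ _ _ _ _ => by ring, h4, one_mul]
-- END cpw

-- BEGIN cdw
private theorem cdw_m1 {ω : Measure W} {R : W ≃ᵐ W} {X : ℕ → W → ℝ} (h : GSys ω R X) {k : ℕ}
    (c : Fin (k + 1) → (ℕ × ℤ) →₀ ℝ) (s : ℕ → Fin (k + 1) → ℤ) (a : ℝ) :
    Measurable (fun (y : Fin (k + 1) → W) (n : ℕ) =>
      a * ∑ j, LF R X (c j) (pw R (s n j) (y j))) := by
  refine measurable_pi_lambda _ fun n => Measurable.const_mul ?_ _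
  exact Finset.measurable_fun_sum _ fun j _ =>
    ((LF_meas h (c j)).comp (pw_meas R (s n j))).comp (measurable_pi_apply j)

private theorem cdw_m2 {ω : Measure W} {R : W ≃ᵐ W} {X : ℕ → W → ℝ} (h : GSys ω R X) {k : ℕ}
    (c : Fin (k + 1) → (ℕ × ℤ) →₀ ℝ) (s : ℕ → Fin (k + 1) → ℤ) (n : ℕ) :
    Measurable (fun z : Fin (k + 1) × Fin (k + 1) → W => (1 / Real.sqrt 2) * ∑ i, ∑ j,
          (LF R X (c i) (pw R (s n i) (z (i, j))) -
            LF R X (c j) (pw R (s n j) (z (i, j))))) := by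
  refine Measurable.const_mul ?_ _
  refine Finset.measurable_fun_sum _ fun i _ => Finset.measurable_fun_sum _ fun j _ => ?_
  exact (((LF_meas h (c i)).comp (pw_meas R (s n i))).comp (measurable_pi_apply (i, j))).sub
    (((LF_meas h (c j)).comp (pw_meas R (s n j))).comp (measurable_pi_apply (i, j)))

private theorem cdw_m3 {ω : Measure W} {R : W ≃ᵐ W} {X : ℕ → W → ℝ} (h : GSys ω R X) {k : ℕ}
    (c : Fin (k + 1) → (ℕ × ℤ) →₀ ℝ) (s : ℕ → Fin (k + 1) → ℤ) :
    Measurable (fun (wz : W × (Fin (k + 1) × Fin (k + 1) → W)) (n : ℕ) =>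
        (∑ j, LF R X (c j) (pw R (s n j) wz.1)) + (1 / Real.sqrt 2) * ∑ i, ∑ j,
          (LF R X (c i) (pw R (s n i) (wz.2 (i, j))) -
            LF R X (c j) (pw R (s n j) (wz.2 (i, j))))) := by
  refine measurable_pi_lambda _ fun n => Measurable.add ?_ ((cdw_m2 h c s n).comp measurable_snd)
  exact Finset.measurable_fun_sum _ fun j _ =>
    ((LF_meas h (c j)).comp (pw_meas R (s n j))).comp measurable_fst

private theorem cdw_int {ω : Measure W} [IsProbabilityMeasure ω] {R : W ≃ᵐ W} {X : ℕ → W → ℝ}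
    (h : GSys ω R X) {k : ℕ}
    (c : Fin (k + 1) → (ℕ × ℤ) →₀ ℝ) (s : ℕ → Fin (k + 1) → ℤ) (n : ℕ) :
    ∫ z : Fin (k + 1) × Fin (k + 1) → W, ei ((1 / Real.sqrt 2) * ∑ i, ∑ j,
          (LF R X (c i) (pw R (s n i) (z (i, j))) -
            LF R X (c j) (pw R (s n j) (z (i, j)))))
          ∂(Measure.pi (fun _ : Fin (k + 1) × Fin (k + 1) => ω)) =
      (Real.exp (-(∑ i : Fin (k + 1), ∑ j : Fin (k + 1), vv ω R X (sh (s n i) (c i)
          - sh (s n j) (c j))) / 4) : ℂ) := by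
  have e1 : ∀ z : Fin (k + 1) × Fin (k + 1) → W, ei ((1 / Real.sqrt 2) * ∑ i, ∑ j,
          (LF R X (c i) (pw R (s n i) (z (i, j))) -
            LF R X (c j) (pw R (s n j) (z (i, j))))) = ∏ q : Fin (k + 1) × Fin (k + 1),
          ei (LF R X ((1 / Real.sqrt 2) • (sh (s n q.1) (c q.1) - sh (s n q.2) (c q.2)))
            (z q)) := by
    intro z
    rw [← ei_sum, Fintype.sum_prod_type, Finset.mul_sum]
    congr 1
    refine Finset.sum_congr rfl fun i _ => ?_
    rw [Finset.mul_sum]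
    refine Finset.sum_congr rfl fun j _ => ?_
    rw [LF_smul, LF_sub, LF_sh, LF_sh]
  simp only [e1]
  rw [integral_fintype_prod_eq_prod (𝕜 := ℂ)
      (fun q : Fin (k + 1) × Fin (k + 1) => fun w =>
        ei (LF R X ((1 / Real.sqrt 2) • (sh (s n q.1) (c q.1) - sh (s n q.2) (c q.2))) w))]
  simp only [int_ei h, vv_smul]
  rw [← Complex.ofReal_prod, ← Real.exp_sum]
  congr 2
  have h2 : (1 / Real.sqrt 2) ^ 2 = (1 / 2 : ℝ) := by
    rw [div_pow, Real.sq_sqrt (by norm_num)]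
    norm_num
  rw [h2, Fintype.sum_prod_type]
  simp only [neg_div, Finset.sum_neg_distrib, Finset.sum_div]
  congr 1
  refine Finset.sum_congr rfl fun i _ => Finset.sum_congr rfl fun j _ => ?_
  ring

/-- ROW cdw. Copy of `conv_diag` (MODULE GD3 of GsF/Ga.lean, with the private GD1_m1, GD1_m2, GD1_m3, GD3_int copied as cdw_..): the
measurable set is now `{v | (1/N) ∑ ec (..) * (ei (v n) - Lim) → 0}`, carried by `law_eq`; after the integration over the noise the
limit reads `(1/N) ∑ ec (..) * (ei (Z n) * v n - Lim) → 0`, `weights` replaces `v n` by `v0`, divide by `v0`. -/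
theorem conv_diag_w {ω : Measure W} {R : W ≃ᵐ W} {X : ℕ → W → ℝ} (h : GSys ω R X) (p : ℤ[X])
    (hp : 2 ≤ p.natDegree) (k : ℕ) (c : Fin (k + 1) → (ℕ × ℤ) →₀ ℝ)
    (θ : Fin (k + 1) → UnitAddCircle) :
    ∀ᵐ w ∂ω, Tendsto (fun N : ℕ => (∑ n ∈ range N, ec (∑ j : Fin (k + 1), p.eval ((n : ℤ) + (j : ℕ)) • θ j) *
        (ei (∑ j, LF R X (c j) (pw R (p.eval ((n : ℤ) + (j : ℕ))) w)) -
          ∏ j, (Real.exp (-(vv ω R X (c j)) / 2) : ℂ))) / (N : ℂ))
        atTop (𝓝 0) := by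
  classical
  have hP : IsProbabilityMeasure ω := h.gauss.isProbabilityMeasure
  have hk : (0 : ℝ) ≤ (k : ℝ) + 1 := by positivity
  let s : ℕ → Fin (k + 1) → ℤ := fun n j => p.eval ((n : ℤ) + (j : ℕ))
  let u : ℕ → ℂ := fun n => ec (∑ j : Fin (k + 1), p.eval ((n : ℤ) + (j : ℕ)) • θ j)
  have hu : ∀ n, ‖u n‖ = 1 := fun n => norm_ec _
  let Lim : ℂ := ∏ j, (Real.exp (-(Real.sqrt ((k : ℝ) + 1) ^ 2 * vv ω R X (c j)) / 2) : ℂ)
  have h1 := conv_prod_w h p (by omega) k (Real.sqrt ((k : ℝ) + 1)) c θ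
  have hA : MeasurableSet {v : ℕ → ℝ | Tendsto (fun N : ℕ =>
      (∑ n ∈ range N, u n * (ei (v n) - Lim)) / (N : ℂ)) atTop (𝓝 0)} := by
    apply measurableSet_tendsto
    intro N
    refine Measurable.div_const ?_ _
    exact Finset.measurable_fun_sum _ fun n _ =>
      ((ei_cont.measurable.comp (measurable_pi_apply n)).sub_const _).const_mul _
  have hm1 := cdw_m1 h c s (Real.sqrt ((k : ℝ) + 1))
  have hm3 := cdw_m3 h c s
  have h3 : ∀ᵐ v ∂((Measure.pi (fun _ : Fin (k + 1) => ω)).map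
      (fun y (n : ℕ) => Real.sqrt ((k : ℝ) + 1) * ∑ j, LF R X (c j) (pw R (s n j) (y j)))),
      Tendsto (fun N : ℕ => (∑ n ∈ range N, u n * (ei (v n) - Lim)) / (N : ℂ)) atTop (𝓝 0) := by
    rw [ae_map_iff hm1.aemeasurable hA]
    filter_upwards [h1] with y hy
    exact hy
  rw [law_eq h k c s, ae_map_iff hm3.aemeasurable hA] at h3
  have h4 := Measure.ae_ae_of_ae_prod h3
  filter_upwards [h4] with w hw
  -- abbreviations
  let Z : ℕ → ℝ := fun n => ∑ j, LF R X (c j) (pw R (s n j) w)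
  let Z' : ℕ → (Fin (k + 1) × Fin (k + 1) → W) → ℝ := fun n z => (1 / Real.sqrt 2) * ∑ i, ∑ j,
          (LF R X (c i) (pw R (s n i) (z (i, j))) - LF R X (c j) (pw R (s n j) (z (i, j))))
  let v : ℕ → ℝ := fun n => Real.exp (-(∑ i : Fin (k + 1), ∑ j : Fin (k + 1),
    vv ω R X (sh (s n i) (c i) - sh (s n j) (c j))) / 4)
  let v0 : ℝ := Real.exp (-((k : ℝ) * ∑ j, vv ω R X (c j)) / 2)
  have hZ' : ∀ n, Measurable (Z' n) := fun n => cdw_m2 h c s n
  have hmF : ∀ n, Measurable fun z => u n * (ei (Z n + Z' n z) - Lim) := fun n =>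
    ((ei_cont.measurable.comp ((hZ' n).const_add (Z n))).sub_const _).const_mul _
  have hmF' : ∀ n, Measurable fun z => ei (Z n + Z' n z) := fun n =>
    ei_cont.measurable.comp ((hZ' n).const_add (Z n))
  have hbF : ∀ n z, ‖u n * (ei (Z n + Z' n z) - Lim)‖ ≤ 1 + ‖Lim‖ := by
    intro n z
    rw [norm_mul, hu, one_mul]
    refine (norm_sub_le _ _).trans ?_
    rw [norm_ei]
  have hw' : ∀ᵐ z ∂(Measure.pi (fun _ : Fin (k + 1) × Fin (k + 1) => ω)),
      Tendsto (fun N : ℕ => (∑ n ∈ range N, u n * (ei (Z n + Z' n z) - Lim)) / (N : ℂ)) atTop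
        (𝓝 0) := hw
  have h5 : Tendsto (fun N : ℕ => ∫ z, (∑ n ∈ range N, u n * (ei (Z n + Z' n z) - Lim)) / (N : ℂ)
      ∂(Measure.pi (fun _ : Fin (k + 1) × Fin (k + 1) => ω))) atTop (𝓝 0) := by
    have h6 := tendsto_integral_of_dominated_convergence
      (μ := Measure.pi (fun _ : Fin (k + 1) × Fin (k + 1) => ω))
      (F := fun (N : ℕ) z => (∑ n ∈ range N, u n * (ei (Z n + Z' n z) - Lim)) / (N : ℂ))
      (f := fun _ => 0)
      (fun _ => (1 + ‖Lim‖ : ℝ)) (fun N => ?_) (integrable_const _) (fun N => ?_) hw'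
    · simpa using h6
    · exact ((Finset.measurable_fun_sum _ fun n _ => hmF n).div_const _).aestronglyMeasurable
    · refine Filter.Eventually.of_forall fun z => ?_
      rw [norm_div, Complex.norm_natCast]
      apply div_le_of_le_mul₀ (Nat.cast_nonneg N) (by positivity)
      refine (norm_sum_le _ _).trans ?_
      refine (Finset.sum_le_sum fun n _ => hbF n z).trans (le_of_eq ?_)
      rw [Finset.sum_const, Finset.card_range, nsmul_eq_mul]
      ring
  have h6 : ∀ N : ℕ, ∫ z, (∑ n ∈ range N, u n * (ei (Z n + Z' n z) - Lim)) / (N : ℂ)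
      ∂(Measure.pi (fun _ : Fin (k + 1) × Fin (k + 1) => ω)) =
      (∑ n ∈ range N, u n * (ei (Z n) * (v n : ℂ) - Lim)) / (N : ℂ) := by
    intro N
    rw [integral_div, integral_finsetSum]
    · congr 1
      refine Finset.sum_congr rfl fun n _ => ?_
      rw [integral_const_mul, integral_sub ?_ (integrable_const _), integral_const]
      · congr 1
        have e1 : ∀ z, ei (Z n + Z' n z) = ei (Z n) * ei (Z' n z) := fun z => ei_add _ _
        simp only [e1]
        rw [integral_const_mul]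
        simp only [probReal_univ, one_smul]
        congr 2
        exact cdw_int h c s n
      · refine Integrable.of_bound (hmF' n).aestronglyMeasurable 1 ?_
        exact Filter.Eventually.of_forall fun z => by rw [norm_ei]
    · intro n _
      refine Integrable.of_bound (hmF n).aestronglyMeasurable (1 + ‖Lim‖) ?_
      exact Filter.Eventually.of_forall fun z => hbF n z
  simp only [h6] at h5
  have h7 := weights h p hp k c
  have h8 : Tendsto (fun N : ℕ => (∑ n ∈ range N, u n * (ei (Z n) * (v n : ℂ) - Lim)) / (N : ℂ) -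
      (∑ n ∈ range N, u n * (ei (Z n) * (v0 : ℂ) - Lim)) / (N : ℂ)) atTop (𝓝 0) := by
    apply squeeze_zero_norm (fun N => ?_) h7
    rw [← sub_div, ← Finset.sum_sub_distrib, norm_div, Complex.norm_natCast]
    refine div_le_div_of_nonneg_right ?_ (Nat.cast_nonneg N)
    refine (norm_sum_le _ _).trans (Finset.sum_le_sum fun n _ => ?_)
    rw [← mul_sub, norm_mul, hu, one_mul, sub_sub_sub_cancel_right, ← mul_sub, norm_mul, norm_ei,
      one_mul, ← Complex.ofReal_sub, Complex.norm_real, Real.norm_eq_abs]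
  have h9 := h5.sub h8
  simp only [sub_sub_cancel, sub_zero] at h9
  have hv0 : (v0 : ℂ) ≠ 0 := by
    rw [Complex.ofReal_ne_zero]
    exact (Real.exp_pos _).ne'
  have h10 := h9.div_const (v0 : ℂ)
  rw [zero_div] at h10
  have h11 : Lim / (v0 : ℂ) = ∏ j, (Real.exp (-(vv ω R X (c j)) / 2) : ℂ) := by
    rw [div_eq_iff hv0]
    simp only [Lim, v0]
    rw [← Complex.ofReal_prod, ← Complex.ofReal_prod, ← Complex.ofReal_mul, ← Real.exp_sum,
      ← Real.exp_sum, ← Real.exp_add, Real.sq_sqrt hk]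
    congr 2
    simp only [neg_div, Finset.sum_neg_distrib, ← Finset.sum_div, ← Finset.mul_sum]
    ring
  refine h10.congr fun N => ?_
  rw [div_right_comm, Finset.sum_div]
  congr 1
  refine Finset.sum_congr rfl fun n _ => ?_
  rw [mul_div_assoc, sub_div, mul_div_cancel_right₀ _ hv0, h11]
-- END cdw

end Pool.Agent.GsF
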