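import Pool.Agent.GsK.Ke
import Pool.Agent.GsK.Tw

/-!
The product of a rotation and a Gaussian system: all bounded functions.
-/

set_option autoImplicit false

namespace Pool.Agent.GsF

open Finset MeasureTheory Filter Topology ProbabilityTheory Polynomial

variable {V : Type*} [AddCommGroup V] [TopologicalSpace V] [IsTopologicalAddGroup V] [CompactSpace V]
  [T2Space V] [SecondCountableTopology V] [MeasurableSpace V] [BorelSpace V]
variable {W : Type*} [MeasurableSpace W]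

/-- the exponentials on V x W -/
noncomputable def EW (R : W ≃ᵐ W) (X : ℕ → W → ℝ) (q : (V →ₜ+ UnitAddCircle) × ((ℕ × ℤ) →₀ ℝ))
    (x : V × W) : ℂ := ec (q.1 x.1) * ei (LF R X q.2 x.2)

/-- the limit functional: the integral over V^d of the product of the f_j at x_j(xi) -/
noncomputable def Lam (m : Measure V) (d : ℕ) (β : V) {k : ℕ} (f : Fin (k + 1) → V → ℂ) : ℂ :=
  ∫ ξ : Fin d → V, ∏ j, f j (xo β ξ ((j : ℕ) : ℤ)) ∂(Measure.pi fun _ => m)

/-- the trigonometric polynomials on V x W -/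
noncomputable def TPl (R : W ≃ᵐ W) (X : ℕ → W → ℝ)
    (s : Finset ((V →ₜ+ UnitAddCircle) × ((ℕ × ℤ) →₀ ℝ)))
    (b : (V →ₜ+ UnitAddCircle) × ((ℕ × ℤ) →₀ ℝ) → ℂ) (x : V × W) : ℂ :=
  ∑ q ∈ s, b q * EW R X q x

-- BEGIN ewm
/-- ROW ewm. -/
theorem EW_meas {ω : Measure W} {R : W ≃ᵐ W} {X : ℕ → W → ℝ} (h : GSys ω R X)
    (q : (V →ₜ+ UnitAddCircle) × ((ℕ × ℤ) →₀ ℝ)) : Measurable (EW R X q : V × W → ℂ) := by
  have h1 : Measurable fun x : V × W => ec (q.1 x.1) :=
    (ec_cont.comp (map_continuous q.1)).measurable.comp measurable_fst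
  have h2 : Measurable fun x : V × W => ei (LF R X q.2 x.2) :=
    (ei_cont.measurable.comp (LF_meas h q.2)).comp measurable_snd
  exact h1.mul h2

theorem norm_EW (R : W ≃ᵐ W) (X : ℕ → W → ℝ) (q : (V →ₜ+ UnitAddCircle) × ((ℕ × ℤ) →₀ ℝ))
    (x : V × W) : ‖EW R X q x‖ = 1 := by
  unfold EW
  rw [norm_mul, norm_ec, norm_ei, one_mul]

theorem TPl_meas {ω : Measure W} {R : W ≃ᵐ W} {X : ℕ → W → ℝ} (h : GSys ω R X)
    (s : Finset ((V →ₜ+ UnitAddCircle) × ((ℕ × ℤ) →₀ ℝ)))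
    (b : (V →ₜ+ UnitAddCircle) × ((ℕ × ℤ) →₀ ℝ) → ℂ) : Measurable (TPl R X s b : V × W → ℂ) := by
  unfold TPl
  exact Finset.measurable_fun_sum s fun q _ => (EW_meas h q).const_mul (b q)

theorem norm_TPl (R : W ≃ᵐ W) (X : ℕ → W → ℝ)
    (s : Finset ((V →ₜ+ UnitAddCircle) × ((ℕ × ℤ) →₀ ℝ)))
    (b : (V →ₜ+ UnitAddCircle) × ((ℕ × ℤ) →₀ ℝ) → ℂ) (x : V × W) :
    ‖TPl R X s b x‖ ≤ ∑ q ∈ s, ‖b q‖ := by
  unfold TPl
  refine (norm_sum_le _ _).trans (Finset.sum_le_sum fun q _ => ?_)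
  rw [norm_mul, norm_EW, mul_one]

/-- `int_ei`. -/
theorem int_EW {ω : Measure W} {R : W ≃ᵐ W} {X : ℕ → W → ℝ} (h : GSys ω R X)
    (q : (V →ₜ+ UnitAddCircle) × ((ℕ × ℤ) →₀ ℝ)) (v : V) :
    ∫ w, EW R X q (v, w) ∂ω = ec (q.1 v) * (Real.exp (-(vv ω R X q.2) / 2) : ℂ) := by
  show ∫ w, ec (q.1 v) * ei (LF R X q.2 w) ∂ω = _
  rw [integral_const_mul, int_ei h q.2]
-- END ewm

-- BEGIN tvw
private theorem tvw_sq {Y : Type*} [MeasurableSpace Y] {ν : Measure Y} [IsProbabilityMeasure ν]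
    (g : Y → ℂ) (hg : MemLp g 2 ν) : ‖∫ y, g y ∂ν‖ ^ 2 ≤ ∫ y, ‖g y‖ ^ 2 ∂ν := by
  have h1 : MemLp (fun y => ‖g y‖) 2 ν := hg.norm
  have h2 := ProbabilityTheory.variance_eq_sub h1
  have h3 := ProbabilityTheory.variance_nonneg (fun y => ‖g y‖) ν
  have h4 : ‖∫ y, g y ∂ν‖ ≤ ∫ y, ‖g y‖ ∂ν := norm_integral_le_integral_norm _
  have h5 : ‖∫ y, g y ∂ν‖ ^ 2 ≤ (∫ y, ‖g y‖ ∂ν) ^ 2 := by gcongr
  rw [h2] at h3
  simp only [Pi.pow_apply] at h3
  linarith

private theorem tvw_lp {Y Z : Type*} [MeasurableSpace Y] [MeasurableSpace Z] {μ : Measure Y}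
    {ν : Measure Z} [IsProbabilityMeasure μ] [IsProbabilityMeasure ν] (g : Y × Z → ℂ)
    (hg : MemLp g 2 (μ.prod ν)) : MemLp (fun y => ∫ z, g (y, z) ∂ν) 2 μ := by
  have hm : AEStronglyMeasurable (fun y => ∫ z, g (y, z) ∂ν) μ := hg.1.integral_prod_right'
  rw [memLp_two_iff_integrable_sq_norm hm]
  have h2 : Integrable (fun x => ‖g x‖ ^ 2) (μ.prod ν) :=
    (memLp_two_iff_integrable_sq_norm hg.1).1 hg
  refine h2.integral_prod_left.mono' (hm.norm.pow 2) ?_
  filter_upwards [h2.prod_right_ae, hg.1.prodMk_left] with y h3 h4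
  rw [Real.norm_of_nonneg (by positivity)]
  exact tvw_sq _ ((memLp_two_iff_integrable_sq_norm h4).2 h3)

/-- ROW tvw. For a bounded measurable `t : V → ℂ` the function `w ↦ ∫ f (v, w) t v` is orthogonal to all `ei (LF c)`: for fixed `c`
the function `v ↦ ∫ f (v, w) ei (LF c w)` is 0 a.e. by `chr_total` (Fubini, Cauchy-Schwarz for MemLp 2). So by `exp_total` it is 0 a.e.; with
`t = 1_E` the integral of `f` over every rectangle is 0, hence (pi-lambda: `MeasurableSpace.induction_on_inter`, `generateFrom_prod`) over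
every measurable set. -/
theorem tot_vw (m : Measure V) [IsProbabilityMeasure m]
    (hsep : ∀ v : V, v ≠ 0 → ∃ χ : V →ₜ+ UnitAddCircle, χ v ≠ 0)
    {ω : Measure W} {R : W ≃ᵐ W} {X : ℕ → W → ℝ} (h : GSys ω R X) (f : V × W → ℂ)
    (hf : MemLp f 2 (m.prod ω)) (h0 : ∀ q, ∫ x, f x * EW R X q x ∂(m.prod ω) = 0) :
    f =ᵐ[m.prod ω] 0 := by
  have : IsProbabilityMeasure ω := h.gauss.isProbabilityMeasure
  have hfi : Integrable f (m.prod ω) := hf.integrable (by norm_num)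
  have hecm : ∀ χ : V →ₜ+ UnitAddCircle, Measurable (fun v : V => ec (χ v)) := fun χ =>
    (ec_cont.comp χ.continuous_toFun).measurable
  have hmul : ∀ (μ' : Measure (V × W)), Integrable f μ' → ∀ χ : V →ₜ+ UnitAddCircle,
      Integrable (fun x : V × W => f x * ec (χ x.1)) μ' := by
    intro μ' hμ' χ
    refine hμ'.norm.mono (hμ'.aestronglyMeasurable.mul
      ((hecm χ).comp measurable_fst).aestronglyMeasurable) (Eventually.of_forall fun x => ?_)
    rw [norm_mul, norm_ec, mul_one, norm_norm]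
  have hA : ∀ χ : V →ₜ+ UnitAddCircle, ∀ᵐ w ∂ω, ∫ v, f (v, w) * ec (χ v) ∂m = 0 := by
    intro χ
    have h2 : MemLp (fun x : W × V => f (x.2, x.1)) 2 (ω.prod m) :=
      hf.comp_measurePreserving Measure.measurePreserving_swap
    have h1 : MemLp (fun x : W × V => f (x.2, x.1) * ec (χ x.2)) 2 (ω.prod m) := by
      refine h2.mono (h2.aestronglyMeasurable.mul
        ((hecm χ).comp measurable_snd).aestronglyMeasurable) (Eventually.of_forall fun x => ?_)
      rw [norm_mul, norm_ec, mul_one]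
    have h3 := tvw_lp _ h1
    refine exp_total h _ h3 (fun c => ?_)
    have h4 : Integrable (fun x => f x * EW R X (χ, c) x) (m.prod ω) := by
      refine hfi.norm.mono (hfi.aestronglyMeasurable.mul
        (EW_meas h (χ, c)).aestronglyMeasurable) (Eventually.of_forall fun x => ?_)
      rw [norm_mul, norm_EW, mul_one, norm_norm]
    rw [← h0 (χ, c), integral_prod_symm _ h4]
    refine integral_congr_ae (Eventually.of_forall fun w => ?_)
    simp only [EW]
    rw [← integral_mul_const]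
    refine integral_congr_ae (Eventually.of_forall fun v => ?_)
    simp only [mul_assoc]
  have hB : ∀ F : Set W, MeasurableSet F → ∀ᵐ v ∂m, ∫ w in F, f (v, w) ∂ω = 0 := by
    intro F hF
    have h1 : MemLp ((Set.univ ×ˢ F).indicator f) 2 (m.prod ω) :=
      hf.indicator (MeasurableSet.univ.prod hF)
    have h2 := tvw_lp _ h1
    have h3 : (fun v => ∫ w, (Set.univ ×ˢ F).indicator f (v, w) ∂ω) =
        fun v => ∫ w in F, f (v, w) ∂ω := by
      funext v
      rw [← integral_indicator hF]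
      refine integral_congr_ae (Eventually.of_forall fun w => ?_)
      by_cases hw : w ∈ F <;> simp [Set.indicator, hw]
    rw [h3] at h2
    refine chr_total m hsep _ h2 (fun χ => ?_)
    have h5 : m.prod (ω.restrict F) = (m.prod ω).restrict (Set.univ ×ˢ F) := by
      rw [← Measure.prod_restrict, Measure.restrict_univ]
    have h4 : ∫ v, (∫ w in F, f (v, w) ∂ω) * ec (χ v) ∂m =
        ∫ w in F, ∫ v, f (v, w) * ec (χ v) ∂m ∂ω := by
      simp only [← integral_mul_const]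
      refine integral_integral_swap (f := fun v w => f (v, w) * ec (χ v)) ?_
      rw [h5]
      exact hmul _ hfi.integrableOn χ
    rw [h4]
    exact integral_eq_zero_of_ae (ae_restrict_of_ae (hA χ))
  have hC : ∀ (E : Set V) (F : Set W), MeasurableSet E → MeasurableSet F →
      ∫ x in E ×ˢ F, f x ∂(m.prod ω) = 0 := by
    intro E F hE hF
    rw [setIntegral_prod _ hfi.integrableOn]
    exact integral_eq_zero_of_ae (ae_restrict_of_ae (hB F hF))
  have hD : ∀ s : Set (V × W), MeasurableSet s → ∫ x in s, f x ∂(m.prod ω) = 0 := by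
    intro s hs
    induction s, hs using MeasurableSpace.induction_on_inter generateFrom_prod.symm
      isPiSystem_prod with
    | empty => simp
    | basic s hs =>
      obtain ⟨E, hE, F, hF, rfl⟩ := hs
      exact hC E F hE hF
    | compl s hs h1 =>
      have h2 := integral_add_compl hs hfi
      have h3 := hC Set.univ Set.univ .univ .univ
      rw [Set.univ_prod_univ, setIntegral_univ] at h3
      rw [h1, h3, zero_add] at h2
      exact h2
    | iUnion g hd hg h1 =>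
      rw [integral_iUnion hg hd hfi.integrableOn]
      simp [h1]
  exact Integrable.ae_eq_zero_of_forall_setIntegral_eq_zero hfi fun s hs _ => hD s hs
-- END tvw

-- BEGIN dvw
private theorem dvw_norm {Y : Type*} [MeasurableSpace Y] {μ : Measure Y} (g : Lp ℂ 2 μ) :
    ∫ w, ‖g w‖ ^ 2 ∂μ = ‖g‖ ^ 2 := by
  have h1 := inner_self_eq_norm_sq (𝕜 := ℂ) g
  rw [← h1, L2.inner_def]
  simp only [inner_self_eq_norm_sq_to_K]
  have h2 : ∫ a, ((‖g a‖ : ℝ) : ℂ) ^ 2 ∂μ = ((∫ a, ‖g a‖ ^ 2 ∂μ : ℝ) : ℂ) := by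
    rw [← integral_complex_ofReal]
    refine integral_congr_ae (Eventually.of_forall fun a => ?_)
    push_cast
    rfl
  change _ = RCLike.re (∫ a, ((‖g a‖ : ℝ) : ℂ) ^ 2 ∂μ)
  rw [h2]
  exact (Complex.ofReal_re _).symm

private theorem dvw_conj (R : W ≃ᵐ W) (X : ℕ → W → ℝ)
    (q : (V →ₜ+ UnitAddCircle) × ((ℕ × ℤ) →₀ ℝ)) (x : V × W) :
    (starRingEnd ℂ) (EW R X (-q.1, (-1 : ℝ) • q.2) x) = EW R X q x := by
  unfold EW
  rw [map_mul, ← ec_neg, ← ei_neg, LF_smul]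
  congr 2
  · change -(-(q.1 x.1)) = q.1 x.1
    rw [neg_neg]
  · ring

/-- ROW dvw. Copy of `exp_dense` (MODULE GE2 of GsF/Ga.lean) with `tot_vw` for `exp_total` (the conjugate of `EW q` is `EW (-q)`). -/
theorem dens_vw (m : Measure V) [IsProbabilityMeasure m]
    (hsep : ∀ v : V, v ≠ 0 → ∃ χ : V →ₜ+ UnitAddCircle, χ v ≠ 0)
    {ω : Measure W} {R : W ≃ᵐ W} {X : ℕ → W → ℝ} (h : GSys ω R X) (f : V × W → ℂ)
    (hf : MemLp f 2 (m.prod ω)) (ε : ℝ) (hε : 0 < ε) :
    ∃ (s : Finset ((V →ₜ+ UnitAddCircle) × ((ℕ × ℤ) →₀ ℝ)))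
      (b : (V →ₜ+ UnitAddCircle) × ((ℕ × ℤ) →₀ ℝ) → ℂ),
      ∫ x, ‖f x - TPl R X s b x‖ ^ 2 ∂(m.prod ω) ≤ ε := by
  classical
  have : IsProbabilityMeasure ω := h.gauss.isProbabilityMeasure
  have hE : ∀ c : (V →ₜ+ UnitAddCircle) × ((ℕ × ℤ) →₀ ℝ), MemLp (EW R X c : V × W → ℂ) 2 (m.prod ω) :=
    fun c => MemLp.of_bound (EW_meas h c).aestronglyMeasurable 1
      (Eventually.of_forall fun w => (norm_EW R X c w).le)
  let v : (V →ₜ+ UnitAddCircle) × ((ℕ × ℤ) →₀ ℝ) → Lp ℂ 2 (m.prod ω) := fun c => (hE c).toLp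
  have hv : ∀ c, v c =ᵐ[m.prod ω] fun w => EW R X c w := fun c => (hE c).coeFn_toLp
  have htop : (Submodule.span ℂ (Set.range v)).topologicalClosure = ⊤ := by
    rw [Submodule.topologicalClosure_eq_top_iff, Submodule.eq_bot_iff]
    intro g hg
    rw [Submodule.mem_orthogonal] at hg
    have h1 : ∀ c : (V →ₜ+ UnitAddCircle) × ((ℕ × ℤ) →₀ ℝ),
        ∫ w, g w * EW R X c w ∂(m.prod ω) = 0 := by
      intro c
      have h2 := hg (v (-c.1, (-1 : ℝ) • c.2)) (Submodule.subset_span ⟨_, rfl⟩)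
      rw [L2.inner_def] at h2
      rw [← h2]
      refine integral_congr_ae ?_
      filter_upwards [hv (-c.1, (-1 : ℝ) • c.2)] with w hw
      rw [hw, RCLike.inner_apply, dvw_conj]
    exact (Lp.eq_zero_iff_ae_eq_zero).2 (tot_vw m hsep h g (Lp.memLp g) h1)
  have hmem : hf.toLp f ∈ closure ((Submodule.span ℂ (Set.range v) :
      Submodule ℂ (Lp ℂ 2 (m.prod ω))) : Set (Lp ℂ 2 (m.prod ω))) := by
    rw [← Submodule.topologicalClosure_coe, htop]
    trivial
  obtain ⟨u, hu, hdist⟩ := Metric.mem_closure_iff.1 hmem (Real.sqrt ε) (Real.sqrt_pos.2 hε)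
  obtain ⟨b, hb⟩ := Finsupp.mem_span_range_iff_exists_finsupp.1 hu
  refine ⟨b.support, b, ?_⟩
  have hsum : ∀ s : Finset ((V →ₜ+ UnitAddCircle) × ((ℕ × ℤ) →₀ ℝ)),
      ((∑ c ∈ s, b c • v c : Lp ℂ 2 (m.prod ω)) : V × W → ℂ) =ᵐ[m.prod ω]
      fun w => ∑ c ∈ s, b c * EW R X c w := by
    intro s
    induction s using Finset.induction_on with
    | empty =>
      rw [Finset.sum_empty]
      filter_upwards [Lp.coeFn_zero ℂ 2 (m.prod ω)] with w hw
      rw [hw, Finset.sum_empty]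
      rfl
    | insert a s ha ih =>
      rw [Finset.sum_insert ha]
      filter_upwards [Lp.coeFn_add (b a • v a) (∑ c ∈ s, b c • v c), ih, hv a,
        Lp.coeFn_smul (b a) (v a)] with w h1 h2 h3 h4
      rw [h1, Pi.add_apply, h2, h4, Pi.smul_apply, h3, Finset.sum_insert ha, smul_eq_mul]
  have hu' : (u : V × W → ℂ) =ᵐ[m.prod ω] fun w => ∑ c ∈ b.support, b c * EW R X c w := by
    rw [← hb]
    exact hsum b.support
  have hfin : ∫ w, ‖f w - TPl R X b.support b w‖ ^ 2 ∂(m.prod ω) = ‖hf.toLp f - u‖ ^ 2 := by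
    rw [← dvw_norm]
    refine integral_congr_ae ?_
    filter_upwards [Lp.coeFn_sub (hf.toLp f) u, hf.coeFn_toLp, hu'] with w h1 h2 h3
    rw [h1, Pi.sub_apply, h2, h3]
    rfl
  rw [hfin, ← dist_eq_norm]
  calc dist (hf.toLp f) u ^ 2 ≤ Real.sqrt ε ^ 2 := pow_le_pow_left₀ dist_nonneg hdist.le 2
    _ = ε := Real.sq_sqrt hε.le
-- END dvw

-- BEGIN cho
/-- ROW cho. Copy of `GE5_choice` (MODULE GE5 of GsF/Ga.lean) with `dens_vw` for `exp_dense`. -/
theorem choice_vw (m : Measure V) [IsProbabilityMeasure m]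
    (hsep : ∀ v : V, v ≠ 0 → ∃ χ : V →ₜ+ UnitAddCircle, χ v ≠ 0)
    {ω : Measure W} {R : W ≃ᵐ W} {X : ℕ → W → ℝ} (h : GSys ω R X) (k : ℕ)
    (f : Fin (k + 1) → V × W → ℂ) (hf : ∀ j, MemLp (f j) 2 (m.prod ω)) (B τ : ℝ) (hτ : 0 < τ) (M : ℕ) :
    ∃ (s : Fin (k + 1) → Finset ((V →ₜ+ UnitAddCircle) × ((ℕ × ℤ) →₀ ℝ)))
      (b : Fin (k + 1) → (V →ₜ+ UnitAddCircle) × ((ℕ × ℤ) →₀ ℝ) → ℂ),
      ∀ j : Fin (k + 1), (j : ℕ) < M →
        ((∏ i ∈ univ.filter (· < j), ∑ c ∈ s i, ‖b i c‖) * ∏ _i ∈ univ.filter (j < ·), B) ^ 2 *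
          ∫ x, ‖f j x - TPl R X (s j) (b j) x‖ ^ 2 ∂(m.prod ω) ≤ τ := by
  classical
  induction M with
  | zero => exact ⟨fun _ => ∅, fun _ _ => 0, fun j hj => absurd hj (Nat.not_lt_zero _)⟩
  | succ M ih =>
    obtain ⟨s, b, hsb⟩ := ih
    by_cases hm : M < k + 1
    · obtain ⟨A, hA⟩ : ∃ A : ℝ, A = ((∏ i ∈ univ.filter (· < (⟨M, hm⟩ : Fin (k + 1))), ∑ c ∈ s i, ‖b i c‖) *
          ∏ i ∈ univ.filter ((⟨M, hm⟩ : Fin (k + 1)) < ·), B) ^ 2 := ⟨_, rfl⟩
      have hA0 : 0 ≤ A := by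
        rw [hA]
        positivity
      obtain ⟨s', b', hs'⟩ := dens_vw m hsep h (f ⟨M, hm⟩) (hf _) (τ / (A + 1)) (by positivity)
      refine ⟨Function.update s ⟨M, hm⟩ s', Function.update b ⟨M, hm⟩ b', fun j hj => ?_⟩
      have hup : ∀ i : Fin (k + 1), (i : ℕ) < M → Function.update s ⟨M, hm⟩ s' i = s i ∧
          Function.update b ⟨M, hm⟩ b' i = b i := by
        intro i hi
        have hne : i ≠ ⟨M, hm⟩ := fun h => by
          rw [h] at hi
          exact lt_irrefl _ hi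
        exact ⟨Function.update_of_ne hne _ _, Function.update_of_ne hne _ _⟩
      have hprod : ∀ j : Fin (k + 1), (j : ℕ) ≤ M →
          ∏ i ∈ univ.filter (· < j), ∑ c ∈ Function.update s ⟨M, hm⟩ s' i,
            ‖Function.update b ⟨M, hm⟩ b' i c‖ = ∏ i ∈ univ.filter (· < j), ∑ c ∈ s i, ‖b i c‖ := by
        intro j hj
        refine Finset.prod_congr rfl fun i hi => ?_
        have hi2 : i < j := (Finset.mem_filter.1 hi).2
        have hi3 : (i : ℕ) < M := lt_of_lt_of_le hi2 hj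
        rw [(hup i hi3).1, (hup i hi3).2]
      rcases Nat.lt_succ_iff_lt_or_eq.1 hj with hjm | hjm
      · rw [hprod j hjm.le, (hup j hjm).1, (hup j hjm).2]
        exact hsb j hjm
      · have hj2 : j = ⟨M, hm⟩ := Fin.ext hjm
        subst hj2
        rw [hprod _ le_rfl, Function.update_self, Function.update_self, ← hA]
        calc A * ∫ x, ‖f ⟨M, hm⟩ x - TPl R X s' b' x‖ ^ 2 ∂(m.prod ω)
            ≤ A * (τ / (A + 1)) := mul_le_mul_of_nonneg_left hs' hA0
          _ = τ * (A / (A + 1)) := by ring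
          _ ≤ τ * 1 := mul_le_mul_of_nonneg_left ((div_le_one (by linarith)).2 (by linarith)) hτ.le
          _ = τ := mul_one τ
    · refine ⟨s, b, fun j hj => hsb j ?_⟩
      have := j.2
      omega
-- END cho

-- BEGIN lsb
/-- ROW lsb. `Finset.prod_sub_ordered` (see `conv_gauss`), `xo_mp`: the integral of `‖f_j - g_j‖ (xo xi j)` over `xi` is the one over
`V`; `‖∫‖ ≤ ∫ ‖‖`. -/
theorem Lam_sub (m : Measure V) [m.IsAddHaarMeasure] [IsProbabilityMeasure m] {d : ℕ} (hd : 0 < d)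
    (β : V) {k : ℕ} (f g : Fin (k + 1) → V → ℂ) (hf : ∀ j, Measurable (f j)) (hg : ∀ j, Measurable (g j))
    (B B' : Fin (k + 1) → ℝ) (hB : ∀ j v, ‖f j v‖ ≤ B j) (hB' : ∀ j v, ‖g j v‖ ≤ B' j) :
    ‖Lam m d β f - Lam m d β g‖ ≤ ∑ j : Fin (k + 1),
      (∏ i ∈ univ.filter (· < j), B' i) * (∏ i ∈ univ.filter (j < ·), B i) *
        ∫ v, ‖f j v - g j v‖ ∂m := by
  classical
  have hB0 : ∀ i, 0 ≤ B i := fun i => (norm_nonneg _).trans (hB i 0)
  have hB'0 : ∀ i, 0 ≤ B' i := fun i => (norm_nonneg _).trans (hB' i 0)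
  set A : Fin (k + 1) → ℝ := fun j => (∏ i ∈ univ.filter (· < j), B' i) *
    (∏ i ∈ univ.filter (j < ·), B i) with hA
  have hA0 : ∀ j, 0 ≤ A j := fun j =>
    mul_nonneg (Finset.prod_nonneg fun i _ => hB'0 i) (Finset.prod_nonneg fun i _ => hB0 i)
  have hmx : ∀ j : ℤ, Measurable (fun ξ : Fin d → V => xo β ξ j) := fun j => (xo_mp m hd β j).measurable
  have hpt : ∀ ξ : Fin d → V, ‖∏ j, f j (xo β ξ ((j : ℕ) : ℤ)) - ∏ j, g j (xo β ξ ((j : ℕ) : ℤ))‖ ≤
      ∑ j, A j * ‖f j (xo β ξ ((j : ℕ) : ℤ)) - g j (xo β ξ ((j : ℕ) : ℤ))‖ := by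
    intro ξ
    have h1 := Finset.prod_sub_ordered (univ : Finset (Fin (k + 1)))
      (fun j => f j (xo β ξ ((j : ℕ) : ℤ)))
      (fun j => f j (xo β ξ ((j : ℕ) : ℤ)) - g j (xo β ξ ((j : ℕ) : ℤ)))
    simp only [sub_sub_cancel] at h1
    rw [h1, sub_sub_cancel]
    refine (norm_sum_le _ _).trans (Finset.sum_le_sum fun j _ => ?_)
    rw [norm_mul, norm_mul, mul_assoc, mul_comm, hA]
    refine mul_le_mul_of_nonneg_right ?_ (norm_nonneg _)
    rw [norm_prod, norm_prod]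
    exact mul_le_mul (Finset.prod_le_prod (fun i _ => norm_nonneg _) fun i _ => hB' i _)
      (Finset.prod_le_prod (fun i _ => norm_nonneg _) fun i _ => hB i _)
      (Finset.prod_nonneg fun i _ => norm_nonneg _) (Finset.prod_nonneg fun i _ => hB'0 i)
  have hif : Integrable (fun ξ : Fin d → V => ∏ j, f j (xo β ξ ((j : ℕ) : ℤ)))
      (Measure.pi fun _ => m) := by
    refine Integrable.of_bound (Finset.measurable_prod _ fun j _ =>
      (hf j).comp (hmx _)).aestronglyMeasurable (∏ j, B j) (Eventually.of_forall fun ξ => ?_)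
    rw [norm_prod]
    exact Finset.prod_le_prod (fun i _ => norm_nonneg _) fun i _ => hB i _
  have hig : Integrable (fun ξ : Fin d → V => ∏ j, g j (xo β ξ ((j : ℕ) : ℤ)))
      (Measure.pi fun _ => m) := by
    refine Integrable.of_bound (Finset.measurable_prod _ fun j _ =>
      (hg j).comp (hmx _)).aestronglyMeasurable (∏ j, B' j) (Eventually.of_forall fun ξ => ?_)
    rw [norm_prod]
    exact Finset.prod_le_prod (fun i _ => norm_nonneg _) fun i _ => hB' i _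
  have hmn : ∀ j, Measurable fun v : V => ‖f j v - g j v‖ := fun j => ((hf j).sub (hg j)).norm
  have hij : ∀ j : Fin (k + 1), Integrable (fun ξ : Fin d → V =>
      A j * ‖f j (xo β ξ ((j : ℕ) : ℤ)) - g j (xo β ξ ((j : ℕ) : ℤ))‖) (Measure.pi fun _ => m) := by
    intro j
    refine Integrable.const_mul ?_ _
    refine Integrable.of_bound ((hmn j).comp (hmx ((j : ℕ) : ℤ))).aestronglyMeasurable (B j + B' j)
      (Eventually.of_forall fun ξ => ?_)
    rw [norm_norm]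
    exact (norm_sub_le _ _).trans (add_le_add (hB j _) (hB' j _))
  unfold Lam
  rw [← integral_sub hif hig]
  calc ‖∫ ξ : Fin d → V, (∏ j, f j (xo β ξ ((j : ℕ) : ℤ)) - ∏ j, g j (xo β ξ ((j : ℕ) : ℤ)))
        ∂(Measure.pi fun _ => m)‖
      ≤ ∫ ξ : Fin d → V, ‖∏ j, f j (xo β ξ ((j : ℕ) : ℤ)) - ∏ j, g j (xo β ξ ((j : ℕ) : ℤ))‖
        ∂(Measure.pi fun _ => m) := norm_integral_le_integral_norm _
    _ ≤ ∫ ξ : Fin d → V, ∑ j, A j * ‖f j (xo β ξ ((j : ℕ) : ℤ)) - g j (xo β ξ ((j : ℕ) : ℤ))‖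
        ∂(Measure.pi fun _ => m) :=
        integral_mono (hif.sub hig).norm (integrable_finsetSum _ fun j _ => hij j) hpt
    _ = ∑ j, ∫ ξ : Fin d → V, A j * ‖f j (xo β ξ ((j : ℕ) : ℤ)) - g j (xo β ξ ((j : ℕ) : ℤ))‖
        ∂(Measure.pi fun _ => m) := integral_finsetSum _ fun j _ => hij j
    _ = ∑ j : Fin (k + 1), (∏ i ∈ univ.filter (· < j), B' i) * (∏ i ∈ univ.filter (j < ·), B i) *
        ∫ v, ‖f j v - g j v‖ ∂m := by
        refine Finset.sum_congr rfl fun j _ => ?_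
        rw [integral_const_mul]
        congr 1
        have h2 := xo_mp m hd β ((j : ℕ) : ℤ)
        have h3 := integral_map (μ := Measure.pi fun _ : Fin d => m)
          (f := fun v : V => ‖f j v - g j v‖) h2.measurable.aemeasurable
          (hmn j).aestronglyMeasurable
        rw [h2.map_eq] at h3
        exact h3.symm
-- END lsb

-- BEGIN tl1
/-- ROW tl1. One exponential in each slot, at `x = (v, w)`, `pw (rotV.prodCongr R) n (v, w) = (v + n alpha, pw R n w)` (`pw_prod`, `pw_rot`):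
`∏ EW (q j) = [∏ ec (χ_j v)] * ec (∑ p(n+j) • θ_j) * ei (∑ LF ..)`, `θ_j = χ_j α`; write `ei (..) = (ei (..) - L) + L`; `conv_diag_w` for the
first part (times the constant of modulus 1) and `chr_lim` for the second; the limit is `L * ∫ ∏ ec (χ_j (xo ..)) = Lam (..)`. For
every `v` and a.e. `w`; then a.e. `(v, w)` (the set of convergence is measurable, `measurableSet_tendsto`, `Measure.ae_prod_iff..` /
`ae_ae_..`; here the null set of `conv_diag_w` does not depend on `v` at all, so `Measure.quasiMeasurePreserving_snd.ae` is enough). -/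
theorem trig_one (m : Measure V) [m.IsAddHaarMeasure] [IsProbabilityMeasure m] (α : V)
    (hα : ∀ n : ℕ, 1 ≤ n → Ergodic (fun v : V => v + n • α) m)
    {ω : Measure W} {R : W ≃ᵐ W} {X : ℕ → W → ℝ} (h : GSys ω R X) (p : ℤ[X]) (hp : 2 ≤ p.natDegree)
    (β : V) (hβ : β = ((p.natDegree.factorial : ℤ) * p.leadingCoeff) • α) (k : ℕ)
    (q : Fin (k + 1) → (V →ₜ+ UnitAddCircle) × ((ℕ × ℤ) →₀ ℝ)) :
    ∀ᵐ x ∂(m.prod ω), Tendsto (fun N : ℕ => (∑ n ∈ range N,
      ∏ j, EW R X (q j) (pw ((rotV α).prodCongr R) (p.eval ((n : ℤ) + (j : ℕ))) x)) / (N : ℂ)) atTop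
      (𝓝 (Lam m p.natDegree β (fun j v => ∫ w, EW R X (q j) (v, w) ∂ω))) := by
  have : IsProbabilityMeasure ω := h.gauss.isProbabilityMeasure
  have hfree : ∀ χ : V →ₜ+ UnitAddCircle, χ ≠ 0 → ∀ n : ℕ, 1 ≤ n → n • χ β ≠ 0 := by
    intro χ hχ n hn
    have hz : ((p.natDegree.factorial : ℤ) * p.leadingCoeff) ≠ 0 := by
      refine mul_ne_zero (by exact_mod_cast Nat.factorial_ne_zero _) ?_
      rw [Ne, Polynomial.leadingCoeff_eq_zero]
      rintro rfl
      simp at hp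
    have h1 := chr_free m α hα χ hχ ((n : ℤ) * ((p.natDegree.factorial : ℤ) * p.leadingCoeff))
      (mul_ne_zero (by exact_mod_cast (by omega : n ≠ 0)) hz)
    rw [mul_zsmul, ← hβ] at h1
    intro h2
    apply h1
    rw [natCast_zsmul, map_nsmul, h2]
  have h1 := conv_diag_w h p hp k (fun j => (q j).2) (fun j => (q j).1 α)
  have h2 : ∀ᵐ x ∂(m.prod ω), Tendsto (fun N : ℕ => (∑ n ∈ range N,
      ec (∑ j : Fin (k + 1), p.eval ((n : ℤ) + (j : ℕ)) • (q j).1 α) *
        (ei (∑ j, LF R X (q j).2 (pw R (p.eval ((n : ℤ) + (j : ℕ))) x.2)) -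
          ∏ j, (Real.exp (-(vv ω R X (q j).2) / 2) : ℂ))) / (N : ℂ)) atTop (𝓝 0) :=
    Measure.quasiMeasurePreserving_snd.ae h1
  filter_upwards [h2] with x hx
  obtain ⟨v, w⟩ := x
  have h3 := chr_lim m p (by omega) α β hβ hfree k (fun j => (q j).1) v
  have hL : Lam m p.natDegree β (fun j v => ∫ w, EW R X (q j) (v, w) ∂ω) =
      (∏ j, ec ((q j).1 v)) * 0 +
      (∫ ξ : Fin p.natDegree → V, ∏ j, ec ((q j).1 (xo β ξ ((j : ℕ) : ℤ))) ∂(Measure.pi fun _ => m)) *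
        ∏ j, (Real.exp (-(vv ω R X (q j).2) / 2) : ℂ) := by
    rw [mul_zero, zero_add, ← integral_mul_const]
    unfold Lam
    refine integral_congr_ae (Eventually.of_forall fun ξ => ?_)
    simp only [int_EW h]
    rw [Finset.prod_mul_distrib]
  rw [hL]
  refine ((hx.const_mul (∏ j, ec ((q j).1 v))).add (h3.mul_const
    (∏ j, (Real.exp (-(vv ω R X (q j).2) / 2) : ℂ)))).congr (fun N => ?_)
  rw [← mul_div_assoc, div_mul_eq_mul_div, ← add_div, Finset.mul_sum, Finset.sum_mul,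
    ← Finset.sum_add_distrib]
  congr 1
  refine Finset.sum_congr rfl fun n _ => ?_
  have h4 : ∏ j, ec ((q j).1 (v + p.eval ((n : ℤ) + (j : ℕ)) • α)) =
      (∏ j, ec ((q j).1 v)) * ec (∑ j : Fin (k + 1), p.eval ((n : ℤ) + (j : ℕ)) • (q j).1 α) := by
    rw [ec_sum, ← Finset.prod_mul_distrib]
    refine Finset.prod_congr rfl fun j _ => ?_
    rw [map_add, map_zsmul, ec_add]
  have h5 : ∏ j, EW R X (q j) (pw ((rotV α).prodCongr R) (p.eval ((n : ℤ) + (j : ℕ))) (v, w)) =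
      (∏ j, ec ((q j).1 (v + p.eval ((n : ℤ) + (j : ℕ)) • α))) *
        ei (∑ j, LF R X (q j).2 (pw R (p.eval ((n : ℤ) + (j : ℕ))) w)) := by
    rw [ei_sum, ← Finset.prod_mul_distrib]
    refine Finset.prod_congr rfl fun j _ => ?_
    rw [pw_prod, pw_rot]
    rfl
  rw [h5, h4]
  ring
-- END tl1

-- BEGIN tl2
/-- ROW tl2. Compare `GE5_trig` (GsF/Ga.lean): expand the product (`Finset.prod_univ_sum`), `trig_one` for the finitely many choices,
and the same expansion under the integral of `Lam` (all functions bounded, measurable). -/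
theorem trig_lim (m : Measure V) [m.IsAddHaarMeasure] [IsProbabilityMeasure m] (α : V)
    (hα : ∀ n : ℕ, 1 ≤ n → Ergodic (fun v : V => v + n • α) m)
    {ω : Measure W} {R : W ≃ᵐ W} {X : ℕ → W → ℝ} (h : GSys ω R X) (p : ℤ[X]) (hp : 2 ≤ p.natDegree)
    (β : V) (hβ : β = ((p.natDegree.factorial : ℤ) * p.leadingCoeff) • α) (k : ℕ)
    (s : Fin (k + 1) → Finset ((V →ₜ+ UnitAddCircle) × ((ℕ × ℤ) →₀ ℝ)))
    (b : Fin (k + 1) → (V →ₜ+ UnitAddCircle) × ((ℕ × ℤ) →₀ ℝ) → ℂ) :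
    ∀ᵐ x ∂(m.prod ω), Tendsto (fun N : ℕ => (∑ n ∈ range N,
      ∏ j, TPl R X (s j) (b j) (pw ((rotV α).prodCongr R) (p.eval ((n : ℤ) + (j : ℕ))) x)) / (N : ℂ)) atTop
      (𝓝 (Lam m p.natDegree β (fun j v => ∫ w, TPl R X (s j) (b j) (v, w) ∂ω))) := by
  classical
  have : IsProbabilityMeasure ω := h.gauss.isProbabilityMeasure
  have hd : 0 < p.natDegree := by omega
  have hall : ∀ᵐ x ∂(m.prod ω), ∀ φ ∈ Fintype.piFinset s, Tendsto (fun N : ℕ => (∑ n ∈ range N,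
      ∏ j, EW R X (φ j) (pw ((rotV α).prodCongr R) (p.eval ((n : ℤ) + (j : ℕ))) x)) / (N : ℂ)) atTop
      (𝓝 (Lam m p.natDegree β (fun j v => ∫ w, EW R X (φ j) (v, w) ∂ω))) := by
    rw [Filter.eventually_all_finset]
    intro φ _
    exact trig_one m α hα h p hp β hβ k φ
  have hint : ∀ (j : Fin (k + 1)) (v : V), ∫ w, TPl R X (s j) (b j) (v, w) ∂ω =
      ∑ q ∈ s j, b j q * ∫ w, EW R X q (v, w) ∂ω := by
    intro j v
    unfold TPl
    rw [integral_finsetSum]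
    · refine Finset.sum_congr rfl fun q _ => ?_
      rw [integral_const_mul]
    · intro q _
      refine Integrable.const_mul (Integrable.of_bound
        ((EW_meas h q).comp measurable_prodMk_left).aestronglyMeasurable 1
        (Eventually.of_forall fun w => (norm_EW R X q (v, w)).le)) _
  have hIm : ∀ q : (V →ₜ+ UnitAddCircle) × ((ℕ × ℤ) →₀ ℝ),
      Measurable (fun v : V => ∫ w, EW R X q (v, w) ∂ω) := by
    intro q
    simp only [int_EW h q]
    exact ((ec_cont.comp q.1.continuous_toFun).measurable).mul_const _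
  have hIn : ∀ (q : (V →ₜ+ UnitAddCircle) × ((ℕ × ℤ) →₀ ℝ)) (v : V),
      ‖∫ w, EW R X q (v, w) ∂ω‖ ≤ 1 := by
    intro q v
    refine (norm_integral_le_integral_norm _).trans ?_
    simp [norm_EW]
  have hL : Lam m p.natDegree β (fun j v => ∫ w, TPl R X (s j) (b j) (v, w) ∂ω) =
      ∑ φ ∈ Fintype.piFinset s, (∏ j, b j (φ j)) *
        Lam m p.natDegree β (fun j v => ∫ w, EW R X (φ j) (v, w) ∂ω) := by
    unfold Lam
    simp only [hint]
    have h3 : ∀ ξ : Fin p.natDegree → V, ∏ j : Fin (k + 1), ∑ q ∈ s j, b j q *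
        ∫ w, EW R X q (xo β ξ ((j : ℕ) : ℤ), w) ∂ω =
        ∑ φ ∈ Fintype.piFinset s, (∏ j, b j (φ j)) *
          ∏ j : Fin (k + 1), ∫ w, EW R X (φ j) (xo β ξ ((j : ℕ) : ℤ), w) ∂ω := by
      intro ξ
      rw [Finset.prod_univ_sum]
      refine Finset.sum_congr rfl fun φ _ => ?_
      rw [Finset.prod_mul_distrib]
    simp only [h3]
    rw [integral_finsetSum]
    · refine Finset.sum_congr rfl fun φ _ => ?_
      rw [integral_const_mul]
    · intro φ _
      refine Integrable.const_mul (Integrable.of_bound (Measurable.aestronglyMeasurable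
        (Finset.measurable_prod _ fun j _ => (hIm (φ j)).comp (xo_mp m hd β _).measurable)) 1
        (Eventually.of_forall fun ξ => ?_)) _
      rw [norm_prod]
      exact Finset.prod_le_one (fun _ _ => norm_nonneg _) fun j _ => hIn _ _
  filter_upwards [hall] with x hx
  have h2 : ∀ N : ℕ, (∑ n ∈ range N,
        ∏ j, TPl R X (s j) (b j) (pw ((rotV α).prodCongr R) (p.eval ((n : ℤ) + (j : ℕ))) x)) /
          (N : ℂ) =
      ∑ φ ∈ Fintype.piFinset s, (∏ j, b j (φ j)) * ((∑ n ∈ range N,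
        ∏ j, EW R X (φ j) (pw ((rotV α).prodCongr R) (p.eval ((n : ℤ) + (j : ℕ))) x)) /
          (N : ℂ)) := by
    intro N
    have h3 : ∀ n : ℕ, ∏ j : Fin (k + 1), TPl R X (s j) (b j)
        (pw ((rotV α).prodCongr R) (p.eval ((n : ℤ) + (j : ℕ))) x) =
        ∑ φ ∈ Fintype.piFinset s, (∏ j, b j (φ j)) *
          ∏ j, EW R X (φ j) (pw ((rotV α).prodCongr R) (p.eval ((n : ℤ) + (j : ℕ))) x) := by
      intro n
      unfold TPl
      rw [Finset.prod_univ_sum]
      refine Finset.sum_congr rfl fun φ _ => ?_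
      rw [Finset.prod_mul_distrib]
    simp only [h3]
    rw [Finset.sum_comm, Finset.sum_div]
    refine Finset.sum_congr rfl fun φ _ => ?_
    rw [← Finset.mul_sum, mul_div_assoc]
  simp only [h2]
  rw [hL]
  exact tendsto_finsetSum _ fun φ hφ => (hx φ hφ).const_mul _
-- END tl2

-- BEGIN ckg
/-- Cauchy-Schwarz on a probability space. -/
private theorem ckg_jensen {Ω : Type*} [MeasurableSpace Ω] {P : Measure Ω} [IsProbabilityMeasure P]
    (u : Ω → ℂ) (hu : Measurable u) (K : ℝ) (hK : ∀ w, ‖u w‖ ≤ K) :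
    (∫ w, ‖u w‖ ∂P) ^ 2 ≤ ∫ w, ‖u w‖ ^ 2 ∂P := by
  have h1 : Integrable (fun w => ‖u w‖) P := by
    refine Integrable.of_bound hu.norm.aestronglyMeasurable K (Eventually.of_forall fun w => ?_)
    rw [norm_norm]
    exact hK w
  have h2 : Integrable (fun w => ‖u w‖ ^ 2) P := by
    refine Integrable.of_bound (hu.norm.pow_const 2).aestronglyMeasurable (K ^ 2)
      (Eventually.of_forall fun w => ?_)
    rw [norm_pow, norm_norm]
    exact pow_le_pow_left₀ (norm_nonneg _) (hK w) 2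
  obtain ⟨M, hM⟩ : ∃ M : ℝ, M = ∫ w, ‖u w‖ ∂P := ⟨_, rfl⟩
  have h4 : 0 ≤ ∫ w, (‖u w‖ - M) ^ 2 ∂P := integral_nonneg fun w => sq_nonneg _
  have h5 : ∫ w, (‖u w‖ - M) ^ 2 ∂P = ∫ w, ‖u w‖ ^ 2 ∂P - M ^ 2 := by
    have h6 : ∀ w, (‖u w‖ - M) ^ 2 = (‖u w‖ ^ 2 - 2 * M * ‖u w‖) + M ^ 2 := fun w => by ring
    have h8 : Integrable (fun w => ‖u w‖ ^ 2 - 2 * M * ‖u w‖) P := h2.sub (h1.const_mul _)
    simp only [h6]
    rw [integral_add h8 (integrable_const _), integral_sub h2 (h1.const_mul _),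
      integral_const_mul, ← hM, integral_const, probReal_univ, one_smul]
    ring
  rw [← hM]
  linarith

/-- The marginals on `V`. -/
private theorem ckg_marg {A B0 : Type*} [MeasurableSpace A] [MeasurableSpace B0] (m : Measure A)
    [IsProbabilityMeasure m] {ω : Measure B0} [IsProbabilityMeasure ω] (f g : A × B0 → ℂ) (hf : Measurable f) (hg : Measurable g) (B B' : ℝ)
    (hB : ∀ x, ‖f x‖ ≤ B) (hB' : ∀ x, ‖g x‖ ≤ B') :
    (∫ v, ‖(∫ w, f (v, w) ∂ω) - ∫ w, g (v, w) ∂ω‖ ∂m) ^ 2 ≤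
      ∫ x, ‖f x - g x‖ ^ 2 ∂(m.prod ω) := by
  have hd : Measurable fun x : A × B0 => f x - g x := hf.sub hg
  have hdb : ∀ x, ‖f x - g x‖ ≤ B + B' := fun x =>
    (norm_sub_le _ _).trans (add_le_add (hB x) (hB' x))
  have h1 : ∀ v, ‖(∫ w, f (v, w) ∂ω) - ∫ w, g (v, w) ∂ω‖ ≤ ∫ w, ‖f (v, w) - g (v, w)‖ ∂ω := by
    intro v
    have i1 : Integrable (fun w => f (v, w)) ω :=
      Integrable.of_bound (hf.comp measurable_prodMk_left).aestronglyMeasurable B
        (Eventually.of_forall fun w => hB (v, w))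
    have i2 : Integrable (fun w => g (v, w)) ω :=
      Integrable.of_bound (hg.comp measurable_prodMk_left).aestronglyMeasurable B'
        (Eventually.of_forall fun w => hB' (v, w))
    rw [← integral_sub i1 i2]
    exact norm_integral_le_integral_norm _
  have hI : Integrable (fun x : A × B0 => ‖f x - g x‖) (m.prod ω) := by
    refine Integrable.of_bound hd.norm.aestronglyMeasurable (B + B')
      (Eventually.of_forall fun x => ?_)
    rw [norm_norm]
    exact hdb x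
  have h2 : ∫ v, ‖(∫ w, f (v, w) ∂ω) - ∫ w, g (v, w) ∂ω‖ ∂m ≤
      ∫ x, ‖f x - g x‖ ∂(m.prod ω) := by
    rw [integral_prod _ hI]
    exact integral_mono_of_nonneg (Eventually.of_forall fun v => norm_nonneg _)
      hI.integral_prod_left (Eventually.of_forall h1)
  have h3 : 0 ≤ ∫ v, ‖(∫ w, f (v, w) ∂ω) - ∫ w, g (v, w) ∂ω‖ ∂m :=
    integral_nonneg fun v => norm_nonneg _
  exact (pow_le_pow_left₀ h3 h2 2).trans (ckg_jensen (fun x : A × B0 => f x - g x) hd (B + B') hdb)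

/-- ROW ckg. ALL BOUNDED FUNCTIONS ON V x W. Copy of `conv_gauss` (MODULE GE5 of GsF/Ga.lean) with `trig_lim`, `choice_vw`, `Lam_sub` and
`prod_max` for the system `(V × W, m.prod ω, (rotV α).prodCongr R)`; `∫ ‖f~_j - g~_j‖ dm ≤ ∫ ‖f_j - g_j‖ d(m.prod ω) ≤
(∫ ‖f_j - g_j‖ ^ 2) ^ (1/2)`. -/
theorem conv_kg (m : Measure V) [m.IsAddHaarMeasure] [IsProbabilityMeasure m]
    (hsep : ∀ v : V, v ≠ 0 → ∃ χ : V →ₜ+ UnitAddCircle, χ v ≠ 0) (α : V)
    (hα : ∀ n : ℕ, 1 ≤ n → Ergodic (fun v : V => v + n • α) m)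
    {ω : Measure W} {R : W ≃ᵐ W} {X : ℕ → W → ℝ} (h : GSys ω R X) (p : ℤ[X]) (hp : 2 ≤ p.natDegree)
    (β : V) (hβ : β = ((p.natDegree.factorial : ℤ) * p.leadingCoeff) • α) (k : ℕ)
    (f : Fin (k + 1) → V × W → ℂ) (hf : ∀ j, Measurable (f j)) (B : ℝ) (hB : ∀ j x, ‖f j x‖ ≤ B) :
    ∀ᵐ x ∂(m.prod ω), Tendsto (fun N : ℕ => (∑ n ∈ range N,
      ∏ j, f j (pw ((rotV α).prodCongr R) (p.eval ((n : ℤ) + (j : ℕ))) x)) / (N : ℂ)) atTop
      (𝓝 (Lam m p.natDegree β (fun j v => ∫ w, f j (v, w) ∂ω))) := by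
  have : IsProbabilityMeasure ω := h.gauss.isProbabilityMeasure
  obtain ⟨x0⟩ := nonempty_of_isProbabilityMeasure (m.prod ω)
  have hB0 : 0 ≤ B := (norm_nonneg _).trans (hB 0 x0)
  obtain ⟨K, hK, hmax⟩ := prod_max (W := V × W) p k
  have hmp : MeasurePreserving ((rotV α).prodCongr R) (m.prod ω) (m.prod ω) :=
    (measurePreserving_add_right m α).prod h.erg.toMeasurePreserving
  refine conv_approx (m.prod ω) _ _ (fun N => ?_) (fun ε hε => ?_)
  · refine Measurable.div_const (Finset.measurable_sum _ fun n _ => ?_) _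
    exact Finset.measurable_prod _ fun j _ => (hf j).comp (pw_meas _ _)
  · obtain ⟨τ, hτ⟩ : ∃ τ : ℝ, τ = min (ε / (((k : ℝ) + 1) * K)) ((ε / ((k : ℝ) + 1)) ^ 2) := ⟨_, rfl⟩
    have hτ0 : 0 < τ := by
      rw [hτ]
      positivity
    have hτ1 : K * (((k : ℝ) + 1) * τ) ≤ ε := by
      have h1 : τ ≤ ε / (((k : ℝ) + 1) * K) := by
        rw [hτ]
        exact min_le_left _ _
      rw [le_div_iff₀ (by positivity)] at h1
      linarith
    have hτ2 : ((k : ℝ) + 1) * Real.sqrt τ ≤ ε := by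
      have h1 : Real.sqrt τ ≤ ε / ((k : ℝ) + 1) := by
        rw [Real.sqrt_le_left (by positivity), hτ]
        exact min_le_right _ _
      rw [le_div_iff₀ (by positivity)] at h1
      linarith
    obtain ⟨s, b, hsb⟩ := choice_vw m hsep h k f (fun j => MemLp.of_bound
      (hf j).aestronglyMeasurable B (Eventually.of_forall (hB j))) B τ hτ0 (k + 1)
    obtain ⟨g, hg⟩ : ∃ g : Fin (k + 1) → V × W → ℂ, ∀ j, g j = TPl R X (s j) (b j) :=
      ⟨_, fun j => rfl⟩
    have hgm : ∀ j, Measurable (g j) := by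
      intro j
      rw [hg]
      exact TPl_meas h _ _
    have hgb : ∀ j x, ‖g j x‖ ≤ ∑ c ∈ s j, ‖b j c‖ := by
      intro j x
      rw [hg]
      exact norm_TPl R X _ _ x
    obtain ⟨H, hH1, hH2, hH3, hH4, hH5⟩ := hmax (m.prod ω) ((rotV α).prodCongr R) hmp f g
      (fun _ => B) (fun j => ∑ c ∈ s j, ‖b j c‖) hf hgm hB hgb
    obtain ⟨A, hA⟩ : ∃ A : Fin (k + 1) → ℝ, ∀ j, A j = (∏ i ∈ univ.filter (· < j), ∑ c ∈ s i, ‖b i c‖) *
        ∏ i ∈ univ.filter (j < ·), B := ⟨_, fun j => rfl⟩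
    have hA0 : ∀ j, 0 ≤ A j := by
      intro j
      rw [hA]
      refine mul_nonneg (Finset.prod_nonneg fun i _ => Finset.sum_nonneg fun c _ => norm_nonneg _)
        (Finset.prod_nonneg fun i _ => hB0)
    have hA2 : ∀ j, A j ^ 2 * ∫ x, ‖f j x - g j x‖ ^ 2 ∂(m.prod ω) ≤ τ := by
      intro j
      have h1 := hsb j j.2
      rw [← hA, ← hg] at h1
      exact h1
    refine ⟨fun N x => (∑ n ∈ range N, ∏ j, g j (pw ((rotV α).prodCongr R)
      (p.eval ((n : ℤ) + (j : ℕ))) x)) / (N : ℂ),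
      Lam m p.natDegree β (fun j v => ∫ w, g j (v, w) ∂ω), H, ?_, hH1, hH2, hH3, ?_, ?_,
      Eventually.of_forall fun w N => hH5 N w⟩
    · have h1 := Lam_sub m (by omega : 0 < p.natDegree) β
        (fun j v => ∫ w, f j (v, w) ∂ω) (fun j v => ∫ w, g j (v, w) ∂ω)
        (fun j => ((hf j).stronglyMeasurable.integral_prod_right').measurable)
        (fun j => ((hgm j).stronglyMeasurable.integral_prod_right').measurable)
        (fun _ => B) (fun j => ∑ c ∈ s j, ‖b j c‖)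
        (fun j v => (norm_integral_le_of_norm_le_const (Eventually.of_forall fun w => hB j (v, w))).trans
          (by rw [probReal_univ, mul_one]))
        (fun j v => (norm_integral_le_of_norm_le_const (Eventually.of_forall fun w => hgb j (v, w))).trans
          (by rw [probReal_univ, mul_one]))
      refine h1.trans ?_
      have h2 : ∀ j : Fin (k + 1), (∏ i ∈ univ.filter (· < j), ∑ c ∈ s i, ‖b i c‖) *
          (∏ i ∈ univ.filter (j < ·), B) *
          ∫ v, ‖(∫ w, f j (v, w) ∂ω) - ∫ w, g j (v, w) ∂ω‖ ∂m ≤ Real.sqrt τ := by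
        intro j
        rw [← hA]
        refine Real.le_sqrt_of_sq_le ?_
        rw [mul_pow]
        refine (mul_le_mul_of_nonneg_left ?_ (sq_nonneg _)).trans (hA2 j)
        exact ckg_marg m (f j) (g j) (hf j) (hgm j) B _ (hB j) (hgb j)
      calc ∑ j : Fin (k + 1), (∏ i ∈ univ.filter (· < j), ∑ c ∈ s i, ‖b i c‖) *
            (∏ i ∈ univ.filter (j < ·), B) *
            ∫ v, ‖(∫ w, f j (v, w) ∂ω) - ∫ w, g j (v, w) ∂ω‖ ∂m
          ≤ ∑ j : Fin (k + 1), Real.sqrt τ := Finset.sum_le_sum fun j _ => h2 j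
        _ = ((k : ℝ) + 1) * Real.sqrt τ := by
            rw [Finset.sum_const, Finset.card_univ, Fintype.card_fin, nsmul_eq_mul]
            push_cast
            ring
        _ ≤ ε := hτ2
    · refine hH4.trans (le_trans ?_ hτ1)
      refine mul_le_mul_of_nonneg_left ?_ hK.le
      calc ∑ j : Fin (k + 1), ((∏ i ∈ univ.filter (· < j), ∑ c ∈ s i, ‖b i c‖) *
            ∏ i ∈ univ.filter (j < ·), B) ^ 2 * ∫ x, ‖f j x - g j x‖ ^ 2 ∂(m.prod ω)
          ≤ ∑ j : Fin (k + 1), τ := by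
            refine Finset.sum_le_sum fun j _ => ?_
            rw [← hA]
            exact hA2 j
        _ = ((k : ℝ) + 1) * τ := by
            rw [Finset.sum_const, Finset.card_univ, Fintype.card_fin, nsmul_eq_mul]
            push_cast
            ring
    · have h1 := trig_lim m α hα h p hp β hβ k s b
      simpa only [← hg] using h1
-- END ckg

end Pool.Agent.GsF
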