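import Pool.Agent.GsK.Wa
import Pool.Agent.GsK.KDefs2

/-!
The generic measure of an orbit of T = una beta on V^d: existence, invariance, ergodicity.
-/

set_option autoImplicit false

namespace Pool.Agent.GsF

open Finset MeasureTheory Filter Topology

variable {V : Type*} [AddCommGroup V] [TopologicalSpace V] [IsTopologicalAddGroup V] [CompactSpace V]
  [T2Space V] [SecondCountableTopology V] [MeasurableSpace V] [BorelSpace V]

/-- the coefficients of n ↦ sum of K_i ((T^n xi)_i) in the basis binom(n, l) -/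
noncomputable def cc {d : ℕ} (β : V) (K : Fin d → (V →ₜ+ UnitAddCircle)) (ξ : Fin d → V) (l : ℕ) :
    UnitAddCircle :=
  ∑ i : Fin d, K i (if h : (i : ℕ) + l < d then ξ ⟨(i : ℕ) + l, h⟩ else if (i : ℕ) + l = d then β else 0)

-- BEGIN kph
/-- ROW kph. `una_coord`: the phase along the orbit. -/
theorem kc_phase {d : ℕ} (β : V) (K : Fin d → (V →ₜ+ UnitAddCircle)) (ξ : Fin d → V) (n : ℕ) :
    ec (∑ i, K i (((una β)^[n] ξ) i)) = uph d (cc β K ξ) n := by
  unfold uph cc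
  congr 1
  simp only [Finset.smul_sum]
  rw [Finset.sum_comm]
  refine Finset.sum_congr rfl fun i _ => ?_
  have hi := i.2
  have h1 : ∑ l ∈ range (d + 1), n.choose l • K i
      (if h : (i : ℕ) + l < d then ξ ⟨(i : ℕ) + l, h⟩ else if (i : ℕ) + l = d then β else 0) =
      ∑ l ∈ range (d - (i : ℕ) + 1), n.choose l • K i
      (if h : (i : ℕ) + l < d then ξ ⟨(i : ℕ) + l, h⟩ else if (i : ℕ) + l = d then β else 0) := by
    symm
    refine Finset.sum_subset (Finset.range_subset_range.2 (by omega)) fun l _ hl => ?_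
    rw [Finset.mem_range] at hl
    rw [dif_neg (by omega), if_neg (by omega), map_zero, smul_zero]
  rw [h1, Finset.sum_range_succ, una_coord, map_add, map_sum, map_nsmul]
  congr 1
  · refine Finset.sum_congr rfl fun l hl => ?_
    rw [Finset.mem_range] at hl
    rw [map_nsmul, dif_pos (by omega), dif_pos (by omega)]
  · rw [dif_neg (by omega), if_pos (by omega)]
-- END kph

-- BEGIN csh
private theorem csh_step {d : ℕ} (β : V) (K : Fin d → (V →ₜ+ UnitAddCircle)) (ξ : Fin d → V)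
    (l : ℕ) : cc β K (una β ξ) l = cc β K ξ l + cc β K ξ (l + 1) := by
  unfold cc
  rw [← Finset.sum_add_distrib]
  refine Finset.sum_congr rfl fun i _ => ?_
  rw [← map_add]
  congr 1
  by_cases h1 : (i : ℕ) + l < d
  · rw [dif_pos h1, dif_pos h1]
    show ξ ⟨(i : ℕ) + l, h1⟩ + (if h : (i : ℕ) + l + 1 < d then ξ ⟨(i : ℕ) + l + 1, h⟩ else β) = _
    congr 1
    by_cases h2 : (i : ℕ) + l + 1 < d
    · have h3 : (i : ℕ) + (l + 1) < d := h2
      rw [dif_pos h2, dif_pos h3]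
      rfl
    · have h3 : ¬ (i : ℕ) + (l + 1) < d := h2
      have h4 : (i : ℕ) + (l + 1) = d := by omega
      rw [dif_neg h2, dif_neg h3, if_pos h4]
  · have h3 : ¬ (i : ℕ) + (l + 1) < d := by omega
    have h4 : ¬ (i : ℕ) + (l + 1) = d := by omega
    rw [dif_neg h1, dif_neg h1, dif_neg h3, if_neg h4, add_zero]

private theorem csh_zero {d : ℕ} (β : V) (K : Fin d → (V →ₜ+ UnitAddCircle)) (ξ : Fin d → V)
    (l : ℕ) (hl : d < l) : cc β K ξ l = 0 := by
  unfold cc
  refine Finset.sum_eq_zero fun i _ => ?_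
  have h3 : ¬ (i : ℕ) + l < d := by omega
  have h4 : ¬ (i : ℕ) + l = d := by omega
  rw [dif_neg h3, if_neg h4, map_zero]

/-- ROW csh. The coefficients at a later point: induction on `r` (Pascal), or `una_coord` and `Nat.add_choose_eq`; `cc β K ξ l = 0` for
`l > d`. -/
theorem cc_shift {d : ℕ} (β : V) (K : Fin d → (V →ₜ+ UnitAddCircle)) (ξ : Fin d → V) (r l : ℕ) :
    cc β K ((una β)^[r] ξ) l = ∑ s ∈ range (d + 1), r.choose s • cc β K ξ (l + s) := by
  induction r generalizing ξ with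
  | zero =>
    rw [Function.iterate_zero_apply, Finset.sum_range_succ']
    have h1 : ∑ s ∈ range d, Nat.choose 0 (s + 1) • cc β K ξ (l + (s + 1)) = 0 :=
      Finset.sum_eq_zero fun s _ => by rw [Nat.choose_zero_succ, zero_smul]
    rw [h1, zero_add, Nat.choose_zero_right, one_smul, add_zero]
  | succ r ih =>
    rw [Function.iterate_succ_apply, ih]
    have h1 : ∀ s ∈ range (d + 1), r.choose s • cc β K (una β ξ) (l + s) =
        r.choose s • cc β K ξ (l + s) + r.choose s • cc β K ξ (l + s + 1) := by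
      intro s _
      rw [csh_step, smul_add]
    rw [Finset.sum_congr rfl h1, Finset.sum_add_distrib,
      Finset.sum_range_succ' (fun s => r.choose s • cc β K ξ (l + s)),
      Finset.sum_range_succ (fun s => r.choose s • cc β K ξ (l + s + 1)),
      Finset.sum_range_succ' (fun s => (r + 1).choose s • cc β K ξ (l + s)),
      csh_zero β K ξ (l + d + 1) (by omega), smul_zero, add_zero]
    have h2 : ∀ s ∈ range d, (r + 1).choose (s + 1) • cc β K ξ (l + (s + 1)) =
        r.choose s • cc β K ξ (l + s + 1) + r.choose (s + 1) • cc β K ξ (l + (s + 1)) := by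
      intro s _
      rw [Nat.choose_succ_succ, add_smul]
      rfl
    rw [Finset.sum_congr rfl h2, Finset.sum_add_distrib, Nat.choose_zero_right,
      Nat.choose_zero_right]
    abel

/-- continuity in the point -/
theorem cc_cont {d : ℕ} (β : V) (K : Fin d → (V →ₜ+ UnitAddCircle)) (l : ℕ) :
    Continuous fun ξ : Fin d → V => cc β K ξ l := by
  unfold cc
  refine continuous_finsetSum _ fun i _ => ?_
  refine (K i).continuous_toFun.comp ?_
  by_cases h : (i : ℕ) + l < d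
  · simp only [dif_pos h]
    exact continuous_apply _
  · simp only [dif_neg h]
    exact continuous_const
-- END csh

-- BEGIN kdn
private noncomputable def kdn_e {d : ℕ} (K : Fin d → (V →ₜ+ UnitAddCircle)) :
    C(Fin d → V, ℂ) :=
  ⟨fun ξ => ec (∑ i, K i (ξ i)), ec_cont.comp (continuous_finsetSum _ fun i _ =>
    (K i).continuous_toFun.comp (continuous_apply i))⟩

private noncomputable def kdn_A (d : ℕ) : StarSubalgebra ℂ C(Fin d → V, ℂ) where
  toSubalgebra := Algebra.adjoin ℂ (Set.range (kdn_e (V := V) (d := d)))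
  star_mem' := by
    change Algebra.adjoin ℂ (Set.range (kdn_e (V := V) (d := d))) ≤
      star (Algebra.adjoin ℂ (Set.range (kdn_e (V := V) (d := d))))
    refine Algebra.adjoin_le ?_
    rintro - ⟨K, rfl⟩
    refine Algebra.subset_adjoin ⟨-K, ContinuousMap.ext fun ξ => ?_⟩
    change ec (∑ i, -(K i (ξ i))) = (starRingEnd ℂ) (ec (∑ i, K i (ξ i)))
    rw [Finset.sum_neg_distrib, ec_neg]

private theorem kdn_coe (d : ℕ) : Subalgebra.toSubmodule (kdn_A (V := V) d).toSubalgebra =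
    Submodule.span ℂ (Set.range (kdn_e (V := V) (d := d))) := by
  apply Algebra.adjoin_eq_span_of_subset
  refine Set.Subset.trans ?_ Submodule.subset_span
  intro x hx
  refine Submonoid.closure_induction (fun _ => id) ⟨0, ?_⟩ ?_ hx
  · ext1 z
    change ec (∑ i : Fin d, (0 : V →ₜ+ UnitAddCircle) (z i)) = 1
    have h1 : ∑ i : Fin d, (0 : V →ₜ+ UnitAddCircle) (z i) = 0 :=
      Finset.sum_eq_zero fun i _ => rfl
    rw [h1, ec_zero]
  · rintro - - - - ⟨K, rfl⟩ ⟨L, rfl⟩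
    refine ⟨K + L, ?_⟩
    ext1 z
    change ec (∑ i, (K i (z i) + L i (z i))) = ec (∑ i, K i (z i)) * ec (∑ i, L i (z i))
    rw [Finset.sum_add_distrib, ec_add]

private theorem kdn_sep (hsep : CharSep V) (d : ℕ) : (kdn_A (V := V) d).SeparatesPoints := by
  classical
  intro x y hxy
  obtain ⟨i, hi⟩ : ∃ i, x i ≠ y i := by
    by_contra hcon
    push Not at hcon
    exact hxy (funext hcon)
  obtain ⟨χ, hχ⟩ := hsep (x i - y i) (sub_ne_zero.2 hi)
  refine ⟨_, ⟨kdn_e (Pi.single i χ), Algebra.subset_adjoin ⟨Pi.single i χ, rfl⟩, rfl⟩,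
    fun hc => hχ ?_⟩
  have h1 : ∀ z : Fin d → V, ∑ j, (Pi.single i χ : Fin d → (V →ₜ+ UnitAddCircle)) j (z j) =
      χ (z i) := by
    intro z
    rw [Finset.sum_eq_single i]
    · rw [Pi.single_eq_same]
    · intro j _ hj
      rw [Pi.single_eq_of_ne hj]
      rfl
    · intro h
      exact absurd (Finset.mem_univ i) h
  have hc' : ec (∑ j, (Pi.single i χ : Fin d → (V →ₜ+ UnitAddCircle)) j (x j)) =
      ec (∑ j, (Pi.single i χ : Fin d → (V →ₜ+ UnitAddCircle)) j (y j)) := hc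
  rw [h1, h1] at hc'
  apply ec_eq_one
  rw [map_sub, sub_eq_add_neg, ec_add, ec_neg, hc', Complex.mul_conj, Complex.normSq_eq_norm_sq,
    norm_ec]
  norm_num

/-- ROW kdn. The functions `ξ ↦ ec (∑ K_i (ξ_i))` span a dense subspace of `C(V^d, ℂ)`: Stone-Weierstrass; copy of `cht_A`, `cht_sep`
(Kb.lean) for `Fin d → V` (separating by one coordinate, see `uer_tot` in Ke.lean). -/
theorem kc_dense (hV : CharSep V) {d : ℕ} (F : C(Fin d → V, ℂ)) (ε : ℝ) (hε : 0 < ε) :
    ∃ (s : Finset (Fin d → (V →ₜ+ UnitAddCircle))) (b : (Fin d → (V →ₜ+ UnitAddCircle)) → ℂ),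
      ∀ ξ, ‖F ξ - ∑ K ∈ s, b K * ec (∑ i, K i (ξ i))‖ ≤ ε := by
  have htop : F ∈ (kdn_A (V := V) d).topologicalClosure := by
    rw [ContinuousMap.starSubalgebra_topologicalClosure_eq_top_of_separatesPoints _ (kdn_sep hV d)]
    exact StarSubalgebra.mem_top
  have hcl : F ∈ closure ((kdn_A (V := V) d) : Set C(Fin d → V, ℂ)) := htop
  obtain ⟨ψ, hψ, hd⟩ := Metric.mem_closure_iff.1 hcl ε hε
  have h1 : ψ ∈ Submodule.span ℂ (Set.range (kdn_e (V := V) (d := d))) := by
    rw [← kdn_coe]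
    exact hψ
  obtain ⟨c, hc⟩ := Finsupp.mem_span_range_iff_exists_finsupp.1 h1
  refine ⟨c.support, c, fun ξ => ?_⟩
  have h2 : ψ ξ = ∑ K ∈ c.support, c K * ec (∑ i, K i (ξ i)) := by
    rw [← hc, Finsupp.sum, ContinuousMap.sum_apply]
    rfl
  rw [← h2]
  have h3 := (F - ψ).norm_coe_le_norm ξ
  rw [ContinuousMap.sub_apply] at h3
  refine h3.trans ?_
  rw [← dist_eq_norm]
  exact hd.le
-- END kdn

-- BEGIN kmn
/-- ROW kmn. Means of characters along an orbit exist: `kc_phase`; if all `cc β K ξ0 i`, `1 ≤ i ≤ d`, are torsion `uph_per` and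
`per_mean`, otherwise `uph_zero`. -/
theorem kc_mean {d : ℕ} (β : V) (K : Fin d → (V →ₜ+ UnitAddCircle)) (ξ0 : Fin d → V) :
    ∃ l : ℂ, Tendsto (fun N : ℕ => (∑ n ∈ range N, ec (∑ i, K i (((una β)^[n] ξ0) i))) / (N : ℂ)) atTop
      (𝓝 l) := by
  simp only [kc_phase]
  by_cases h : ∃ i, 1 ≤ i ∧ i ≤ d ∧ NT (cc β K ξ0 i)
  · exact ⟨0, uph_zero d _ h⟩
  · have h1 : ∀ i, 1 ≤ i → i ≤ d → ∃ q : ℕ, 1 ≤ q ∧ q • cc β K ξ0 i = 0 := by
      intro i hi1 hi2
      by_contra hcon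
      refine h ⟨i, hi1, hi2, fun q hq h0 => hcon ⟨q, hq, h0⟩⟩
    obtain ⟨Q, hQ, hper⟩ := uph_per d _ h1
    exact ⟨_, per_mean Q hQ _ hper⟩
-- END kmn

-- BEGIN etx
private theorem etx_int {X : Type*} [TopologicalSpace X] [CompactSpace X] [MeasurableSpace X]
    [BorelSpace X] (F : C(X, ℂ)) (μ : Measure X) [IsFiniteMeasure μ] :
    Integrable (fun ξ => F ξ) μ :=
  (BoundedContinuousFunction.mkOfCompact F).integrable μ

private theorem etx_close {X : Type*} (x : ℕ → X) (F G : X → ℂ) (ε : ℝ) (hε : 0 < ε)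
    (h : ∀ ξ, ‖F ξ - G ξ‖ ≤ ε) (N : ℕ) :
    ‖(∑ n ∈ range N, F (x n)) / (N : ℂ) - (∑ n ∈ range N, G (x n)) / (N : ℂ)‖ ≤ ε := by
  rw [← sub_div, ← Finset.sum_sub_distrib, norm_div, Complex.norm_natCast]
  rcases Nat.eq_zero_or_pos N with hN | hN
  · subst hN
    simp [hε.le]
  · have hN' : (0 : ℝ) < N := by exact_mod_cast hN
    rw [div_le_iff₀ hN']
    calc ‖∑ n ∈ range N, (F (x n) - G (x n))‖ ≤ ∑ n ∈ range N, ‖F (x n) - G (x n)‖ :=
        norm_sum_le _ _
      _ ≤ ∑ _n ∈ range N, ε := Finset.sum_le_sum fun n _ => h (x n)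
      _ = ε * N := by
        rw [Finset.sum_const, card_range, nsmul_eq_mul, mul_comm]

private theorem etx_gen {X : Type*} [TopologicalSpace X] [CompactSpace X] [T2Space X]
    [MeasurableSpace X] [BorelSpace X] (x : ℕ → X)
    (hd : ∀ F : C(X, ℂ), ∀ ε : ℝ, 0 < ε → ∃ G : C(X, ℂ),
      (∃ l : ℂ, Tendsto (fun N : ℕ => (∑ n ∈ range N, G (x n)) / (N : ℂ)) atTop (𝓝 l)) ∧
      ∀ ξ, ‖F ξ - G ξ‖ ≤ ε) :
    ∃ η : Measure X, IsProbabilityMeasure η ∧ ∀ F : C(X, ℂ),
      Tendsto (fun N : ℕ => (∑ n ∈ range N, F (x n)) / (N : ℂ)) atTop (𝓝 (∫ ξ, F ξ ∂η)) := by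
  have hprob : ∀ N : ℕ, IsProbabilityMeasure
      (((N + 1 : ℕ) : ENNReal)⁻¹ • ∑ n ∈ range (N + 1), Measure.dirac (x n)) := by
    intro N
    constructor
    rw [Measure.smul_apply, Measure.finsetSum_apply]
    simp only [measure_univ, Finset.sum_const, card_range, nsmul_eq_mul, mul_one, smul_eq_mul]
    exact ENNReal.inv_mul_cancel (by simp) (ENNReal.natCast_ne_top _)
  obtain ⟨p, hp⟩ : ∃ p : ℕ → ProbabilityMeasure X, ∀ N, ((p N : ProbabilityMeasure X) : Measure X) =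
      ((N + 1 : ℕ) : ENNReal)⁻¹ • ∑ n ∈ range (N + 1), Measure.dirac (x n) :=
    ⟨fun N => ⟨_, hprob N⟩, fun N => rfl⟩
  have hint : ∀ (F : C(X, ℂ)) (N : ℕ), ∫ ξ, F ξ ∂((p N : ProbabilityMeasure X) : Measure X) =
      (∑ n ∈ range (N + 1), F (x n)) / ((N + 1 : ℕ) : ℂ) := by
    intro F N
    rw [hp, integral_smul_measure, integral_finsetSum_measure fun n _ => etx_int F _]
    have h1 : ∀ n, ∫ ξ, F ξ ∂(Measure.dirac (x n)) = F (x n) := fun n =>
      integral_dirac' _ _ F.continuous.stronglyMeasurable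
    simp only [h1]
    rw [ENNReal.toReal_inv, ENNReal.toReal_natCast, div_eq_inv_mul]
    simp
  let U : Ultrafilter ℕ := Ultrafilter.of atTop
  have hU : (U : Filter ℕ) ≤ atTop := Ultrafilter.of_le atTop
  have hne : Nonempty (ProbabilityMeasure X) := ⟨p 0⟩
  obtain ⟨P, hP⟩ : ∃ P : ProbabilityMeasure X, Tendsto p U (𝓝 P) :=
    ⟨(U.map p).lim, (U.map p).le_nhds_lim⟩
  have hPF : ∀ F : C(X, ℂ), Tendsto (fun N : ℕ => (∑ n ∈ range (N + 1), F (x n)) /
      ((N + 1 : ℕ) : ℂ)) U (𝓝 (∫ ξ, F ξ ∂(P : Measure X))) := by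
    intro F
    have h1 := (ProbabilityMeasure.tendsto_iff_forall_integral_rclike_tendsto ℂ).1 hP
      (BoundedContinuousFunction.mkOfCompact F)
    refine h1.congr fun N => ?_
    rw [← hint F N]
    rfl
  refine ⟨P, inferInstance, fun F => ?_⟩
  rw [Metric.tendsto_atTop]
  intro ε hε
  obtain ⟨G, ⟨l, hl⟩, hG⟩ := hd F (ε / 4) (by linarith)
  have hl2 : Tendsto (fun N : ℕ => (∑ n ∈ range (N + 1), G (x n)) / ((N + 1 : ℕ) : ℂ)) U (𝓝 l) :=
    ((tendsto_add_atTop_iff_nat 1).2 hl).mono_left hU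
  have hlP : l = ∫ ξ, G ξ ∂(P : Measure X) := tendsto_nhds_unique hl2 (hPF G)
  obtain ⟨M, hM⟩ := Metric.tendsto_atTop.1 hl (ε / 4) (by linarith)
  refine ⟨M, fun N hN => ?_⟩
  have h1 := hM N hN
  have h2 := etx_close x F G (ε / 4) (by linarith) hG N
  have h3 : ‖∫ ξ, G ξ ∂(P : Measure X) - ∫ ξ, F ξ ∂(P : Measure X)‖ ≤ ε / 4 := by
    rw [← integral_sub (etx_int G _) (etx_int F _)]
    refine (norm_integral_le_of_norm_le_const (C := ε / 4)
      (ae_of_all _ fun ξ => ?_)).trans ?_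
    · rw [norm_sub_rev]
      exact hG ξ
    · simp
  rw [dist_eq_norm] at h1 ⊢
  rw [hlP] at h1
  calc ‖(∑ n ∈ range N, F (x n)) / (N : ℂ) - ∫ ξ, F ξ ∂(P : Measure X)‖
      = ‖((∑ n ∈ range N, F (x n)) / (N : ℂ) - (∑ n ∈ range N, G (x n)) / (N : ℂ)) +
        ((∑ n ∈ range N, G (x n)) / (N : ℂ) - ∫ ξ, G ξ ∂(P : Measure X)) +
        (∫ ξ, G ξ ∂(P : Measure X) - ∫ ξ, F ξ ∂(P : Measure X))‖ := by
        congr 1
        ring
    _ ≤ _ + _ + _ := norm_add₃_le
    _ < ε := by linarith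

private theorem etx_cont {d : ℕ} (K : Fin d → (V →ₜ+ UnitAddCircle)) :
    Continuous fun ξ : Fin d → V => ec (∑ i, K i (ξ i)) :=
  ec_cont.comp (continuous_finsetSum _ fun i _ => (K i).continuous_toFun.comp (continuous_apply i))

/-- ROW etx. EXISTENCE. Empirical probabilities `(1/N) ∑ over n < N of dirac (T^n ξ0)`, `N ≥ 1`; `ProbabilityMeasure (Fin d → V)` is
compact (`instCompactSpaceProbabilityMeasure`, Mathlib.MeasureTheory.Measure.Prokhorov; `Fin d → V` is compact and metrizable):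
limit `η` along an ultrafilter finer than `atTop` (`Ultrafilter.of`, `Ultrafilter.le_nhds_lim`). For a character the mean along `atTop`
exists (`kc_mean`), so it is `∫ dη`; `kc_dense` for all `F`. -/
theorem eta_exists (hV : CharSep V) {d : ℕ} (β : V) (ξ0 : Fin d → V) :
    ∃ η : Measure (Fin d → V), IsProbabilityMeasure η ∧ Gen β ξ0 η := by
  refine etx_gen (fun n => (una β)^[n] ξ0) fun F ε hε => ?_
  obtain ⟨s, b, hb⟩ := kc_dense hV F ε hε
  refine ⟨⟨fun ξ => ∑ K ∈ s, b K * ec (∑ i, K i (ξ i)),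
    continuous_finsetSum _ fun K _ => continuous_const.mul (etx_cont K)⟩, ?_, hb⟩
  choose l hl using fun K : Fin d → (V →ₜ+ UnitAddCircle) => kc_mean β K ξ0
  refine ⟨∑ K ∈ s, b K * l K, ?_⟩
  have h1 : Tendsto (fun N : ℕ => ∑ K ∈ s, b K *
      ((∑ n ∈ range N, ec (∑ i, K i (((una β)^[n] ξ0) i))) / (N : ℂ))) atTop
      (𝓝 (∑ K ∈ s, b K * l K)) :=
    tendsto_finsetSum _ fun K _ => (hl K).const_mul (b K)
  refine h1.congr fun N => ?_
  show _ = (∑ n ∈ range N, ∑ K ∈ s, b K * ec (∑ i, K i (((una β)^[n] ξ0) i))) / (N : ℂ)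
  rw [Finset.sum_comm, Finset.sum_div]
  refine Finset.sum_congr rfl fun K _ => ?_
  rw [← Finset.mul_sum, mul_div_assoc]
-- END etx

-- BEGIN eti
omit [CompactSpace V] [T2Space V] [SecondCountableTopology V] [MeasurableSpace V] [BorelSpace V] in
private theorem eti_cont {d : ℕ} (β : V) : Continuous (una β : (Fin d → V) → Fin d → V) := by
  refine continuous_pi fun i => ?_
  unfold una
  by_cases h : (i : ℕ) + 1 < d
  · simp only [h, dif_pos]
    exact (continuous_apply i).add (continuous_apply _)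
  · simp only [h, dif_neg, not_false_eq_true]
    exact (continuous_apply i).add continuous_const

/-- ROW eti. `una β` is continuous; `∫ F ∘ T dη = ∫ F dη` for continuous `F` (two means which differ by two terms over `N`), then
`ext_of_forall_integral_eq_of_IsFiniteMeasure` for `η.map (una β)` and `η`. -/
theorem eta_inv {d : ℕ} (β : V) (ξ0 : Fin d → V) (η : Measure (Fin d → V)) [IsProbabilityMeasure η]
    (h : Gen β ξ0 η) : MeasurePreserving (una β : (Fin d → V) → Fin d → V) η η := by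
  have hm : TopologicalSpace.MetrizableSpace (Fin d → V) := inferInstance
  letI : MetricSpace (Fin d → V) := TopologicalSpace.metrizableSpaceMetric (Fin d → V)
  have hc : Continuous (una β : (Fin d → V) → Fin d → V) := eti_cont β
  have hmeas : Measurable (una β : (Fin d → V) → Fin d → V) := hc.measurable
  have hcomp : CompactSpace (Fin d → V) := inferInstance
  refine ⟨hmeas, ?_⟩
  haveI : IsProbabilityMeasure (η.map (una β : (Fin d → V) → Fin d → V)) :=
    Measure.isProbabilityMeasure_map hmeas.aemeasurable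
  refine ext_of_forall_integral_eq_of_IsFiniteMeasure fun f => ?_
  rw [integral_map hmeas.aemeasurable f.continuous.aestronglyMeasurable]
  have key : ∫ ξ, ((f (una β ξ) : ℝ) : ℂ) ∂η = ∫ ξ, ((f ξ : ℝ) : ℂ) ∂η := by
    have h1 := h ⟨fun ξ => ((f ξ : ℝ) : ℂ), Complex.continuous_ofReal.comp f.continuous⟩
    have h2 := h ⟨fun ξ => ((f (una β ξ) : ℝ) : ℂ),
      Complex.continuous_ofReal.comp (f.continuous.comp hc)⟩
    simp only [ContinuousMap.coe_mk] at h1 h2
    have h3 : Tendsto (fun N : ℕ => (((f ((una β)^[N] ξ0) : ℝ) : ℂ) - ((f ξ0 : ℝ) : ℂ)) / (N : ℂ))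
        atTop (𝓝 0) := by
      rw [tendsto_zero_iff_norm_tendsto_zero]
      have h4 : Tendsto (fun N : ℕ => (‖f‖ + ‖f‖) / (N : ℝ)) atTop (𝓝 0) :=
        tendsto_const_div_atTop_nhds_zero_nat _
      refine squeeze_zero (fun N => norm_nonneg _) (fun N => ?_) h4
      rw [norm_div, Complex.norm_natCast]
      refine div_le_div_of_nonneg_right ?_ (Nat.cast_nonneg N)
      refine (norm_sub_le _ _).trans (add_le_add ?_ ?_)
      · rw [Complex.norm_real]
        exact f.norm_coe_le_norm _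
      · rw [Complex.norm_real]
        exact f.norm_coe_le_norm _
    have h5 := h1.add h3
    rw [add_zero] at h5
    refine tendsto_nhds_unique (h2.congr fun N => ?_) h5
    rw [← add_div]
    congr 1
    have h6 := Finset.sum_range_succ (fun n => ((f ((una β)^[n] ξ0) : ℝ) : ℂ)) N
    have h7 := Finset.sum_range_succ' (fun n => ((f ((una β)^[n] ξ0) : ℝ) : ℂ)) N
    have h8 : ∀ n : ℕ, una β ((una β)^[n] ξ0) = (una β)^[n + 1] ξ0 := fun n =>
      (Function.iterate_succ_apply' _ _ _).symm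
    simp only [h8]
    rw [h6] at h7
    simp only [Function.iterate_zero, id_eq] at h7
    linear_combination -h7
  rw [integral_complex_ofReal, integral_complex_ofReal] at key
  exact_mod_cast key
-- END eti

-- BEGIN ecl
/-- ROW ecl. `η` lives on the closure of the orbit: `Fin d → V` is metrizable (`TopologicalSpace.metrizableSpaceMetric`),
`F ξ = infDist ξ E` is continuous, zero exactly on `E`; its mean along the orbit is 0, so `∫ F dη = 0`, `F = 0` a.e. -/
theorem eta_closed {d : ℕ} (β : V) (ξ0 : Fin d → V) (η : Measure (Fin d → V)) [IsProbabilityMeasure η]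
    (h : Gen β ξ0 η) (E : Set (Fin d → V)) (hE : IsClosed E) (ho : ∀ n : ℕ, (una β)^[n] ξ0 ∈ E) :
    ∀ᵐ ξ ∂η, ξ ∈ E := by
  letI : MetricSpace (Fin d → V) := TopologicalSpace.metrizableSpaceMetric (Fin d → V)
  have hne : E.Nonempty := ⟨_, ho 0⟩
  have hF : Continuous fun ξ : Fin d → V => Metric.infDist ξ E := Metric.continuous_infDist_pt E
  have h1 := h ⟨fun ξ => ((Metric.infDist ξ E : ℝ) : ℂ), Complex.continuous_ofReal.comp hF⟩
  simp only [ContinuousMap.coe_mk] at h1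
  have h2 : (fun N : ℕ => (∑ n ∈ range N, ((Metric.infDist ((una β)^[n] ξ0) E : ℝ) : ℂ)) / (N : ℂ)) =
      fun _ => 0 := by
    funext N
    rw [Finset.sum_eq_zero fun n _ => ?_, zero_div]
    rw [Metric.infDist_zero_of_mem (ho n)]
    simp
  rw [h2] at h1
  have h3 : ∫ ξ, ((Metric.infDist ξ E : ℝ) : ℂ) ∂η = 0 := (tendsto_nhds_unique h1 tendsto_const_nhds)
  rw [integral_complex_ofReal] at h3
  have h4 : ∫ ξ, Metric.infDist ξ E ∂η = 0 := by exact_mod_cast h3
  have hint : Integrable (fun ξ : Fin d → V => Metric.infDist ξ E) η :=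
    hF.integrable_of_hasCompactSupport (HasCompactSupport.of_compactSpace _)
  have h5 := (integral_eq_zero_iff_of_nonneg (fun ξ => Metric.infDist_nonneg) hint).1 h4
  filter_upwards [h5] with ξ h6
  exact (hE.mem_iff_infDist_zero hne).2 h6
-- END ecl

-- BEGIN fsg
/-- ROW fsg. Finitely many torsion elements lie in a finite set closed under the sums used: `F = {sum of a_s • x_s : a_s < q}`. -/
theorem fin_sub (d : ℕ) (x : ℕ → UnitAddCircle) (h : ∀ s ∈ range d, ∃ q : ℕ, 1 ≤ q ∧ q • x s = 0) :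
    ∃ F : Set UnitAddCircle, F.Finite ∧ (∀ y ∈ F, ∃ q : ℕ, 1 ≤ q ∧ q • y = 0) ∧
      ∀ a : ℕ → ℕ, ∑ s ∈ range d, a s • x s ∈ F := by
  induction d with
  | zero =>
    refine ⟨{0}, Set.finite_singleton 0, fun y hy => ⟨1, le_rfl, ?_⟩, fun a => by simp⟩
    rw [Set.mem_singleton_iff.1 hy, smul_zero]
  | succ d ih =>
    obtain ⟨F, hF, ht, hm⟩ :=
      ih fun s hs => h s (Finset.mem_range.2 (Nat.lt_succ_of_lt (Finset.mem_range.1 hs)))
    obtain ⟨q, hq, hx⟩ := h d (Finset.self_mem_range_succ d)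
    refine ⟨Set.image2 (fun (y : UnitAddCircle) (r : ℕ) => y + r • x d) F (Set.Iio q),
      hF.image2 _ (Set.finite_Iio q), ?_, fun a => ?_⟩
    · rintro y ⟨z, hz, r, hr, rfl⟩
      obtain ⟨p, hp, hpz⟩ := ht z hz
      refine ⟨q * p, Nat.mul_pos hq hp, ?_⟩
      have e1 : (q * p) • z = 0 := by rw [mul_smul, hpz, smul_zero]
      have e2 : (q * p) • (r • x d) = 0 := by
        rw [← mul_smul, show q * p * r = (p * r) * q by ring, mul_smul, hx, smul_zero]
      show (q * p) • (z + r • x d) = 0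
      rw [smul_add, e1, e2, add_zero]
    · rw [Finset.sum_range_succ]
      refine ⟨_, hm a, a d % q, Nat.mod_lt _ hq, ?_⟩
      have e : a d • x d = (a d % q) • x d := by
        conv_lhs => rw [← Nat.div_add_mod (a d) q, add_smul, mul_comm q, mul_smul, hx, smul_zero, zero_add]
      show ∑ s ∈ range d, a s • x s + (a d % q) • x d = _
      rw [e]
-- END fsg

-- BEGIN kav
private theorem kav_cc {d : ℕ} (β : V) (K : Fin d → (V →ₜ+ UnitAddCircle)) (ξ : Fin d → V) (l : ℕ)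
    (hl : d < l) : cc β K ξ l = 0 := by
  unfold cc
  refine Finset.sum_eq_zero fun i _ => ?_
  rw [dif_neg (by omega), if_neg (by omega), map_zero]

private theorem kav_una {d : ℕ} (β : V) : Continuous (una β : (Fin d → V) → Fin d → V) := by
  refine continuous_pi fun i => ?_
  unfold una
  by_cases h : (i : ℕ) + 1 < d
  · simp only [dif_pos h]
    exact (continuous_apply i).add (continuous_apply _)
  · simp only [dif_neg h]
    exact (continuous_apply i).add continuous_const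

private theorem kav_cont {d : ℕ} (K : Fin d → (V →ₜ+ UnitAddCircle)) :
    Continuous (fun ξ : Fin d → V => ec (∑ i, K i (ξ i))) :=
  ec_cont.comp (continuous_finsetSum _ fun i _ => (K i).continuous_toFun.comp (continuous_apply i))

private theorem kav_int {d : ℕ} {β : V} {ξ0 : Fin d → V} {η : Measure (Fin d → V)}
    (h : Gen β ξ0 η) (K : Fin d → (V →ₜ+ UnitAddCircle)) :
    Tendsto (fun N : ℕ => (∑ n ∈ range N, ec (∑ i, K i (((una β)^[n] ξ0) i))) / (N : ℂ)) atTop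
      (𝓝 (∫ ξ', ec (∑ i, K i (ξ' i)) ∂η)) :=
  h ⟨_, kav_cont K⟩

private theorem kav_sum (P : ℕ → ℂ) (Q : ℕ) (hP : ∀ n, P (n + Q) = P n) (m : ℕ) :
    ∑ n ∈ range Q, P (n + m) = ∑ n ∈ range Q, P n := by
  induction m with
  | zero => rfl
  | succ m ih =>
    rw [← ih]
    have h1 := Finset.sum_range_succ' (fun n => P (n + m)) Q
    have h2 := Finset.sum_range_succ (fun n => P (n + m)) Q
    have h3 : P (Q + m) = P (0 + m) := by rw [zero_add, add_comm, hP]
    have h4 : ∀ n, P (n + (m + 1)) = P (n + 1 + m) := fun n => by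
      rw [add_assoc, add_comm 1 m]
    simp only [h4]
    simp only [h3] at h2
    exact add_right_cancel (h1.symm.trans h2)

private theorem kav_per {d : ℕ} (β : V) (ξ0 : Fin d → V) (η : Measure (Fin d → V))
    [IsProbabilityMeasure η] (h : Gen β ξ0 η) (K : Fin d → (V →ₜ+ UnitAddCircle)) (Q : ℕ)
    (hQ : 1 ≤ Q) (hP : ∀ n, uph d (cc β K ξ0) (n + Q) = uph d (cc β K ξ0) n) :
    ∀ᵐ ξ ∂η, Tendsto (fun N : ℕ => (∑ n ∈ range N, ec (∑ i, K i (((una β)^[n] ξ) i))) / (N : ℂ)) atTop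
      (𝓝 (∫ ξ', ec (∑ i, K i (ξ' i)) ∂η)) := by
  have hit : ∀ n : ℕ, Continuous (fun ξ : Fin d → V => ec (∑ i, K i (((una β)^[n] ξ) i))) :=
    fun n => (kav_cont K).comp ((kav_una β).iterate n)
  have hP' : ∀ n : ℕ, ec (∑ i, K i (((una β)^[n + Q] ξ0) i)) = ec (∑ i, K i (((una β)^[n] ξ0) i)) := by
    intro n
    rw [kc_phase, kc_phase, hP]
  have h1 : ∀ᵐ ξ ∂η, ∀ n : ℕ, ec (∑ i, K i (((una β)^[n + Q] ξ) i)) =
      ec (∑ i, K i (((una β)^[n] ξ) i)) := by
    refine ae_all_iff.2 fun n => eta_closed β ξ0 η h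
      {ξ | ec (∑ i, K i (((una β)^[n + Q] ξ) i)) = ec (∑ i, K i (((una β)^[n] ξ) i))}
      (isClosed_eq (hit (n + Q)) (hit n)) fun m => ?_
    change ec (∑ i, K i (((una β)^[n + Q] ((una β)^[m] ξ0)) i)) =
      ec (∑ i, K i (((una β)^[n] ((una β)^[m] ξ0)) i))
    rw [← Function.iterate_add_apply, ← Function.iterate_add_apply, add_right_comm]
    exact hP' (n + m)
  have h2 : ∀ᵐ ξ ∂η, (∑ n ∈ range Q, ec (∑ i, K i (((una β)^[n] ξ) i))) / (Q : ℂ) =
      (∑ n ∈ range Q, ec (∑ i, K i (((una β)^[n] ξ0) i))) / (Q : ℂ) := by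
    refine eta_closed β ξ0 η h
      {ξ | (∑ n ∈ range Q, ec (∑ i, K i (((una β)^[n] ξ) i))) / (Q : ℂ) =
        (∑ n ∈ range Q, ec (∑ i, K i (((una β)^[n] ξ0) i))) / (Q : ℂ)}
      (isClosed_eq ((continuous_finsetSum _ fun n _ => hit n).div_const _) continuous_const) fun m => ?_
    change (∑ n ∈ range Q, ec (∑ i, K i (((una β)^[n] ((una β)^[m] ξ0)) i))) / (Q : ℂ) =
        (∑ n ∈ range Q, ec (∑ i, K i (((una β)^[n] ξ0) i))) / (Q : ℂ)
    congr 1
    simp only [← Function.iterate_add_apply]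
    exact kav_sum (fun n => ec (∑ i, K i (((una β)^[n] ξ0) i))) Q hP' m
  filter_upwards [h1, h2] with ξ e1 e2
  have e3 := per_mean Q hQ (fun n => ec (∑ i, K i (((una β)^[n] ξ) i))) e1
  have e4 := per_mean Q hQ (fun n => ec (∑ i, K i (((una β)^[n] ξ0) i))) hP'
  have e5 := tendsto_nhds_unique e4 (kav_int h K)
  rw [← e5, ← e2]
  exact e3

private theorem kav_nt {d : ℕ} (β : V) (ξ0 : Fin d → V) (η : Measure (Fin d → V))
    [IsProbabilityMeasure η] (h : Gen β ξ0 η) (K : Fin d → (V →ₜ+ UnitAddCircle)) (i : ℕ)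
    (hi1 : 1 ≤ i) (hid : i ≤ d) (hNT : NT (cc β K ξ0 i))
    (hmax : ∀ j, i < j → j ≤ d → ¬ NT (cc β K ξ0 j)) :
    ∀ᵐ ξ ∂η, Tendsto (fun N : ℕ => (∑ n ∈ range N, ec (∑ i, K i (((una β)^[n] ξ) i))) / (N : ℂ)) atTop
      (𝓝 (∫ ξ', ec (∑ i, K i (ξ' i)) ∂η)) := by
  have hz : ∀ ξ : Fin d → V, NT (cc β K ξ i) → Tendsto (fun N : ℕ =>
      (∑ n ∈ range N, ec (∑ i, K i (((una β)^[n] ξ) i))) / (N : ℂ)) atTop (𝓝 0) := by
    intro ξ hξ
    refine (uph_zero d (cc β K ξ) ⟨i, hi1, hid, hξ⟩).congr fun N => ?_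
    congr 1
    exact Finset.sum_congr rfl fun n _ => (kc_phase β K ξ n).symm
  obtain ⟨F, hF, hFt, hFs⟩ := fin_sub d (fun s => cc β K ξ0 (i + (s + 1))) (by
    intro s _
    by_cases hs : i + (s + 1) ≤ d
    · have h1 := hmax (i + (s + 1)) (by omega) hs
      by_contra h2
      exact h1 fun q hq h3 => h2 ⟨q, hq, h3⟩
    · exact ⟨1, le_rfl, by rw [kav_cc β K ξ0 _ (by omega), smul_zero]⟩)
  have hcl : IsClosed {ξ : Fin d → V | cc β K ξ i - cc β K ξ0 i ∈ F} :=
    hF.isClosed.preimage ((cc_cont β K i).sub continuous_const)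
  have h1 : ∀ᵐ ξ ∂η, cc β K ξ i - cc β K ξ0 i ∈ F := eta_closed β ξ0 η h _ hcl fun r => by
    change cc β K ((una β)^[r] ξ0) i - cc β K ξ0 i ∈ F
    rw [cc_shift, Finset.sum_range_succ', Nat.choose_zero_right, one_smul, add_zero,
      add_sub_cancel_right]
    exact hFs fun s => r.choose (s + 1)
  have h0 : ∫ ξ', ec (∑ i, K i (ξ' i)) ∂η = 0 := tendsto_nhds_unique (kav_int h K) (hz ξ0 hNT)
  filter_upwards [h1] with ξ hξ
  rw [h0]
  refine hz ξ fun q hq h2 => ?_
  obtain ⟨q', hq', hy⟩ := hFt _ hξ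
  refine hNT (q' * q) (Nat.mul_pos hq' hq) ?_
  have h3 : cc β K ξ0 i = cc β K ξ i - (cc β K ξ i - cc β K ξ0 i) := by abel
  rw [h3, smul_sub, mul_smul, h2, smul_zero, mul_comm, mul_smul, hy, smul_zero, sub_zero]

/-- ROW kav. At almost every point the means of a character are the same. If all `cc β K ξ0 i`, `1 ≤ i ≤ d`, are torsion: `uph_per` gives
`Q` with `K (T^(n+Q) ξ0) = K (T^n ξ0)`; the closed set `E = {ξ | ∀ n, K (T^(n+Q) ξ) = K (T^n ξ), (1/Q) ∑ over n < Q of K (T^n ξ) = l}`,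
`l` the value for `ξ0`, contains the orbit, `eta_closed`, `per_mean`. Otherwise let `i` be the greatest index `≤ d` with
`NT (cc β K ξ0 i)`, `1 ≤ i`: by `cc_shift`, `fin_sub` the closed set `{ξ | cc β K ξ i - cc β K ξ0 i ∈ F}` contains the orbit; on it
`cc β K ξ i` is not torsion, `uph_zero`. The limit is the integral because `Gen` gives the mean at `ξ0`. -/
theorem eta_mean {d : ℕ} (β : V) (ξ0 : Fin d → V) (η : Measure (Fin d → V)) [IsProbabilityMeasure η]
    (h : Gen β ξ0 η) (K : Fin d → (V →ₜ+ UnitAddCircle)) :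
    ∀ᵐ ξ ∂η, Tendsto (fun N : ℕ => (∑ n ∈ range N, ec (∑ i, K i (((una β)^[n] ξ) i))) / (N : ℂ)) atTop
      (𝓝 (∫ ξ', ec (∑ i, K i (ξ' i)) ∂η)) := by
  classical
  by_cases hall : ∀ i, 1 ≤ i → i ≤ d → ∃ q : ℕ, 1 ≤ q ∧ q • cc β K ξ0 i = 0
  · obtain ⟨Q, hQ, hP⟩ := uph_per d _ hall
    exact kav_per β ξ0 η h K Q hQ hP
  · push Not at hall
    obtain ⟨i0, h1, h2, h3⟩ := hall
    have hs : 1 ≤ Nat.findGreatest (fun i => 1 ≤ i ∧ NT (cc β K ξ0 i)) d ∧
        NT (cc β K ξ0 (Nat.findGreatest (fun i => 1 ≤ i ∧ NT (cc β K ξ0 i)) d)) :=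
      Nat.findGreatest_spec (P := fun i => 1 ≤ i ∧ NT (cc β K ξ0 i)) h2 ⟨h1, h3⟩
    refine kav_nt β ξ0 η h K _ hs.1 (Nat.findGreatest_le d) hs.2 fun j hj hjd hNT => ?_
    exact Nat.findGreatest_is_greatest hj hjd ⟨by omega, hNT⟩
-- END kav

-- BEGIN eer
private theorem eer_cont {d : ℕ} (K : Fin d → (V →ₜ+ UnitAddCircle)) :
    Continuous (fun ξ : Fin d → V => ec (∑ i, K i (ξ i))) :=
  ec_cont.comp (continuous_finsetSum _ fun i _ => (K i).continuous_toFun.comp (continuous_apply i))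

private theorem eer_tot {d : ℕ} (η : Measure (Fin d → V)) [IsProbabilityMeasure η]
    (hsep : ∀ v : V, v ≠ 0 → ∃ χ : V →ₜ+ UnitAddCircle, χ v ≠ 0)
    (f : (Fin d → V) → ℂ) (hf : Measurable f) (hfb : ∃ B : ℝ, ∀ x, ‖f x‖ ≤ B)
    (h0 : ∀ K : Fin d → (V →ₜ+ UnitAddCircle),
      ∫ x, f x * ec (∑ i, K i (x i)) ∂η = 0) :
    f =ᵐ[η] 0 := by
  classical
  obtain ⟨B, hB⟩ := hfb
  refine chr_total (V := Fin d → V) η ?_ f
    (MemLp.of_bound hf.aestronglyMeasurable B (Eventually.of_forall hB)) ?_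
  · intro ξ hξ
    obtain ⟨i, hi⟩ : ∃ i, ξ i ≠ 0 := by
      by_contra hcon
      push Not at hcon
      exact hξ (funext hcon)
    obtain ⟨χ, hχ⟩ := hsep (ξ i) hi
    refine ⟨⟨χ.toAddMonoidHom.comp (Pi.evalAddMonoidHom (fun _ : Fin d => V) i),
      χ.continuous_toFun.comp (continuous_apply i)⟩, hχ⟩
  · intro χ
    have h1 : ∀ x : Fin d → V, χ x = ∑ i, χ (Pi.single i (x i)) := by
      intro x
      rw [← map_sum]
      congr 1
      exact (Finset.univ_sum_single x).symm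
    have h2 := h0 (fun i => ⟨χ.toAddMonoidHom.comp (AddMonoidHom.single (fun _ : Fin d => V) i),
      χ.continuous_toFun.comp (continuous_single (A := fun _ : Fin d => V) i)⟩)
    rw [← h2]
    refine integral_congr_ae (Eventually.of_forall fun x => ?_)
    change f x * ec (χ x) = f x * ec (∑ i, χ (Pi.single i (x i)))
    rw [h1 x]

/-- ROW eer. ERGODICITY: copy of `una_erg` (Ke.lean) with `η`, `eta_inv`, `eta_mean` (a.e. in place of every point) and totality from
`kc_dense` or `chr_total` for the group `Fin d → V` (copy of `uer_tot`, which does not use the Haar property). -/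
theorem eta_erg (hV : CharSep V) {d : ℕ} (β : V) (ξ0 : Fin d → V) (η : Measure (Fin d → V))
    [IsProbabilityMeasure η] (h : Gen β ξ0 η) :
    Ergodic (una β : (Fin d → V) → Fin d → V) η := by
  have hmp := eta_inv β ξ0 η h
  refine erg_crit η (una β) hmp
    {E | ∃ K : Fin d → (V →ₜ+ UnitAddCircle), E = fun ξ => ec (∑ i, K i (ξ i))} ?_ ?_ ?_ ?_
  · rintro E ⟨K, rfl⟩
    exact (eer_cont K).measurable
  · rintro E ⟨K, rfl⟩
    exact ⟨1, fun x => (norm_ec _).le⟩
  · rintro E ⟨K, rfl⟩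
    have hav := eta_mean β ξ0 η h K
    have hc : ‖∫ ξ' : Fin d → V, ec (∑ i, K i (ξ' i)) ∂η‖ ≤ 1 := by
      refine (norm_integral_le_of_norm_le_const (C := 1)
        (Eventually.of_forall fun x => (norm_ec _).le)).trans ?_
      rw [probReal_univ, mul_one]
    have hA : ∀ (N : ℕ) (ξ : Fin d → V),
        ‖(∑ n ∈ range N, ec (∑ i, K i (((una β)^[n] ξ) i))) / (N : ℂ)‖ ≤ 1 := by
      intro N ξ
      rw [norm_div, Complex.norm_natCast]
      refine div_le_one_of_le₀ ?_ (Nat.cast_nonneg N)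
      refine (norm_sum_le _ _).trans ?_
      simp only [norm_ec, Finset.sum_const, Finset.card_range, nsmul_eq_mul, mul_one, le_refl]
    have hmeas : ∀ N : ℕ, Measurable (fun ξ : Fin d → V =>
        (∑ n ∈ range N, ec (∑ i, K i (((una β)^[n] ξ) i))) / (N : ℂ)) := by
      intro N
      refine Measurable.div_const (Finset.measurable_sum _ fun n _ => ?_) _
      exact (eer_cont K).measurable.comp (hmp.measurable.iterate n)
    have hlim := tendsto_integral_of_dominated_convergence (μ := η)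
      (F := fun (N : ℕ) (ξ : Fin d → V) =>
        ‖(∑ n ∈ range N, ec (∑ i, K i (((una β)^[n] ξ) i))) / (N : ℂ) -
          ∫ ξ' : Fin d → V, ec (∑ i, K i (ξ' i)) ∂η‖ ^ 2)
      (f := fun _ => (0 : ℝ)) (fun _ => (4 : ℝ))
      (fun N => (((hmeas N).sub_const _).norm.pow_const 2).aestronglyMeasurable)
      (integrable_const _)
      (fun N => Eventually.of_forall fun ξ => by
        rw [Real.norm_of_nonneg (by positivity)]
        have h1 := (norm_sub_le ((∑ n ∈ range N, ec (∑ i, K i (((una β)^[n] ξ) i))) / (N : ℂ))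
          (∫ ξ' : Fin d → V, ec (∑ i, K i (ξ' i)) ∂η)).trans
          (add_le_add (hA N ξ) hc)
        have h2 := pow_le_pow_left₀ (norm_nonneg _) h1 2
        linarith)
      (by
        filter_upwards [hav] with ξ hξ
        have h1 := (hξ.sub_const
          (∫ ξ' : Fin d → V, ec (∑ i, K i (ξ' i)) ∂η)).norm.pow 2
        rw [sub_self, norm_zero, zero_pow two_ne_zero] at h1
        exact h1)
    rw [integral_zero] at hlim
    exact hlim
  · intro f hf hfb h0
    exact eer_tot η hV f hf hfb fun K => h0 _ ⟨K, rfl⟩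
-- END eer

-- BEGIN eha
private theorem eha_cont {d : ℕ} (K : Fin d → (V →ₜ+ UnitAddCircle)) :
    Continuous (fun ξ : Fin d → V => ec (∑ i, K i (ξ i))) :=
  ec_cont.comp (continuous_finsetSum _ fun i _ => (K i).continuous_toFun.comp (continuous_apply i))

private theorem eha_int (m : Measure V) [m.IsAddHaarMeasure] [IsProbabilityMeasure m] {d : ℕ}
    (K : Fin d → (V →ₜ+ UnitAddCircle)) (hK : K ≠ 0) :
    ∫ ξ : Fin d → V, ec (∑ i, K i (ξ i)) ∂(Measure.pi fun _ => m) = 0 := by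
  obtain ⟨i0, hi0⟩ : ∃ i, K i ≠ 0 := by
    by_contra hcon
    push Not at hcon
    exact hK (funext hcon)
  have h1 : ∀ ξ : Fin d → V, ec (∑ i, K i (ξ i)) = ∏ i, ec (K i (ξ i)) := fun ξ => ec_sum _ _
  simp only [h1]
  rw [integral_fintype_prod_eq_prod (fun i v => ec (K i v))]
  exact Finset.prod_eq_zero (Finset.mem_univ i0) (int_chr m (K i0) hi0)

private theorem eha_av (m : Measure V) [m.IsAddHaarMeasure] [IsProbabilityMeasure m] {d : ℕ} (β : V)
    (hfree : ∀ χ : V →ₜ+ UnitAddCircle, χ ≠ 0 → ∀ n : ℕ, 1 ≤ n → n • χ β ≠ 0)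
    (K : Fin d → (V →ₜ+ UnitAddCircle)) (ξ : Fin d → V) :
    Tendsto (fun N : ℕ => (∑ n ∈ range N, ec (∑ i, K i (((una β)^[n] ξ) i))) / (N : ℂ)) atTop
      (𝓝 (∫ ξ' : Fin d → V, ec (∑ i, K i (ξ' i)) ∂(Measure.pi fun _ => m))) := by
  by_cases hK : K = 0
  · subst hK
    have h1 : ∀ ξ : Fin d → V, ec (∑ i, (0 : Fin d → (V →ₜ+ UnitAddCircle)) i (ξ i)) = 1 := by
      intro ξ
      have h2 : ∑ i, (0 : Fin d → (V →ₜ+ UnitAddCircle)) i (ξ i) = 0 :=
        Finset.sum_eq_zero fun i _ => rfl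
      rw [h2]
      exact ec_zero
    simp only [h1]
    rw [integral_const, probReal_univ, one_smul]
    refine tendsto_const_nhds.congr' ?_
    filter_upwards [eventually_ge_atTop 1] with N hN
    have hN' : (N : ℂ) ≠ 0 := by
      have : N ≠ 0 := by omega
      exact_mod_cast this
    rw [Finset.sum_const, Finset.card_range, nsmul_eq_mul, mul_one, div_self hN']
  · rw [eha_int m K hK]
    exact una_weyl β hfree K hK ξ

private theorem eha_itg {d : ℕ} (μ : Measure (Fin d → V)) [IsProbabilityMeasure μ]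
    (F : C(Fin d → V, ℂ)) : Integrable (fun ξ => F ξ) μ :=
  Integrable.of_bound F.continuous.aestronglyMeasurable ‖F‖
    (Eventually.of_forall fun x => F.norm_coe_le_norm x)

private theorem eha_app (hV : CharSep V) {d : ℕ} (F : C(Fin d → V, ℂ)) (ε : ℝ) (hε : 0 < ε)
    (μ ν : Measure (Fin d → V)) [IsProbabilityMeasure μ] [IsProbabilityMeasure ν]
    (h : ∀ K : Fin d → (V →ₜ+ UnitAddCircle),
      ∫ ξ, ec (∑ i, K i (ξ i)) ∂μ = ∫ ξ, ec (∑ i, K i (ξ i)) ∂ν) :
    ‖∫ ξ, F ξ ∂μ - ∫ ξ, F ξ ∂ν‖ ≤ 2 * ε := by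
  obtain ⟨s, b, hb⟩ := kc_dense hV F ε hε
  have hPc : Continuous fun ξ : Fin d → V => ∑ K ∈ s, b K * ec (∑ i, K i (ξ i)) :=
    continuous_finsetSum _ fun K _ => continuous_const.mul (eha_cont K)
  have hPi : ∀ (ρ : Measure (Fin d → V)) [IsProbabilityMeasure ρ],
      ∫ ξ, (∑ K ∈ s, b K * ec (∑ i, K i (ξ i))) ∂ρ = ∑ K ∈ s, b K * ∫ ξ, ec (∑ i, K i (ξ i)) ∂ρ := by
    intro ρ _
    rw [integral_finsetSum]
    · exact Finset.sum_congr rfl fun K _ => integral_const_mul _ _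
    · intro K _
      exact (eha_itg ρ ⟨_, eha_cont K⟩).const_mul (b K)
  have hd : ∀ (ρ : Measure (Fin d → V)) [IsProbabilityMeasure ρ],
      ‖∫ ξ, F ξ ∂ρ - ∫ ξ, (∑ K ∈ s, b K * ec (∑ i, K i (ξ i))) ∂ρ‖ ≤ ε := by
    intro ρ _
    have hPint : Integrable (fun ξ : Fin d → V => ∑ K ∈ s, b K * ec (∑ i, K i (ξ i))) ρ :=
      eha_itg ρ ⟨_, hPc⟩
    rw [← integral_sub (eha_itg ρ F) hPint]
    refine (norm_integral_le_of_norm_le_const (C := ε) (Eventually.of_forall hb)).trans ?_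
    rw [probReal_univ, mul_one]
  have h1 := hd μ
  have h2 := hd ν
  rw [hPi] at h1 h2
  have h3 : ∑ K ∈ s, b K * ∫ ξ, ec (∑ i, K i (ξ i)) ∂μ
      = ∑ K ∈ s, b K * ∫ ξ, ec (∑ i, K i (ξ i)) ∂ν := Finset.sum_congr rfl fun K _ => by rw [h K]
  rw [h3] at h1
  rw [← norm_neg, neg_sub] at h2
  calc ‖∫ ξ, F ξ ∂μ - ∫ ξ, F ξ ∂ν‖
      = ‖(∫ ξ, F ξ ∂μ - ∑ K ∈ s, b K * ∫ ξ, ec (∑ i, K i (ξ i)) ∂ν)
          + (∑ K ∈ s, b K * ∫ ξ, ec (∑ i, K i (ξ i)) ∂ν - ∫ ξ, F ξ ∂ν)‖ := by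
        congr 1; ring
    _ ≤ ε + ε := (norm_add_le _ _).trans (add_le_add h1 h2)
    _ = 2 * ε := by ring

/-- ROW eha. Totally ergodic case: the means of characters are those of Haar (`una_weyl`, `uer_int` copied), so `η` and Haar have the same
integrals of characters, by `kc_dense` of all continuous functions, so they are equal. -/
theorem eta_haar (m : Measure V) [m.IsAddHaarMeasure] [IsProbabilityMeasure m] (hV : CharSep V) {d : ℕ}
    (β : V) (hfree : ∀ χ : V →ₜ+ UnitAddCircle, χ ≠ 0 → ∀ n : ℕ, 1 ≤ n → n • χ β ≠ 0)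
    (ξ0 : Fin d → V) (η : Measure (Fin d → V)) [IsProbabilityMeasure η] (h : Gen β ξ0 η) :
    η = Measure.pi fun _ => m := by
  have hch : ∀ K : Fin d → (V →ₜ+ UnitAddCircle),
      ∫ ξ, ec (∑ i, K i (ξ i)) ∂η = ∫ ξ, ec (∑ i, K i (ξ i)) ∂(Measure.pi fun _ => m) := fun K =>
    tendsto_nhds_unique (h ⟨_, eha_cont K⟩) (eha_av m β hfree K ξ0)
  have hF : ∀ F : C(Fin d → V, ℂ), ∫ ξ, F ξ ∂η = ∫ ξ, F ξ ∂(Measure.pi fun _ => m) := by
    intro F
    rw [← sub_eq_zero, ← norm_le_zero_iff]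
    apply le_of_forall_pos_le_add
    intro δ hδ
    have := eha_app hV F (δ / 2) (by positivity) η (Measure.pi fun _ => m) hch
    linarith
  refine ext_of_forall_integral_eq_of_IsFiniteMeasure fun f => ?_
  have h1 : ∫ ξ, ((f ξ : ℝ) : ℂ) ∂η = ∫ ξ, ((f ξ : ℝ) : ℂ) ∂(Measure.pi fun _ => m) :=
    hF ⟨fun x => ((f x : ℝ) : ℂ), Complex.continuous_ofReal.comp f.continuous⟩
  rw [integral_complex_ofReal, integral_complex_ofReal] at h1
  exact_mod_cast h1
-- END eha

end Pool.Agent.GsF
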