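import Pool.Agent.GsK.Kg
import Pool.Agent.GsK.Wb

/-!
Convergence for V x W, an arbitrary rotation of V: the limit is a function of v.
-/

set_option autoImplicit false

namespace Pool.Agent.GsF

open Finset MeasureTheory Filter Topology ProbabilityTheory Polynomial

variable {V : Type*} [AddCommGroup V] [TopologicalSpace V] [IsTopologicalAddGroup V] [CompactSpace V]
  [T2Space V] [SecondCountableTopology V] [MeasurableSpace V] [BorelSpace V]
variable {W : Type*} [MeasurableSpace W]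

/-- the limit function: the integral over eta of the product of the f_j at v + x_j(xi) -/
noncomputable def LamH {d : ℕ} (η : Measure (Fin d → V)) (β : V) {k : ℕ} (f : Fin (k + 1) → V → ℂ)
    (v : V) : ℂ :=
  ∫ ξ : Fin d → V, ∏ j, f j (v + xo β ξ ((j : ℕ) : ℤ)) ∂η

-- BEGIN to1
private theorem to1_xo {d : ℕ} (β : V) (j : ℤ) : Continuous fun ξ : Fin d → V => xo β ξ j := by
  unfold xo
  refine Continuous.add ?_ continuous_const
  exact continuous_finsetSum _ fun i _ => (continuous_apply i).zsmul _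

/-- ROW to1. Copy of `trig_one` (Kg.lean): `chr_lim` is replaced by `hη` for the continuous function
`ξ ↦ ∏ ec (χ_j (xo β ξ j))`, at `T^n ξ0` equal to `∏ ec (χ_j (p(n+j) • α))` by `hξ`; then times `∏ ec (χ_j v)`. -/
theorem trig_one_h (m : Measure V) [IsProbabilityMeasure m] (α : V)
    {ω : Measure W} {R : W ≃ᵐ W} {X : ℕ → W → ℝ} (h : GSys ω R X) (p : ℤ[X]) (hp : 2 ≤ p.natDegree)
    (β : V) (ξ0 : Fin p.natDegree → V) (hξ : Base p α β ξ0) (η : Measure (Fin p.natDegree → V))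
    [IsProbabilityMeasure η] (hη : Gen β ξ0 η) (k : ℕ)
    (q : Fin (k + 1) → (V →ₜ+ UnitAddCircle) × ((ℕ × ℤ) →₀ ℝ)) :
    ∀ᵐ x ∂(m.prod ω), Tendsto (fun N : ℕ => (∑ n ∈ range N,
      ∏ j, EW R X (q j) (pw ((rotV α).prodCongr R) (p.eval ((n : ℤ) + (j : ℕ))) x)) / (N : ℂ)) atTop
      (𝓝 (LamH η β (fun j v => ∫ w, EW R X (q j) (v, w) ∂ω) x.1)) := by
  have : IsProbabilityMeasure ω := h.gauss.isProbabilityMeasure
  have h1 := conv_diag_w h p hp k (fun j => (q j).2) (fun j => (q j).1 α)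
  have h2 : ∀ᵐ x ∂(m.prod ω), Tendsto (fun N : ℕ => (∑ n ∈ range N,
      ec (∑ j : Fin (k + 1), p.eval ((n : ℤ) + (j : ℕ)) • (q j).1 α) *
        (ei (∑ j, LF R X (q j).2 (pw R (p.eval ((n : ℤ) + (j : ℕ))) x.2)) -
          ∏ j, (Real.exp (-(vv ω R X (q j).2) / 2) : ℂ))) / (N : ℂ)) atTop (𝓝 0) :=
    Measure.quasiMeasurePreserving_snd.ae h1
  have hF : Continuous fun ξ : Fin p.natDegree → V => ∏ j : Fin (k + 1), ec ((q j).1 (xo β ξ ((j : ℕ) : ℤ))) :=
    continuous_finsetProd _ fun j _ =>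
      ec_cont.comp ((q j).1.continuous_toFun.comp (to1_xo β ((j : ℕ) : ℤ)))
  have h3 := hη ⟨_, hF⟩
  simp only [ContinuousMap.coe_mk] at h3
  filter_upwards [h2] with x hx
  obtain ⟨v, w⟩ := x
  have hL : LamH η β (fun j v => ∫ w, EW R X (q j) (v, w) ∂ω) v =
      (∏ j, ec ((q j).1 v)) * 0 +
      (∏ j, ec ((q j).1 v)) * (∫ ξ : Fin p.natDegree → V, ∏ j, ec ((q j).1 (xo β ξ ((j : ℕ) : ℤ))) ∂η) *
        ∏ j, (Real.exp (-(vv ω R X (q j).2) / 2) : ℂ) := by
    rw [mul_zero, zero_add, ← integral_const_mul, ← integral_mul_const]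
    unfold LamH
    refine integral_congr_ae (Eventually.of_forall fun ξ => ?_)
    simp only [int_EW h]
    rw [Finset.prod_mul_distrib, ← Finset.prod_mul_distrib (f := fun j => ec ((q j).1 v))]
    congr 1
    refine Finset.prod_congr rfl fun j _ => ?_
    rw [map_add, ec_add]
  show Tendsto _ _ (𝓝 (LamH η β (fun j v => ∫ w, EW R X (q j) (v, w) ∂ω) v))
  rw [hL]
  refine ((hx.const_mul (∏ j, ec ((q j).1 v))).add ((h3.const_mul (∏ j, ec ((q j).1 v))).mul_const
    (∏ j, (Real.exp (-(vv ω R X (q j).2) / 2) : ℂ)))).congr (fun N => ?_)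
  rw [← mul_div_assoc, ← mul_div_assoc, div_mul_eq_mul_div, ← add_div, Finset.mul_sum, Finset.mul_sum,
    Finset.sum_mul, ← Finset.sum_add_distrib]
  congr 1
  refine Finset.sum_congr rfl fun n _ => ?_
  have h6 : ∏ j : Fin (k + 1), ec ((q j).1 (xo β ((una β)^[n] ξ0) ((j : ℕ) : ℤ))) =
      ec (∑ j : Fin (k + 1), p.eval ((n : ℤ) + (j : ℕ)) • (q j).1 α) := by
    rw [ec_sum]
    refine Finset.prod_congr rfl fun j _ => ?_
    rw [hξ n j, map_zsmul]
  have h4 : ∏ j, ec ((q j).1 (v + p.eval ((n : ℤ) + (j : ℕ)) • α)) =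
      (∏ j, ec ((q j).1 v)) * ec (∑ j : Fin (k + 1), p.eval ((n : ℤ) + (j : ℕ)) • (q j).1 α) := by
    rw [ec_sum, ← Finset.prod_mul_distrib]
    refine Finset.prod_congr rfl fun j _ => ?_
    rw [map_add, map_zsmul, ec_add]
  have h5 : ∏ j, EW R X (q j) (pw ((rotV α).prodCongr R) (p.eval ((n : ℤ) + (j : ℕ))) (v, w)) =
      (∏ j, ec ((q j).1 (v + p.eval ((n : ℤ) + (j : ℕ)) • α))) *
        ei (∑ j, LF R X (q j).2 (pw R (p.eval ((n : ℤ) + (j : ℕ))) w)) := by
    rw [ei_sum, ← Finset.prod_mul_distrib]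
    refine Finset.prod_congr rfl fun j _ => ?_
    rw [pw_prod, pw_rot]
    rfl
  rw [h5, h4, h6]
  ring
-- END to1

-- BEGIN to2
private theorem to2_xo {d : ℕ} (β : V) (j : ℤ) : Measurable fun ξ : Fin d → V => xo β ξ j := by
  have h : Continuous fun ξ : Fin d → V => xo β ξ j := by
    unfold xo
    exact (continuous_finsetSum _ fun i _ => (continuous_apply i).zsmul _).add continuous_const
  exact h.measurable

/-- ROW to2. Copy of `trig_lim` (Kg.lean) with `trig_one_h`. -/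
theorem trig_lim_h (m : Measure V) [IsProbabilityMeasure m] (α : V)
    {ω : Measure W} {R : W ≃ᵐ W} {X : ℕ → W → ℝ} (h : GSys ω R X) (p : ℤ[X]) (hp : 2 ≤ p.natDegree)
    (β : V) (ξ0 : Fin p.natDegree → V) (hξ : Base p α β ξ0) (η : Measure (Fin p.natDegree → V))
    [IsProbabilityMeasure η] (hη : Gen β ξ0 η) (k : ℕ)
    (s : Fin (k + 1) → Finset ((V →ₜ+ UnitAddCircle) × ((ℕ × ℤ) →₀ ℝ)))
    (b : Fin (k + 1) → (V →ₜ+ UnitAddCircle) × ((ℕ × ℤ) →₀ ℝ) → ℂ) :
    ∀ᵐ x ∂(m.prod ω), Tendsto (fun N : ℕ => (∑ n ∈ range N,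
      ∏ j, TPl R X (s j) (b j) (pw ((rotV α).prodCongr R) (p.eval ((n : ℤ) + (j : ℕ))) x)) / (N : ℂ)) atTop
      (𝓝 (LamH η β (fun j v => ∫ w, TPl R X (s j) (b j) (v, w) ∂ω) x.1)) := by
  classical
  have : IsProbabilityMeasure ω := h.gauss.isProbabilityMeasure
  have hall : ∀ᵐ x ∂(m.prod ω), ∀ φ ∈ Fintype.piFinset s, Tendsto (fun N : ℕ => (∑ n ∈ range N,
      ∏ j, EW R X (φ j) (pw ((rotV α).prodCongr R) (p.eval ((n : ℤ) + (j : ℕ))) x)) / (N : ℂ)) atTop
      (𝓝 (LamH η β (fun j v => ∫ w, EW R X (φ j) (v, w) ∂ω) x.1)) := by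
    rw [Filter.eventually_all_finset]
    intro φ _
    exact trig_one_h m α h p hp β ξ0 hξ η hη k φ
  have hint : ∀ (j : Fin (k + 1)) (v : V), ∫ w, TPl R X (s j) (b j) (v, w) ∂ω =
      ∑ q ∈ s j, b j q * ∫ w, EW R X q (v, w) ∂ω := by
    intro j v
    unfold TPl
    rw [integral_finsetSum]
    · refine Finset.sum_congr rfl fun q _ => ?_
      rw [integral_const_mul]
    · intro q _
      refine Integrable.const_mul (Integrable.of_bound
        ((EW_meas h q).comp measurable_prodMk_left).aestronglyMeasurable 1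
        (Eventually.of_forall fun w => (norm_EW R X q (v, w)).le)) _
  have hIm : ∀ q : (V →ₜ+ UnitAddCircle) × ((ℕ × ℤ) →₀ ℝ),
      Measurable (fun v : V => ∫ w, EW R X q (v, w) ∂ω) := by
    intro q
    simp only [int_EW h q]
    exact ((ec_cont.comp q.1.continuous_toFun).measurable).mul_const _
  have hIn : ∀ (q : (V →ₜ+ UnitAddCircle) × ((ℕ × ℤ) →₀ ℝ)) (v : V),
      ‖∫ w, EW R X q (v, w) ∂ω‖ ≤ 1 := by
    intro q v
    refine (norm_integral_le_integral_norm _).trans ?_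
    simp [norm_EW]
  have hL : ∀ v0 : V, LamH η β (fun j v => ∫ w, TPl R X (s j) (b j) (v, w) ∂ω) v0 =
      ∑ φ ∈ Fintype.piFinset s, (∏ j, b j (φ j)) *
        LamH η β (fun j v => ∫ w, EW R X (φ j) (v, w) ∂ω) v0 := by
    intro v0
    unfold LamH
    simp only [hint]
    have h3 : ∀ ξ : Fin p.natDegree → V, ∏ j : Fin (k + 1), ∑ q ∈ s j, b j q *
        ∫ w, EW R X q (v0 + xo β ξ ((j : ℕ) : ℤ), w) ∂ω =
        ∑ φ ∈ Fintype.piFinset s, (∏ j, b j (φ j)) *
          ∏ j : Fin (k + 1), ∫ w, EW R X (φ j) (v0 + xo β ξ ((j : ℕ) : ℤ), w) ∂ω := by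
      intro ξ
      rw [Finset.prod_univ_sum]
      refine Finset.sum_congr rfl fun φ _ => ?_
      rw [Finset.prod_mul_distrib]
    simp only [h3]
    rw [integral_finsetSum]
    · refine Finset.sum_congr rfl fun φ _ => ?_
      rw [integral_const_mul]
    · intro φ _
      refine Integrable.const_mul (Integrable.of_bound (Measurable.aestronglyMeasurable
        (Finset.measurable_prod _ fun j _ =>
          (hIm (φ j)).comp ((to2_xo β ((j : ℕ) : ℤ)).const_add v0))) 1
        (Eventually.of_forall fun ξ => ?_)) _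
      rw [norm_prod]
      exact Finset.prod_le_one (fun _ _ => norm_nonneg _) fun j _ => hIn _ _
  filter_upwards [hall] with x hx
  have h2 : ∀ N : ℕ, (∑ n ∈ range N,
        ∏ j, TPl R X (s j) (b j) (pw ((rotV α).prodCongr R) (p.eval ((n : ℤ) + (j : ℕ))) x)) /
          (N : ℂ) =
      ∑ φ ∈ Fintype.piFinset s, (∏ j, b j (φ j)) * ((∑ n ∈ range N,
        ∏ j, EW R X (φ j) (pw ((rotV α).prodCongr R) (p.eval ((n : ℤ) + (j : ℕ))) x)) /
          (N : ℂ)) := by
    intro N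
    have h3 : ∀ n : ℕ, ∏ j : Fin (k + 1), TPl R X (s j) (b j)
        (pw ((rotV α).prodCongr R) (p.eval ((n : ℤ) + (j : ℕ))) x) =
        ∑ φ ∈ Fintype.piFinset s, (∏ j, b j (φ j)) *
          ∏ j, EW R X (φ j) (pw ((rotV α).prodCongr R) (p.eval ((n : ℤ) + (j : ℕ))) x) := by
      intro n
      unfold TPl
      rw [Finset.prod_univ_sum]
      refine Finset.sum_congr rfl fun φ _ => ?_
      rw [Finset.prod_mul_distrib]
    simp only [h3]
    rw [Finset.sum_comm, Finset.sum_div]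
    refine Finset.sum_congr rfl fun φ _ => ?_
    rw [← Finset.mul_sum, mul_div_assoc]
  simp only [h2]
  rw [hL]
  exact tendsto_finsetSum _ fun φ hφ => (hx φ hφ).const_mul _
-- END to2

-- BEGIN lm
private theorem lm_jm {d : ℕ} (β : V) (j : ℤ) (F : V → ℂ) (hF : Measurable F) :
    Measurable fun z : V × (Fin d → V) => F (z.1 + xo β z.2 j) := by
  have h1 : Continuous fun ξ : Fin d → V => xo β ξ j := by
    unfold xo
    refine Continuous.add ?_ continuous_const
    exact continuous_finsetSum _ fun i _ => (continuous_apply i).zsmul _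
  have h2 : Measurable fun z : V × (Fin d → V) => xo β z.2 j := h1.measurable.comp measurable_snd
  exact hF.comp (measurable_fst.add h2)

/-- ROW lm. Measurable in `v`: `StronglyMeasurable.integral_prod_right'` for the jointly measurable integrand (`xo` is continuous). -/
theorem LamH_meas {d : ℕ} (η : Measure (Fin d → V)) [IsProbabilityMeasure η] (β : V) {k : ℕ}
    (f : Fin (k + 1) → V → ℂ) (hf : ∀ j, Measurable (f j)) : Measurable (LamH η β f) := by
  have h1 : Measurable fun z : V × (Fin d → V) => ∏ j, f j (z.1 + xo β z.2 ((j : ℕ) : ℤ)) :=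
    Finset.measurable_prod _ fun j _ => lm_jm β ((j : ℕ) : ℤ) (f j) (hf j)
  exact (h1.stronglyMeasurable.integral_prod_right' (ν := η)).measurable

theorem LamH_bd {d : ℕ} (η : Measure (Fin d → V)) [IsProbabilityMeasure η] (β : V) {k : ℕ}
    (f : Fin (k + 1) → V → ℂ) (B : ℝ) (hB : ∀ j v, ‖f j v‖ ≤ B) (v : V) :
    ‖LamH η β f v‖ ≤ B ^ (k + 1) := by
  unfold LamH
  have h1 : ∀ᵐ ξ ∂η, ‖∏ j, f j (v + xo β ξ ((j : ℕ) : ℤ))‖ ≤ B ^ (k + 1) := by
    refine Eventually.of_forall fun ξ => ?_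
    rw [norm_prod]
    calc ∏ j, ‖f j (v + xo β ξ ((j : ℕ) : ℤ))‖ ≤ ∏ _j : Fin (k + 1), B :=
          Finset.prod_le_prod (fun _ _ => norm_nonneg _) fun j _ => hB j _
      _ = B ^ (k + 1) := by rw [Finset.prod_const, Finset.card_univ, Fintype.card_fin]
  have h2 := norm_integral_le_of_norm_le_const h1
  simpa using h2
-- END lm

-- BEGIN l2
private theorem l2_xo {d : ℕ} (β : V) (j : ℤ) : Measurable fun ξ : Fin d → V => xo β ξ j := by
  have h1 : Continuous fun ξ : Fin d → V => xo β ξ j := by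
    unfold xo
    refine Continuous.add ?_ continuous_const
    exact continuous_finsetSum _ fun i _ => (continuous_apply i).zsmul _
  exact h1.measurable

private theorem l2_jm {d : ℕ} (β : V) (j : ℤ) (F : V → ℝ) (hF : Measurable F) :
    Measurable fun z : V × (Fin d → V) => F (z.1 + xo β z.2 j) :=
  hF.comp (measurable_fst.add ((l2_xo β j).comp measurable_snd))

private theorem l2_cs {Ω : Type*} [MeasurableSpace Ω] (η : Measure Ω) [IsProbabilityMeasure η] (u : Ω → ℝ)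
    (hu : Measurable u) (C : ℝ) (hC : ∀ x, ‖u x‖ ≤ C) : (∫ x, u x ∂η) ^ 2 ≤ ∫ x, u x ^ 2 ∂η := by
  have i1 : Integrable u η := Integrable.of_bound hu.aestronglyMeasurable C (Eventually.of_forall hC)
  have i2 : Integrable (fun x => u x ^ 2) η := by
    refine Integrable.of_bound (hu.pow_const 2).aestronglyMeasurable (C ^ 2) (Eventually.of_forall fun x => ?_)
    rw [norm_pow]
    exact pow_le_pow_left₀ (norm_nonneg _) (hC x) 2
  obtain ⟨c, hc⟩ : ∃ c, c = ∫ x, u x ∂η := ⟨_, rfl⟩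
  have h1 : 0 ≤ ∫ x, (u x - c) ^ 2 ∂η := integral_nonneg fun x => sq_nonneg _
  have h2 : ∫ x, (u x - c) ^ 2 ∂η = ∫ x, u x ^ 2 ∂η - 2 * c * (∫ x, u x ∂η) + c ^ 2 := by
    have e : ∀ x, (u x - c) ^ 2 = u x ^ 2 - 2 * c * u x + c ^ 2 := fun x => by ring
    simp only [e]
    have i3 : Integrable (fun x => u x ^ 2 - 2 * c * u x) η := i2.sub (i1.const_mul _)
    rw [integral_add i3 (integrable_const _), integral_sub i2 (i1.const_mul _), integral_const_mul]
    simp
  rw [h2, ← hc] at h1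
  rw [← hc]
  linarith

/-- ROW l2. THE L^2 BOUND. As in `Lam_sub` (Kg.lean) for every `v`: `‖LamH f v - LamH g v‖ ≤ H v`, `H v = ∑ j, A j * ∫ ξ, ‖f j - g j‖ (v + xo β ξ j) ∂η`,
`A j = (∏ over i < j of B' i) * (∏ over i > j of B i)`; Cauchy-Schwarz for the sum of `k + 1` terms and for `∫ dη`, and
`∫ v, ‖f j - g j‖ ^ 2 (v + x) ∂m = ∫ ‖f j - g j‖ ^ 2 ∂m` for every `x` (Haar), Fubini. -/
theorem LamH_l2 (m : Measure V) [m.IsAddHaarMeasure] [IsProbabilityMeasure m] {d : ℕ}
    (η : Measure (Fin d → V)) [IsProbabilityMeasure η] (β : V) {k : ℕ} (f g : Fin (k + 1) → V → ℂ)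
    (hf : ∀ j, Measurable (f j)) (hg : ∀ j, Measurable (g j)) (B B' : Fin (k + 1) → ℝ)
    (hB : ∀ j v, ‖f j v‖ ≤ B j) (hB' : ∀ j v, ‖g j v‖ ≤ B' j) :
    ∃ H : V → ℝ, Measurable H ∧ (∀ v, 0 ≤ H v) ∧ Integrable (fun v => H v ^ 2) m ∧
      ∫ v, H v ^ 2 ∂m ≤ ((k : ℝ) + 1) * ∑ j : Fin (k + 1),
        ((∏ i ∈ univ.filter (· < j), B' i) * (∏ i ∈ univ.filter (j < ·), B i)) ^ 2 *
          ∫ v, ‖f j v - g j v‖ ^ 2 ∂m ∧
      ∀ v, ‖LamH η β f v - LamH η β g v‖ ≤ H v := by
  classical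
  have hB0 : ∀ i, 0 ≤ B i := fun i => (norm_nonneg _).trans (hB i 0)
  have hB'0 : ∀ i, 0 ≤ B' i := fun i => (norm_nonneg _).trans (hB' i 0)
  obtain ⟨A, hA⟩ : ∃ A : Fin (k + 1) → ℝ, A = fun j => (∏ i ∈ univ.filter (· < j), B' i) *
    (∏ i ∈ univ.filter (j < ·), B i) := ⟨_, rfl⟩
  have hA0 : ∀ j, 0 ≤ A j := fun j => by
    rw [hA]
    exact mul_nonneg (Finset.prod_nonneg fun i _ => hB'0 i) (Finset.prod_nonneg fun i _ => hB0 i)
  have hmx : ∀ j : ℤ, Measurable (fun ξ : Fin d → V => xo β ξ j) := fun j => l2_xo β j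
  obtain ⟨D, hD⟩ : ∃ D : Fin (k + 1) → V → ℝ, D = fun j v => ‖f j v - g j v‖ := ⟨_, rfl⟩
  have hDm : ∀ j, Measurable (D j) := fun j => by
    rw [hD]
    exact ((hf j).sub (hg j)).norm
  have hD0 : ∀ j v, 0 ≤ D j v := fun j v => by
    rw [hD]
    exact norm_nonneg _
  have hDb : ∀ j v, ‖D j v‖ ≤ B j + B' j := fun j v => by
    rw [hD]
    simp only [norm_norm]
    exact (norm_sub_le _ _).trans (add_le_add (hB j _) (hB' j _))
  obtain ⟨h, hh⟩ : ∃ h : Fin (k + 1) → V → ℝ, h = fun j v => ∫ ξ, D j (v + xo β ξ ((j : ℕ) : ℤ)) ∂η :=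
    ⟨_, rfl⟩
  have hhm : ∀ j, Measurable (h j) := fun j => by
    rw [hh]
    exact ((l2_jm β ((j : ℕ) : ℤ) (D j) (hDm j)).stronglyMeasurable.integral_prod_right' (ν := η)).measurable
  have hh0 : ∀ j v, 0 ≤ h j v := fun j v => by
    rw [hh]
    exact integral_nonneg fun ξ => hD0 j _
  have hhb : ∀ j v, h j v ≤ B j + B' j := fun j v => by
    have h2 := norm_integral_le_of_norm_le_const (μ := η) (C := B j + B' j)
      (f := fun ξ : Fin d → V => D j (v + xo β ξ ((j : ℕ) : ℤ))) (Eventually.of_forall fun ξ => hDb j _)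
    rw [hh]
    refine (le_abs_self _).trans ?_
    simpa using h2
  have hHm : Measurable fun v => ∑ j, A j * h j v :=
    Finset.measurable_sum _ fun j _ => (hhm j).const_mul _
  have hHb : ∀ v, ‖∑ j, A j * h j v‖ ≤ ∑ j, A j * (B j + B' j) := fun v => by
    rw [Real.norm_of_nonneg (Finset.sum_nonneg fun j _ => mul_nonneg (hA0 j) (hh0 j v))]
    exact Finset.sum_le_sum fun j _ => mul_le_mul_of_nonneg_left (hhb j v) (hA0 j)
  have hHi : Integrable (fun v => (∑ j, A j * h j v) ^ 2) m := by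
    refine Integrable.of_bound (hHm.pow_const 2).aestronglyMeasurable ((∑ j, A j * (B j + B' j)) ^ 2)
      (Eventually.of_forall fun v => ?_)
    rw [norm_pow]
    exact pow_le_pow_left₀ (norm_nonneg _) (hHb v) 2
  refine ⟨fun v => ∑ j, A j * h j v, hHm,
    fun v => Finset.sum_nonneg fun j _ => mul_nonneg (hA0 j) (hh0 j v), hHi, ?_, ?_⟩
  · obtain ⟨E, hE⟩ : ∃ E : Fin (k + 1) → V → ℝ,
        E = fun j v => ∫ ξ, D j (v + xo β ξ ((j : ℕ) : ℤ)) ^ 2 ∂η := ⟨_, rfl⟩
    have hEm : ∀ j, Measurable (E j) := fun j => by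
      rw [hE]
      exact ((l2_jm β ((j : ℕ) : ℤ) (fun v => D j v ^ 2)
        ((hDm j).pow_const 2)).stronglyMeasurable.integral_prod_right' (ν := η)).measurable
    have hD2 : ∀ j v, ‖D j v ^ 2‖ ≤ (B j + B' j) ^ 2 := fun j v => by
      rw [norm_pow]
      exact pow_le_pow_left₀ (norm_nonneg _) (hDb j v) 2
    have hEb : ∀ j v, ‖E j v‖ ≤ (B j + B' j) ^ 2 := fun j v => by
      have h2 := norm_integral_le_of_norm_le_const (μ := η) (C := (B j + B' j) ^ 2)
        (f := fun ξ : Fin d → V => D j (v + xo β ξ ((j : ℕ) : ℤ)) ^ 2) (Eventually.of_forall fun ξ => hD2 j _)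
      rw [hE]
      simpa using h2
    have hEi : ∀ j, Integrable (E j) m := fun j =>
      Integrable.of_bound (hEm j).aestronglyMeasurable _ (Eventually.of_forall (hEb j))
    have hEint : ∀ j, ∫ v, E j v ∂m = ∫ v, D j v ^ 2 ∂m := fun j => by
      rw [hE]
      show ∫ v, ∫ ξ, D j (v + xo β ξ ((j : ℕ) : ℤ)) ^ 2 ∂η ∂m = _
      rw [integral_integral_swap]
      · have e : ∀ ξ : Fin d → V, ∫ v, D j (v + xo β ξ ((j : ℕ) : ℤ)) ^ 2 ∂m = ∫ v, D j v ^ 2 ∂m :=
          fun ξ => integral_add_right_eq_self (fun v => D j v ^ 2) (xo β ξ ((j : ℕ) : ℤ))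
        simp only [e]
        simp
      · refine Integrable.of_bound ?_ ((B j + B' j) ^ 2) (Eventually.of_forall fun z => hD2 j _)
        exact (l2_jm β ((j : ℕ) : ℤ) (fun v => D j v ^ 2) ((hDm j).pow_const 2)).aestronglyMeasurable
    have hcs : ∀ j v, h j v ^ 2 ≤ E j v := fun j v => by
      rw [hh, hE]
      exact l2_cs η (fun ξ => D j (v + xo β ξ ((j : ℕ) : ℤ)))
        ((hDm j).comp (measurable_const.add (hmx _))) (B j + B' j) (fun ξ => hDb j _)
    have hpt : ∀ v, (∑ j, A j * h j v) ^ 2 ≤ ((k : ℝ) + 1) * ∑ j, A j ^ 2 * E j v := fun v => by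
      refine (sq_sum_le_card_mul_sum_sq (s := (univ : Finset (Fin (k + 1))))
        (f := fun j => A j * h j v)).trans ?_
      rw [Finset.card_univ, Fintype.card_fin]
      push_cast
      refine mul_le_mul_of_nonneg_left (Finset.sum_le_sum fun j _ => ?_) (by positivity)
      rw [mul_pow]
      exact mul_le_mul_of_nonneg_left (hcs j v) (sq_nonneg _)
    calc ∫ v, (∑ j, A j * h j v) ^ 2 ∂m ≤ ∫ v, ((k : ℝ) + 1) * ∑ j, A j ^ 2 * E j v ∂m :=
          integral_mono hHi (Integrable.const_mul (integrable_finsetSum _ fun j _ =>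
            (hEi j).const_mul _) _) hpt
      _ = ((k : ℝ) + 1) * ∑ j, A j ^ 2 * ∫ v, D j v ^ 2 ∂m := by
          rw [integral_const_mul, integral_finsetSum _ fun j _ => (hEi j).const_mul _]
          congr 1
          refine Finset.sum_congr rfl fun j _ => ?_
          rw [integral_const_mul, hEint j]
      _ = _ := by rw [hA, hD]
  · intro v
    have hpt : ∀ ξ : Fin d → V, ‖∏ j, f j (v + xo β ξ ((j : ℕ) : ℤ)) - ∏ j, g j (v + xo β ξ ((j : ℕ) : ℤ))‖ ≤
        ∑ j, A j * D j (v + xo β ξ ((j : ℕ) : ℤ)) := by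
      intro ξ
      have h1 := Finset.prod_sub_ordered (univ : Finset (Fin (k + 1)))
        (fun j => f j (v + xo β ξ ((j : ℕ) : ℤ)))
        (fun j => f j (v + xo β ξ ((j : ℕ) : ℤ)) - g j (v + xo β ξ ((j : ℕ) : ℤ)))
      simp only [sub_sub_cancel] at h1
      rw [h1, sub_sub_cancel]
      refine (norm_sum_le _ _).trans (Finset.sum_le_sum fun j _ => ?_)
      rw [norm_mul, norm_mul, mul_assoc, mul_comm, hA, hD]
      refine mul_le_mul_of_nonneg_right ?_ (norm_nonneg _)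
      rw [norm_prod, norm_prod]
      exact mul_le_mul (Finset.prod_le_prod (fun i _ => norm_nonneg _) fun i _ => hB' i _)
        (Finset.prod_le_prod (fun i _ => norm_nonneg _) fun i _ => hB i _)
        (Finset.prod_nonneg fun i _ => norm_nonneg _) (Finset.prod_nonneg fun i _ => hB'0 i)
    have hif : Integrable (fun ξ : Fin d → V => ∏ j, f j (v + xo β ξ ((j : ℕ) : ℤ))) η := by
      refine Integrable.of_bound (Finset.measurable_prod _ fun j _ =>
        (hf j).comp (measurable_const.add (hmx _))).aestronglyMeasurable (∏ j, B j) (Eventually.of_forall fun ξ => ?_)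
      rw [norm_prod]
      exact Finset.prod_le_prod (fun i _ => norm_nonneg _) fun i _ => hB i _
    have hig : Integrable (fun ξ : Fin d → V => ∏ j, g j (v + xo β ξ ((j : ℕ) : ℤ))) η := by
      refine Integrable.of_bound (Finset.measurable_prod _ fun j _ =>
        (hg j).comp (measurable_const.add (hmx _))).aestronglyMeasurable (∏ j, B' j) (Eventually.of_forall fun ξ => ?_)
      rw [norm_prod]
      exact Finset.prod_le_prod (fun i _ => norm_nonneg _) fun i _ => hB' i _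
    have hij : ∀ j : Fin (k + 1), Integrable (fun ξ : Fin d → V =>
        A j * D j (v + xo β ξ ((j : ℕ) : ℤ))) η := by
      intro j
      refine Integrable.const_mul ?_ _
      exact Integrable.of_bound ((hDm j).comp (measurable_const.add (hmx _))).aestronglyMeasurable (B j + B' j)
        (Eventually.of_forall fun ξ => hDb j _)
    unfold LamH
    rw [← integral_sub hif hig]
    calc ‖∫ ξ : Fin d → V, (∏ j, f j (v + xo β ξ ((j : ℕ) : ℤ)) - ∏ j, g j (v + xo β ξ ((j : ℕ) : ℤ))) ∂η‖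
        ≤ ∫ ξ : Fin d → V, ‖∏ j, f j (v + xo β ξ ((j : ℕ) : ℤ)) - ∏ j, g j (v + xo β ξ ((j : ℕ) : ℤ))‖ ∂η :=
          norm_integral_le_integral_norm _
      _ ≤ ∫ ξ : Fin d → V, ∑ j, A j * D j (v + xo β ξ ((j : ℕ) : ℤ)) ∂η :=
          integral_mono (hif.sub hig).norm (integrable_finsetSum _ fun j _ => hij j) hpt
      _ = ∑ j, ∫ ξ : Fin d → V, A j * D j (v + xo β ξ ((j : ℕ) : ℤ)) ∂η :=
          integral_finsetSum _ fun j _ => hij j
      _ = ∑ j, A j * h j v := by
          refine Finset.sum_congr rfl fun j _ => ?_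
          rw [integral_const_mul, hh]
-- END l2

-- BEGIN ckh
/-- Cauchy-Schwarz on a probability space. -/
private theorem ckh_jensen {Ω : Type*} [MeasurableSpace Ω] {P : Measure Ω} [IsProbabilityMeasure P]
    (u : Ω → ℂ) (hu : Measurable u) (K : ℝ) (hK : ∀ w, ‖u w‖ ≤ K) :
    (∫ w, ‖u w‖ ∂P) ^ 2 ≤ ∫ w, ‖u w‖ ^ 2 ∂P := by
  have h1 : Integrable (fun w => ‖u w‖) P := by
    refine Integrable.of_bound hu.norm.aestronglyMeasurable K (Eventually.of_forall fun w => ?_)
    rw [norm_norm]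
    exact hK w
  have h2 : Integrable (fun w => ‖u w‖ ^ 2) P := by
    refine Integrable.of_bound (hu.norm.pow_const 2).aestronglyMeasurable (K ^ 2)
      (Eventually.of_forall fun w => ?_)
    rw [norm_pow, norm_norm]
    exact pow_le_pow_left₀ (norm_nonneg _) (hK w) 2
  obtain ⟨M, hM⟩ : ∃ M : ℝ, M = ∫ w, ‖u w‖ ∂P := ⟨_, rfl⟩
  have h4 : 0 ≤ ∫ w, (‖u w‖ - M) ^ 2 ∂P := integral_nonneg fun w => sq_nonneg _
  have h5 : ∫ w, (‖u w‖ - M) ^ 2 ∂P = ∫ w, ‖u w‖ ^ 2 ∂P - M ^ 2 := by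
    have h6 : ∀ w, (‖u w‖ - M) ^ 2 = (‖u w‖ ^ 2 - 2 * M * ‖u w‖) + M ^ 2 := fun w => by ring
    have h8 : Integrable (fun w => ‖u w‖ ^ 2 - 2 * M * ‖u w‖) P := h2.sub (h1.const_mul _)
    simp only [h6]
    rw [integral_add h8 (integrable_const _), integral_sub h2 (h1.const_mul _),
      integral_const_mul, ← hM, integral_const, probReal_univ, one_smul]
    ring
  rw [← hM]
  linarith

/-- The marginals on `V`, in `L²`. -/
private theorem ckh_marg {A B0 : Type*} [MeasurableSpace A] [MeasurableSpace B0] (m : Measure A)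
    [IsProbabilityMeasure m] {ω : Measure B0} [IsProbabilityMeasure ω] (f g : A × B0 → ℂ)
    (hf : Measurable f) (hg : Measurable g) (B B' : ℝ)
    (hB : ∀ x, ‖f x‖ ≤ B) (hB' : ∀ x, ‖g x‖ ≤ B') :
    ∫ v, ‖(∫ w, f (v, w) ∂ω) - ∫ w, g (v, w) ∂ω‖ ^ 2 ∂m ≤
      ∫ x, ‖f x - g x‖ ^ 2 ∂(m.prod ω) := by
  have hd : Measurable fun x : A × B0 => f x - g x := hf.sub hg
  have hdb : ∀ x, ‖f x - g x‖ ≤ B + B' := fun x =>
    (norm_sub_le _ _).trans (add_le_add (hB x) (hB' x))
  have h1 : ∀ v, ‖(∫ w, f (v, w) ∂ω) - ∫ w, g (v, w) ∂ω‖ ^ 2 ≤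
      ∫ w, ‖f (v, w) - g (v, w)‖ ^ 2 ∂ω := by
    intro v
    have i1 : Integrable (fun w => f (v, w)) ω :=
      Integrable.of_bound (hf.comp measurable_prodMk_left).aestronglyMeasurable B
        (Eventually.of_forall fun w => hB (v, w))
    have i2 : Integrable (fun w => g (v, w)) ω :=
      Integrable.of_bound (hg.comp measurable_prodMk_left).aestronglyMeasurable B'
        (Eventually.of_forall fun w => hB' (v, w))
    rw [← integral_sub i1 i2]
    refine (pow_le_pow_left₀ (norm_nonneg _) (norm_integral_le_integral_norm _) 2).trans ?_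
    exact ckh_jensen (fun w => f (v, w) - g (v, w)) (hd.comp measurable_prodMk_left) (B + B')
      (fun w => hdb (v, w))
  have hI : Integrable (fun x : A × B0 => ‖f x - g x‖ ^ 2) (m.prod ω) := by
    refine Integrable.of_bound (hd.norm.pow_const 2).aestronglyMeasurable ((B + B') ^ 2)
      (Eventually.of_forall fun x => ?_)
    rw [norm_pow, norm_norm]
    exact pow_le_pow_left₀ (norm_nonneg _) (hdb x) 2
  rw [integral_prod _ hI]
  exact integral_mono_of_nonneg (Eventually.of_forall fun v => sq_nonneg _)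
    hI.integral_prod_left (Eventually.of_forall h1)

/-- The maximal functions on `V × W` and on `V` together. -/
private theorem ckh_sq {A B0 : Type*} [MeasurableSpace A] [MeasurableSpace B0] (m : Measure A)
    [IsProbabilityMeasure m] {ω : Measure B0} [IsProbabilityMeasure ω] (H : A × B0 → ℝ) (H2 : A → ℝ)
    (hm : Measurable H) (hm2 : Measurable H2) (hi : Integrable (fun x => H x ^ 2) (m.prod ω))
    (hi2 : Integrable (fun v => H2 v ^ 2) m) :
    Integrable (fun x : A × B0 => (H x + H2 x.1) ^ 2) (m.prod ω) ∧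
      ∫ x : A × B0, (H x + H2 x.1) ^ 2 ∂(m.prod ω) ≤
        2 * ∫ x, H x ^ 2 ∂(m.prod ω) + 2 * ∫ v, H2 v ^ 2 ∂m := by
  have hmp : MeasurePreserving (Prod.fst : A × B0 → A) (m.prod ω) m := measurePreserving_fst
  have hi3 : Integrable (fun x : A × B0 => H2 x.1 ^ 2) (m.prod ω) :=
    hmp.integrable_comp_of_integrable hi2
  have he : ∫ x : A × B0, H2 x.1 ^ 2 ∂(m.prod ω) = ∫ v, H2 v ^ 2 ∂m := by
    have h3 := integral_map (μ := m.prod ω) (f := fun v : A => H2 v ^ 2)
      hmp.measurable.aemeasurable (hm2.pow_const 2).aestronglyMeasurable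
    rw [hmp.map_eq] at h3
    exact h3.symm
  have hle : ∀ x : A × B0, (H x + H2 x.1) ^ 2 ≤ 2 * H x ^ 2 + 2 * H2 x.1 ^ 2 := fun x => by
    nlinarith [sq_nonneg (H x - H2 x.1)]
  have hs : Integrable (fun x : A × B0 => 2 * H x ^ 2 + 2 * H2 x.1 ^ 2) (m.prod ω) :=
    (hi.const_mul 2).add (hi3.const_mul 2)
  have hg : Integrable (fun x : A × B0 => (H x + H2 x.1) ^ 2) (m.prod ω) := by
    refine hs.mono' ((hm.add (hm2.comp measurable_fst)).pow_const 2).aestronglyMeasurable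
      (Eventually.of_forall fun x => ?_)
    rw [Real.norm_eq_abs, abs_of_nonneg (sq_nonneg _)]
    exact hle x
  refine ⟨hg, ?_⟩
  refine (integral_mono hg hs hle).trans (le_of_eq ?_)
  rw [integral_add (hi.const_mul 2) (hi3.const_mul 2), integral_const_mul, integral_const_mul, he]

/-- ROW ckh. ALL BOUNDED FUNCTIONS ON V x W. Copy of `conv_kg` (Kg.lean): `conv_approx` with limit 0 for
`v_N x = A_N x - LamH f~ x.1`, approximants `A'_N x - LamH g~ x.1 → 0` (`trig_lim_h`), `H x = H1 x + H2 x.1`, `H1` from `prod_max`,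
`H2` from `LamH_l2` for `f~ j v = ∫ f j (v, w)`, `g~` (with `ckg_marg` copied: `∫ ‖f~_j - g~_j‖ ^ 2 dm ≤ ∫ ‖f_j - g_j‖ ^ 2`),
`(a + b)^2 ≤ 2 a^2 + 2 b^2`. -/
theorem conv_kh (m : Measure V) [m.IsAddHaarMeasure] [IsProbabilityMeasure m] (hsep : CharSep V) (α : V)
    {ω : Measure W} {R : W ≃ᵐ W} {X : ℕ → W → ℝ} (h : GSys ω R X) (p : ℤ[X]) (hp : 2 ≤ p.natDegree)
    (β : V) (ξ0 : Fin p.natDegree → V) (hξ : Base p α β ξ0) (η : Measure (Fin p.natDegree → V))
    [IsProbabilityMeasure η] (hη : Gen β ξ0 η) (k : ℕ)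
    (f : Fin (k + 1) → V × W → ℂ) (hf : ∀ j, Measurable (f j)) (B : ℝ) (hB : ∀ j x, ‖f j x‖ ≤ B) :
    ∀ᵐ x ∂(m.prod ω), Tendsto (fun N : ℕ => (∑ n ∈ range N,
      ∏ j, f j (pw ((rotV α).prodCongr R) (p.eval ((n : ℤ) + (j : ℕ))) x)) / (N : ℂ)) atTop
      (𝓝 (LamH η β (fun j v => ∫ w, f j (v, w) ∂ω) x.1)) := by
  have : IsProbabilityMeasure ω := h.gauss.isProbabilityMeasure
  obtain ⟨x0⟩ := nonempty_of_isProbabilityMeasure (m.prod ω)
  have hB0 : 0 ≤ B := (norm_nonneg _).trans (hB 0 x0)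
  obtain ⟨K, hK, hmax⟩ := prod_max (W := V × W) p k
  have hmp : MeasurePreserving ((rotV α).prodCongr R) (m.prod ω) (m.prod ω) :=
    (measurePreserving_add_right m α).prod h.erg.toMeasurePreserving
  have hft : ∀ j, Measurable fun v => ∫ w, f j (v, w) ∂ω := fun j =>
    ((hf j).stronglyMeasurable.integral_prod_right').measurable
  have key : ∀ᵐ x ∂(m.prod ω), Tendsto (fun N : ℕ => (∑ n ∈ range N,
      ∏ j, f j (pw ((rotV α).prodCongr R) (p.eval ((n : ℤ) + (j : ℕ))) x)) / (N : ℂ) -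
        LamH η β (fun j v => ∫ w, f j (v, w) ∂ω) x.1) atTop (𝓝 0) := by
    refine conv_approx (m.prod ω) (fun (N : ℕ) (x : V × W) => (∑ n ∈ range N,
      ∏ j, f j (pw ((rotV α).prodCongr R) (p.eval ((n : ℤ) + (j : ℕ))) x)) / (N : ℂ) -
        LamH η β (fun j v => ∫ w, f j (v, w) ∂ω) x.1) 0 (fun N => ?_) (fun ε hε => ?_)
    · refine Measurable.sub ?_ ((LamH_meas η β _ hft).comp measurable_fst)
      refine Measurable.div_const (Finset.measurable_sum _ fun n _ => ?_) _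
      exact Finset.measurable_prod _ fun j _ => (hf j).comp (pw_meas _ _)
    · obtain ⟨τ, hτ⟩ : ∃ τ : ℝ, τ = ε / (2 * (((k : ℝ) + 1) * (K + ((k : ℝ) + 1)))) := ⟨_, rfl⟩
      have hk1 : (0 : ℝ) < (k : ℝ) + 1 := by positivity
      have hτ0 : 0 < τ := by
        rw [hτ]
        positivity
      have hτ1 : 2 * (K * (((k : ℝ) + 1) * τ)) + 2 * (((k : ℝ) + 1) * (((k : ℝ) + 1) * τ)) = ε := by
        have h1 : τ * (2 * (((k : ℝ) + 1) * (K + ((k : ℝ) + 1)))) = ε := by
          rw [hτ]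
          exact div_mul_cancel₀ _ (by positivity)
        rw [← h1]
        ring
      obtain ⟨s, b, hsb⟩ := choice_vw m hsep h k f (fun j => MemLp.of_bound
        (hf j).aestronglyMeasurable B (Eventually.of_forall (hB j))) B τ hτ0 (k + 1)
      obtain ⟨g, hg⟩ : ∃ g : Fin (k + 1) → V × W → ℂ, ∀ j, g j = TPl R X (s j) (b j) :=
        ⟨_, fun j => rfl⟩
      have hgm : ∀ j, Measurable (g j) := by
        intro j
        rw [hg]
        exact TPl_meas h _ _
      have hgb : ∀ j x, ‖g j x‖ ≤ ∑ c ∈ s j, ‖b j c‖ := by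
        intro j x
        rw [hg]
        exact norm_TPl R X _ _ x
      obtain ⟨H, hH1, hH2, hH3, hH4, hH5⟩ := hmax (m.prod ω) ((rotV α).prodCongr R) hmp f g
        (fun _ => B) (fun j => ∑ c ∈ s j, ‖b j c‖) hf hgm hB hgb
      obtain ⟨H', hI1, hI2, hI3, hI4, hI5⟩ := LamH_l2 m η β
        (fun j v => ∫ w, f j (v, w) ∂ω) (fun j v => ∫ w, g j (v, w) ∂ω) hft
        (fun j => ((hgm j).stronglyMeasurable.integral_prod_right').measurable)
        (fun _ => B) (fun j => ∑ c ∈ s j, ‖b j c‖)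
        (fun j v => (norm_integral_le_of_norm_le_const (Eventually.of_forall fun w => hB j (v, w))).trans
          (by rw [probReal_univ, mul_one]))
        (fun j v => (norm_integral_le_of_norm_le_const (Eventually.of_forall fun w => hgb j (v, w))).trans
          (by rw [probReal_univ, mul_one]))
      obtain ⟨hJ1, hJ2⟩ := ckh_sq m H H' hH1 hI1 hH3 hI3
      have hA2 : ∀ j : Fin (k + 1), ((∏ i ∈ univ.filter (· < j), ∑ c ∈ s i, ‖b i c‖) *
          ∏ i ∈ univ.filter (j < ·), B) ^ 2 * ∫ x, ‖f j x - g j x‖ ^ 2 ∂(m.prod ω) ≤ τ := by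
        intro j
        have h1 := hsb j j.2
        rw [← hg] at h1
        exact h1
      have hsum : ∑ j : Fin (k + 1), τ = ((k : ℝ) + 1) * τ := by
        rw [Finset.sum_const, Finset.card_univ, Fintype.card_fin, nsmul_eq_mul]
        push_cast
        ring
      refine ⟨fun N x => (∑ n ∈ range N, ∏ j, g j (pw ((rotV α).prodCongr R)
        (p.eval ((n : ℤ) + (j : ℕ))) x)) / (N : ℂ) -
          LamH η β (fun j v => ∫ w, g j (v, w) ∂ω) x.1, 0, fun x => H x + H' x.1, ?_,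
        hH1.add (hI1.comp measurable_fst), fun x => add_nonneg (hH2 x) (hI2 x.1), hJ1, ?_, ?_,
        Eventually.of_forall fun x N => ?_⟩
      · rw [sub_zero, norm_zero]
        exact hε.le
      · refine hJ2.trans (le_trans ?_ hτ1.le)
        refine add_le_add (mul_le_mul_of_nonneg_left ?_ zero_le_two)
          (mul_le_mul_of_nonneg_left ?_ zero_le_two)
        · refine hH4.trans (mul_le_mul_of_nonneg_left ?_ hK.le)
          rw [← hsum]
          exact Finset.sum_le_sum fun j _ => hA2 j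
        · refine hI4.trans (mul_le_mul_of_nonneg_left ?_ hk1.le)
          rw [← hsum]
          refine Finset.sum_le_sum fun j _ => ?_
          refine (mul_le_mul_of_nonneg_left ?_ (sq_nonneg _)).trans (hA2 j)
          exact ckh_marg m (f j) (g j) (hf j) (hgm j) B _ (hB j) (hgb j)
      · have h1 := trig_lim_h m α h p hp β ξ0 hξ η hη k s b
        simp only [← hg] at h1
        filter_upwards [h1] with x hx
        have h2 := hx.sub_const (LamH η β (fun j v => ∫ w, g j (v, w) ∂ω) x.1)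
        rwa [sub_self] at h2
      · have e1 := hH5 N x
        have e2 := hI5 x.1
        refine le_trans (le_of_eq_of_le ?_ (norm_sub_le
          ((∑ n ∈ range N, ∏ j, f j (pw ((rotV α).prodCongr R) (p.eval ((n : ℤ) + (j : ℕ))) x)) / (N : ℂ)
            - (∑ n ∈ range N, ∏ j, g j (pw ((rotV α).prodCongr R)
              (p.eval ((n : ℤ) + (j : ℕ))) x)) / (N : ℂ))
          (LamH η β (fun j v => ∫ w, f j (v, w) ∂ω) x.1 -
            LamH η β (fun j v => ∫ w, g j (v, w) ∂ω) x.1))) (add_le_add e1 e2)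
        congr 1
        ring
  filter_upwards [key] with x hx
  have h2 := hx.add_const (LamH η β (fun j v => ∫ w, f j (v, w) ∂ω) x.1)
  simpa only [sub_add_cancel, zero_add] using h2
-- END ckh

-- BEGIN sel
private theorem sel_polish (V : Type*) [TopologicalSpace V] [CompactSpace V] [T2Space V]
    [SecondCountableTopology V] : PolishSpace V := by
  have h0 : TopologicalSpace.MetrizableSpace V :=
    TopologicalSpace.metrizableSpace_of_t3_secondCountable V
  let d0 := TopologicalSpace.metrizableSpaceMetric V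
  infer_instance

private theorem sel_cpt {V : Type*} [t : TopologicalSpace V] [PolishSpace V] [mV : MeasurableSpace V]
    [BorelSpace V] (m : Measure V) [IsProbabilityMeasure m] (Λ : V → ℕ → ℂ) (hΛ : Continuous Λ) :
    ∃ U : Set V, MeasurableSet U ∧ m Uᶜ = 0 ∧ MeasurableSet (Λ '' U) := by
  have h1 : ∀ n : ℕ, ∃ K : Set V, IsCompact K ∧ 1 - ((n : ENNReal) + 1)⁻¹ < m K := by
    intro n
    have h2 := innerRegular_isCompact_isClosed_measurableSet_of_finite m
    have h3 : 1 - ((n : ENNReal) + 1)⁻¹ < m Set.univ := by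
      rw [measure_univ]
      refine ENNReal.sub_lt_self ENNReal.one_ne_top one_ne_zero ?_
      exact ENNReal.inv_ne_zero.mpr (by finiteness)
    obtain ⟨K, -, hK, hK2⟩ := h2 MeasurableSet.univ _ h3
    exact ⟨K, hK.1, hK2⟩
  choose K hK hK2 using h1
  refine ⟨⋃ n, K n, MeasurableSet.iUnion fun n => (hK n).measurableSet, ?_, ?_⟩
  · have hU : m (⋃ n, K n) = 1 := by
      refine le_antisymm prob_le_one ?_
      have h4 : ∀ n : ℕ, (1 : ENNReal) - ((n : ENNReal) + 1)⁻¹ ≤ m (⋃ n, K n) := fun n =>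
        (hK2 n).le.trans (measure_mono (Set.subset_iUnion K n))
      have h5 : Tendsto (fun n : ℕ => (1 : ENNReal) - ((n : ENNReal) + 1)⁻¹) atTop (𝓝 (1 - 0)) := by
        refine ENNReal.Tendsto.sub tendsto_const_nhds ?_ (Or.inl ENNReal.one_ne_top)
        have h6 := (ENNReal.tendsto_inv_nat_nhds_zero).comp (tendsto_add_atTop_nat 1)
        refine h6.congr fun n => ?_
        simp
      rw [tsub_zero] at h5
      exact le_of_tendsto' h5 h4
    rw [prob_compl_eq_zero_iff (MeasurableSet.iUnion fun n => (hK n).measurableSet)]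
    exact hU
  · rw [Set.image_iUnion]
    exact MeasurableSet.iUnion fun n => ((hK n).image hΛ).measurableSet

/-- ROW sel. Almost every `z` has a `v` with the same values: `V` is Polish (compact, T2, second countable); `Measurable.exists_continuous`
(Mathlib, Polish) gives a finer Polish topology on `V` for which `Λ : V → (ℕ → ℂ)` is continuous (same Borel sets,
`borel_eq_borel_of_le`); for it `m` is inner regular, so there are compact `K_n` with `m (K_nᶜ) ≤ 1/n`; `Λ '' K_n` is compact, hence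
measurable; `E = ⋃ Λ '' K_n` has `Λ⁻¹ E ⊇ ⋃ K_n`, so `Λ' (π x) ∈ E` for a.e. `x`, so `Λ' z ∈ E` for a.e. `z`. -/
theorem sel_v {Z : Type*} [MeasurableSpace Z] (m : Measure V) [IsProbabilityMeasure m]
    (ω : Measure W) [IsProbabilityMeasure ω] {ζ : Measure Z} {π : V × W → Z}
    (hπ : MeasurePreserving π (m.prod ω) ζ) (Λ : V → ℕ → ℂ) (hΛ : Measurable Λ) (Λ' : Z → ℕ → ℂ)
    (hΛ' : Measurable Λ') (h : ∀ᵐ x ∂(m.prod ω), Λ' (π x) = Λ x.1) : ∀ᵐ z ∂ζ, ∃ v, Λ' z = Λ v := by
  obtain ⟨U, hU, hU0, hE⟩ : ∃ U : Set V, MeasurableSet U ∧ m Uᶜ = 0 ∧ MeasurableSet (Λ '' U) := by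
    have hp : PolishSpace V := sel_polish V
    obtain ⟨t', ht', hc, hp'⟩ := hΛ.exists_continuous
    have hb : @BorelSpace V t' _ := by
      refine @BorelSpace.mk V t' _ ?_
      rw [borel_eq_borel_of_le hp' hp ht']
      exact BorelSpace.measurable_eq
    exact @sel_cpt V t' hp' _ hb m _ Λ hc
  have h1 : ∀ᵐ v ∂m, v ∈ U := by
    rw [ae_iff]
    exact hU0
  have h2 : ∀ᵐ x ∂(m.prod ω), x.1 ∈ U := Measure.quasiMeasurePreserving_fst.ae h1
  have h3 : ∀ᵐ x ∂(m.prod ω), Λ' (π x) ∈ Λ '' U := by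
    filter_upwards [h, h2] with x hx hx2
    rw [hx]
    exact ⟨x.1, hx2, rfl⟩
  have h4 : ∀ᵐ z ∂ζ, Λ' z ∈ Λ '' U := by
    rw [← hπ.map_eq, ae_map_iff hπ.measurable.aemeasurable (hΛ' hE)]
    exact h3
  filter_upwards [h4] with z hz
  obtain ⟨v, -, hv⟩ := hz
  exact ⟨v, hv.symm⟩
-- END sel

end Pool.Agent.GsF
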