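import Pool.Agent.GsK.Kv
import Pool.Agent.GsK.KDefs2

/-!
The law of (Phi (x_j(xi), u_j))_j when xi has an arbitrary T-invariant law eta on V^d.
-/

set_option autoImplicit false

namespace Pool.Agent.GsF

open Finset MeasureTheory Filter Topology ProbabilityTheory Polynomial

variable {V : Type*} [AddCommGroup V] [TopologicalSpace V] [IsTopologicalAddGroup V] [CompactSpace V]
  [T2Space V] [SecondCountableTopology V] [MeasurableSpace V] [BorelSpace V]
variable {W : Type*} [MeasurableSpace W]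

/-- the law of thU, xi of law eta on V^d, the u_j independent of law P -/
noncomputable def muH {V U D : Type*} [AddCommGroup V] [MeasurableSpace V] [MeasurableSpace U]
    [MeasurableSpace D] {d : ℕ} (η : Measure (Fin d → V)) (β : V) (P : Measure U) (Φ : V → U → D) :
    Measure (ℤ → D) :=
  (η.prod (Measure.infinitePi (fun _ : ℤ => P))).map (thU β Φ)

/-- the function Phi translated by v -/
def trV {V U D : Type*} [AddCommGroup V] (Φ : V → U → D) (v : V) : V → U → D := fun x => Φ (v + x)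

theorem muH_prob {D U : Type*} [MeasurableSpace D]
    [MeasureSpace U] [IsProbabilityMeasure (volume : Measure U)] {d : ℕ} (η : Measure (Fin d → V)) [IsProbabilityMeasure η] (β : V)
    (Φ : V → U → D) (hΦ : Measurable (Function.uncurry Φ)) :
    IsProbabilityMeasure (muH η β (volume : Measure U) Φ) := by
  unfold muH thU
  exact Measure.isProbabilityMeasure_map (muU_meas β Φ hΦ).aemeasurable

/-- `xo (T xi) j = xo xi (j + 1)`, `una_mp`, and the shift preserves `infinitePi`. -/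
theorem muH_shift {D U : Type*} [MeasurableSpace D]
    [MeasureSpace U] [IsProbabilityMeasure (volume : Measure U)] {d : ℕ} (η : Measure (Fin d → V))
    [IsProbabilityMeasure η] (hd : 0 < d) (β : V)
    (hT0 : MeasurePreserving (una β : (Fin d → V) → Fin d → V) η η) (Φ : V → U → D)
    (hΦ : Measurable (Function.uncurry Φ)) :
    MeasurePreserving (shD : (ℤ → D) → ℤ → D) (muH η β (volume : Measure U) Φ) (muH η β (volume : Measure U) Φ) := by
  have hs : Measurable (shD : (ℤ → D) → ℤ → D) :=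
    measurable_pi_lambda _ fun j => measurable_pi_apply (j + 1)
  have hT : MeasurePreserving
      (Prod.map (una β : (Fin d → V) → Fin d → V) (fun (u : ℤ → U) (j : ℤ) => u (j + 1)))
      ((η).prod
        (Measure.infinitePi (fun _ : ℤ => (volume : Measure U))))
      ((η).prod
        (Measure.infinitePi (fun _ : ℤ => (volume : Measure U)))) :=
    hT0.prod (mkm_sh volume)
  refine ⟨hs, ?_⟩
  have hf := muU_meas (d := d) β Φ hΦ
  have hcomm : (shD : (ℤ → D) → ℤ → D) ∘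
      (fun (q : (Fin d → V) × (ℤ → U)) (j : ℤ) => Φ (xo β q.1 j) (q.2 j)) =
      (fun (q : (Fin d → V) × (ℤ → U)) (j : ℤ) => Φ (xo β q.1 j) (q.2 j)) ∘
        Prod.map (una β : (Fin d → V) → Fin d → V)
          (fun (u : ℤ → U) (j : ℤ) => u (j + 1)) := by
    funext q j
    show Φ (xo β q.1 (j + 1)) (q.2 (j + 1)) = Φ (xo β (una β q.1) j) (q.2 (j + 1))
    rw [xo_una hd]
  unfold muH thU
  rw [Measure.map_map hs hf, hcomm, ← Measure.map_map hf hT.measurable, hT.map_eq]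

private theorem mkh_iprod {U : Type*} [MeasurableSpace U] (P : Measure U) [IsProbabilityMeasure P] (I : Finset ℤ)
    (G : ℤ → U → ℂ) (hG : ∀ j, Measurable (G j)) :
    ∫ u : ℤ → U, ∏ j ∈ I, G j (u j) ∂(Measure.infinitePi (fun _ : ℤ => P)) =
      ∏ j ∈ I, ∫ x, G j x ∂P := by
  have h1 := Measure.infinitePi_map_restrict (fun _ : ℤ => P) (I := I)
  have h2 : ∫ w : I → U, ∏ i : I, G i (w i) ∂(Measure.pi (fun _ : I => P)) =
      ∏ i : I, ∫ x, G i x ∂P :=
    integral_fintype_prod_eq_prod (μ := fun _ : I => P)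
      (fun (i : I) (x : U) => G i x)
  rw [Finset.prod_coe_sort I (fun j => ∫ x, G j x ∂P)] at h2
  rw [← h2, ← h1, integral_map]
  · refine integral_congr_ae (Filter.Eventually.of_forall fun z => ?_)
    exact (Finset.prod_coe_sort I (fun j => G j (z j))).symm
  · exact (Finset.measurable_restrict I).aemeasurable
  · refine Measurable.aestronglyMeasurable ?_
    exact Finset.measurable_fun_prod _ fun i _ => (hG i).comp (measurable_pi_apply i)

omit [TopologicalSpace V] [IsTopologicalAddGroup V] [CompactSpace V] [T2Space V]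
  [SecondCountableTopology V] [BorelSpace V] in
private theorem mkh_iinner {D U : Type*} [TopologicalSpace D] [MeasurableSpace D] [BorelSpace D]
    [MeasureSpace U] [IsProbabilityMeasure (volume : Measure U)]
    {d : ℕ} (β : V) (ξ : Fin d → V) (Φ : V → U → D)
    (hΦ : Measurable (Function.uncurry Φ)) (K : ℕ) (ψ : Fin (2 * K + 1) → C(D, ℂ)) :
    ∫ u : ℤ → U, ∏ i, ψ i (Φ (xo β ξ (-(K : ℤ) + ((i : ℕ) : ℤ)))
        (u (-(K : ℤ) + ((i : ℕ) : ℤ))))
      ∂(Measure.infinitePi (fun _ : ℤ => (volume : Measure U))) =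
    ∏ i, ∫ x, ψ i (Φ (xo β ξ (-(K : ℤ) + ((i : ℕ) : ℤ))) x) := by
  have hinj : Function.Injective (fun i : Fin (2 * K + 1) => -(K : ℤ) + ((i : ℕ) : ℤ)) := by
    intro a b h
    have h' : -(K : ℤ) + ((a : ℕ) : ℤ) = -(K : ℤ) + ((b : ℕ) : ℤ) := h
    exact Fin.ext (by omega)
  have h1 := mkh_iprod (volume : Measure U) (univ.map ⟨_, hinj⟩)
    (fun j x => (Function.extend (fun i : Fin (2 * K + 1) => -(K : ℤ) + ((i : ℕ) : ℤ)) ψ
      (fun _ => 0) j) (Φ (xo β ξ j) x))
    (fun j => (ContinuousMap.continuous _).measurable.comp hΦ.of_uncurry_left)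
  simp only [Finset.prod_map, Function.Embedding.coeFn_mk, hinj.extend_apply] at h1
  exact h1

/-- ROW mki. Fubini for `q = (xi, u)`, independence of the `u_j` (compare WB1_integral in GsF/Fs.lean), and the shift by `K`: `∫ ∏ f_i (xo xi (-K+i)) =
∫ ∏ f_i (xo (T^K xi) (-K+i)) = ∫ ∏ f_i (xo xi i)` (`xo_iter`, `una_mp`). -/
theorem muH_int {D U : Type*} [TopologicalSpace D] [CompactSpace D] [MeasurableSpace D] [BorelSpace D]
    [MeasureSpace U] [IsProbabilityMeasure (volume : Measure U)]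
    {d : ℕ} (η : Measure (Fin d → V)) [IsProbabilityMeasure η] (hd : 0 < d) (β : V)
    (hT0 : MeasurePreserving (una β : (Fin d → V) → Fin d → V) η η)
    (Φ : V → U → D) (hΦ : Measurable (Function.uncurry Φ)) (K : ℕ)
    (ψ : Fin (2 * K + 1) → C(D, ℂ)) :
    ∫ z, ∏ i, ψ i (z (-(K : ℤ) + ((i : ℕ) : ℤ))) ∂(muH η β (volume : Measure U) Φ) =
      ∫ ξ, ∏ i : Fin (2 * K + 1), (∫ u, ψ i (Φ (xo β ξ ((i : ℕ) : ℤ)) u)) ∂η := by
  have hm := muU_meas (d := d) β Φ hΦ
  have hψ : ∀ i, Measurable (ψ i) := fun i => (ψ i).continuous.measurable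
  have hf : ∀ i, Measurable fun v : V => ∫ x : U, ψ i (Φ v x) := by
    intro i
    have h1 : StronglyMeasurable (Function.uncurry fun (v : V) (x : U) =>
        ψ i (Φ v x)) := ((hψ i).comp hΦ).stronglyMeasurable
    exact (h1.integral_prod_right (ν := (volume : Measure U))).measurable
  have hT := hT0.iterate K
  have hg : Measurable fun ξ : Fin d → V => ∏ i : Fin (2 * K + 1),
      ∫ x : U, ψ i (Φ (xo β ξ (-(K : ℤ) + ((i : ℕ) : ℤ))) x) :=
    Finset.measurable_fun_prod _ fun i _ => (hf i).comp (mkm_xo β _)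
  have hE : Measurable fun z : ℤ → D => ∏ i, ψ i (z (-(K : ℤ) + ((i : ℕ) : ℤ))) :=
    Finset.measurable_fun_prod _ fun i _ => (hψ i).comp (measurable_pi_apply _)
  unfold muH thU
  rw [integral_map hm.aemeasurable hE.aestronglyMeasurable, integral_prod]
  · have h2 : ∀ ξ : Fin d → V, (∫ u : ℤ → U,
        ∏ i, ψ i (Φ (xo β ξ (-(K : ℤ) + ((i : ℕ) : ℤ))) (u (-(K : ℤ) + ((i : ℕ) : ℤ))))
        ∂(Measure.infinitePi (fun _ : ℤ => (volume : Measure U)))) =
        ∏ i, ∫ x, ψ i (Φ (xo β ξ (-(K : ℤ) + ((i : ℕ) : ℤ))) x) :=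
      fun ξ => mkh_iinner β ξ Φ hΦ K ψ
    refine (integral_congr_ae (Filter.Eventually.of_forall h2)).trans ?_
    calc ∫ ξ : Fin d → V, (∏ i : Fin (2 * K + 1),
          (∫ x : U, ψ i (Φ (xo β ξ (-(K : ℤ) + ((i : ℕ) : ℤ))) x)))
            ∂η =
        ∫ ξ : Fin d → V, (∏ i : Fin (2 * K + 1), (∫ x : U,
          ψ i (Φ (xo β ((una β)^[K] ξ) (-(K : ℤ) + ((i : ℕ) : ℤ))) x)))
            ∂η := by
          have h3 := integral_map (μ := η)
            hT.measurable.aemeasurable hg.aestronglyMeasurable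
          rw [hT.map_eq] at h3
          exact h3
      _ = ∫ ξ, ∏ i : Fin (2 * K + 1), (∫ u, ψ i (Φ (xo β ξ ((i : ℕ) : ℤ)) u)) ∂η := by
          refine integral_congr_ae (Filter.Eventually.of_forall fun ξ => ?_)
          refine Finset.prod_congr rfl fun i _ => ?_
          have h4 : xo β ((una β)^[K] ξ) (-(K : ℤ) + ((i : ℕ) : ℤ)) =
              xo β ξ (((i : ℕ) : ℕ) : ℤ) := by
            rw [xo_iter hd]
            congr 1
            ring
          rw [h4]
  · refine Integrable.of_bound (Measurable.aestronglyMeasurable ?_) (∏ i, ‖ψ i‖)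
      (Filter.Eventually.of_forall fun q => ?_)
    · exact hE.comp hm
    · rw [norm_prod]
      exact Finset.prod_le_prod (fun i _ => norm_nonneg _) fun i _ => (ψ i).norm_coe_le_norm _

private theorem mkh_vtwo (x y c : ℂ) : ‖x - c‖ ^ 2 ≤ 2 * ‖x - y‖ ^ 2 + 2 * ‖y - c‖ ^ 2 := by
  have h1 : ‖x - c‖ ≤ ‖x - y‖ + ‖y - c‖ := norm_sub_le_norm_sub_add_norm_sub x y c
  have h2 := norm_nonneg (x - c)
  nlinarith [sq_nonneg (‖x - y‖ - ‖y - c‖), norm_nonneg (x - y), norm_nonneg (y - c)]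

private theorem mkh_vint {X : Type*} [MeasurableSpace X] (μ : Measure X) [IsProbabilityMeasure μ]
    (f : X → ℂ) (hf : Measurable f) (B : ℝ) (hB : ∀ x, ‖f x‖ ≤ B) :
    Integrable (fun x => ‖f x‖ ^ 2) μ := by
  refine Integrable.of_bound (hf.norm.pow_const 2).aestronglyMeasurable (B ^ 2)
    (Filter.Eventually.of_forall fun x => ?_)
  rw [Real.norm_of_nonneg (sq_nonneg _)]
  exact pow_le_pow_left₀ (norm_nonneg _) (hB x) 2

/-- ROW mkv. L^2 CONVERGENCE OF THE AVERAGES. On the space of `q = (xi, u)`: `E (shD^[n] z) = ∏ ψ_i (Φ (xo xi (n-K+i)) (u (n-K+i)))`; given `xi`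
its mean is `F (T^n xi)`, `F xi = ∏ ∫ ψ_i (Φ (xo xi (-K+i)) u) du`. `‖(1/N) ∑ (E_n - F (T^n xi))‖ ^ 2` has integral ≤ const / N (`win_var` for every
`xi`), and `mean_erg` for `T = una β`. -/
theorem muH_av {D U : Type*} [TopologicalSpace D] [CompactSpace D] [MeasurableSpace D] [BorelSpace D]
    [MeasureSpace U] [IsProbabilityMeasure (volume : Measure U)]
    {d : ℕ} (η : Measure (Fin d → V)) [IsProbabilityMeasure η] (hd : 0 < d) (β : V)
    (hT : Ergodic (una β : (Fin d → V) → Fin d → V) η)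
    (Φ : V → U → D) (hΦ : Measurable (Function.uncurry Φ)) (K : ℕ)
    (ψ : Fin (2 * K + 1) → C(D, ℂ)) :
    Tendsto (fun N : ℕ => ∫ z, ‖(∑ n ∈ range N, ∏ i, ψ i ((shD^[n] z) (-(K : ℤ) + ((i : ℕ) : ℤ)))) / (N : ℂ) -
      ∫ z', ∏ i, ψ i (z' (-(K : ℤ) + ((i : ℕ) : ℤ))) ∂(muH η β (volume : Measure U) Φ)‖ ^ 2 ∂(muH η β (volume : Measure U) Φ)) atTop (𝓝 0) := by
  have hT0 := hT.toMeasurePreserving
  have hG := muU_meas (d := d) β Φ hΦ
  -- the measurability of the pieces
  have hxo : ∀ j : ℤ, Measurable (fun ξ : Fin d → V => xo β ξ j) := fun j =>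
    (mkm_xo β j)
  have hψΦ : ∀ (i : Fin (2 * K + 1)) (j : ℤ), Measurable
      (fun q : (Fin d → V) × U => ψ i (Φ (xo β q.1 j) q.2)) := by
    intro i j
    have h1 : Measurable (fun q : (Fin d → V) × U => (xo β q.1 j, q.2)) :=
      ((hxo j).comp measurable_fst).prodMk measurable_snd
    exact (ψ i).continuous.measurable.comp (hΦ.comp h1)
  obtain ⟨B, hBdef⟩ : ∃ B : ℝ, B = 1 + ∑ i, ‖ψ i‖ := ⟨_, rfl⟩
  have hB1 : 1 ≤ B := by
    rw [hBdef]
    have := Finset.sum_nonneg (s := Finset.univ) fun (i : Fin (2 * K + 1)) _ => norm_nonneg (ψ i)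
    linarith
  have hBψ : ∀ i (x : D), ‖ψ i x‖ ≤ B := by
    intro i x
    have h1 := (ψ i).norm_coe_le_norm x
    have h2 : ‖ψ i‖ ≤ ∑ i, ‖ψ i‖ := Finset.single_le_sum (f := fun i => ‖ψ i‖)
      (fun i _ => norm_nonneg (ψ i)) (Finset.mem_univ i)
    rw [hBdef]
    linarith
  have hB0 : 0 ≤ B := by linarith
  -- the mean given ξ
  obtain ⟨F, hFdef⟩ : ∃ F : (Fin d → V) → ℂ, ∀ ξ, F ξ = ∏ i : Fin (2 * K + 1),
      ∫ u, ψ i (Φ (xo β ξ (-(K : ℤ) + ((i : ℕ) : ℤ))) u) := ⟨_, fun _ => rfl⟩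
  have hFmeas : Measurable F := by
    have h1 : F = fun ξ => ∏ i : Fin (2 * K + 1),
        ∫ u, ψ i (Φ (xo β ξ (-(K : ℤ) + ((i : ℕ) : ℤ))) u) := funext hFdef
    rw [h1]
    refine Finset.measurable_fun_prod _ fun i _ => ?_
    exact ((hψΦ i (-(K : ℤ) + ((i : ℕ) : ℤ))).stronglyMeasurable.integral_prod_right
      (ν := (volume : Measure U))).measurable
  have hFB : ∀ ξ, ‖F ξ‖ ≤ B ^ (2 * K + 1) := by
    intro ξ
    rw [hFdef, norm_prod]
    calc ∏ i : Fin (2 * K + 1), ‖∫ u, ψ i (Φ (xo β ξ (-(K : ℤ) + ((i : ℕ) : ℤ))) u)‖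
        ≤ ∏ _i : Fin (2 * K + 1), B := by
          refine Finset.prod_le_prod (fun i _ => norm_nonneg _) fun i _ => ?_
          refine (norm_integral_le_of_norm_le_const
            (Filter.Eventually.of_forall fun u => hBψ i _)).trans ?_
          simp
      _ = B ^ (2 * K + 1) := by
          rw [Finset.prod_const, Finset.card_univ, Fintype.card_fin]
  have hFit : ∀ (n : ℕ) ξ, F ((una β)^[n] ξ) = ∏ i : Fin (2 * K + 1),
      ∫ u, ψ i (Φ (xo β ξ ((n : ℤ) - K + ((i : ℕ) : ℤ))) u) := by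
    intro n ξ
    rw [hFdef]
    refine Finset.prod_congr rfl fun i _ => ?_
    rw [xo_iter hd β n ξ, show -(K : ℤ) + ((i : ℕ) : ℤ) + n = (n : ℤ) - K + ((i : ℕ) : ℤ) by ring]
  -- the constant is the integral of F
  have hc : ∫ z', ∏ i, ψ i (z' (-(K : ℤ) + ((i : ℕ) : ℤ))) ∂(muH η β (volume : Measure U) Φ) =
      ∫ ξ, F ξ ∂(η) := by
    rw [muH_int η hd β hT0 Φ hΦ K ψ]
    have hTK : MeasurePreserving ((una β)^[K] : (Fin d → V) → Fin d → V) η
        η := hT0.iterate K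
    have h1 : ∀ ξ : Fin d → V, (∏ j : Fin (2 * K + 1), ∫ u, ψ j (Φ (xo β ξ ((j : ℕ) : ℤ)) u)) =
        F ((una β)^[K] ξ) := by
      intro ξ
      rw [hFit]
      refine Finset.prod_congr rfl fun i _ => ?_
      rw [show (K : ℤ) - K + ((i : ℕ) : ℤ) = ((i : ℕ) : ℤ) by ring]
    rw [integral_congr_ae (Filter.Eventually.of_forall h1)]
    conv_rhs => rw [← hTK.map_eq]
    rw [integral_map hTK.measurable.aemeasurable hFmeas.aestronglyMeasurable]
  rw [hc]
  -- the process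
  obtain ⟨A, hAdef⟩ : ∃ A : ℕ → (Fin d → V) × (ℤ → U) → ℂ, ∀ n q, A n q =
      ∏ i : Fin (2 * K + 1), ψ i (Φ (xo β q.1 ((n : ℤ) - K + ((i : ℕ) : ℤ)))
        (q.2 ((n : ℤ) - K + ((i : ℕ) : ℤ)))) := ⟨_, fun _ _ => rfl⟩
  have hAmeas : ∀ n, Measurable (A n) := by
    intro n
    have h1 : A n = fun q => ∏ i : Fin (2 * K + 1), ψ i (Φ (xo β q.1 ((n : ℤ) - K + ((i : ℕ) : ℤ)))
        (q.2 ((n : ℤ) - K + ((i : ℕ) : ℤ)))) := funext (hAdef n)
    rw [h1]
    refine Finset.measurable_fun_prod _ fun i _ => ?_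
    exact (ψ i).continuous.measurable.comp
      ((measurable_pi_apply ((n : ℤ) - K + ((i : ℕ) : ℤ))).comp hG)
  have hAB : ∀ n q, ‖A n q‖ ≤ B ^ (2 * K + 1) := by
    intro n q
    rw [hAdef, norm_prod]
    calc _ ≤ ∏ _i : Fin (2 * K + 1), B :=
          Finset.prod_le_prod (fun i _ => norm_nonneg _) fun i _ => hBψ i _
      _ = B ^ (2 * K + 1) := by
          rw [Finset.prod_const, Finset.card_univ, Fintype.card_fin]
  have hN : ∀ N : ℕ, ∫ z, ‖(∑ n ∈ range N, ∏ i, ψ i ((shD^[n] z) (-(K : ℤ) + ((i : ℕ) : ℤ)))) / (N : ℂ) -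
      ∫ ξ, F ξ ∂(η)‖ ^ 2 ∂(muH η β (volume : Measure U) Φ) =
      ∫ q, ‖(∑ n ∈ range N, A n q) / (N : ℂ) - ∫ ξ, F ξ ∂(η)‖ ^ 2
        ∂((η).prod
          (Measure.infinitePi (fun _ : ℤ => (volume : Measure U)))) := by
    intro N
    unfold muH thU
    rw [integral_map hG.aemeasurable]
    · refine integral_congr_ae (Filter.Eventually.of_forall fun q => ?_)
      have h1 : ∀ n, (∏ i : Fin (2 * K + 1), ψ i ((shD^[n] fun j : ℤ => Φ (xo β q.1 j) (q.2 j))
          (-(K : ℤ) + ((i : ℕ) : ℤ)))) = A n q := by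
        intro n
        rw [hAdef]
        refine Finset.prod_congr rfl fun i _ => ?_
        rw [shD_iter, show -(K : ℤ) + ((i : ℕ) : ℤ) + n = (n : ℤ) - K + ((i : ℕ) : ℤ) by ring]
      simp only [h1]
    · simp only [shD_iter]
      refine Measurable.aestronglyMeasurable ?_
      refine Measurable.pow_const (Measurable.norm (Measurable.sub_const
        (Measurable.div_const (Finset.measurable_fun_sum _ fun n _ =>
          Finset.measurable_fun_prod _ fun i _ => ?_) _) _)) 2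
      exact (ψ i).continuous.measurable.comp (measurable_pi_apply _)
  simp only [hN]
  have hme := mean_erg (η) (una β) hT F hFmeas _ hFB
  have hSFmeas : ∀ N : ℕ, Measurable fun ξ : Fin d → V => ∑ n ∈ range N, F ((una β)^[n] ξ) :=
    fun N => Finset.measurable_fun_sum _ fun n _ =>
      hFmeas.comp (hT0.iterate n).measurable
  have hSB : ∀ (N : ℕ) (a : ℕ → ℂ), (∀ n, ‖a n‖ ≤ B ^ (2 * K + 1)) →
      ‖(∑ n ∈ range N, a n) / (N : ℂ)‖ ≤ B ^ (2 * K + 1) := by
    intro N a ha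
    rw [norm_div, Complex.norm_natCast]
    rcases Nat.eq_zero_or_pos N with h0 | h0
    · rw [h0]
      simp only [Finset.range_zero, Finset.sum_empty, norm_zero, zero_div]
      positivity
    · have hN0 : (0 : ℝ) < N := by exact_mod_cast h0
      rw [div_le_iff₀ hN0]
      refine (norm_sum_le _ _).trans ((Finset.sum_le_sum fun n _ => ha n).trans ?_)
      rw [Finset.sum_const, Finset.card_range, nsmul_eq_mul, mul_comm]
  have hbound : ∀ N : ℕ, 1 ≤ N →
      ∫ q, ‖(∑ n ∈ range N, A n q) / (N : ℂ) - ∫ ξ, F ξ ∂(η)‖ ^ 2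
        ∂((η).prod
          (Measure.infinitePi (fun _ : ℤ => (volume : Measure U)))) ≤
      2 * ((4 * K + 1) * (2 * B ^ (2 * K + 1)) ^ 2 * (1 / (N : ℝ))) +
      2 * ∫ ξ, ‖(∑ n ∈ range N, F ((una β)^[n] ξ)) / (N : ℂ) -
        ∫ ξ', F ξ' ∂(η)‖ ^ 2 ∂(η) := by
    intro N hN1
    have hN0 : (0 : ℝ) < N := by exact_mod_cast hN1
    have hcB : ‖∫ ξ, F ξ ∂(η)‖ ≤ B ^ (2 * K + 1) := by
      refine (norm_integral_le_of_norm_le_const (Filter.Eventually.of_forall hFB)).trans ?_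
      simp
    -- first difference
    have i1 : Integrable (fun q : (Fin d → V) × (ℤ → U) =>
        ‖(∑ n ∈ range N, A n q) / (N : ℂ) - (∑ n ∈ range N, F ((una β)^[n] q.1)) / (N : ℂ)‖ ^ 2)
        ((η).prod
          (Measure.infinitePi (fun _ : ℤ => (volume : Measure U)))) := by
      refine mkh_vint _ _ (((Finset.measurable_fun_sum _ fun n _ => hAmeas n).div_const _).sub
        (((hSFmeas N).comp measurable_fst).div_const _)) (B ^ (2 * K + 1) + B ^ (2 * K + 1)) ?_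
      intro q
      refine (norm_sub_le _ _).trans (add_le_add ?_ ?_)
      · exact hSB N (fun n => A n q) fun n => hAB n q
      · exact hSB N (fun n => F ((una β)^[n] q.1)) fun n => hFB _
    have i2' : Integrable (fun ξ : Fin d → V =>
        ‖(∑ n ∈ range N, F ((una β)^[n] ξ)) / (N : ℂ) -
          ∫ ξ', F ξ' ∂(η)‖ ^ 2) (η) := by
      refine mkh_vint _ _ (((hSFmeas N).div_const _).sub_const _)
        (B ^ (2 * K + 1) + B ^ (2 * K + 1)) ?_
      intro ξ
      refine (norm_sub_le _ _).trans (add_le_add ?_ hcB)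
      exact hSB N (fun n => F ((una β)^[n] ξ)) fun n => hFB _
    have i2 : Integrable (fun q : (Fin d → V) × (ℤ → U) =>
        ‖(∑ n ∈ range N, F ((una β)^[n] q.1)) / (N : ℂ) -
          ∫ ξ', F ξ' ∂(η)‖ ^ 2)
        ((η).prod
          (Measure.infinitePi (fun _ : ℤ => (volume : Measure U)))) := by
      refine mkh_vint _ _ ((((hSFmeas N).comp measurable_fst).div_const _).sub_const _)
        (B ^ (2 * K + 1) + B ^ (2 * K + 1)) ?_
      intro q
      refine (norm_sub_le _ _).trans (add_le_add ?_ hcB)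
      exact hSB N (fun n => F ((una β)^[n] q.1)) fun n => hFB _
    have h1 : ∫ q, ‖(∑ n ∈ range N, A n q) / (N : ℂ) -
        ∫ ξ, F ξ ∂(η)‖ ^ 2
        ∂((η).prod
          (Measure.infinitePi (fun _ : ℤ => (volume : Measure U)))) ≤
        ∫ q, (2 * ‖(∑ n ∈ range N, A n q) / (N : ℂ) -
          (∑ n ∈ range N, F ((una β)^[n] q.1)) / (N : ℂ)‖ ^ 2 +
          2 * ‖(∑ n ∈ range N, F ((una β)^[n] q.1)) / (N : ℂ) -
          ∫ ξ', F ξ' ∂(η)‖ ^ 2)
        ∂((η).prod
          (Measure.infinitePi (fun _ : ℤ => (volume : Measure U)))) := by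
      refine integral_mono ?_ ((i1.const_mul 2).add (i2.const_mul 2)) fun q => mkh_vtwo _ _ _
      refine mkh_vint _ _ (((Finset.measurable_fun_sum _ fun n _ => hAmeas n).div_const _).sub_const _)
        (B ^ (2 * K + 1) + B ^ (2 * K + 1)) ?_
      intro q
      refine (norm_sub_le _ _).trans (add_le_add ?_ hcB)
      exact hSB N (fun n => A n q) fun n => hAB n q
    refine h1.trans ?_
    rw [integral_add (i1.const_mul 2) (i2.const_mul 2), integral_const_mul, integral_const_mul]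
    have h2 : ∫ q, ‖(∑ n ∈ range N, F ((una β)^[n] q.1)) / (N : ℂ) -
          ∫ ξ', F ξ' ∂(η)‖ ^ 2
        ∂((η).prod
          (Measure.infinitePi (fun _ : ℤ => (volume : Measure U)))) =
        ∫ ξ, ‖(∑ n ∈ range N, F ((una β)^[n] ξ)) / (N : ℂ) -
        ∫ ξ', F ξ' ∂(η)‖ ^ 2 ∂(η) := by
      rw [integral_prod _ i2]
      refine integral_congr_ae (Filter.Eventually.of_forall fun ξ => ?_)
      simp
    have h3 : ∫ q, ‖(∑ n ∈ range N, A n q) / (N : ℂ) -
          (∑ n ∈ range N, F ((una β)^[n] q.1)) / (N : ℂ)‖ ^ 2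
        ∂((η).prod
          (Measure.infinitePi (fun _ : ℤ => (volume : Measure U)))) ≤
        (4 * K + 1) * (2 * B ^ (2 * K + 1)) ^ 2 * (1 / (N : ℝ)) := by
      rw [integral_prod _ i1]
      have h4 : ∀ ξ : Fin d → V, ∫ u : ℤ → U, ‖(∑ n ∈ range N, A n (ξ, u)) / (N : ℂ) -
          (∑ n ∈ range N, F ((una β)^[n] ξ)) / (N : ℂ)‖ ^ 2
          ∂(Measure.infinitePi (fun _ : ℤ => (volume : Measure U))) ≤
          (4 * K + 1) * (2 * B ^ (2 * K + 1)) ^ 2 * (1 / (N : ℝ)) := by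
        intro ξ
        have h5 := win_var (volume : Measure U) K
          (fun n i u => ψ i (Φ (xo β ξ ((n : ℤ) - K + ((i : ℕ) : ℤ))) u))
          (fun n i => (hψΦ i ((n : ℤ) - K + ((i : ℕ) : ℤ))).comp measurable_prodMk_left)
          B hB1 (fun n i u => hBψ i _) N
        have h6 : ∀ u : ℤ → U, ‖(∑ n ∈ range N, A n (ξ, u)) / (N : ℂ) -
            (∑ n ∈ range N, F ((una β)^[n] ξ)) / (N : ℂ)‖ ^ 2 =
            (1 / (N : ℝ) ^ 2) * ‖∑ n ∈ range N,
              (∏ i : Fin (2 * K + 1), ψ i (Φ (xo β ξ ((n : ℤ) - K + ((i : ℕ) : ℤ)))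
                (u ((n : ℤ) - K + ((i : ℕ) : ℤ)))) -
              ∏ i : Fin (2 * K + 1), ∫ x, ψ i (Φ (xo β ξ ((n : ℤ) - K + ((i : ℕ) : ℤ))) x))‖ ^ 2 := by
          intro u
          rw [← sub_div, ← Finset.sum_sub_distrib, norm_div, Complex.norm_natCast, div_pow,
            div_eq_mul_one_div, mul_comm]
          congr 3
          refine Finset.sum_congr rfl fun n _ => ?_
          rw [hAdef, hFit]
        rw [integral_congr_ae (Filter.Eventually.of_forall h6), integral_const_mul]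
        refine (mul_le_mul_of_nonneg_left h5 (by positivity)).trans (le_of_eq ?_)
        field_simp
      calc _ ≤ ∫ _ξ : Fin d → V, (4 * K + 1) * (2 * B ^ (2 * K + 1)) ^ 2 * (1 / (N : ℝ))
            ∂(η) := by
            refine integral_mono i1.integral_prod_left (integrable_const _) fun ξ => ?_
            exact h4 ξ
        _ = _ := by simp
    rw [h2]
    linarith
  have hlim : Tendsto (fun N : ℕ => 2 * ((4 * K + 1) * (2 * B ^ (2 * K + 1)) ^ 2 * (1 / (N : ℝ))) +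
      2 * ∫ ξ, ‖(∑ n ∈ range N, F ((una β)^[n] ξ)) / (N : ℂ) -
        ∫ ξ', F ξ' ∂(η)‖ ^ 2 ∂(η))
      atTop (𝓝 0) := by
    have h1 : Tendsto (fun N : ℕ => 2 * ((4 * K + 1) * (2 * B ^ (2 * K + 1)) ^ 2 * (1 / (N : ℝ))))
        atTop (𝓝 (2 * ((4 * K + 1) * (2 * B ^ (2 * K + 1)) ^ 2 * 0))) :=
      (tendsto_one_div_atTop_nhds_zero_nat.const_mul _).const_mul _
    have h2 := h1.add (hme.const_mul 2)
    simpa using h2
  refine squeeze_zero' (Filter.Eventually.of_forall fun N => integral_nonneg fun q => sq_nonneg _)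
    ?_ hlim
  filter_upwards [Filter.eventually_ge_atTop 1] with N hN1
  exact hbound N hN1

/-- the limit measure is ergodic -/
theorem muH_erg {U : Type*} [MeasureSpace U] [IsProbabilityMeasure (volume : Measure U)] (C : ℝ)
    {d : ℕ} (η : Measure (Fin d → V)) [IsProbabilityMeasure η]
    (hd : 0 < d) (β : V) (hT : Ergodic (una β : (Fin d → V) → Fin d → V) η)
    (Φ : V → U → Metric.closedBall (0 : ℂ) C) (hΦ : Measurable (Function.uncurry Φ)) :
    Ergodic (shD : (ℤ → Metric.closedBall (0 : ℂ) C) → ℤ → Metric.closedBall (0 : ℂ) C)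
      (muH η β (volume : Measure U) Φ) := by
  have : CompactSpace (Metric.closedBall (0 : ℂ) C) :=
    isCompact_iff_compactSpace.1 (isCompact_closedBall 0 C)
  have := muH_prob η β Φ hΦ
  refine erg_crit _ _ (muH_shift η hd β hT.toMeasurePreserving Φ hΦ)
    {E | ∃ (K : ℕ) (ψ : Fin (2 * K + 1) → C(Metric.closedBall (0 : ℂ) C, ℂ)),
      E = fun z => ∏ i, ψ i (z (-(K : ℤ) + ((i : ℕ) : ℤ)))} ?_ ?_ ?_ ?_
  · rintro E ⟨K, ψ, rfl⟩
    exact Finset.measurable_fun_prod _ fun i _ =>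
      (ψ i).continuous.measurable.comp (measurable_pi_apply _)
  · rintro E ⟨K, ψ, rfl⟩
    refine ⟨∏ i, ‖ψ i‖, fun z => ?_⟩
    rw [norm_prod]
    exact Finset.prod_le_prod (fun i _ => norm_nonneg _) fun i _ => (ψ i).norm_coe_le_norm _
  · rintro E ⟨K, ψ, rfl⟩
    exact muH_av η hd β hT Φ hΦ K ψ
  · intro f hf hb h0
    exact tot_cyl C _ f hf hb fun K ψ => h0 _ ⟨K, ψ, rfl⟩


end Pool.Agent.GsF
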