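import Pool.Agent.GsK.Kt
import Pool.Agent.GsK.Kh

/-!
Exhausting sigma-algebras, limits which are functions: reduction to the tail parts; transport from V x W to Y.
-/

set_option autoImplicit false

namespace Pool.Agent.GsF

open Finset MeasureTheory Filter Topology ProbabilityTheory Polynomial

section tailh

variable {Y : Type*} {A : MeasurableSpace Y} [mY : MeasurableSpace Y]

-- BEGIN tsh
private theorem tsh_ver {ν : Measure Y} [IsProbabilityMeasure ν] {S : Y ≃ᵐ Y}
    (f : Y → ℂ) (B : ℝ) (hB0 : 0 ≤ B) (hB : ∀ y, ‖f y‖ ≤ B) (n : ℤ) :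
    ∃ g : Y → ℂ, StronglyMeasurable[Al A S n] g ∧ (∀ y, ‖g y‖ ≤ B) ∧ g =ᵐ[ν] ν[f | Al A S n] := by
  classical
  have hm : StronglyMeasurable[Al A S n] (ν[f | Al A S n]) := stronglyMeasurable_condExp
  refine ⟨fun y => if ‖(ν[f | Al A S n]) y‖ ≤ B then (ν[f | Al A S n]) y else 0, ?_, ?_, ?_⟩
  · exact StronglyMeasurable.ite (hm.norm.measurableSet_le stronglyMeasurable_const) hm
      stronglyMeasurable_const
  · intro y
    show ‖if ‖(ν[f | Al A S n]) y‖ ≤ B then (ν[f | Al A S n]) y else 0‖ ≤ B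
    split_ifs with h1
    · exact h1
    · rw [norm_zero]
      exact hB0
  · filter_upwards [ae_bdd_norm_condExp_of_ae_bdd_norm (m := Al A S n)
      (Eventually.of_forall hB : ∀ᵐ y ∂ν, ‖f y‖ ≤ B)] with y hy
    exact if_pos hy

private theorem tsh_int {ν : Measure Y} [IsProbabilityMeasure ν] {S : Y ≃ᵐ Y} (h : Exh A ν S)
    (f g : Y → ℂ) (B : ℝ) (hB : ∀ y, ‖f y‖ ≤ B) (hg : Measurable g)
    (hgB : ∀ y, ‖g y‖ ≤ B) (n : ℤ) :
    Integrable (fun y => ‖g y - (ν[f | Al A S n]) y‖ ^ 2) ν := by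
  have hm : AEStronglyMeasurable (ν[f | Al A S n]) ν :=
    (stronglyMeasurable_condExp.mono (Al_le h n)).aestronglyMeasurable
  refine Integrable.of_bound ((hg.aestronglyMeasurable.sub hm).norm.pow 2) ((2 * B) ^ 2) ?_
  filter_upwards [ae_bdd_norm_condExp_of_ae_bdd_norm (m := Al A S n)
    (Eventually.of_forall hB : ∀ᵐ y ∂ν, ‖f y‖ ≤ B)] with y hy
  rw [norm_pow, norm_norm]
  have h1 := norm_sub_le (g y) ((ν[f | Al A S n]) y)
  have h2 := hgB y
  exact pow_le_pow_left₀ (norm_nonneg _) (by linarith) 2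

omit mY in
private theorem tsh_prod {k : ℕ} (f : Fin (k + 1) → Y → ℂ) (j0 : Fin (k + 1)) (a : Y → ℂ)
    (z : Fin (k + 1) → Y) : ∏ i, (Function.update f j0 a) i (z i) =
      a (z j0) * ∏ i ∈ univ.erase j0, f i (z i) := by
  rw [← Finset.mul_prod_erase univ (fun i => (Function.update f j0 a) i (z i)) (Finset.mem_univ j0),
    Function.update_self]
  congr 1
  refine Finset.prod_congr rfl fun i hi => ?_
  rw [Function.update_of_ne (Finset.ne_of_mem_erase hi)]

/-- One step. Let f be given, i ≠ j0 not in I tail functions, and let fb be the tail part of f j0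
(approx_down). If the averages converge for f with f j0 replaced by fb (hypothesis hb) then they
converge for f. Linear in the slot j0: it remains to show that the averages for f with f j0 replaced by
f j0 - fb tend to 0 a.e. Approximate (conv_approx, prod_max): f i (i in I) by E(f i | Al (-m)),
f j0 - fb by g = E(f j0 | Al (-m)) - E(f j0 | Al M) (approx_up, approx_down), bounded by 2 B,
E(g | Al M) = 0 (tower, Al M ≤ Al (-m)); choose measurable bounded versions; vanish with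
tm n i = p(n + i), whose hypotheses follow from poly_times: increasing case I = {i | j0 < i},
decreasing case I = {i | i < j0}. -/
theorem tail_step_h {ν : Measure Y} [IsProbabilityMeasure ν] {S : Y ≃ᵐ Y}
    (h : Exh A ν S) (p : ℤ[X]) (hp : 2 ≤ p.natDegree) (k : ℕ) (f : Fin (k + 1) → Y → ℂ)
    (hf : ∀ i, Measurable (f i)) (B : ℝ) (hB : ∀ i y, ‖f i y‖ ≤ B) (j0 : Fin (k + 1))
    (I : Finset (Fin (k + 1)))
    (hI : (I = univ.filter (fun i => j0 < i) ∧
        ∀ M : ℤ, ∃ n0 : ℕ, ∀ n n' : ℕ, n0 ≤ n → n < n' → p.eval (n : ℤ) + M ≤ p.eval (n' : ℤ)) ∨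
      (I = univ.filter (fun i => i < j0) ∧
        ∀ M : ℤ, ∃ n0 : ℕ, ∀ n n' : ℕ, n0 ≤ n → n < n' → p.eval (n' : ℤ) + M ≤ p.eval (n : ℤ)))
    (hft : ∀ i, i ≠ j0 → i ∉ I → TailF A ν S (f i)) (L : Y → ℂ)
    (hb : ∀ fb : Y → ℂ, Measurable fb → (∀ y, ‖fb y‖ ≤ B) → TP A ν S (f j0) fb →
      ∀ᵐ y ∂ν, Tendsto (fun N : ℕ => (∑ n ∈ range N,
        ∏ i, (Function.update f j0 fb) i (pw S (p.eval ((n : ℤ) + (i : ℕ))) y)) / (N : ℂ))
        atTop (𝓝 (L y))) :
    ∀ᵐ y ∂ν, Tendsto (fun N : ℕ => (∑ n ∈ range N,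
        ∏ i, f i (pw S (p.eval ((n : ℤ) + (i : ℕ))) y)) / (N : ℂ)) atTop (𝓝 (L y)) := by
  classical
  obtain ⟨y0⟩ : Nonempty Y := ν.nonempty_of_neZero
  have hB0 : 0 ≤ B := (norm_nonneg _).trans (hB j0 y0)
  have hjI : j0 ∉ I := by
    rcases hI with ⟨rfl, -⟩ | ⟨rfl, -⟩
    · simp
    · simp
  obtain ⟨fb, hfbm, hfbB, hfbT, hfbi, hfbl⟩ := approx_down h (f j0) (hf j0) B (hB j0)
  have hmain := hb fb hfbm hfbB ⟨hfbT, hfbl⟩
  have hFm : ∀ i, Measurable ((Function.update f j0 fun y => f j0 y - fb y) i) := by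
    intro i
    by_cases hi : i = j0
    · rw [hi, Function.update_self]
      exact (hf j0).sub hfbm
    · rw [Function.update_of_ne hi]
      exact hf i
  have hFB : ∀ i y, ‖(Function.update f j0 fun y => f j0 y - fb y) i y‖ ≤ 2 * B + 1 := by
    intro i y
    by_cases hi : i = j0
    · rw [hi, Function.update_self]
      have h1 := norm_sub_le (f j0 y) (fb y)
      have h2 := hB j0 y
      have h3 := hfbB y
      linarith
    · rw [Function.update_of_ne hi]
      have h2 := hB i y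
      linarith
  suffices hdiff : ∀ᵐ y ∂ν, Tendsto (fun N : ℕ => (∑ n ∈ range N,
      ∏ i, (Function.update f j0 fun y => f j0 y - fb y) i (pw S (p.eval ((n : ℤ) + (i : ℕ))) y)) /
        (N : ℂ)) atTop (𝓝 0) by
    filter_upwards [hmain, hdiff] with y h1 h2
    have h3 := h1.add h2
    rw [add_zero] at h3
    refine h3.congr fun N => ?_
    rw [← add_div, ← Finset.sum_add_distrib]
    congr 1
    refine Finset.sum_congr rfl fun n _ => ?_
    rw [tsh_prod f j0 fb, tsh_prod f j0 (fun y => f j0 y - fb y), ← add_mul, add_sub_cancel,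
      Finset.mul_prod_erase univ (fun i => f i (pw S (p.eval ((n : ℤ) + (i : ℕ))) y)) (Finset.mem_univ j0)]
  obtain ⟨C, hC, hmax⟩ := prod_max (W := Y) p k
  refine conv_approx ν (fun N y => (∑ n ∈ range N,
      ∏ i, (Function.update f j0 fun y => f j0 y - fb y) i (pw S (p.eval ((n : ℤ) + (i : ℕ))) y)) /
        (N : ℂ)) 0 (fun N => (Finset.measurable_fun_sum _ fun n _ => Finset.measurable_fun_prod _
          fun i _ => (hFm i).comp (pw_meas S _)).div_const _) fun ε hε => ?_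
  have hq1 : 1 ≤ 2 * B + 1 := by linarith
  have hP0 : 0 < C * (((2 * B + 1) ^ (k + 1) * (2 * B + 1) ^ (k + 1)) ^ 2) * ((k : ℝ) + 1) := by positivity
  obtain ⟨δ, hδ, hδe⟩ : ∃ δ : ℝ, 0 < δ ∧
      C * (((2 * B + 1) ^ (k + 1) * (2 * B + 1) ^ (k + 1)) ^ 2) * ((k : ℝ) + 1) * δ = ε :=
    ⟨ε / (C * (((2 * B + 1) ^ (k + 1) * (2 * B + 1) ^ (k + 1)) ^ 2) * ((k : ℝ) + 1)),
      div_pos hε hP0, mul_div_cancel₀ ε hP0.ne'⟩
  obtain ⟨m, hm⟩ : ∃ m : ℕ, ∀ i, ∫ y, ‖f i y - (ν[f i | Al A S (-(m : ℤ))]) y‖ ^ 2 ∂ν < δ / 4 :=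
    (eventually_all.2 fun i => (tendsto_order.1 (approx_up h (f i) (hf i) B (hB i))).2 (δ / 4)
      (by positivity)).exists
  obtain ⟨M, hM⟩ : ∃ M : ℕ, ∫ y, ‖(ν[f j0 | Al A S (M : ℤ)]) y - fb y‖ ^ 2 ∂ν < δ / 4 :=
    ((tendsto_order.1 hfbl).2 (δ / 4) (by positivity)).exists
  choose gm hgm1 hgm2 hgm3 using fun i => tsh_ver (A := A) (S := S) (ν := ν) (f i) B hB0 (hB i) (-(m : ℤ))
  obtain ⟨gM, hgM1, hgM2, hgM3⟩ := tsh_ver (A := A) (S := S) (ν := ν) (f j0) B hB0 (hB j0) (M : ℤ)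
  have hgM1' : StronglyMeasurable[Al A S (-(m : ℤ))] gM := hgM1.mono (Al_anti h (by omega))
  let g : Fin (k + 1) → Y → ℂ := fun i =>
    if i = j0 then fun y => gm j0 y - gM y else if i ∈ I then gm i else f i
  have hg0 : g j0 = fun y => gm j0 y - gM y := if_pos rfl
  have hgI : ∀ i ∈ I, g i = gm i := by
    intro i hi
    have h1 : i ≠ j0 := fun h2 => hjI (h2 ▸ hi)
    show (if i = j0 then _ else _) = _
    rw [if_neg h1, if_pos hi]
  have hgo : ∀ i, i ≠ j0 → i ∉ I → g i = f i := by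
    intro i h1 h2
    show (if i = j0 then _ else _) = _
    rw [if_neg h1, if_neg h2]
  have hgm : ∀ i, Measurable (g i) := by
    intro i
    by_cases h1 : i = j0
    · rw [h1, hg0]
      exact (((hgm1 j0).mono (Al_le h _)).measurable).sub ((hgM1.mono (Al_le h _)).measurable)
    · by_cases h2 : i ∈ I
      · rw [hgI i h2]
        exact ((hgm1 i).mono (Al_le h _)).measurable
      · rw [hgo i h1 h2]
        exact hf i
  have hgB : ∀ i y, ‖g i y‖ ≤ 2 * B + 1 := by
    intro i y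
    by_cases h1 : i = j0
    · rw [h1, hg0]
      have h2 := norm_sub_le (gm j0 y) (gM y)
      have h3 := hgm2 j0 y
      have h4 := hgM2 y
      show ‖gm j0 y - gM y‖ ≤ _
      linarith
    · by_cases h2 : i ∈ I
      · rw [hgI i h2]
        have h3 := hgm2 i y
        linarith
      · rw [hgo i h1 h2]
        have h3 := hB i y
        linarith
  obtain ⟨H, hH1, hH2, hH3, hH4, hH5⟩ := hmax ν S h.mp (Function.update f j0 fun y => f j0 y - fb y) g
    (fun _ => 2 * B + 1) (fun _ => 2 * B + 1) hFm hgm hFB hgB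
  refine ⟨fun N y => (∑ n ∈ range N, ∏ i, g i (pw S (p.eval ((n : ℤ) + (i : ℕ))) y)) / (N : ℂ), 0, H,
    ?_, hH1, hH2, hH3, ?_, ?_, Eventually.of_forall fun y N => hH5 N y⟩
  · rw [sub_zero, norm_zero]
    exact hε.le
  · refine hH4.trans ?_
    have hj : ∀ j : Fin (k + 1), ∫ y, ‖(Function.update f j0 fun y => f j0 y - fb y) j y - g j y‖ ^ 2 ∂ν ≤ δ := by
      intro j
      by_cases h1 : j = j0
      · subst h1
        rw [Function.update_self, hg0]
        have hi1 : Integrable (fun y => ‖f j y - (ν[f j | Al A S (-(m : ℤ))]) y‖ ^ 2) ν :=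
          tsh_int h (f j) (f j) B (hB j) (hf j) (hB j) _
        have hi2 : Integrable (fun y => ‖(ν[f j | Al A S (M : ℤ)]) y - fb y‖ ^ 2) ν := by
          have h2 := tsh_int h (f j) fb B (hB j) hfbm hfbB (M : ℤ)
          simp only [norm_sub_rev] at h2 ⊢
          exact h2
        have h3 : ∫ y, ‖(f j y - fb y) - (gm j y - gM y)‖ ^ 2 ∂ν ≤
            ∫ y, (2 * ‖f j y - (ν[f j | Al A S (-(m : ℤ))]) y‖ ^ 2 +
              2 * ‖(ν[f j | Al A S (M : ℤ)]) y - fb y‖ ^ 2) ∂ν := by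
          refine integral_mono_of_nonneg (Eventually.of_forall fun y => by positivity)
            ((hi1.const_mul 2).add (hi2.const_mul 2)) ?_
          filter_upwards [hgm3 j, hgM3] with y h4 h5
          rw [h4, h5]
          have h6 : f j y - fb y - ((ν[f j | Al A S (-(m : ℤ))]) y - (ν[f j | Al A S (M : ℤ)]) y) =
              (f j y - (ν[f j | Al A S (-(m : ℤ))]) y) + ((ν[f j | Al A S (M : ℤ)]) y - fb y) := by ring
          rw [h6]
          have h7 := norm_add_le (f j y - (ν[f j | Al A S (-(m : ℤ))]) y) ((ν[f j | Al A S (M : ℤ)]) y - fb y)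
          have h8 := norm_nonneg ((f j y - (ν[f j | Al A S (-(m : ℤ))]) y) +
            ((ν[f j | Al A S (M : ℤ)]) y - fb y))
          nlinarith [sq_nonneg (‖f j y - (ν[f j | Al A S (-(m : ℤ))]) y‖ -
            ‖(ν[f j | Al A S (M : ℤ)]) y - fb y‖)]
        rw [integral_add (hi1.const_mul 2) (hi2.const_mul 2), integral_const_mul, integral_const_mul] at h3
        have h4 := hm j
        linarith
      · rw [Function.update_of_ne h1]
        by_cases h2 : j ∈ I
        · rw [hgI j h2]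
          have h3 : ∫ y, ‖f j y - gm j y‖ ^ 2 ∂ν = ∫ y, ‖f j y - (ν[f j | Al A S (-(m : ℤ))]) y‖ ^ 2 ∂ν := by
            refine integral_congr_ae ?_
            filter_upwards [hgm3 j] with y h4
            rw [h4]
          rw [h3]
          have h4 := hm j
          linarith
        · rw [hgo j h1 h2]
          simp only [sub_self, norm_zero, ne_eq, OfNat.ofNat_ne_zero, not_false_eq_true, zero_pow,
            integral_zero]
          exact hδ.le
    have hcoef : ∀ j : Fin (k + 1), ((∏ i ∈ univ.filter (· < j), (fun _ => 2 * B + 1) i) *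
        ∏ i ∈ univ.filter (j < ·), (fun _ => 2 * B + 1) i) ^ 2 ≤
          ((2 * B + 1) ^ (k + 1) * (2 * B + 1) ^ (k + 1)) ^ 2 := by
      intro j
      have hc : ∀ s : Finset (Fin (k + 1)), ∏ i ∈ s, (fun _ : Fin (k + 1) => 2 * B + 1) i ≤
          (2 * B + 1) ^ (k + 1) := by
        intro s
        rw [Finset.prod_const]
        refine pow_le_pow_right₀ hq1 ?_
        have := Finset.card_le_univ s
        rw [Fintype.card_fin] at this
        exact this
      have hc0 : ∀ s : Finset (Fin (k + 1)), 0 ≤ ∏ i ∈ s, (fun _ : Fin (k + 1) => 2 * B + 1) i := by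
        intro s
        refine Finset.prod_nonneg fun i _ => ?_
        show 0 ≤ 2 * B + 1
        linarith
      exact pow_le_pow_left₀ (mul_nonneg (hc0 _) (hc0 _)) (mul_le_mul (hc _) (hc _) (hc0 _) (by positivity)) 2
    rw [← hδe]
    have hsum : ∑ j : Fin (k + 1), ((∏ i ∈ univ.filter (· < j), (fun _ => 2 * B + 1) i) *
        ∏ i ∈ univ.filter (j < ·), (fun _ => 2 * B + 1) i) ^ 2 *
          ∫ y, ‖(Function.update f j0 fun y => f j0 y - fb y) j y - g j y‖ ^ 2 ∂ν ≤
        ∑ _j : Fin (k + 1), ((2 * B + 1) ^ (k + 1) * (2 * B + 1) ^ (k + 1)) ^ 2 * δ :=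
      Finset.sum_le_sum fun j _ => mul_le_mul (hcoef j) (hj j)
        (integral_nonneg fun y => by positivity) (by positivity)
    rw [Finset.sum_const, card_univ, Fintype.card_fin, nsmul_eq_mul] at hsum
    refine (mul_le_mul_of_nonneg_left hsum hC.le).trans (le_of_eq ?_)
    push_cast
    ring
  · have h0 : ν[g j0 | Al A S (M : ℤ)] =ᵐ[ν] 0 := by
      have hfi : Integrable (f j0) ν :=
        Integrable.of_bound (hf j0).aestronglyMeasurable B (Eventually.of_forall (hB j0))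
      have h1 : g j0 =ᵐ[ν] ν[f j0 | Al A S (-(m : ℤ))] - ν[f j0 | Al A S (M : ℤ)] := by
        rw [hg0]
        filter_upwards [hgm3 j0, hgM3] with y h2 h3
        rw [h2, h3]
        rfl
      refine (condExp_congr_ae h1).trans ?_
      refine (condExp_sub integrable_condExp integrable_condExp _).trans ?_
      have h2 : ν[ν[f j0 | Al A S (-(m : ℤ))] | Al A S (M : ℤ)] =ᵐ[ν] ν[f j0 | Al A S (M : ℤ)] :=
        condExp_condExp_of_le (Al_anti h (by omega)) (Al_le h _)
      have h3 : ν[ν[f j0 | Al A S (M : ℤ)] | Al A S (M : ℤ)] =ᵐ[ν] ν[f j0 | Al A S (M : ℤ)] :=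
        condExp_condExp_of_le le_rfl (Al_le h _)
      filter_upwards [h2, h3] with y h4 h5
      show (ν[ν[f j0 | Al A S (-(m : ℤ))] | Al A S (M : ℤ)]) y -
        (ν[ν[f j0 | Al A S (M : ℤ)] | Al A S (M : ℤ)]) y = 0
      rw [h4, h5, sub_self]
    have hj0 : AEStronglyMeasurable[Al A S (-(m : ℤ))] (g j0) ν := by
      rw [hg0]
      exact ((hgm1 j0).sub hgM1').aestronglyMeasurable
    have hfI : ∀ i ∈ I, AEStronglyMeasurable[Al A S (-(m : ℤ))] (g i) ν := by
      intro i hi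
      rw [hgI i hi]
      exact (hgm1 i).aestronglyMeasurable
    have hft' : ∀ i, i ≠ j0 → i ∉ I → TailF A ν S (g i) := by
      intro i h1 h2
      rw [hgo i h1 h2]
      exact hft i h1 h2
    rcases hI with ⟨hI, hp'⟩ | ⟨hI, hp'⟩
    · obtain ⟨n0, hn0⟩ := hp' (M + m)
      refine vanish h k (fun n i => p.eval ((n : ℤ) + (i : ℕ))) g hgm (2 * B + 1) hgB j0 I hjI m M h0 hj0
        hfI hft' n0 (fun n hn i hi => ?_) (fun n n' hn hn' hne => ?_)
      · rw [hI, Finset.mem_filter] at hi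
        have h1 := hn0 (n + j0) (n + i) (by omega) (by have := hi.2; omega)
        push_cast at h1
        linarith
      · rcases lt_or_gt_of_ne hne with h1 | h1
        · left
          intro i hi
          have h2 : j0 ≤ i := by
            rcases Finset.mem_insert.1 hi with h3 | h3
            · exact h3.ge
            · rw [hI, Finset.mem_filter] at h3
              exact h3.2.le
          have h3 := hn0 (n + j0) (n' + i) (by omega) (by have : (j0 : ℕ) ≤ i := h2; omega)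
          push_cast at h3
          linarith
        · right
          intro i hi
          have h2 : j0 ≤ i := by
            rcases Finset.mem_insert.1 hi with h3 | h3
            · exact h3.ge
            · rw [hI, Finset.mem_filter] at h3
              exact h3.2.le
          have h3 := hn0 (n' + j0) (n + i) (by omega) (by have : (j0 : ℕ) ≤ i := h2; omega)
          push_cast at h3
          linarith
    · obtain ⟨n0, hn0⟩ := hp' (M + m)
      refine vanish h k (fun n i => p.eval ((n : ℤ) + (i : ℕ))) g hgm (2 * B + 1) hgB j0 I hjI m M h0 hj0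
        hfI hft' n0 (fun n hn i hi => ?_) (fun n n' hn hn' hne => ?_)
      · rw [hI, Finset.mem_filter] at hi
        have h1 := hn0 (n + i) (n + j0) (by omega) (by have := hi.2; omega)
        push_cast at h1
        linarith
      · rcases lt_or_gt_of_ne hne with h1 | h1
        · right
          intro i hi
          have h2 : i ≤ j0 := by
            rcases Finset.mem_insert.1 hi with h3 | h3
            · exact h3.le
            · rw [hI, Finset.mem_filter] at h3
              exact h3.2.le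
          have h3 := hn0 (n + i) (n' + j0) (by omega) (by have : (i : ℕ) ≤ j0 := h2; omega)
          push_cast at h3
          linarith
        · left
          intro i hi
          have h2 : i ≤ j0 := by
            rcases Finset.mem_insert.1 hi with h3 | h3
            · exact h3.le
            · rw [hI, Finset.mem_filter] at h3
              exact h3.2.le
          have h3 := hn0 (n' + i) (n + j0) (by omega) (by have : (i : ℕ) ≤ j0 := h2; omega)
          push_cast at h3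
          linarith
-- END tsh

-- BEGIN trh
/-- ROW trk. REDUCTION TO THE TAIL. Copy of `tail_reduce` (MODULE UA9 of GsF/Ta.lean) with a fixed limit `L`: in the induction carry the
hypothesis `∀ fb, measurable, bounded, (∀ i, TP (f i) (fb i)) → convergence to L`; base: all `f i` are tail functions (`tp_self`);
step: `tail_step_h` and `tp_trans` in the slot `j0`. -/
theorem tail_reduce_h {ν : Measure Y} [IsProbabilityMeasure ν] {S : Y ≃ᵐ Y}
    (h : Exh A ν S) (p : ℤ[X]) (hp : 2 ≤ p.natDegree) (k : ℕ) (B : ℝ) (L : Y → ℂ)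
    (f : Fin (k + 1) → Y → ℂ) (hf : ∀ i, Measurable (f i)) (hB : ∀ i y, ‖f i y‖ ≤ B)
    (hb : ∀ fb : Fin (k + 1) → Y → ℂ, (∀ i, Measurable (fb i)) → (∀ i y, ‖fb i y‖ ≤ B) →
      (∀ i, TP A ν S (f i) (fb i)) →
      ∀ᵐ y ∂ν, Tendsto (fun N : ℕ => (∑ n ∈ range N,
        ∏ i, fb i (pw S (p.eval ((n : ℤ) + (i : ℕ))) y)) / (N : ℂ))
        atTop (𝓝 (L y))) :
    ∀ᵐ y ∂ν, Tendsto (fun N : ℕ => (∑ n ∈ range N,
        ∏ i, f i (pw S (p.eval ((n : ℤ) + (i : ℕ))) y)) / (N : ℂ))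
        atTop (𝓝 (L y)) := by
  classical
  have hupm : ∀ (j0 : Fin (k + 1)) (f : Fin (k + 1) → Y → ℂ) (fb : Y → ℂ), (∀ i, Measurable (f i)) →
      Measurable fb → ∀ i, Measurable ((Function.update f j0 fb) i) := by
    intro j0 f fb h1 h2 i
    by_cases hi : i = j0
    · rw [hi, Function.update_self]
      exact h2
    · rw [Function.update_of_ne hi]
      exact h1 i
  have hupB : ∀ (j0 : Fin (k + 1)) (f : Fin (k + 1) → Y → ℂ) (fb : Y → ℂ), (∀ i y, ‖f i y‖ ≤ B) →
      (∀ y, ‖fb y‖ ≤ B) → ∀ i y, ‖(Function.update f j0 fb) i y‖ ≤ B := by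
    intro j0 f fb h1 h2 i y
    by_cases hi : i = j0
    · rw [hi, Function.update_self]
      exact h2 y
    · rw [Function.update_of_ne hi]
      exact h1 i y
  have hupT : ∀ (j0 : Fin (k + 1)) (f : Fin (k + 1) → Y → ℂ) (fb : Y → ℂ), (∀ i, Measurable (f i)) →
      (∀ i y, ‖f i y‖ ≤ B) → Measurable fb → (∀ y, ‖fb y‖ ≤ B) → TP A ν S (f j0) fb →
      (∀ fb : Fin (k + 1) → Y → ℂ, (∀ i, Measurable (fb i)) → (∀ i y, ‖fb i y‖ ≤ B) →
        (∀ i, TP A ν S (f i) (fb i)) →
        ∀ᵐ y ∂ν, Tendsto (fun N : ℕ => (∑ n ∈ range N,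
          ∏ i, fb i (pw S (p.eval ((n : ℤ) + (i : ℕ))) y)) / (N : ℂ)) atTop (𝓝 (L y))) →
      ∀ fb2 : Fin (k + 1) → Y → ℂ, (∀ i, Measurable (fb2 i)) → (∀ i y, ‖fb2 i y‖ ≤ B) →
        (∀ i, TP A ν S ((Function.update f j0 fb) i) (fb2 i)) →
        ∀ᵐ y ∂ν, Tendsto (fun N : ℕ => (∑ n ∈ range N,
          ∏ i, fb2 i (pw S (p.eval ((n : ℤ) + (i : ℕ))) y)) / (N : ℂ)) atTop (𝓝 (L y)) := by
    intro j0 f fb hf hB hfb hfbB hP hall fb2 h1 h2 h3
    refine hall fb2 h1 h2 fun i => ?_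
    have h4 := h3 i
    by_cases hi : i = j0
    · rw [hi, Function.update_self] at h4
      rw [hi]
      exact tp_trans h (f j0) fb (fb2 j0) (hf j0) hfb (h1 j0) B (hB j0) hfbB (h2 j0) hP h4
    · rw [Function.update_of_ne hi] at h4
      exact h4
  rcases poly_times p hp with hinc | hdec
  · have key : ∀ t : ℕ, t ≤ k + 1 → ∀ f : Fin (k + 1) → Y → ℂ, (∀ i, Measurable (f i)) →
        (∀ i y, ‖f i y‖ ≤ B) → (∀ i : Fin (k + 1), (i : ℕ) + t < k + 1 → TailF A ν S (f i)) →
        (∀ fb : Fin (k + 1) → Y → ℂ, (∀ i, Measurable (fb i)) → (∀ i y, ‖fb i y‖ ≤ B) →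
          (∀ i, TP A ν S (f i) (fb i)) →
          ∀ᵐ y ∂ν, Tendsto (fun N : ℕ => (∑ n ∈ range N,
            ∏ i, fb i (pw S (p.eval ((n : ℤ) + (i : ℕ))) y)) / (N : ℂ)) atTop (𝓝 (L y))) →
        ∀ᵐ y ∂ν, Tendsto (fun N : ℕ => (∑ n ∈ range N,
          ∏ i, f i (pw S (p.eval ((n : ℤ) + (i : ℕ))) y)) / (N : ℂ))
          atTop (𝓝 (L y)) := by
      intro t
      induction t with
      | zero =>
        intro _ f hf hB hT hb
        exact hb f hf hB fun i => tp_self h (f i) (hf i) B (hB i) (hT i (by omega))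
      | succ t ih =>
        intro ht f hf hB hT hb
        have hlt : k - t < k + 1 := by omega
        refine tail_step_h h p hp k f hf B hB ⟨k - t, hlt⟩
          (univ.filter (fun i => (⟨k - t, hlt⟩ : Fin (k + 1)) < i)) (Or.inl ⟨rfl, hinc⟩)
          (fun i hi hiI => hT i ?_) L (fun fb h1 h2 h3 => ?_)
        · have h5 : ¬ (⟨k - t, hlt⟩ : Fin (k + 1)) < i := fun h6 =>
            hiI (Finset.mem_filter.2 ⟨Finset.mem_univ _, h6⟩)
          have h6 : i < (⟨k - t, hlt⟩ : Fin (k + 1)) := lt_of_le_of_ne (not_lt.1 h5) hi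
          have h7 : (i : ℕ) < k - t := h6
          omega
        · refine ih (by omega) _ (hupm _ f fb hf h1) (hupB _ f fb hB h2) (fun i hi => ?_)
            (hupT _ f fb hf hB h1 h2 h3 hb)
          by_cases hij : i = ⟨k - t, hlt⟩
          · rw [hij, Function.update_self]
            exact h3.1
          · rw [Function.update_of_ne hij]
            refine hT i ?_
            have h7 : (i : ℕ) ≠ k - t := fun h8 => hij (Fin.ext h8)
            omega
    exact key (k + 1) le_rfl f hf hB (fun i hi => absurd hi (by omega)) hb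
  · have key : ∀ t : ℕ, t ≤ k + 1 → ∀ f : Fin (k + 1) → Y → ℂ, (∀ i, Measurable (f i)) →
        (∀ i y, ‖f i y‖ ≤ B) → (∀ i : Fin (k + 1), t ≤ (i : ℕ) → TailF A ν S (f i)) →
        (∀ fb : Fin (k + 1) → Y → ℂ, (∀ i, Measurable (fb i)) → (∀ i y, ‖fb i y‖ ≤ B) →
          (∀ i, TP A ν S (f i) (fb i)) →
          ∀ᵐ y ∂ν, Tendsto (fun N : ℕ => (∑ n ∈ range N,
            ∏ i, fb i (pw S (p.eval ((n : ℤ) + (i : ℕ))) y)) / (N : ℂ)) atTop (𝓝 (L y))) →
        ∀ᵐ y ∂ν, Tendsto (fun N : ℕ => (∑ n ∈ range N,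
          ∏ i, f i (pw S (p.eval ((n : ℤ) + (i : ℕ))) y)) / (N : ℂ))
          atTop (𝓝 (L y)) := by
      intro t
      induction t with
      | zero =>
        intro _ f hf hB hT hb
        exact hb f hf hB fun i => tp_self h (f i) (hf i) B (hB i) (hT i (Nat.zero_le _))
      | succ t ih =>
        intro ht f hf hB hT hb
        have hlt : t < k + 1 := by omega
        refine tail_step_h h p hp k f hf B hB ⟨t, hlt⟩
          (univ.filter (fun i => i < (⟨t, hlt⟩ : Fin (k + 1)))) (Or.inr ⟨rfl, hdec⟩)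
          (fun i hi hiI => hT i ?_) L (fun fb h1 h2 h3 => ?_)
        · have h5 : ¬ i < (⟨t, hlt⟩ : Fin (k + 1)) := fun h6 =>
            hiI (Finset.mem_filter.2 ⟨Finset.mem_univ _, h6⟩)
          have h6 : (⟨t, hlt⟩ : Fin (k + 1)) < i := lt_of_le_of_ne (not_lt.1 h5) (Ne.symm hi)
          have h7 : t < (i : ℕ) := h6
          omega
        · refine ih (by omega) _ (hupm _ f fb hf h1) (hupB _ f fb hB h2) (fun i hi => ?_)
            (hupT _ f fb hf hB h1 h2 h3 hb)
          by_cases hij : i = ⟨t, hlt⟩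
          · rw [hij, Function.update_self]
            exact h3.1
          · rw [Function.update_of_ne hij]
            refine hT i ?_
            have h7 : (i : ℕ) ≠ t := fun h8 => hij (Fin.ext h8)
            omega
    exact key (k + 1) le_rfl f hf hB (fun i hi => absurd hi (by omega)) hb
-- END trh

end tailh

section transh

variable {V : Type*} [AddCommGroup V] [TopologicalSpace V] [IsTopologicalAddGroup V] [CompactSpace V]
  [T2Space V] [SecondCountableTopology V] [MeasurableSpace V] [BorelSpace V]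
variable {W : Type*} [MeasurableSpace W]

theorem crh_cong {Y : Type*} [MeasurableSpace Y] {ν : Measure Y} {S : Y ≃ᵐ Y}
    (hS : MeasurePreserving S ν ν) (p : ℤ[X]) (k : ℕ) (u v : Fin (k + 1) → Y → ℂ)
    (huv : ∀ i, u i =ᵐ[ν] v i) (L : Y → ℂ)
    (hu : ∀ᵐ y ∂ν, Tendsto (fun N : ℕ => (∑ n ∈ range N,
        ∏ i, u i (pw S (p.eval ((n : ℤ) + (i : ℕ))) y)) / (N : ℂ)) atTop (𝓝 (L y))) :
    ∀ᵐ y ∂ν, Tendsto (fun N : ℕ => (∑ n ∈ range N,
        ∏ i, v i (pw S (p.eval ((n : ℤ) + (i : ℕ))) y)) / (N : ℂ)) atTop (𝓝 (L y)) := by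
  have hall : ∀ᵐ y ∂ν, ∀ i : Fin (k + 1), ∀ n : ℤ, u i (pw S n y) = v i (pw S n y) :=
    ae_all_iff.2 (fun i => ae_all_iff.2 (fun n =>
      (pw_mp ν S hS n).quasiMeasurePreserving.ae (huv i)))
  filter_upwards [hu, hall] with y h1 h2
  refine h1.congr (fun N => ?_)
  congr 1
  exact Finset.sum_congr rfl (fun n _ => Finset.prod_congr rfl (fun i _ => by rw [h2]))


-- BEGIN bch
/-- ROW bch. TRANSPORT to Z and Y; copy of `base_conv_k` (Kt.lean) with `conv_kh`. The averages `A_N z` on `Z` converge for a.e. `z` (the set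
of convergence is measurable, `measurableSet_exists_tendsto`, carried by `π`), `measurable_limit_of_tendsto_metrizable_ae` gives a
measurable limit `L`; `L (π x) = LamH .. x.1` a.e. by uniqueness of limits; then `Y` by `ρ`. -/
theorem base_conv_h {Y Z : Type*} [MeasurableSpace Y] [MeasurableSpace Z]
    (m : Measure V) [m.IsAddHaarMeasure] [IsProbabilityMeasure m] (hsep : CharSep V) (α : V)
    {ω : Measure W} {R : W ≃ᵐ W} {X : ℕ → W → ℝ} (h : GSys ω R X)
    {ν : Measure Y} [IsProbabilityMeasure ν] {S : Y ≃ᵐ Y} (hS : MeasurePreserving S ν ν)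
    {ζ : Measure Z} {Q : Z ≃ᵐ Z} {ρ : Y → Z} (hρ : Fac ν S ζ Q ρ) {π : V × W → Z}
    (hπ : Fac (m.prod ω) ((rotV α).prodCongr R) ζ Q π)
    (p : ℤ[X]) (hp : 2 ≤ p.natDegree) (β : V) (ξ0 : Fin p.natDegree → V) (hξ : Base p α β ξ0)
    (η : Measure (Fin p.natDegree → V)) [IsProbabilityMeasure η] (hη : Gen β ξ0 η) (k : ℕ)
    (f : Fin (k + 1) → Z → ℂ) (hf : ∀ i, Measurable (f i)) (B : ℝ) (hB : ∀ i z, ‖f i z‖ ≤ B) :
    ∃ L : Z → ℂ, Measurable L ∧
      (∀ᵐ x ∂(m.prod ω), L (π x) = LamH η β (fun i v => ∫ w, f i (π (v, w)) ∂ω) x.1) ∧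
      ∀ᵐ y ∂ν, Tendsto (fun N : ℕ => (∑ n ∈ range N,
        ∏ i, f i (ρ (pw S (p.eval ((n : ℤ) + (i : ℕ))) y))) / (N : ℂ)) atTop (𝓝 (L (ρ y))) := by
  have : IsProbabilityMeasure ω := h.gauss.isProbabilityMeasure
  have hπm : Measurable π := hπ.mp.measurable
  have hQm : ∀ n : ℤ, Measurable (pw Q n) := fun n => pw_meas Q n
  have hRm : MeasurePreserving ((rotV α).prodCongr R) (m.prod ω) (m.prod ω) := by
    have h1 : MeasurePreserving (fun v : V => v + α) m m := measurePreserving_add_right m α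
    exact h1.prod h.erg.toMeasurePreserving
  have c1 := conv_kh m hsep α h p hp β ξ0 hξ η hη k (fun i x => f i (π x))
    (fun i => (hf i).comp hπm) B (fun i x => hB i (π x))
  obtain ⟨A, hA⟩ : ∃ A : ℕ → Z → ℂ, A = fun N z => (∑ n ∈ range N,
      ∏ i, f i (pw Q (p.eval ((n : ℤ) + (i : ℕ))) z)) / (N : ℂ) := ⟨_, rfl⟩
  have hAm : ∀ N, Measurable (A N) := by
    intro N
    rw [hA]
    refine Measurable.div_const ?_ _
    refine Finset.measurable_fun_sum _ (fun n _ => ?_)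
    exact Finset.measurable_fun_prod _ (fun i _ => (hf i).comp (hQm _))
  have c2 : ∀ᵐ x ∂(m.prod ω), Tendsto (fun N : ℕ => A N (π x)) atTop
      (𝓝 (LamH η β (fun i v => ∫ w, f i (π (v, w)) ∂ω) x.1)) := by
    have hfac : ∀ᵐ w ∂(m.prod ω), ∀ n : ℤ, π (pw ((rotV α).prodCongr R) n w) = pw Q n (π w) :=
      ae_all_iff.2 (fun n => fac_pw hRm hπ n)
    filter_upwards [c1, hfac] with w h1 h2
    rw [hA]
    refine h1.congr (fun N => ?_)
    refine congrArg (fun x : ℂ => x / (N : ℂ)) ?_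
    exact Finset.sum_congr rfl (fun n _ => Finset.prod_congr rfl (fun i _ => by rw [h2]))
  have hset : MeasurableSet {z : Z | ∃ l : ℂ, Tendsto (fun N : ℕ => A N z) atTop (𝓝 l)} :=
    measurableSet_exists_tendsto hAm
  have c3 : ∀ᵐ z ∂ζ, ∃ l : ℂ, Tendsto (fun N : ℕ => A N z) atTop (𝓝 l) := by
    rw [← hπ.mp.map_eq, ae_map_iff hπm.aemeasurable hset]
    filter_upwards [c2] with x hx
    exact ⟨_, hx⟩
  obtain ⟨L, hLm, hL⟩ := measurable_limit_of_tendsto_metrizable_ae
    (fun N => (hAm N).aemeasurable) c3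
  refine ⟨L, hLm, ?_, ?_⟩
  · have c4 := hπ.mp.quasiMeasurePreserving.ae hL
    filter_upwards [c2, c4] with x h1 h2
    exact tendsto_nhds_unique h2 h1
  · have hfac : ∀ᵐ y ∂ν, ∀ n : ℤ, ρ (pw S n y) = pw Q n (ρ y) :=
      ae_all_iff.2 (fun n => fac_pw hS hρ n)
    have c4 := hρ.mp.quasiMeasurePreserving.ae hL
    filter_upwards [c4, hfac] with y h1 h2
    rw [hA] at h1
    refine h1.congr (fun N => ?_)
    refine congrArg (fun x : ℂ => x / (N : ℂ)) ?_
    exact Finset.sum_congr rfl (fun n _ => Finset.prod_congr rfl (fun i _ => by rw [h2]))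
-- END bch

-- BEGIN crh
/-- ROW crh. ALL CORRELATIONS; copy of `corr_k` (Kt.lean) with `base_conv_h`, `tail_reduce_h`, `crh_cong` (all above, with limit
functions `y ↦ L (ρ y)`); the two limits `L0 (ρ y)`, `L (ρ y)` agree a.e. by uniqueness of limits, and `L` is the one of `g`. -/
theorem corr_h {Y Z : Type*} {A : MeasurableSpace Y} [mY : MeasurableSpace Y] [MeasurableSpace Z]
    (m : Measure V) [m.IsAddHaarMeasure] [IsProbabilityMeasure m] (hsep : CharSep V) (α : V)
    {ω : Measure W} {R : W ≃ᵐ W} {X : ℕ → W → ℝ} (h : GSys ω R X)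
    {ν : Measure Y} [IsProbabilityMeasure ν] {S : Y ≃ᵐ Y} (hA : Exh A ν S)
    {ζ : Measure Z} {Q : Z ≃ᵐ Z} {ρ : Y → Z} (hρ : Fac ν S ζ Q ρ) {π : V × W → Z}
    (hπ : Fac (m.prod ω) ((rotV α).prodCongr R) ζ Q π)
    (ht : ∀ D : Set Y, MeasurableSet D →
      (∀ n : ℤ, ∃ D' : Set Y, MeasurableSet[Al A S n] D' ∧ D =ᵐ[ν] D') →
      ∃ E : Set Z, MeasurableSet E ∧ D =ᵐ[ν] ρ ⁻¹' E)
    (p : ℤ[X]) (hp : 2 ≤ p.natDegree) (β : V) (ξ0 : Fin p.natDegree → V) (hξ : Base p α β ξ0)
    (η : Measure (Fin p.natDegree → V)) [IsProbabilityMeasure η] (hη : Gen β ξ0 η) (k : ℕ)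
    (f : Fin (k + 1) → Y → ℂ) (hf : ∀ i, Measurable (f i))
    (g : Fin (k + 1) → Z → ℂ) (hg : ∀ i, Measurable (g i)) (B : ℝ) (hB : ∀ i y, ‖f i y‖ ≤ B)
    (hgB : ∀ i z, ‖g i z‖ ≤ B) (hce : ∀ i, CE ν ζ ρ (f i) (g i)) :
    ∃ L : Z → ℂ, Measurable L ∧
      (∀ᵐ x ∂(m.prod ω), L (π x) = LamH η β (fun i v => ∫ w, g i (π (v, w)) ∂ω) x.1) ∧
      ∀ᵐ y ∂ν, Tendsto (fun N : ℕ => (∑ n ∈ range N,
        ∏ i, f i (pw S (p.eval ((n : ℤ) + (i : ℕ))) y)) / (N : ℂ)) atTop (𝓝 (L (ρ y))) := by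
  have hρm : Measurable ρ := hρ.mp.measurable
  have hgρ : ∀ i, Measurable (fun y => g i (ρ y)) := fun i => (hg i).comp hρm
  have hgρB : ∀ i y, ‖g i (ρ y)‖ ≤ B := fun i y => hgB i (ρ y)
  choose fb0 hfb0 hfb0B hfb0P using fun i =>
    tp_exists hA (fun y => g i (ρ y)) (hgρ i) B (hgρB i)
  choose gg hgg hggB hggf using fun i => tail_factor hA ρ hρm ht (fb0 i) (hfb0 i) B (hfb0B i)
    (hfb0P i).1
  obtain ⟨L0, -, -, c1⟩ := base_conv_h m hsep α h hA.mp hρ hπ p hp β ξ0 hξ η hη k gg hgg B hggB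
  have c2 := crh_cong hA.mp p k (fun i y => gg i (ρ y)) fb0 (fun i => (hggf i).symm)
    (fun y => L0 (ρ y)) c1
  have c3 := tail_reduce_h hA p hp k B (fun y => L0 (ρ y)) (fun i y => g i (ρ y)) hgρ hgρB
    (fun fb h1 h2 h3 => crh_cong hA.mp p k fb0 fb (fun i =>
      tp_ae hA (fun y => g i (ρ y)) (fb0 i) (fb i) (hgρ i) (hfb0 i) (h1 i) B (hgρB i) (hfb0B i)
        (h2 i) (hfb0P i) (h3 i)) (fun y => L0 (ρ y)) c2)
  obtain ⟨L, hLm, hLx, c4⟩ := base_conv_h m hsep α h hA.mp hρ hπ p hp β ξ0 hξ η hη k g hg B hgB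
  refine ⟨L, hLm, hLx, ?_⟩
  have c5 := tail_reduce_h hA p hp k B (fun y => L0 (ρ y)) f hf hB
    (fun fb h1 h2 h3 => crh_cong hA.mp p k fb0 fb (fun i =>
      (tp_cond hA hρ.mp ht (f i) (g i) (fb i) (fb0 i) (hf i) (hg i) (h1 i) (hfb0 i) B (hB i)
        (hgB i) (h2 i) (hfb0B i) (hce i) (h3 i) (hfb0P i)).symm) (fun y => L0 (ρ y)) c2)
  filter_upwards [c3, c4, c5] with y h3 h4 h5
  have h6 : L0 (ρ y) = L (ρ y) := tendsto_nhds_unique h3 h4
  rw [← h6]
  exact h5
-- END crh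

end transh

end Pool.Agent.GsF
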