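import Mathlib
import Pool.Agent.MP_820cde_gt.PW
import Pool.Agent.GsK.KDefs
import Pool.Agent.GsK.Kb

/-!
The characters of a compact Hausdorff abelian group separate its points (from the Peter-Weyl theorem of the file
MP_820cde_gt.PW: finite dimensional real representations separate points).
-/

set_option autoImplicit false

namespace Pool.Agent.GsF

open MeasureTheory Filter Topology

/-- a commuting family has a common eigenvector in each nonzero invariant subspace -/
theorem com_eig {ι : Type*} {n : ℕ} (f : ι → Module.End ℂ (Fin n → ℂ)) (hc : ∀ i j, Commute (f i) (f j))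
    (P0 : Submodule ℂ (Fin n → ℂ)) (hP0 : P0 ≠ ⊥) (hinv : ∀ i, ∀ x ∈ P0, f i x ∈ P0) :
    ∃ x ∈ P0, x ≠ 0 ∧ ∀ i, ∃ c : ℂ, f i x = c • x := by
  induction h : Module.finrank ℂ P0 using Nat.strong_induction_on generalizing P0 with
  | _ m ih =>
  by_cases hs : ∀ i, ∃ c : ℂ, ∀ x ∈ P0, f i x = c • x
  · obtain ⟨x, hx, hx0⟩ := (Submodule.ne_bot_iff _).1 hP0
    refine ⟨x, hx, hx0, fun i => ?_⟩
    obtain ⟨c, hc'⟩ := hs i
    exact ⟨c, hc' x hx⟩
  · push Not at hs
    obtain ⟨i, hi⟩ := hs
    have : Nontrivial P0 := Submodule.nontrivial_iff_ne_bot.2 hP0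
    obtain ⟨c, hcE⟩ := Module.End.exists_eigenvalue ((f i).restrict (hinv i))
    obtain ⟨y, hy⟩ := hcE.exists_hasEigenvector
    let P1 : Submodule ℂ (Fin n → ℂ) := P0 ⊓ Module.End.eigenspace (f i) c
    have hP1 : P1 ≠ ⊥ := by
      rw [Submodule.ne_bot_iff]
      refine ⟨y.1, ⟨y.2, ?_⟩, ?_⟩
      · show y.1 ∈ Module.End.eigenspace (f i) c
        rw [Module.End.mem_eigenspace_iff]
        exact congrArg Subtype.val hy.apply_eq_smul
      · intro h0
        exact hy.2 (Subtype.ext h0)
    have hlt : P1 < P0 := by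
      refine lt_of_le_of_ne inf_le_left fun heq => ?_
      obtain ⟨x, hx, hne⟩ := hi c
      apply hne
      have hx1 : x ∈ P1 := by
        rw [heq]
        exact hx
      exact Module.End.mem_eigenspace_iff.1 hx1.2
    obtain ⟨x, hx, hx0, hxe⟩ := ih (Module.finrank ℂ P1)
      (by rw [← h]; exact Submodule.finrank_lt_finrank_of_lt hlt) P1 hP1 (by
      intro j x hx
      refine ⟨hinv j x hx.1, ?_⟩
      show f j x ∈ Module.End.eigenspace (f i) c
      rw [Module.End.mem_eigenspace_iff]
      have h1 := Module.End.mem_eigenspace_iff.1 hx.2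
      have h2 : f i (f j x) = f j (f i x) :=
        congrArg (fun g : Module.End ℂ (Fin n → ℂ) => g x) (hc i j).eq
      rw [h2, h1, map_smul]) rfl
    exact ⟨x, hx.1, hx0, hxe⟩

/-- bounded powers and no eigenvalue but 1: the identity -/
theorem uni_one {n : ℕ} (A : Module.End ℂ (Fin n → ℂ))
    (hA : ∀ x, ∃ B : ℝ, ∀ k : ℕ, ‖(A ^ k) x‖ ≤ B) (h1 : ∀ c : ℂ, A.HasEigenvalue c → c = 1) : A = 1 := by
  have htop := Module.End.iSup_maxGenEigenspace_eq_top A
  have h2 : A.maxGenEigenspace 1 = ⊤ := by
    rw [eq_top_iff, ← htop]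
    refine iSup_le fun c => ?_
    by_cases hc : c = 1
    · rw [hc]
    · intro x hx
      rw [Module.End.mem_maxGenEigenspace] at hx
      obtain ⟨k, hk⟩ := hx
      by_cases hx0 : x = 0
      · rw [hx0]
        exact Submodule.zero_mem _
      · exfalso
        apply hc
        apply h1
        apply Module.End.hasEigenvalue_of_hasGenEigenvalue (k := k)
        show Module.End.genEigenspace A c k ≠ ⊥
        rw [Submodule.ne_bot_iff]
        refine ⟨x, ?_, hx0⟩
        rw [Module.End.mem_genEigenspace_nat]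
        exact hk
  have key : ∀ x, (A - 1) ((A - 1) x) = 0 → (A - 1) x = 0 := by
    intro x hx
    by_contra hne
    have hAy : A ((A - 1) x) = (A - 1) x := by
      have h3 : A ((A - 1) x) - (A - 1) x = 0 := hx
      exact sub_eq_zero.1 h3
    have hAx : A x = x + (A - 1) x := by
      have h3 : (A - 1) x = A x - x := rfl
      rw [h3]
      abel
    have hk : ∀ k : ℕ, (A ^ k) x = x + k • (A - 1) x := by
      intro k
      induction k with
      | zero => simp
      | succ k ih =>
        rw [pow_succ']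
        show A ((A ^ k) x) = _
        rw [ih, map_add, map_nsmul, hAy, succ_nsmul]
        nth_rewrite 1 [hAx]
        abel
    obtain ⟨B, hB⟩ := hA x
    have hpos : 0 < ‖(A - 1) x‖ := norm_pos_iff.2 hne
    obtain ⟨k, hk'⟩ := exists_nat_gt ((B + ‖x‖) / ‖(A - 1) x‖)
    have h3 := hB k
    rw [hk] at h3
    have h4 : ‖k • (A - 1) x‖ = k * ‖(A - 1) x‖ := by
      rw [← Nat.cast_smul_eq_nsmul ℝ, norm_smul]
      simp
    have h5 : ‖k • (A - 1) x‖ ≤ ‖x + k • (A - 1) x‖ + ‖x‖ := by
      have h6 : k • (A - 1) x = (x + k • (A - 1) x) - x := by abel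
      calc ‖k • (A - 1) x‖ = ‖(x + k • (A - 1) x) - x‖ := by rw [← h6]
        _ ≤ _ := norm_sub_le _ _
    rw [h4] at h5
    rw [div_lt_iff₀ hpos] at hk'
    linarith
  have key2 : ∀ (m : ℕ) (x : Fin n → ℂ), ((A - 1) ^ (m + 1)) x = 0 → (A - 1) x = 0 := by
    intro m
    induction m with
    | zero =>
      intro x hx
      simpa using hx
    | succ m ih =>
      intro x hx
      apply key
      apply ih
      rw [pow_succ] at hx
      exact hx
  refine LinearMap.ext fun x => ?_
  have hx : x ∈ A.maxGenEigenspace 1 := by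
    rw [h2]
    trivial
  rw [Module.End.mem_maxGenEigenspace] at hx
  obtain ⟨k, hk⟩ := hx
  have h3 : ((A - 1) ^ (k + 1)) x = 0 := by
    rw [one_smul] at hk
    rw [pow_succ']
    show (A - 1) (((A - 1) ^ k) x) = 0
    rw [hk, map_zero]
  have h4 : A x - x = 0 := key2 k x h3
  exact sub_eq_zero.1 h4

/-- the character of a common eigenvector -/
theorem chr_of {V : Type*} [AddCommGroup V] [TopologicalSpace V] [CompactSpace V] {n : ℕ}
    (f : V → Module.End ℂ (Fin n → ℂ)) (hadd : ∀ u v, f (u + v) = f u * f v) (h0 : f 0 = 1)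
    (hf : ∀ x, Continuous fun v => f v x) (x : Fin n → ℂ) (hx : x ≠ 0)
    (hex : ∀ v, ∃ c : ℂ, f v x = c • x) : ∃ χ : V →ₜ+ UnitAddCircle, ∀ v, f v x = ec (χ v) • x := by
  choose c hc using hex
  obtain ⟨i, hi⟩ : ∃ i, x i ≠ 0 := by
    by_contra h
    push Not at h
    exact hx (funext h)
  have hci : ∀ v, c v = f v x i / x i := by
    intro v
    rw [hc v, Pi.smul_apply, smul_eq_mul, mul_div_cancel_right₀ _ hi]
  have hcc : Continuous c := by
    have h1 : c = fun v => f v x i / x i := funext hci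
    rw [h1]
    exact ((continuous_apply i).comp (hf x)).div_const _
  have hcadd : ∀ u v, c (u + v) = c u * c v := by
    intro u v
    have h1 : c (u + v) • x = (c u * c v) • x := by
      rw [← hc (u + v), hadd]
      show f u (f v x) = _
      rw [hc v, map_smul, hc u, smul_smul, mul_comm]
    have h2 := congrFun h1 i
    simp only [Pi.smul_apply, smul_eq_mul] at h2
    exact mul_right_cancel₀ hi h2
  have hc0 : c 0 = 1 := by
    rw [hci, h0]
    exact div_self hi
  have hpow : ∀ (k : ℕ) (v : V), c (k • v) = c v ^ k := by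
    intro k v
    induction k with
    | zero => rw [zero_smul, hc0, pow_zero]
    | succ k ih => rw [succ_nsmul, hcadd, ih, pow_succ]
  obtain ⟨B, hB⟩ := (isCompact_range hcc).isBounded.exists_norm_le
  have hB' : ∀ v, ‖c v‖ ≤ B := fun v => hB _ ⟨v, rfl⟩
  have hle : ∀ v, ‖c v‖ ≤ 1 := by
    intro v
    by_contra h
    push Not at h
    obtain ⟨k, hk⟩ := pow_unbounded_of_one_lt B h
    have h2 := hB' (k • v)
    rw [hpow, norm_pow] at h2
    linarith
  have hone : ∀ v, ‖c v‖ = 1 := by
    intro v
    apply le_antisymm (hle v)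
    have h1 : c v * c (-v) = 1 := by rw [← hcadd, add_neg_cancel, hc0]
    have h2 : ‖c v‖ * ‖c (-v)‖ = 1 := by rw [← norm_mul, h1, norm_one]
    nlinarith [hle (-v), norm_nonneg (c v), norm_nonneg (c (-v))]
  have hone' : ∀ v, c v ∈ Submonoid.unitSphere ℂ := fun v => mem_sphere_zero_iff_norm.2 (hone v)
  let g : V → UnitAddCircle := fun v => (AddCircle.homeomorphCircle (T := (1 : ℝ)) one_ne_zero).symm ⟨c v, hone' v⟩
  have hgt : ∀ v, AddCircle.toCircle (g v) = ⟨c v, hone' v⟩ := by
    intro v
    rw [← AddCircle.homeomorphCircle_apply one_ne_zero]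
    exact (AddCircle.homeomorphCircle (T := (1 : ℝ)) one_ne_zero).apply_symm_apply _
  have hg : ∀ v, ec (g v) = c v := by
    intro v
    unfold ec
    rw [hgt]
  have ginj : ∀ a b : UnitAddCircle, ec a = ec b → a = b := by
    intro a b h
    exact AddCircle.injective_toCircle one_ne_zero (Subtype.ext h)
  have hgc : Continuous g :=
    (AddCircle.homeomorphCircle (T := (1 : ℝ)) one_ne_zero).symm.continuous.comp (Continuous.subtype_mk hcc _)
  refine ⟨{ toFun := g, map_zero' := ?_, map_add' := ?_, continuous_toFun := hgc }, fun v => ?_⟩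
  · apply ginj
    rw [hg, hc0, ec_zero]
  · intro u v
    apply ginj
    rw [ec_add, hg, hg, hg, hcadd]
  · show f v x = ec (g v) • x
    rw [hg, hc v]

/-- the characters of a compact Hausdorff abelian group separate its points -/
theorem char_sep (V : Type*) [AddCommGroup V] [TopologicalSpace V] [IsTopologicalAddGroup V]
    [CompactSpace V] [T2Space V] : CharSep V := by
  intro v hv
  have hv' : (Multiplicative.ofAdd v) ≠ 1 := fun h => hv (Multiplicative.ofAdd.injective h)
  have hT2 : T2Space (Multiplicative V) := inferInstanceAs (T2Space V)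
  obtain ⟨n, φ, hφ, hφv⟩ := Pool.Agent.MP820cde.exists_rep hv'
  let M : V → Matrix (Fin n) (Fin n) ℂ := fun u =>
    ((φ (Multiplicative.ofAdd u) : (Matrix (Fin n) (Fin n) ℝ)ˣ).val).map (algebraMap ℝ ℂ)
  let f : V → Module.End ℂ (Fin n → ℂ) := fun u => Matrix.toLin' (M u)
  have hMadd : ∀ u w, M (u + w) = M u * M w := by
    intro u w
    simp only [M, ofAdd_add, map_mul, Units.val_mul, Matrix.map_mul]
  have hM0 : M 0 = 1 := by
    simp only [M, ofAdd_zero, map_one, Units.val_one]
    exact Matrix.map_one _ (map_zero _) (map_one _)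
  have hadd : ∀ u w, f (u + w) = f u * f w := by
    intro u w
    simp only [f, hMadd, Matrix.toLin'_mul]
    rfl
  have h0 : f 0 = 1 := by
    simp only [f, hM0, Matrix.toLin'_one]
    rfl
  have hcM : Continuous M := by
    apply continuous_matrix
    intro i j
    exact Complex.continuous_ofReal.comp
      ((Units.continuous_val.comp (hφ.comp continuous_ofAdd)).matrix_elem i j)
  have hf : ∀ x, Continuous fun u => f u x := by
    intro x
    simp only [f, Matrix.toLin'_apply]
    exact hcM.matrix_mulVec continuous_const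
  have hcomm : ∀ u w, Commute (f u) (f w) := by
    intro u w
    show f u * f w = f w * f u
    rw [← hadd, ← hadd, add_comm]
  have hpow : ∀ (u : V) (k : ℕ), f (k • u) = f u ^ k := by
    intro u k
    induction k with
    | zero => rw [zero_smul, h0, pow_zero]
    | succ k ih => rw [succ_nsmul, hadd, ih, pow_succ]
  have hbd : ∀ x, ∃ B : ℝ, ∀ u, ‖f u x‖ ≤ B := by
    intro x
    obtain ⟨B, hB⟩ := (isCompact_range (hf x)).isBounded.exists_norm_le
    exact ⟨B, fun u => hB _ ⟨u, rfl⟩⟩
  have hA1 : f v ≠ 1 := by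
    intro h
    apply hφv
    apply Units.ext
    have h1 : M v = 1 := by
      have h2 : Matrix.toLin' (M v) = Matrix.toLin' (1 : Matrix (Fin n) (Fin n) ℂ) := by
        rw [Matrix.toLin'_one]
        exact h
      exact Matrix.toLin'.injective h2
    ext i j
    have h2 := congrFun (congrFun h1 i) j
    have h3 : (((φ (Multiplicative.ofAdd v) : (Matrix (Fin n) (Fin n) ℝ)ˣ).val i j : ℝ) : ℂ) =
        ((1 : Matrix (Fin n) (Fin n) ℂ) i j) := h2
    rw [Units.val_one]
    have h4 : ((1 : Matrix (Fin n) (Fin n) ℂ) i j) = (((1 : Matrix (Fin n) (Fin n) ℝ) i j : ℝ) : ℂ) := by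
      rw [Matrix.one_apply, Matrix.one_apply]
      split_ifs <;> simp
    rw [h4] at h3
    exact_mod_cast h3
  obtain ⟨c, hc, hc1⟩ : ∃ c : ℂ, (f v).HasEigenvalue c ∧ c ≠ 1 := by
    by_contra hcon
    push Not at hcon
    exact hA1 (uni_one (f v) (fun x => by
      obtain ⟨B, hB⟩ := hbd x
      exact ⟨B, fun k => by rw [← hpow]; exact hB _⟩) hcon)
  obtain ⟨x, hx, hx0, hxe⟩ := com_eig f hcomm (Module.End.eigenspace (f v) c) hc (by
    intro u x hx
    rw [Module.End.mem_eigenspace_iff] at hx ⊢
    have h2 : f v (f u x) = f u (f v x) :=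
      congrArg (fun g : Module.End ℂ (Fin n → ℂ) => g x) (hcomm v u).eq
    rw [h2, hx, map_smul])
  obtain ⟨χ, hχ⟩ := chr_of f hadd h0 hf x hx0 hxe
  refine ⟨χ, fun h => ?_⟩
  have h1 := hχ v
  rw [h, ec_zero, one_smul] at h1
  rw [Module.End.mem_eigenspace_iff] at hx
  rw [hx] at h1
  apply hc1
  have h2 : (c - 1) • x = 0 := by rw [sub_smul, h1, one_smul, sub_self]
  rcases smul_eq_zero.mp h2 with h | h
  · exact sub_eq_zero.mp h
  · exact absurd h hx0

end Pool.Agent.GsF
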