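import Pool.Agent.GsK.Kf

/-!
The product system itself: the limit law of an injective function is isomorphic to T x Bernoulli.
-/

set_option autoImplicit false

namespace Pool.Agent.GsF

open Finset MeasureTheory Filter Topology ProbabilityTheory Polynomial

/-- xi is determined by x_0(xi), .., x_(d-1)(xi) -/
theorem xo_inj {V : Type*} [AddCommGroup V] {d : ℕ} (β : V) (ξ ξ' : Fin d → V)
    (h : ∀ j : ℤ, xo β ξ j = xo β ξ' j) : ξ = ξ' := by
  classical
  have key : ∀ i : ℕ, ∀ hi : i < d, ξ ⟨i, hi⟩ = ξ' ⟨i, hi⟩ := by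
    intro i
    induction i using Nat.strong_induction_on with
    | _ i ih =>
      intro hi
      have h1 := h (i : ℤ)
      unfold xo at h1
      have h2 := add_right_cancel h1
      rw [← Finset.add_sum_erase _ _ (Finset.mem_univ (⟨i, hi⟩ : Fin d)),
        ← Finset.add_sum_erase _ (fun l : Fin d => Ring.choose (i : ℤ) (l : ℕ) • ξ' l)
          (Finset.mem_univ (⟨i, hi⟩ : Fin d))] at h2
      have h3 : ∑ l ∈ univ.erase (⟨i, hi⟩ : Fin d), Ring.choose (i : ℤ) (l : ℕ) • ξ l =
          ∑ l ∈ univ.erase (⟨i, hi⟩ : Fin d), Ring.choose (i : ℤ) (l : ℕ) • ξ' l := by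
        refine Finset.sum_congr rfl fun l hl => ?_
        have hne : (l : ℕ) ≠ i := fun h4 => Finset.ne_of_mem_erase hl (Fin.ext h4)
        rcases Nat.lt_or_gt_of_ne hne with h4 | h4
        · have h5 : ξ l = ξ' l := ih l h4 l.2
          rw [h5]
        · rw [Ring.choose_natCast, Nat.choose_eq_zero_of_lt h4]
          simp
      rw [h3] at h2
      have h4 := add_right_cancel h2
      have h5 : Ring.choose (i : ℤ) i = 1 := by
        rw [Ring.choose_natCast, Nat.choose_self]
        rfl
      simp only [h5, one_smul] at h4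
      exact h4
  funext i
  exact key i i.2

theorem thU_inj {V U D : Type*} [AddCommGroup V] {d : ℕ} (β : V) (Φ : V → U → D)
    (hΦ : Function.Injective (Function.uncurry Φ)) :
    Function.Injective (thU β Φ : (Fin d → V) × (ℤ → U) → ℤ → D) := by
  rintro ⟨ξ, u⟩ ⟨ξ', u'⟩ h
  have h1 : ∀ j : ℤ, xo β ξ j = xo β ξ' j ∧ u j = u' j := by
    intro j
    have h2 : Function.uncurry Φ (xo β ξ j, u j) = Function.uncurry Φ (xo β ξ' j, u' j) :=
      congrFun h j
    have h3 := hΦ h2
    exact ⟨congrArg Prod.fst h3, congrArg Prod.snd h3⟩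
  exact Prod.ext (xo_inj β ξ ξ' fun j => (h1 j).1) (funext fun j => (h1 j).2)

section meas

variable {V : Type*} [AddCommGroup V] [TopologicalSpace V] [IsTopologicalAddGroup V] [CompactSpace V]
  [T2Space V] [SecondCountableTopology V] [MeasurableSpace V] [BorelSpace V]
variable {W : Type*} [MeasurableSpace W]

theorem thU_emb [StandardBorelSpace W] (C : ℝ) (hC : 0 ≤ C) (d : ℕ) (β : V)
    (Φ : V → W → Metric.closedBall (0 : ℂ) C) (hm : Measurable (Function.uncurry Φ))
    (hΦ : Function.Injective (Function.uncurry Φ)) :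
    MeasurableEmbedding (thU β Φ : (Fin d → V) × (ℤ → W) → ℤ → Metric.closedBall (0 : ℂ) C) := by
  have h1 : TopologicalSpace.MetrizableSpace V :=
    TopologicalSpace.metrizableSpace_of_t3_secondCountable V
  have h2 : PolishSpace V := by
    letI := TopologicalSpace.metrizableSpaceMetric V
    infer_instance
  have h3 : StandardBorelSpace V := inferInstance
  exact (muU_meas (d := d) β Φ hm).measurableEmbedding (thU_inj β Φ hΦ)

theorem muU_prob' (ω : Measure W) [hω : IsProbabilityMeasure ω] {D : Type*} [MeasurableSpace D]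
    (m : Measure V) [IsProbabilityMeasure m] {d : ℕ} (β : V)
    (Φ : V → W → D) (hΦ : Measurable (Function.uncurry Φ)) :
    IsProbabilityMeasure (muU m d β ω Φ) := by
  letI : MeasureSpace W := ⟨ω⟩
  haveI : IsProbabilityMeasure (volume : Measure W) := hω
  exact muU_prob m β Φ hΦ

theorem muU_int' (ω : Measure W) [hω : IsProbabilityMeasure ω] {D : Type*} [TopologicalSpace D]
    [CompactSpace D] [MeasurableSpace D] [BorelSpace D]
    (m : Measure V) [m.IsAddHaarMeasure] [IsProbabilityMeasure m] {d : ℕ} (hd : 0 < d) (β : V)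
    (Φ : V → W → D) (hΦ : Measurable (Function.uncurry Φ)) (K : ℕ)
    (ψ : Fin (2 * K + 1) → C(D, ℂ)) :
    ∫ z, ∏ i, ψ i (z (-(K : ℤ) + ((i : ℕ) : ℤ))) ∂(muU m d β ω Φ) =
      Lam m d β (fun i v => ∫ w, ψ i (Φ v w) ∂ω) := by
  letI : MeasureSpace W := ⟨ω⟩
  haveI : IsProbabilityMeasure (volume : Measure W) := hω
  exact muU_int m hd β Φ hΦ K ψ

theorem muU_erg' (ω : Measure W) [hω : IsProbabilityMeasure ω] (C : ℝ)
    (m : Measure V) [m.IsAddHaarMeasure] [IsProbabilityMeasure m] {d : ℕ}
    (hd : 0 < d) (β : V) (hT : Ergodic (una β : (Fin d → V) → Fin d → V) (Measure.pi fun _ => m))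
    (Φ : V → W → Metric.closedBall (0 : ℂ) C) (hΦ : Measurable (Function.uncurry Φ)) :
    Ergodic (shD : (ℤ → Metric.closedBall (0 : ℂ) C) → ℤ → Metric.closedBall (0 : ℂ) C)
      (muU m d β ω Φ) := by
  letI : MeasureSpace W := ⟨ω⟩
  haveI : IsProbabilityMeasure (volume : Measure W) := hω
  exact muU_erg C m hd β hT Φ hΦ

/-- the product system itself: the limit law is the law of (f (x_j, w_j))_j -/
theorem prod_case (m : Measure V) [m.IsAddHaarMeasure] [IsProbabilityMeasure m] (hV : CharSep V) (α : V)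
    (hα : TotErg m α) (ω : Measure W) (R : W ≃ᵐ W) (X : ℕ → W → ℝ) (hW : GSys ω R X)
    (p : Polynomial ℤ) (hp : 2 ≤ p.natDegree) (β : V)
    (hβ : β = ((p.natDegree.factorial : ℤ) * p.leadingCoeff) • α)
    (C : ℝ) (hC : 0 ≤ C) (f : V × W → ℂ) (hf : Measurable f) (hfC : ∀ x, ‖f x‖ ≤ C) :
    ∀ᵐ x ∂(m.prod ω), UniqueFurstenberg C
      (seqPt C hC (fun n => f (pw ((rotV α).prodCongr R) (p.eval (n : ℤ)) x)) (fun _ => hfC _))
      (muU m p.natDegree β ω (Function.curry (toD C f hfC))) := by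
  have hω : IsProbabilityMeasure ω := hW.gauss.isProbabilityMeasure
  have hCs : CompactSpace (Metric.closedBall (0 : ℂ) C) :=
    isCompact_iff_compactSpace.1 (isCompact_closedBall 0 C)
  have hd : 0 < p.natDegree := by omega
  have hG : Measurable (toD C f hfC) := hf.subtype_mk
  have hGc : Measurable (Function.uncurry (Function.curry (toD C f hfC))) := hG
  have hprob := muU_prob' ω m (d := p.natDegree) β _ hGc
  refine furst_final_k ((rotV α).prodCongr R) p C hC f hf hfC _ fun K ψ => ?_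
  have hB : ∀ i, ‖ψ i‖ ≤ ∑ i, ‖ψ i‖ := fun i =>
    Finset.single_le_sum (f := fun i => ‖ψ i‖) (fun i _ => norm_nonneg _) (Finset.mem_univ i)
  have h1 := conv_kg m hV α hα hW p hp β hβ (2 * K) (fun i x => ψ i (toD C f hfC x))
    (fun i => (ψ i).continuous.measurable.comp hG) (∑ i, ‖ψ i‖)
    (fun i x => ((ψ i).norm_coe_le_norm _).trans (hB i))
  rw [muU_int' ω m hd β _ hGc K ψ]
  exact h1

end meas

end Pool.Agent.GsF
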