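import Pool.Agent.GsK.Kf

/-!
The Furstenberg system at one point, from countably many tests.
-/

set_option autoImplicit false

namespace Pool.Agent.GsF

open Finset MeasureTheory Filter Topology ProbabilityTheory Polynomial

-- BEGIN fct
private theorem fct_Icc (b : ℕ → ℂ) (N : ℕ) :
    ∑ n ∈ Finset.Icc 1 N, b n = ∑ n ∈ range N, b (n + 1) := by
  induction N with
  | zero => rfl
  | succ N ih => rw [Finset.sum_Icc_succ_top (by omega), ih, Finset.sum_range_succ]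

private theorem fct_shift (c : ℕ → ℂ) (L : ℂ) :
    Tendsto (fun N : ℕ => (∑ n ∈ range N, c n) / (N : ℂ)) atTop (𝓝 L) ↔
    Tendsto (fun N : ℕ => (∑ n ∈ range N, c (n + 1)) / (N : ℂ)) atTop (𝓝 L) := by
  have hN0 : ∀ N : ℕ, ((N + 1 : ℕ) : ℂ) ≠ 0 := fun N => by exact_mod_cast N.succ_ne_zero
  have hr : Tendsto (fun N : ℕ => (N : ℂ) / ((N + 1 : ℕ) : ℂ)) atTop (𝓝 1) := by
    have := tendsto_natCast_div_add_atTop (𝕜 := ℂ) (1 : ℂ)
    refine this.congr fun N => ?_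
    push_cast
    rfl
  have hi : Tendsto (fun N : ℕ => (((N + 1 : ℕ) : ℂ))⁻¹) atTop (𝓝 0) := by
    have := tendsto_inv_atTop_nhds_zero_nat (𝕜 := ℂ)
    exact this.comp (tendsto_add_atTop_nat 1)
  constructor
  · intro h
    have h1 := h.comp (tendsto_add_atTop_nat 1)
    have h2 : Tendsto (fun N : ℕ => ((∑ n ∈ range (N + 1), c n) / ((N + 1 : ℕ) : ℂ) -
        c 0 * (((N + 1 : ℕ) : ℂ))⁻¹) / ((N : ℂ) / ((N + 1 : ℕ) : ℂ))) atTop
        (𝓝 ((L - c 0 * 0) / 1)) :=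
      (Tendsto.sub h1 (hi.const_mul (c 0))).div hr one_ne_zero
    rw [mul_zero, sub_zero, div_one] at h2
    refine h2.congr' ?_
    filter_upwards [eventually_gt_atTop 0] with N hN
    have hN1 : (N : ℂ) ≠ 0 := by exact_mod_cast hN.ne'
    rw [Finset.sum_range_succ' c N]
    have := hN0 N
    field_simp
    ring
  · intro h
    have h2 : Tendsto (fun N : ℕ => (∑ n ∈ range N, c (n + 1)) / (N : ℂ) *
        ((N : ℂ) / ((N + 1 : ℕ) : ℂ)) + c 0 * (((N + 1 : ℕ) : ℂ))⁻¹) atTop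
        (𝓝 (L * 1 + c 0 * 0)) := (h.mul hr).add (hi.const_mul (c 0))
    rw [mul_one, mul_zero, add_zero] at h2
    refine (tendsto_add_atTop_iff_nat 1).1 ?_
    refine h2.congr' ?_
    filter_upwards [eventually_gt_atTop 0] with N hN
    have hN1 : (N : ℂ) ≠ 0 := by exact_mod_cast hN.ne'
    rw [Finset.sum_range_succ' c N]
    have := hN0 N
    field_simp

private theorem fct_shiftK (K : ℕ) (c : ℕ → ℂ) (L : ℂ) :
    Tendsto (fun N : ℕ => (∑ n ∈ range N, c (n + K)) / (N : ℂ)) atTop (𝓝 L) ↔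
    Tendsto (fun N : ℕ => (∑ n ∈ range N, c n) / (N : ℂ)) atTop (𝓝 L) := by
  induction K generalizing c with
  | zero => rfl
  | succ K ih =>
    rw [← ih c, fct_shift (fun n => c (n + K))]
    have e : ∀ n, c (n + 1 + K) = c (n + (K + 1)) := fun n => by
      rw [show n + 1 + K = n + (K + 1) by ring]
    simp only [e]

/-- ROW fct. COUNTABLY MANY TESTS SUFFICE, at one point `y`; the second half of the proof of `furst_final_k` (Kf.lean; its private lemmas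
ffk_shift, ffk_shiftK, ffk_Icc copied as fct_..), with an enumeration (`Countable.exists_surjective..`, `exists_surjective_nat`) of the
pairs (K, ψ), ψ in a countable dense set of `C(D, ℂ)`. -/
theorem furst_count (C : ℝ) (hC : 0 ≤ C) :
    ∃ T : ℕ → (Σ K : ℕ, (Fin (2 * K + 1) → C(Metric.closedBall (0 : ℂ) C, ℂ))),
      ∀ (a : ℕ → ℂ) (ha : ∀ n, ‖a n‖ ≤ C) (μ : Measure (ℤ → Metric.closedBall (0 : ℂ) C)),
        IsProbabilityMeasure μ →
        (∀ t : ℕ, Tendsto (fun N : ℕ => (∑ n ∈ range N,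
          ∏ i : Fin (2 * (T t).1 + 1), (T t).2 i (⟨a (n + (i : ℕ)), by simpa using ha _⟩ :
            Metric.closedBall (0 : ℂ) C)) / (N : ℂ)) atTop
          (𝓝 (∫ z, ∏ i : Fin (2 * (T t).1 + 1), (T t).2 i (z (-((T t).1 : ℤ) + ((i : ℕ) : ℤ))) ∂μ))) →
        UniqueFurstenberg C (seqPt C hC a ha) μ := by
  have : CompactSpace (Metric.closedBall (0 : ℂ) C) :=
    isCompact_iff_compactSpace.1 (isCompact_closedBall 0 C)
  obtain ⟨S0, hc, hd⟩ :=
    TopologicalSpace.exists_countable_dense C(Metric.closedBall (0 : ℂ) C, ℂ)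
  have : Countable S0 := hc.to_subtype
  have hne : Nonempty (Σ K : ℕ, (Fin (2 * K + 1) → S0)) := by
    obtain ⟨s, hs⟩ := hd.nonempty
    exact ⟨⟨0, fun _ => ⟨s, hs⟩⟩⟩
  obtain ⟨e, he⟩ := exists_surjective_nat (Σ K : ℕ, (Fin (2 * K + 1) → S0))
  refine ⟨fun t => ⟨(e t).1, fun i => ((e t).2 i).1⟩, fun a ha μ hμ h => ?_⟩
  have key : ∀ q : (Σ K : ℕ, (Fin (2 * K + 1) → S0)),
      Tendsto (fun N : ℕ => (∑ n ∈ range N,
        ∏ i : Fin (2 * q.1 + 1), (q.2 i).1 (⟨a (n + (i : ℕ)), by simpa using ha _⟩ :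
          Metric.closedBall (0 : ℂ) C)) / (N : ℂ)) atTop
        (𝓝 (∫ z, ∏ i : Fin (2 * q.1 + 1), (q.2 i).1 (z (-(q.1 : ℤ) + ((i : ℕ) : ℤ))) ∂μ)) := by
    intro q
    obtain ⟨t, rfl⟩ := he q
    exact h t
  refine furst_of_dense_k C S0 hd _ _ fun K ψ hψ => ?_
  have h1 : Tendsto (fun N : ℕ => (∑ n ∈ range N,
        ∏ i : Fin (2 * K + 1), ψ i (⟨a (n + (i : ℕ)), by simpa using ha _⟩ :
          Metric.closedBall (0 : ℂ) C)) / (N : ℂ)) atTop
        (𝓝 (∫ z, ∏ i : Fin (2 * K + 1), ψ i (z (-(K : ℤ) + ((i : ℕ) : ℤ))) ∂μ)) :=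
    key ⟨K, fun i => ⟨ψ i, hψ i⟩⟩
  set xs := seqPt C hC a ha with hxs
  have h2 : Tendsto (fun N : ℕ => (∑ n ∈ range N,
      ∏ i : Fin (2 * K + 1), ψ i (xs (((n + 1 : ℕ) : ℤ) - K + (i : ℕ)))) / (N : ℂ)) atTop
      (𝓝 (∫ z, ∏ i, ψ i (z (-(K : ℤ) + ((i : ℕ) : ℤ))) ∂μ)) := by
    refine (fct_shiftK K (fun n => ∏ i : Fin (2 * K + 1),
      ψ i (xs (((n + 1 : ℕ) : ℤ) - K + (i : ℕ)))) _).1 ?_
    refine ((fct_shift _ _).1 h1).congr fun N => ?_
    congr 1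
    refine Finset.sum_congr rfl fun n _ => Finset.prod_congr rfl fun i _ => ?_
    have e2 : (((n + K + 1 : ℕ) : ℤ) - K + (i : ℕ)) = ((n + 1 + (i : ℕ) : ℕ) : ℤ) := by
      push_cast
      ring
    have e3 : xs (((n + K + 1 : ℕ) : ℤ) - K + (i : ℕ)) =
        (⟨a (n + 1 + (i : ℕ)), by simpa using ha _⟩ : Metric.closedBall (0 : ℂ) C) := by
      rw [e2, hxs]
      unfold seqPt
      rw [if_pos (by omega)]
      apply Subtype.ext
      show a (((n + 1 + (i : ℕ) : ℕ) : ℤ).toNat) = a _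
      rw [Int.toNat_natCast]
    rw [e3]
  refine h2.congr fun N => ?_
  congr 1
  exact (fct_Icc (fun n => ∏ i : Fin (2 * K + 1), ψ i (xs ((n : ℤ) - K + (i : ℕ)))) N).symm
-- END fct

end Pool.Agent.GsF
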