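import Pool.Agent.GsK.Ki
import Pool.Agent.GsK.Kj
import Pool.Agent.GsK.Kw

/-!
The last steps of the theorem for arbitrary rotations.
-/

set_option autoImplicit false

namespace Pool.Agent.GsF

open Finset MeasureTheory Filter Topology

variable {V : Type*} [AddCommGroup V] [TopologicalSpace V] [IsTopologicalAddGroup V] [CompactSpace V]
  [T2Space V] [SecondCountableTopology V] [MeasurableSpace V] [BorelSpace V]
variable {W : Type*} [MeasurableSpace W]

omit [CompactSpace V] [T2Space V] in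
theorem trV_meas {U D : Type*} [MeasurableSpace U] [MeasurableSpace D] (Φ : V → U → D)
    (hΦ : Measurable (Function.uncurry Φ)) (v : V) : Measurable (Function.uncurry (trV Φ v)) := by
  have h1 : Measurable fun q : V × U => (v + q.1, q.2) :=
    (measurable_fst.const_add v).prodMk measurable_snd
  exact hΦ.comp h1

theorem lawV_prob (ω : Measure W) [hω : IsProbabilityMeasure ω] {D : Type*} [MeasurableSpace D]
    {d : ℕ} (η : Measure (Fin d → V)) [IsProbabilityMeasure η] (β : V)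
    (Φ : V → W → D) (hΦ : Measurable (Function.uncurry Φ)) (v : V) :
    IsProbabilityMeasure (lawV η β ω Φ v) := by
  letI : MeasureSpace W := ⟨ω⟩
  haveI : IsProbabilityMeasure (volume : Measure W) := hω
  exact muH_prob η β _ (trV_meas Φ hΦ v)

theorem lawV_int (ω : Measure W) [hω : IsProbabilityMeasure ω] {D : Type*} [TopologicalSpace D]
    [CompactSpace D] [MeasurableSpace D] [BorelSpace D]
    {d : ℕ} (η : Measure (Fin d → V)) [IsProbabilityMeasure η] (hd : 0 < d) (β : V)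
    (hT0 : MeasurePreserving (una β : (Fin d → V) → Fin d → V) η η)
    (Φ : V → W → D) (hΦ : Measurable (Function.uncurry Φ)) (v : V) (K : ℕ)
    (ψ : Fin (2 * K + 1) → C(D, ℂ)) :
    ∫ z, ∏ i, ψ i (z (-(K : ℤ) + ((i : ℕ) : ℤ))) ∂(lawV η β ω Φ v) =
      LamH η β (fun i x => ∫ w, ψ i (Φ x w) ∂ω) v := by
  letI : MeasureSpace W := ⟨ω⟩
  haveI : IsProbabilityMeasure (volume : Measure W) := hω
  exact muH_int η hd β hT0 _ (trV_meas Φ hΦ v) K ψ

theorem lawV_erg (ω : Measure W) [hω : IsProbabilityMeasure ω] (C : ℝ)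
    {d : ℕ} (η : Measure (Fin d → V)) [IsProbabilityMeasure η]
    (hd : 0 < d) (β : V) (hT : Ergodic (una β : (Fin d → V) → Fin d → V) η)
    (Φ : V → W → Metric.closedBall (0 : ℂ) C) (hΦ : Measurable (Function.uncurry Φ)) (v : V) :
    Ergodic (shD : (ℤ → Metric.closedBall (0 : ℂ) C) → ℤ → Metric.closedBall (0 : ℂ) C)
      (lawV η β ω Φ v) := by
  letI : MeasureSpace W := ⟨ω⟩
  haveI : IsProbabilityMeasure (volume : Measure W) := hω
  exact muH_erg C η hd β hT _ (trV_meas Φ hΦ v)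

/-- part (1): at almost every point of V x W -/
theorem fur_v (m : Measure V) [m.IsAddHaarMeasure] [IsProbabilityMeasure m] (hV : CharSep V) (α : V)
    (ω : Measure W) (R : W ≃ᵐ W) (X : ℕ → W → ℝ) (hW : GSys ω R X)
    (p : Polynomial ℤ) (hp : 2 ≤ p.natDegree) (β : V) (ξ0 : Fin p.natDegree → V) (hξ : Base p α β ξ0)
    (η : Measure (Fin p.natDegree → V)) [IsProbabilityMeasure η] (hη : Gen β ξ0 η)
    (C : ℝ) (hC : 0 ≤ C) (f : V × W → ℂ) (hf : Measurable f) (hfC : ∀ x, ‖f x‖ ≤ C) :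
    FurV m ω α R p C hC f hfC η β := by
  have hω : IsProbabilityMeasure ω := hW.gauss.isProbabilityMeasure
  have hCs : CompactSpace (Metric.closedBall (0 : ℂ) C) :=
    isCompact_iff_compactSpace.1 (isCompact_closedBall 0 C)
  have hd : 0 < p.natDegree := by omega
  have hG : Measurable (toD C f hfC) := hf.subtype_mk
  have hGc : Measurable (Function.uncurry (Function.curry (toD C f hfC))) := hG
  obtain ⟨T, hT⟩ := furst_count C hC
  have h1 : ∀ᵐ x ∂(m.prod ω), ∀ t : ℕ, Tendsto (fun N : ℕ => (∑ n ∈ range N,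
      ∏ i : Fin (2 * (T t).1 + 1), (T t).2 i (toD C f hfC
        (pw ((rotV α).prodCongr R) (p.eval ((n : ℤ) + (i : ℕ))) x))) / (N : ℂ)) atTop
      (𝓝 (LamH η β (fun i v => ∫ w, (T t).2 i (toD C f hfC (v, w)) ∂ω) x.1)) := by
    rw [ae_all_iff]
    intro t
    have hB : ∀ i, ‖(T t).2 i‖ ≤ ∑ i, ‖(T t).2 i‖ := fun i =>
      Finset.single_le_sum (f := fun i => ‖(T t).2 i‖) (fun i _ => norm_nonneg _) (Finset.mem_univ i)
    exact conv_kh m hV α hW p hp β ξ0 hξ η hη (2 * (T t).1) (fun i x => (T t).2 i (toD C f hfC x))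
      (fun i => ((T t).2 i).continuous.measurable.comp hG) (∑ i, ‖(T t).2 i‖)
      (fun i x => (((T t).2 i).norm_coe_le_norm _).trans (hB i))
  filter_upwards [h1] with x hx
  refine hT _ _ _ (lawV_prob ω η β _ hGc x.1) fun t => ?_
  rw [lawV_int ω η hd β (eta_inv β ξ0 η hη) _ hGc x.1 (T t).1 (T t).2]
  refine (hx t).congr fun N => ?_
  congr 1

/-- part (2): at almost every point of Y -/
theorem fur_y {Y Z : Type*} {A : MeasurableSpace Y} [mY : MeasurableSpace Y] [MeasurableSpace Z]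
    (m : Measure V) [m.IsAddHaarMeasure] [IsProbabilityMeasure m] (hV : CharSep V) (α : V)
    {ν : Measure Y} [IsProbabilityMeasure ν] {S : Y ≃ᵐ Y} (hA : Exh A ν S)
    {ζ : Measure Z} {Q : Z ≃ᵐ Z} {ρ : Y → Z} (hρ : Fac ν S ζ Q ρ)
    (ht : ∀ D : Set Y, MeasurableSet D →
      (∀ n : ℤ, ∃ D' : Set Y, MeasurableSet[Al A S n] D' ∧ D =ᵐ[ν] D') →
      ∃ E : Set Z, MeasurableSet E ∧ D =ᵐ[ν] ρ ⁻¹' E)
    {ω : Measure W} {R : W ≃ᵐ W} {X : ℕ → W → ℝ} (hW : GSys ω R X)
    {π : V × W → Z} (hπ : Fac (m.prod ω) ((rotV α).prodCongr R) ζ Q π)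
    (p : Polynomial ℤ) (hp : 2 ≤ p.natDegree) (β : V) (ξ0 : Fin p.natDegree → V) (hξ : Base p α β ξ0)
    (η : Measure (Fin p.natDegree → V)) [IsProbabilityMeasure η] (hη : Gen β ξ0 η)
    (C : ℝ) (hC : 0 ≤ C) (g : Y → ℂ) (hg : Measurable g) (hgC : ∀ y, ‖g y‖ ≤ C)
    (Φ : V → unitInterval → Metric.closedBall (0 : ℂ) C) (hΦ : Measurable (Function.uncurry Φ))
    (hΦψ : ∀ ψ : C(Metric.closedBall (0 : ℂ) C, ℂ), ∃ h : Z → ℂ, Measurable h ∧ (∀ z, ‖h z‖ ≤ ‖ψ‖) ∧
      CE ν ζ ρ (fun y => ψ (toD C g hgC y)) h ∧ ∀ v, ∫ u, ψ (Φ v u) = ∫ w, h (π (v, w)) ∂ω) :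
    FurY ν S p C hC g hgC η β Φ := by
  have hω : IsProbabilityMeasure ω := hW.gauss.isProbabilityMeasure
  have hCs : CompactSpace (Metric.closedBall (0 : ℂ) C) :=
    isCompact_iff_compactSpace.1 (isCompact_closedBall 0 C)
  have hd : 0 < p.natDegree := by omega
  have hG : Measurable (toD C g hgC) := hg.subtype_mk
  obtain ⟨T, hT⟩ := furst_count C hC
  have hcor : ∀ t : ℕ, ∃ L : Z → ℂ, Measurable L ∧
      (∀ᵐ x ∂(m.prod ω), L (π x) = LamH η β (fun i v => ∫ u, (T t).2 i (Φ v u)) x.1) ∧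
      ∀ᵐ y ∂ν, Tendsto (fun N : ℕ => (∑ n ∈ range N,
        ∏ i : Fin (2 * (T t).1 + 1), (T t).2 i (toD C g hgC (pw S (p.eval ((n : ℤ) + (i : ℕ))) y))) / (N : ℂ))
        atTop (𝓝 (L (ρ y))) := by
    intro t
    choose h hh hb hce hv using fun i => hΦψ ((T t).2 i)
    have hB : ∀ i, ‖(T t).2 i‖ ≤ ∑ i, ‖(T t).2 i‖ := fun i =>
      Finset.single_le_sum (f := fun i => ‖(T t).2 i‖) (fun i _ => norm_nonneg _) (Finset.mem_univ i)
    obtain ⟨L, hL1, hL2, hL3⟩ := corr_h m hV α hW hA hρ hπ ht p hp β ξ0 hξ η hη (2 * (T t).1)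
      (fun i y => (T t).2 i (toD C g hgC y))
      (fun i => ((T t).2 i).continuous.measurable.comp hG) h hh (∑ i, ‖(T t).2 i‖)
      (fun i y => (((T t).2 i).norm_coe_le_norm _).trans (hB i)) (fun i z => (hb i z).trans (hB i)) hce
    refine ⟨L, hL1, ?_, hL3⟩
    have h2 : (fun (i : Fin (2 * (T t).1 + 1)) (v : V) => ∫ u, (T t).2 i (Φ v u)) =
        fun i v => ∫ w, h i (π (v, w)) ∂ω := by
      funext i v
      exact hv i v
    rw [h2]
    exact hL2
  choose L hL1 hL2 hL3 using hcor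
  have hΛ : Measurable (fun (v : V) (t : ℕ) => LamH η β (fun i x => ∫ u, (T t).2 i (Φ x u)) v) := by
    refine measurable_pi_lambda _ fun t => LamH_meas η β _ fun i => ?_
    have h1 : StronglyMeasurable (Function.uncurry fun (v : V) (x : unitInterval) =>
        (T t).2 i (Φ v x)) := (((T t).2 i).continuous.measurable.comp hΦ).stronglyMeasurable
    exact (h1.integral_prod_right (ν := (volume : Measure unitInterval))).measurable
  have hsel := sel_v m ω hπ.mp _ hΛ (fun z t => L t z) (measurable_pi_lambda _ fun t => hL1 t) (by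
    have h3 : ∀ᵐ x ∂(m.prod ω), ∀ t : ℕ, L t (π x) =
        LamH η β (fun i v => ∫ u, (T t).2 i (Φ v u)) x.1 := ae_all_iff.2 fun t => hL2 t
    filter_upwards [h3] with x hx
    funext t
    exact hx t)
  have hsel' := hρ.mp.quasiMeasurePreserving.ae hsel
  have hall := ae_all_iff.2 fun t => hL3 t
  filter_upwards [hsel', hall] with y hy1 hy2
  obtain ⟨v, hv⟩ := hy1
  refine ⟨v, hT _ _ _ (lawV_prob volume η β Φ hΦ v) fun t => ?_⟩
  rw [lawV_int volume η hd β (eta_inv β ξ0 η hη) Φ hΦ v (T t).1 (T t).2]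
  have h4 : L t (ρ y) = LamH η β (fun i x => ∫ u, (T t).2 i (Φ x u)) v := congrFun hv t
  rw [← h4]
  refine (hy2 t).congr fun N => ?_
  congr 1

omit [TopologicalSpace V] [IsTopologicalAddGroup V] [CompactSpace V] [T2Space V] [SecondCountableTopology V]
  [MeasurableSpace V] [BorelSpace V] in
theorem xo_add {d : ℕ} (hd : 0 < d) (β v : V) (ξ : Fin d → V) (j : ℤ) :
    xo β (Pi.single ⟨0, hd⟩ v + ξ) j = v + xo β ξ j := by
  classical
  unfold xo
  have h1 : ∀ i : Fin d, Ring.choose j (i : ℕ) • ((Pi.single ⟨0, hd⟩ v + ξ : Fin d → V) i) =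
      Ring.choose j (i : ℕ) • (Pi.single (M := fun _ : Fin d => V) ⟨0, hd⟩ v i) +
        Ring.choose j (i : ℕ) • ξ i := fun i => smul_add _ _ _
  simp only [h1]
  rw [Finset.sum_add_distrib]
  have h2 : ∑ i : Fin d, Ring.choose j (i : ℕ) • (Pi.single (M := fun _ : Fin d => V) ⟨0, hd⟩ v i) = v := by
    rw [Finset.sum_eq_single (⟨0, hd⟩ : Fin d)]
    · rw [Pi.single_eq_same]
      show Ring.choose j 0 • v = v
      rw [Ring.choose_zero_right, one_smul]
    · intro i _ hi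
      rw [Pi.single_eq_of_ne hi, smul_zero]
    · intro h
      exact absurd (Finset.mem_univ _) h
  rw [h2, add_assoc]

/-- Haar measure: the law does not depend on v -/
theorem lawV_const (m : Measure V) [m.IsAddHaarMeasure] [IsProbabilityMeasure m] {d : ℕ} (hd : 0 < d)
    (β : V) {U D : Type*} [MeasurableSpace U] [MeasurableSpace D] (P : Measure U) [IsProbabilityMeasure P]
    (Φ : V → U → D) (hΦ : Measurable (Function.uncurry Φ)) :
    ConV (Measure.pi fun _ : Fin d => m) β P Φ := by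
  classical
  have key : ∀ v : V, lawV (Measure.pi fun _ : Fin d => m) β P Φ v =
      muH (Measure.pi fun _ : Fin d => m) β P Φ := by
    intro v
    have hmp : MeasurePreserving (fun ξ : Fin d → V => Pi.single ⟨0, hd⟩ v + ξ)
        (Measure.pi fun _ : Fin d => m) (Measure.pi fun _ : Fin d => m) := by
      have h := measurePreserving_add_left (Measure.pi fun _ : Fin d => m)
        (Pi.single (M := fun _ : Fin d => V) ⟨0, hd⟩ v)
      exact h
    have hmp2 := hmp.prod (MeasurePreserving.id (Measure.infinitePi (fun _ : ℤ => P)))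
    have h1 : thU β (trV Φ v) = thU β Φ ∘ (Prod.map (fun ξ : Fin d → V => Pi.single ⟨0, hd⟩ v + ξ)
        (id : (ℤ → U) → ℤ → U)) := by
      funext q j
      show Φ (v + xo β q.1 j) (q.2 j) = Φ (xo β (Pi.single ⟨0, hd⟩ v + q.1) j) (q.2 j)
      rw [xo_add hd]
    have hm : Measurable (thU β Φ : (Fin d → V) × (ℤ → U) → ℤ → D) := muU_meas (d := d) β Φ hΦ
    show ((Measure.pi fun _ : Fin d => m).prod (Measure.infinitePi (fun _ : ℤ => P))).map
      (thU β (trV Φ v)) = _
    unfold muH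
    rw [h1, ← Measure.map_map hm hmp2.measurable, hmp2.map_eq]
  intro v
  rw [key v, key 0]

end Pool.Agent.GsF
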