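import Pool.Agent.GsK.Ke

/-!
Weyl sums in all cases: the means of ec (sum of binom(n, i) c_i), c_i in the circle.
-/

set_option autoImplicit false

namespace Pool.Agent.GsF

open Finset MeasureTheory Filter Topology

/-- the phase u(n) = ec (sum over i ≤ D of binom(n, i) c_i) -/
noncomputable def uph (D : ℕ) (c : ℕ → UnitAddCircle) (n : ℕ) : ℂ :=
  ec (∑ i ∈ range (D + 1), n.choose i • c i)

/-- not a torsion element -/
def NT (x : UnitAddCircle) : Prop := ∀ q : ℕ, 1 ≤ q → q • x ≠ 0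

-- BEGIN cpr
private theorem cpr_dvd (q D b : ℕ) (hq : 1 ≤ q) (hb : 1 ≤ b) (hbD : b ≤ D) :
    q ∣ (q * D.factorial).choose b := by
  obtain ⟨m, hm⟩ := Nat.dvd_factorial hb hbD
  have hQ : 1 ≤ q * D.factorial := Nat.mul_pos hq (Nat.factorial_pos D)
  have h := Nat.add_one_mul_choose_eq (q * D.factorial - 1) (b - 1)
  rw [Nat.sub_add_cancel hQ, Nat.sub_add_cancel hb] at h
  generalize (q * D.factorial - 1).choose (b - 1) = X at h
  generalize hY : (q * D.factorial).choose b = Y at h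
  rw [hm] at h
  have h2 : Y * b = (q * (m * X)) * b := by
    rw [← h]
    ring
  exact ⟨_, Nat.eq_of_mul_eq_mul_right hb h2⟩

/-- ROW cpr. `Q = q * D!`: Vandermonde (`Nat.add_choose_eq`), and `q ∣ binom(q D!, i)` for `1 ≤ i ≤ D` (`Nat.succ_mul_choose_eq`:
`i binom(Q, i) = Q binom(Q - 1, i - 1)`, `Q = i * (q * (D! / i))`). -/
theorem choose_per (q D : ℕ) (hq : 1 ≤ q) : ∃ Q : ℕ, 1 ≤ Q ∧ ∀ i ≤ D, ∀ n : ℕ,
    (n + Q).choose i ≡ n.choose i [MOD q] := by
  refine ⟨q * D.factorial, Nat.mul_pos hq (Nat.factorial_pos D), fun i hi n => ?_⟩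
  rw [Nat.add_choose_eq, ← Finset.add_sum_erase _ _ (show (i, 0) ∈ Finset.HasAntidiagonal.antidiagonal i by simp)]
  have hd : q ∣ ∑ x ∈ (Finset.HasAntidiagonal.antidiagonal i).erase (i, 0),
      n.choose x.1 * (q * D.factorial).choose x.2 := by
    refine Finset.dvd_sum fun x hx => ?_
    rw [Finset.mem_erase, Finset.HasAntidiagonal.mem_antidiagonal] at hx
    have hx2 : 1 ≤ x.2 := by
      rcases Nat.eq_zero_or_pos x.2 with h | h
      · refine absurd (Prod.ext ?_ h) hx.1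
        have := hx.2
        show x.1 = i
        omega
      · exact h
    exact Dvd.dvd.mul_left (cpr_dvd q D x.2 hq hx2 (by have := hx.2; omega)) _
  have h := (Nat.modEq_zero_iff_dvd.2 hd).add_left (n.choose i)
  simpa only [Nat.choose_zero_right, mul_one, add_zero] using h
-- END cpr

-- BEGIN fou
/-- ROW fou. Finite Fourier series of a periodic function: `τ t = (t / Q : ℝ)` in the circle,
`a t = (1/Q) ∑ over s < Q of P s * ec (-(s • τ t))`; `∑ t, ec ((n - s) • τ t)` is `Q` if `Q ∣ n - s`, otherwise 0 (geometric sum of a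
root of unity `≠ 1`). -/
theorem fourier_per (Q : ℕ) (hQ : 1 ≤ Q) (P : ℕ → ℂ) (hP : ∀ n, P (n + Q) = P n) :
    ∃ (a : Fin Q → ℂ) (τ : Fin Q → UnitAddCircle), (∀ t, Q • τ t = 0) ∧
      ∀ n : ℕ, P n = ∑ t, a t * ec (n • τ t) := by
  have : NeZero Q := ⟨by omega⟩
  refine ⟨fun t => (Q : ℂ)⁻¹ * ZMod.dft (fun x : ZMod Q => P x.val) (ZMod.finEquiv Q t),
    fun t => ZMod.toAddCircle (ZMod.finEquiv Q t), fun t => ?_, fun n => ?_⟩
  · rw [← map_nsmul, nsmul_eq_mul, ZMod.natCast_self, zero_mul, map_zero]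
  · have h1 : P n = (fun x : ZMod Q => P x.val) ((n : ℕ) : ZMod Q) := by
      simp only [ZMod.val_natCast]
      have hp : Function.Periodic P Q := hP
      exact (hp.map_mod_nat n).symm
    have h2 : (fun x : ZMod Q => P x.val) ((n : ℕ) : ZMod Q) =
        ZMod.dft.symm (ZMod.dft (fun x : ZMod Q => P x.val)) ((n : ℕ) : ZMod Q) := by
      rw [LinearEquiv.symm_apply_apply]
    rw [h1, h2, ZMod.invDFT_apply, smul_eq_mul, mul_sum]
    refine (Fintype.sum_equiv (ZMod.finEquiv Q).toEquiv _ _ fun t => ?_).symm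
    have h3 : ec (n • ZMod.toAddCircle (ZMod.finEquiv Q t)) =
        ZMod.stdAddChar ((ZMod.finEquiv Q t) * ((n : ℕ) : ZMod Q)) := by
      rw [← map_nsmul, nsmul_eq_mul, mul_comm]
      rfl
    show _ * ec (n • ZMod.toAddCircle (ZMod.finEquiv Q t)) = _
    rw [h3]
    simp only [smul_eq_mul, RingEquiv.toEquiv_eq_coe, EquivLike.coe_coe]
    ring
-- END fou

-- BEGIN pmn
private theorem pmn_sum (Q : ℕ) (P : ℕ → ℂ) (hP : ∀ n, P (n + Q) = P n) (q r : ℕ) :
    ∑ n ∈ range (Q * q + r), P n = (q : ℂ) * (∑ n ∈ range Q, P n) + ∑ n ∈ range r, P n := by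
  induction q with
  | zero => simp
  | succ q ih =>
    have e : Q * (q + 1) + r = Q + (Q * q + r) := by ring
    have e2 : ∑ x ∈ range (Q * q + r), P (Q + x) = ∑ x ∈ range (Q * q + r), P x :=
      Finset.sum_congr rfl fun x _ => by rw [add_comm Q x, hP]
    rw [e, Finset.sum_range_add, e2, ih]
    push_cast
    ring

/-- ROW pmn. The mean of a periodic function (`N = Q (N / Q) + N % Q`). -/
theorem per_mean (Q : ℕ) (hQ : 1 ≤ Q) (P : ℕ → ℂ) (hP : ∀ n, P (n + Q) = P n) :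
    Tendsto (fun N : ℕ => (∑ n ∈ range N, P n) / (N : ℂ)) atTop (𝓝 ((∑ n ∈ range Q, P n) / (Q : ℂ))) := by
  set M : ℂ := ∑ n ∈ range Q, P n with hM
  set K : ℝ := (∑ n ∈ range Q, ‖P n‖) + ‖M‖ with hK
  have hQ0 : (Q : ℂ) ≠ 0 := by
    have : Q ≠ 0 := by omega
    exact_mod_cast this
  have hlim : Tendsto (fun N : ℕ => K / (N : ℝ)) atTop (𝓝 0) :=
    tendsto_const_div_atTop_nhds_zero_nat K
  refine tendsto_iff_norm_sub_tendsto_zero.2 ?_
  refine squeeze_zero' (Eventually.of_forall fun N => norm_nonneg _) ?_ hlim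
  filter_upwards [eventually_ge_atTop 1] with N hN
  have hN0 : (N : ℂ) ≠ 0 := by
    have : N ≠ 0 := by omega
    exact_mod_cast this
  have hr : N % Q < Q := Nat.mod_lt _ (by omega)
  have hsum : ∑ n ∈ range N, P n = ((N / Q : ℕ) : ℂ) * M + ∑ n ∈ range (N % Q), P n := by
    have h := pmn_sum Q P hP (N / Q) (N % Q)
    rw [Nat.div_add_mod] at h
    exact h
  have hNQ : (N : ℂ) = (Q : ℂ) * ((N / Q : ℕ) : ℂ) + ((N % Q : ℕ) : ℂ) := by
    have h := (Nat.div_add_mod N Q).symm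
    exact_mod_cast h
  have e : (∑ n ∈ range N, P n) / (N : ℂ) - M / (Q : ℂ) =
      ((∑ n ∈ range (N % Q), P n) - ((N % Q : ℕ) : ℂ) * (M / (Q : ℂ))) / (N : ℂ) := by
    rw [hsum, div_sub' hN0]
    congr 1
    have e3 : (N : ℂ) * (M / (Q : ℂ)) =
        ((N / Q : ℕ) : ℂ) * M + ((N % Q : ℕ) : ℂ) * (M / (Q : ℂ)) := by
      conv_lhs => rw [hNQ]
      field_simp
    rw [e3]
    ring
  rw [e, norm_div, Complex.norm_natCast]
  refine div_le_div_of_nonneg_right ?_ (by positivity)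
  have h1 : ‖∑ n ∈ range (N % Q), P n‖ ≤ ∑ n ∈ range Q, ‖P n‖ := by
    refine (norm_sum_le _ _).trans ?_
    refine Finset.sum_le_sum_of_subset_of_nonneg ?_ fun _ _ _ => norm_nonneg _
    exact Finset.range_subset_range.2 hr.le
  have h2 : ‖((N % Q : ℕ) : ℂ) * (M / (Q : ℂ))‖ ≤ ‖M‖ := by
    rw [norm_mul, norm_div, Complex.norm_natCast, Complex.norm_natCast]
    have hq : (0 : ℝ) < (Q : ℝ) := by
      have : 0 < Q := by omega
      exact_mod_cast this
    have hle : ((N % Q : ℕ) : ℝ) ≤ (Q : ℝ) := by exact_mod_cast hr.le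
    have e4 : ((N % Q : ℕ) : ℝ) * (‖M‖ / (Q : ℝ)) = ((N % Q : ℕ) : ℝ) * ‖M‖ / (Q : ℝ) := by ring
    rw [e4, div_le_iff₀ hq]
    have := mul_le_mul_of_nonneg_right hle (norm_nonneg M)
    linarith
  calc ‖(∑ n ∈ range (N % Q), P n) - ((N % Q : ℕ) : ℂ) * (M / (Q : ℂ))‖
      ≤ ‖∑ n ∈ range (N % Q), P n‖ + ‖((N % Q : ℕ) : ℂ) * (M / (Q : ℂ))‖ := norm_sub_le _ _
    _ ≤ K := by rw [hK]; exact add_le_add h1 h2
-- END pmn

-- BEGIN upp
private theorem upp_mod (q a : ℕ) (x : UnitAddCircle) (hx : q • x = 0) : a • x = (a % q) • x := by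
  conv_lhs => rw [← Nat.div_add_mod a q, add_nsmul, mul_nsmul, hx, nsmul_zero, zero_add]

/-- ROW upp. All coefficients torsion: periodic. Take a common `q` (product of the orders) and `choose_per q D`; `a • x = b • x` for
`a ≡ b [MOD q]`, `q • x = 0`. -/
theorem uph_per (D : ℕ) (c : ℕ → UnitAddCircle) (h : ∀ i, 1 ≤ i → i ≤ D → ∃ q : ℕ, 1 ≤ q ∧ q • c i = 0) :
    ∃ Q : ℕ, 1 ≤ Q ∧ ∀ n, uph D c (n + Q) = uph D c n := by
  have h1 : ∀ i : ℕ, ∃ q : ℕ, 1 ≤ q ∧ (1 ≤ i → i ≤ D → q • c i = 0) := by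
    intro i
    by_cases hi : 1 ≤ i ∧ i ≤ D
    · obtain ⟨q, hq, h0⟩ := h i hi.1 hi.2
      exact ⟨q, hq, fun _ _ => h0⟩
    · exact ⟨1, le_refl 1, fun a b => absurd ⟨a, b⟩ hi⟩
  choose q hq1 hq2 using h1
  obtain ⟨p, hp⟩ : ∃ p : ℕ, p = ∏ i ∈ range (D + 1), q i := ⟨_, rfl⟩
  have hp1 : 1 ≤ p := by
    rw [hp]
    refine Nat.pos_of_ne_zero (Finset.prod_ne_zero_iff.2 fun i _ => ?_)
    have := hq1 i
    omega
  obtain ⟨Q, hQ1, hQ2⟩ := choose_per p D hp1
  refine ⟨Q, hQ1, fun n => ?_⟩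
  unfold uph
  congr 1
  refine Finset.sum_congr rfl fun i hi => ?_
  have hi' : i < D + 1 := Finset.mem_range.1 hi
  rcases Nat.eq_zero_or_pos i with h0 | h0
  · rw [h0, Nat.choose_zero_right, Nat.choose_zero_right]
  · have h2 : p • c i = 0 := by
      obtain ⟨m, hm⟩ := Finset.dvd_prod_of_mem q hi
      rw [hp, hm, mul_nsmul, hq2 i h0 (by omega), nsmul_zero]
    have h3 : (n + Q).choose i % p = n.choose i % p := hQ2 i (by omega) n
    rw [upp_mod p ((n + Q).choose i) (c i) h2, upp_mod p (n.choose i) (c i) h2, h3]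
-- END upp

-- BEGIN upt
private theorem upt_lift (c : ℕ → ℝ) (m : ℕ → ℕ) (s : Finset ℕ) :
    ((∑ l ∈ s, c l * (m l : ℝ) : ℝ) : UnitAddCircle) = ∑ l ∈ s, m l • (c l : UnitAddCircle) := by
  classical
  induction s using Finset.induction with
  | empty =>
    rw [Finset.sum_empty, Finset.sum_empty]
    rfl
  | insert a s ha ih =>
    rw [Finset.sum_insert ha, Finset.sum_insert ha, AddCircle.coe_add, ih]
    congr 1
    rw [← AddCircle.coe_nsmul, nsmul_eq_mul, mul_comm]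

/-- ROW upt. Top coefficient not torsion: real lifts of the `c i` (`AddCircle.coe_surjective` or `QuotientAddGroup.mk_surjective`),
`irr_of`, `weyl_bin`, `ec_coe`; compare the end of `una_weyl` (Ke.lean). -/
theorem uph_top (D : ℕ) (hD : 1 ≤ D) (c : ℕ → UnitAddCircle) (h : NT (c D)) :
    Tendsto (fun N : ℕ => (∑ n ∈ range N, uph D c n) / (N : ℂ)) atTop (𝓝 0) := by
  have h4 : ∀ l : ℕ, ∃ r : ℝ, (r : UnitAddCircle) = c l :=
    fun l => QuotientAddGroup.mk_surjective (c l)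
  choose r hr using h4
  have h5 : Irrational (r D) := by
    refine irr_of (r D) fun n hn => ?_
    rw [hr]
    exact h n hn
  have h6 := weyl_bin D hD r h5
  refine h6.congr fun N => ?_
  congr 1
  refine Finset.sum_congr rfl fun n _ => ?_
  unfold uph
  rw [← ec_coe, upt_lift]
  congr 1
  refine Finset.sum_congr rfl fun l _ => ?_
  rw [hr]
-- END upt

-- BEGIN upz
private theorem upz_smul {q a b : ℕ} (h : a ≡ b [MOD q]) {x : UnitAddCircle} (hx : q • x = 0) :
    a • x = b • x := by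
  have key : ∀ m : ℕ, m • x = (m % q) • x := by
    intro m
    conv_lhs => rw [← Nat.div_add_mod m q, add_smul, mul_comm, mul_smul, hx, smul_zero, zero_add]
  rw [key a, key b, h]

private theorem upz_split (D : ℕ) (c : ℕ → UnitAddCircle) (n : ℕ) :
    uph (D + 1) c n = uph D c n * ec (n.choose (D + 1) • c (D + 1)) := by
  unfold uph
  rw [sum_range_succ, ec_add]

private theorem upz_twist {D : ℕ} (hD : 1 ≤ D) (c : ℕ → UnitAddCircle) (τ : UnitAddCircle) (n : ℕ) :
    ec (n • τ) * uph D c n = uph D (fun i => if i = 1 then c 1 + τ else c i) n := by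
  unfold uph
  rw [← ec_add]
  congr 1
  have h1 : (1 : ℕ) ∈ range (D + 1) := mem_range.2 (by omega)
  rw [← add_sum_erase _ _ h1, ← add_sum_erase _ _ h1]
  simp only [↓reduceIte, Nat.choose_one_right, smul_add]
  rw [← add_assoc, add_comm (n • τ)]
  congr 1
  refine sum_congr rfl fun i hi => ?_
  rw [if_neg (ne_of_mem_erase hi)]

private theorem upz_nt {Q : ℕ} (hQ : 1 ≤ Q) {x τ : UnitAddCircle} (hx : NT x) (hτ : Q • τ = 0) :
    NT (x + τ) := by
  intro q hq h
  refine hx (Q * q) (Nat.mul_pos hQ hq) ?_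
  have h1 : (Q * q) • (x + τ) = 0 := by rw [mul_smul, h, smul_zero]
  have h2 : (Q * q) • τ = 0 := by rw [mul_comm, mul_smul, hτ, smul_zero]
  rw [smul_add, h2, add_zero] at h1
  exact h1

/-- ROW upz. Some coefficient not torsion: induction on `D`. If `NT (c D)`: `uph_top`. Otherwise `q • c D = 0`, `i < D`;
`P n = ec (n.choose D • c D)` is periodic (`choose_per`), `fourier_per`: `uph D c n = ∑ t, a t * uph (D - 1) (c + τ t at 1) n`, and
`c 1 + τ t` is not torsion if `c 1` is not. -/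
theorem uph_zero (D : ℕ) (c : ℕ → UnitAddCircle) (h : ∃ i, 1 ≤ i ∧ i ≤ D ∧ NT (c i)) :
    Tendsto (fun N : ℕ => (∑ n ∈ range N, uph D c n) / (N : ℂ)) atTop (𝓝 0) := by
  induction D generalizing c with
  | zero =>
    obtain ⟨i, h1, h2, -⟩ := h
    omega
  | succ D ih =>
    by_cases hN : NT (c (D + 1))
    · exact uph_top (D + 1) (by omega) c hN
    obtain ⟨i, hi1, hi2, hi⟩ := h
    have hiD : i ≤ D := by
      rcases Nat.lt_or_ge i (D + 1) with h | h
      · omega
      · obtain rfl : i = D + 1 := by omega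
        exact absurd hi hN
    have hD : 1 ≤ D := by omega
    unfold NT at hN
    push Not at hN
    obtain ⟨q, hq1, hq⟩ := hN
    obtain ⟨Q, hQ1, hQ⟩ := choose_per q (D + 1) hq1
    obtain ⟨a, τ, hτ, hP⟩ := fourier_per Q hQ1 (fun n => ec (n.choose (D + 1) • c (D + 1)))
      (fun n => by
        show ec ((n + Q).choose (D + 1) • c (D + 1)) = ec (n.choose (D + 1) • c (D + 1))
        rw [upz_smul (hQ (D + 1) le_rfl n) hq])
    have key : ∀ n, uph (D + 1) c n =
        ∑ t, a t * uph D (fun i => if i = 1 then c 1 + τ t else c i) n := by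
      intro n
      rw [upz_split]
      have h1 : ec (n.choose (D + 1) • c (D + 1)) = ∑ t, a t * ec (n • τ t) := hP n
      rw [h1, mul_sum]
      refine sum_congr rfl fun t _ => ?_
      rw [← upz_twist hD]
      ring
    have h0 : ∀ t, Tendsto (fun N : ℕ =>
        (∑ n ∈ range N, uph D (fun i => if i = 1 then c 1 + τ t else c i) n) / (N : ℂ)) atTop (𝓝 0) := by
      intro t
      refine ih _ ⟨i, hi1, hiD, ?_⟩
      show NT (if i = 1 then c 1 + τ t else c i)
      split_ifs with h1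
      · subst h1
        exact upz_nt hQ1 hi (hτ t)
      · exact hi
    have h2 := tendsto_finsetSum (univ : Finset (Fin Q)) fun t _ => (h0 t).const_mul (a t)
    simp only [mul_zero, sum_const_zero] at h2
    refine h2.congr fun N => ?_
    simp only [key]
    rw [sum_comm, sum_div]
    refine sum_congr rfl fun t _ => ?_
    rw [← mul_sum, mul_div_assoc]
-- END upz

end Pool.Agent.GsF
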